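import Pool.Agent.Lib_MP_7c0803_tor.Coord

/-!
# Connected multigraphs without short cycles and with `(s t)³ = 1` are honeycomb tori
-/

set_option autoImplicit false

open Finset Function

namespace Pool.Agent.PP

universe u

variable {E : Type u}

private lemma CoordT_tri {s : Equiv.Perm E} (s3 : ∀ e, s (s (s e)) = e) {e f : E}
    (h : SO s e f) : ∃ g, Tri s g e f := by
  rcases h with rfl | rfl
  · exact ⟨s (s e), Or.inl ⟨s3 e, rfl, rfl⟩⟩
  · exact ⟨s e, Or.inr ⟨rfl, s3 e, rfl⟩⟩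

private lemma CoordT_par (G : CB E) {e f g h : E} (hg : Tri G.s g e f) (hh : Tri G.t h e f) :
    Nonempty (Th G) ∨ Nonempty (Dg G) := by
  by_cases hgh : g = h
  · subst hgh
    exact Or.inl ⟨⟨e, f, g, hg, hh⟩⟩
  · exact Or.inr ⟨⟨e, f, g, h, hg, hh, hgh⟩⟩

private lemma CoordT_par' (G : CB E) {e f : E} (hg : SO G.s e f) (hh : SO G.t e f) :
    Nonempty (Th G) ∨ Nonempty (Dg G) := by
  obtain ⟨g, hg⟩ := CoordT_tri G.s3 hg
  obtain ⟨h, hh⟩ := CoordT_tri G.t3 hh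
  exact CoordT_par G hg hh

private def CoordT_v (s : Equiv.Perm E) (e : E) : Set E := {f | f = e ∨ f = s e ∨ f = s (s e)}

private lemma CoordT_v_s {s : Equiv.Perm E} (s3 : ∀ e, s (s (s e)) = e) (e : E) :
    CoordT_v s (s e) = CoordT_v s e := by
  ext f
  simp only [CoordT_v, Set.mem_ofPred_eq, s3]
  tauto

private lemma CoordT_v_tri {s : Equiv.Perm E} (s3 : ∀ e, s (s (s e)) = e) {x y z : E}
    (h : Tri s x y z) : CoordT_v s x = CoordT_v s y ∧ CoordT_v s y = CoordT_v s z := by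
  rcases h with ⟨h1, h2, h3⟩ | ⟨h1, h2, h3⟩
  · constructor
    · rw [← h1, CoordT_v_s s3]
    · rw [← h2, CoordT_v_s s3]
  · constructor
    · rw [← h3, CoordT_v_s s3]
    · rw [← h2, CoordT_v_s s3]

private lemma CoordT_eq (G : CB E) (hP : ¬ (Nonempty (Th G) ∨ Nonempty (Dg G))) {e f : E}
    (h1 : CoordT_v G.s e = CoordT_v G.s f) (h2 : CoordT_v G.t e = CoordT_v G.t f) : e = f := by
  by_contra hne
  have m1 : f ∈ CoordT_v G.s e := by
    rw [h1]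
    exact Or.inl rfl
  have m2 : f ∈ CoordT_v G.t e := by
    rw [h2]
    exact Or.inl rfl
  rcases m1 with m1 | m1
  · exact hne m1.symm
  rcases m2 with m2 | m2
  · exact hne m2.symm
  exact hP (CoordT_par' G m1 m2)

private lemma CoordT_sq (G : CB E) (hP : ¬ (Nonempty (Th G) ∨ Nonempty (Dg G)))
    {e1 e2 e3 e4 x y z w : E} (ta : Tri G.s x e1 e4) (tb : Tri G.t y e1 e2)
    (tc : Tri G.s z e3 e2) (td : Tri G.t w e3 e4) : Nonempty (Sq G) := by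
  obtain ⟨A1, A2⟩ := CoordT_v_tri G.s3 ta
  obtain ⟨B1, B2⟩ := CoordT_v_tri G.t3 tb
  obtain ⟨C1, C2⟩ := CoordT_v_tri G.s3 tc
  obtain ⟨D1, D2⟩ := CoordT_v_tri G.t3 td
  obtain ⟨a1, a2, a3⟩ := ta.ne G.s1
  obtain ⟨b1, b2, b3⟩ := tb.ne G.t1
  obtain ⟨c1, c2, c3⟩ := tc.ne G.s1
  obtain ⟨d1, d2, d3⟩ := td.ne G.t1
  have hAC : CoordT_v G.s e1 ≠ CoordT_v G.s e3 := fun h =>
    b3 (CoordT_eq G hP (h.trans C2) B2)
  have hBD : CoordT_v G.t e1 ≠ CoordT_v G.t e3 := fun h =>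
    a3 (CoordT_eq G hP A2 (h.trans D2))
  refine ⟨⟨e1, e2, e3, e4, x, y, z, w, ta, tb, tc, td, ?_⟩⟩
  have n13 : e1 ≠ e3 := by rintro rfl; exact hAC rfl
  have n24 : e2 ≠ e4 := by rintro rfl; exact hAC (A2.trans C2.symm)
  have n1z : e1 ≠ z := by rintro rfl; exact hAC C1
  have n1w : e1 ≠ w := by rintro rfl; exact hBD D1
  have n2x : e2 ≠ x := by rintro rfl; exact hAC (A1.symm.trans C2.symm)
  have n2w : e2 ≠ w := by rintro rfl; exact hBD (B2.trans D1)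
  have n3x : e3 ≠ x := by rintro rfl; exact hAC A1.symm
  have n3y : e3 ≠ y := by rintro rfl; exact hBD B1.symm
  have n4y : e4 ≠ y := by rintro rfl; exact hBD (B1.symm.trans D2.symm)
  have n4z : e4 ≠ z := by rintro rfl; exact hAC (A2.trans C1)
  have nxz : x ≠ z := by rintro rfl; exact hAC (A1.symm.trans C1)
  have nyw : y ≠ w := by rintro rfl; exact hBD (B1.symm.trans D1)
  have nxy : x ≠ y := by rintro rfl; exact a1 (CoordT_eq G hP A1 B1)
  have nxw : x ≠ w := by rintro rfl; exact a2 (CoordT_eq G hP (A1.trans A2) (D1.trans D2))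
  have nyz : y ≠ z := by rintro rfl; exact b2 (CoordT_eq G hP (C1.trans C2) (B1.trans B2))
  have nzw : z ≠ w := by rintro rfl; exact c1 (CoordT_eq G hP C1 D1)
  simp only [List.nodup_cons, List.mem_cons, not_or, List.not_mem_nil, not_false_eq_true,
    List.nodup_nil, and_true]
  exact ⟨⟨b3, n13, a3, a1.symm, b1.symm, n1z, n1w⟩, ⟨c3.symm, n24, n2x, b2.symm, c2.symm, n2w⟩,
    ⟨d3, n3x, n3y, c1.symm, d1.symm⟩, ⟨a2.symm, n4y, n4z, d2.symm⟩, ⟨nxy, nxz, nxw⟩, ⟨nyz, nyw⟩,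
    nzw⟩

/-- the vectors of norm at most two -/
private lemma CoordT_vec (x : ℤ × ℤ) (hx : x ≠ 0) (h : nrm x < 3) :
    (∃ i j : Fin 3, j ≠ i ∧ dl ((1, 0) : ℤ × ℤ) (0, 1) i - dl (1, 0) (0, 1) j = x) ∨
    (∃ i j k l : Fin 3, j ≠ i ∧ k ≠ j ∧ l ≠ k ∧ i ≠ l ∧
      dl ((1, 0) : ℤ × ℤ) (0, 1) i - dl (1, 0) (0, 1) j + dl (1, 0) (0, 1) k - dl (1, 0) (0, 1) l = x) := by
  obtain ⟨p, q⟩ := x
  unfold nrm at h
  simp only [max_lt_iff, abs_lt] at h
  obtain ⟨⟨⟨h1, h2⟩, h3, h4⟩, h5, h6⟩ := h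
  interval_cases p <;> interval_cases q <;>
    first
    | exact absurd rfl hx
    | omega
    | (left; decide)
    | (right; decide)

/-- a connected multigraph without short cycles and with `(s t)³ = 1` is a honeycomb torus.

Proof plan: `(s t) e = e` would give parallel edges: `t e = s⁻¹ e` (see `Short_par` in `Short.lean`).  The range of `φ` (as a function of
the pair) is closed under `s`, `t`, so it is everything by `Cn`; so `E ≃ ((ℤ × ℤ) ⧸ L) × Fin 3`, and `SO` corresponds (`SO_HG_s`, `SO_HG_t`).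
No vectors of norm 1 or 2 in `L`: if `δ i - δ j ∈ L` (`i ≠ j`) then `φ x i`, `φ x j` have the same `X`-end and the same `Y`-end: `Th` or
`Dg`.  If `δ i - δ j + δ k - δ l ∈ L` with `i ≠ j ≠ k ≠ l ≠ i` (the vectors of norm 2 are `±` such vectors: `2a: 1010`, `a+b: 1020`,
`2b: 2020`, `2b-a: 2021`, `2b-2a: 2121`, `2a-b: 1012`) then `φ 0 i`, `φ (δ i - δ j) j`, `φ (δ i - δ j) k`, `φ 0 l` is a 4-cycle: `Sq`
(`Short_sq` in `Short.lean`, private, copy it). -/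
theorem coord_torus [Finite E] [Nonempty E] (B : CB E) (hC : B.Cn) (h3 : ∀ e, B.s (B.t (B.s (B.t (B.s (B.t e))))) = e)
    (hT : IsEmpty (Th B)) (hD : IsEmpty (Dg B)) (hS : IsEmpty (Sq B)) :
    ∃ (L : AddSubgroup (ℤ × ℤ)) (n : ℤ), 0 < n ∧ (n, 0) ∈ L ∧ (0, n) ∈ L ∧ (∀ x ∈ L, x ≠ 0 → 3 ≤ nrm x) ∧
      Nonempty (UIso B (HT L)) := by
  obtain ⟨e0⟩ := ‹Nonempty E›
  have hP : ¬ (Nonempty (Th B) ∨ Nonempty (Dg B)) := by
    rintro (h | h)
    · exact not_isEmpty_iff.2 h hT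
    · exact not_isEmpty_iff.2 h hD
  have h1 : ∀ e, B.s (B.t e) ≠ e := by
    intro e he
    refine hP (CoordT_par' B (e := e) (f := B.t e) (Or.inr ?_) (Or.inl rfl))
    have h4 := B.s3 (B.t e)
    rw [he] at h4
    exact h4.symm
  obtain ⟨φ, L, n, hn, hn1, hn2, -, hs, ht, hφ⟩ := exists_coord B h3 h1 e0
  have hsurj : ∀ e, ∃ x i, φ x i = e := by
    have hA := hC (Set.range fun p : (ℤ × ℤ) × Fin 3 => φ p.1 p.2) ⟨_, ⟨(0, 0), rfl⟩⟩ (by
      rintro e ⟨⟨x, i⟩, rfl⟩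
      exact ⟨⟨(x, i + 1), (hs x i).symm⟩, ⟨(_, i + 1), (ht x i).symm⟩⟩)
    intro e
    have he : e ∈ Set.range fun p : (ℤ × ℤ) × Fin 3 => φ p.1 p.2 := by
      rw [hA]
      trivial
    obtain ⟨⟨x, i⟩, hx⟩ := he
    exact ⟨x, i, hx⟩
  -- the map from the honeycomb torus
  let J : ((ℤ × ℤ) ⧸ L) × Fin 3 → E := fun p =>
    Quotient.liftOn' p.1 (fun x => φ x p.2) (by
      intro x y hxy
      rw [QuotientAddGroup.leftRel_apply] at hxy
      refine (hφ x y p.2 p.2).2 ⟨rfl, ?_⟩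
      have h5 : x - y = -(-x + y) := by abel
      rw [h5]
      exact L.neg_mem hxy)
  have hJ : ∀ (x : ℤ × ℤ) (i : Fin 3), J ((x : (ℤ × ℤ) ⧸ L), i) = φ x i := fun x i => rfl
  have hJb : Function.Bijective J := by
    constructor
    · rintro ⟨q, i⟩ ⟨r, k⟩ h
      obtain ⟨x, rfl⟩ := QuotientAddGroup.mk_surjective q
      obtain ⟨y, rfl⟩ := QuotientAddGroup.mk_surjective r
      rw [hJ, hJ, hφ] at h
      obtain ⟨rfl, h⟩ := h
      refine Prod.ext ?_ rfl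
      refine QuotientAddGroup.eq.2 ?_
      have h5 : -x + y = -(x - y) := by abel
      rw [h5]
      exact L.neg_mem h
    · intro e
      obtain ⟨x, i, rfl⟩ := hsurj e
      exact ⟨((x : (ℤ × ℤ) ⧸ L), i), hJ x i⟩
  have hdl : ∀ i : Fin 3, ((dl ((1, 0) : ℤ × ℤ) (0, 1) i : ℤ × ℤ) : (ℤ × ℤ) ⧸ L) =
      dl (((1, 0) : ℤ × ℤ) : (ℤ × ℤ) ⧸ L) (((0, 1) : ℤ × ℤ) : (ℤ × ℤ) ⧸ L) i := fun i =>
    dl_map (QuotientAddGroup.mk' L) _ _ i
  have hJs : ∀ p, J ((HT L).s p) = B.s (J p) := by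
    rintro ⟨q, i⟩
    obtain ⟨x, rfl⟩ := QuotientAddGroup.mk_surjective q
    rw [hJ, hs]
    rfl
  have hJt : ∀ p, J ((HT L).t p) = B.t (J p) := by
    rintro ⟨q, i⟩
    obtain ⟨x, rfl⟩ := QuotientAddGroup.mk_surjective q
    rw [hJ, ht, ← hJ]
    congr 1
    refine Prod.ext ?_ rfl
    show (x : (ℤ × ℤ) ⧸ L) + dl _ _ i - dl _ _ (i + 1) = _
    rw [← hdl, ← hdl]
    rfl
  have hU : Nonempty (UIso B (HT L)) := by
    refine ⟨UIso.symm ⟨Equiv.ofBijective J hJb, ?_, ?_⟩⟩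
    · intro e f
      unfold SO
      simp only [Equiv.ofBijective_apply]
      rw [← hJs, ← hJs, hJb.1.eq_iff, hJb.1.eq_iff]
    · intro e f
      unfold SO
      simp only [Equiv.ofBijective_apply]
      rw [← hJt, ← hJt, hJb.1.eq_iff, hJb.1.eq_iff]
  -- edges with a common end
  have so_s : ∀ (x : ℤ × ℤ) (i k : Fin 3), k ≠ i → SO B.s (φ x i) (φ x k) := by
    intro x i k hk
    rw [← fin3_ne_iff] at hk
    rcases hk with rfl | rfl
    · exact Or.inl (hs x i).symm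
    · refine Or.inr ?_
      rw [hs, hs]
  have so_t : ∀ (x : ℤ × ℤ) (i k : Fin 3), k ≠ i →
      SO B.t (φ x i) (φ (x + dl (1, 0) (0, 1) i - dl (1, 0) (0, 1) k) k) := by
    intro x i k hk
    rw [← fin3_ne_iff] at hk
    rcases hk with rfl | rfl
    · exact Or.inl (ht x i).symm
    · refine Or.inr ?_
      rw [ht, ht]
      congr 1
      abel
  have heq : ∀ (x y : ℤ × ℤ) (i : Fin 3), x - y ∈ L → φ x i = φ y i := fun x y i h =>
    (hφ x y i i).2 ⟨rfl, h⟩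
  refine ⟨L, n, hn, hn1, hn2, ?_, hU⟩
  intro x hx hx0
  by_contra hlt
  rw [not_le] at hlt
  rcases CoordT_vec x hx0 hlt with ⟨i, j, hij, hv⟩ | ⟨i, j, k, l, hij, hjk, hkl, hli, hv⟩
  · have t1 := so_t 0 i j hij
    have e1 : φ (0 + dl (1, 0) (0, 1) i - dl (1, 0) (0, 1) j) j = φ 0 j := by
      apply heq
      rw [zero_add, sub_zero, hv]
      exact hx
    rw [e1] at t1
    exact hP (CoordT_par' B (so_s 0 i j hij) t1)
  · set y : ℤ × ℤ := 0 + dl (1, 0) (0, 1) i - dl (1, 0) (0, 1) j with hy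
    have t1 : SO B.t (φ 0 i) (φ y j) := so_t 0 i j hij
    have s1 : SO B.s (φ y k) (φ y j) := so_s y k j hjk.symm
    have t2 : SO B.t (φ y k) (φ 0 l) := by
      have t3 := so_t y k l hkl
      have e1 : φ (y + dl (1, 0) (0, 1) k - dl (1, 0) (0, 1) l) l = φ 0 l := by
        apply heq
        rw [sub_zero, hy, zero_add, hv]
        exact hx
      rwa [e1] at t3
    have s2 : SO B.s (φ 0 i) (φ 0 l) := so_s 0 i l hli.symm
    obtain ⟨a, ha⟩ := CoordT_tri B.s3 s2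
    obtain ⟨b, hb⟩ := CoordT_tri B.t3 t1
    obtain ⟨c, hc⟩ := CoordT_tri B.s3 s1
    obtain ⟨d, hd⟩ := CoordT_tri B.t3 t2
    exact not_isEmpty_iff.2 (CoordT_sq B hP ha hb hc hd) hS

end Pool.Agent.PP
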