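import Pool.Agent.Lib_MP_7c0803_tor.Iso

/-!
# The Heawood graph
-/

set_option autoImplicit false

open Finset Function

namespace Pool.Agent.PP

universe u w

/-- the Heawood graph: the points `(i, false)` and the lines `(j, true)` of the Fano plane, `i, j ∈ Fin 7`, adjacent iff
`j - i ∈ {0, 1, 3}` -/
def heawoodGraph : SimpleGraph (Fin 7 × Bool) where
  Adj x y := (x.2 = false ∧ y.2 = true ∧ (y.1 - x.1 = 0 ∨ y.1 - x.1 = 1 ∨ y.1 - x.1 = 3)) ∨
    (y.2 = false ∧ x.2 = true ∧ (x.1 - y.1 = 0 ∨ x.1 - y.1 = 1 ∨ x.1 - y.1 = 3))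
  symm := ⟨fun _ _ h => h.symm⟩
  loopless := ⟨by
    rintro ⟨i, b⟩ h
    rcases h with ⟨h1, h2, _⟩ | ⟨h1, h2, _⟩
    · rw [h1] at h2
      exact Bool.noConfusion h2
    · rw [h1] at h2
      exact Bool.noConfusion h2⟩

private lemma Hea_uiso : Nonempty (UIso (HT (Lt (2, 1) (-7, 0))) (HG (A := ZMod 7) 1 3)) := by
  let φ : ℤ × ℤ →+ ZMod 7 := AddMonoidHom.mk' (fun x => ((x.1 - 2 * x.2 : ℤ) : ZMod 7)) (by
    intro x y
    push_cast [Prod.fst_add, Prod.snd_add]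
    ring)
  have hφ : ∀ x : ℤ × ℤ, φ x = ((x.1 - 2 * x.2 : ℤ) : ZMod 7) := fun _ => rfl
  obtain ⟨i⟩ := uiso_hom φ (by
    intro z
    refine ⟨((z.val : ℤ), 0), ?_⟩
    rw [hφ]
    simp) (Lt (2, 1) (-7, 0)) (by
    intro x
    rw [hφ, ZMod.intCast_zmod_eq_zero_iff_dvd, mem_Lt']
    constructor
    · rintro ⟨i, j, h1, h2⟩
      exact ⟨-j, by simp only at h1 h2; push_cast; linarith⟩
    · rintro ⟨k, hk⟩
      push_cast at hk
      exact ⟨x.2, -k, by simp only; linarith, by simp only; linarith⟩)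
  have e1 : φ (1, 0) = 1 := by
    rw [hφ]
    simp
  have e2 : φ (0, 1) = 5 := by
    rw [hφ]
    decide
  rw [e1, e2] at i
  obtain ⟨i1⟩ := uiso_rot (1 : ZMod 7) 5
  obtain ⟨i2⟩ := uiso_mir ((5 : ZMod 7) - 1) (-1)
  obtain ⟨i3⟩ := uiso_equiv (AddEquiv.neg (ZMod 7)) (-1) ((5 : ZMod 7) - 1)
  have e3 : (AddEquiv.neg (ZMod 7)) (-1) = 1 := by decide
  have e4 : (AddEquiv.neg (ZMod 7)) ((5 : ZMod 7) - 1) = 3 := by decide
  rw [e3, e4] at i3
  exact ⟨((i.trans i1).trans i2).trans i3⟩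

section model
variable {V : Type w} {X : SimpleGraph V} (m : Mdl (HG (A := ZMod 7) 1 3) X)

/-- the branch vertices -/
private def Hea_f (w : Fin 7 × Bool) : V := if w.2 = true then m.vy (w.1, 0) else m.vx (w.1, 0)

private lemma Hea_vx (x y : ZMod 7) (i j : Fin 3) : m.vx (x, i) = m.vx (y, j) ↔ y = x := by
  rw [m.hx, SO_HG_s, Prod.mk.injEq]
  tauto

private lemma Hea_vy (x y : ZMod 7) (i j : Fin 3) :
    m.vy (x, i) = m.vy (y, j) ↔ y + dl 1 3 j = x + dl 1 3 i := by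
  rw [m.hy, SO_HG_t, Prod.mk.injEq]
  constructor
  · rintro (⟨rfl, rfl⟩ | h)
    · rfl
    · exact h.1
  · intro h
    by_cases hij : j = i
    · subst hij
      exact Or.inl ⟨add_right_cancel h, rfl⟩
    · exact Or.inr ⟨h, hij⟩

/-- the `X`-end of an edge -/
private def Hea_X (e : ZMod 7 × Fin 3) : Fin 7 × Bool := (e.1, false)

/-- the `Y`-end of an edge -/
private def Hea_Y (e : ZMod 7 × Fin 3) : Fin 7 × Bool :=
  ((e.1 + dl (1 : ZMod 7) 3 e.2 : ZMod 7), true)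

private lemma Hea_fX (e : ZMod 7 × Fin 3) : Hea_f m (Hea_X e) = m.vx e :=
  (Hea_vx m e.1 e.1 0 e.2).2 rfl

private lemma Hea_fY (e : ZMod 7 × Fin 3) : Hea_f m (Hea_Y e) = m.vy e :=
  (Hea_vy m (e.1 + dl 1 3 e.2) e.1 0 e.2).2 (add_zero _).symm

private lemma Hea_inj : Function.Injective (Hea_f m) := by
  rintro ⟨x, b⟩ ⟨y, c⟩ h
  cases b <;> cases c
  · have h1 : m.vx (x, 0) = m.vx (y, 0) := h
    rw [Hea_vx] at h1
    rw [h1]
  · exact absurd h (m.hxy _ _)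
  · exact absurd h.symm (m.hxy _ _)
  · have h1 : m.vy (x, 0) = m.vy (y, 0) := h
    rw [Hea_vy] at h1
    rw [add_right_cancel h1]

/-- `e` joins `u` and `v` -/
private def Hea_R (u v : Fin 7 × Bool) (e : ZMod 7 × Fin 3) : Prop :=
  (u = Hea_X e ∧ v = Hea_Y e) ∨ (u = Hea_Y e ∧ v = Hea_X e)

private lemma Hea_dec : ∀ x y : Fin 7, (y - x = 0 ∨ y - x = 1 ∨ y - x = 3) →
    ∃ i : Fin 3, (y, true) = Hea_Y (x, i) := by decide

private lemma Hea_R_of_adj {u v : Fin 7 × Bool} (h : heawoodGraph.Adj u v) : ∃ e, Hea_R u v e := by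
  obtain ⟨x, b⟩ := u
  obtain ⟨y, c⟩ := v
  rcases h with ⟨h1, h2, h3⟩ | ⟨h1, h2, h3⟩
  · simp only at h1 h2 h3
    subst h1 h2
    obtain ⟨i, hi⟩ := Hea_dec x y h3
    exact ⟨(x, i), Or.inl ⟨rfl, hi⟩⟩
  · simp only at h1 h2 h3
    subst h1 h2
    obtain ⟨i, hi⟩ := Hea_dec y x h3
    exact ⟨(y, i), Or.inr ⟨hi, rfl⟩⟩

private lemma Hea_dl : ∀ i j : Fin 3, dl (1 : ZMod 7) 3 i = dl 1 3 j → i = j := by decide

private lemma Hea_XY {e e' : ZMod 7 × Fin 3} (h1 : Hea_X e = Hea_X e') (h2 : Hea_Y e = Hea_Y e') :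
    e = e' := by
  obtain ⟨x, i⟩ := e
  obtain ⟨y, j⟩ := e'
  have h3 : x = y := congrArg Prod.fst h1
  subst h3
  have h4 : x + dl (1 : ZMod 7) 3 i = x + dl (1 : ZMod 7) 3 j := congrArg Prod.fst h2
  rw [Hea_dl i j (add_left_cancel h4)]

private lemma Hea_uniq {u v : Fin 7 × Bool} {e e' : ZMod 7 × Fin 3} (h : Hea_R u v e)
    (h' : Hea_R u v e') : e = e' := by
  have hne : ∀ e e' : ZMod 7 × Fin 3, Hea_X e ≠ Hea_Y e' := fun e e' h =>
    Bool.noConfusion (congrArg Prod.snd h)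
  rcases h with ⟨h1, h2⟩ | ⟨h1, h2⟩ <;> rcases h' with ⟨h3, h4⟩ | ⟨h3, h4⟩
  · exact Hea_XY (h1.symm.trans h3) (h2.symm.trans h4)
  · exact absurd (h1.symm.trans h3) (hne _ _)
  · exact absurd (h3.symm.trans h1) (hne _ _)
  · exact Hea_XY (h2.symm.trans h4) (h1.symm.trans h3)

private noncomputable def Hea_ed (d : heawoodGraph.Dart) : ZMod 7 × Fin 3 :=
  Classical.choose (Hea_R_of_adj d.adj)

private lemma Hea_edR (d : heawoodGraph.Dart) : Hea_R d.fst d.snd (Hea_ed d) :=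
  Classical.choose_spec (Hea_R_of_adj d.adj)

private lemma Hea_walk {u v : Fin 7 × Bool} {e : ZMod 7 × Fin 3} (h : Hea_R u v e) :
    ∃ p : X.Walk (Hea_f m u) (Hea_f m v), p.IsPath ∧ ∀ x, x ∈ p.support ↔ x ∈ (m.P e).support := by
  have h1 := Hea_fX m e
  have h2 := Hea_fY m e
  rcases h with ⟨rfl, rfl⟩ | ⟨rfl, rfl⟩
  · refine ⟨(m.P e).copy h1.symm h2.symm, ?_, fun x => ?_⟩
    · rw [SimpleGraph.Walk.isPath_copy]
      exact m.path e
    · rw [SimpleGraph.Walk.support_copy]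
  · refine ⟨(m.P e).reverse.copy h2.symm h1.symm, ?_, fun x => ?_⟩
    · rw [SimpleGraph.Walk.isPath_copy]
      exact (m.path e).reverse
    · rw [SimpleGraph.Walk.support_copy, SimpleGraph.Walk.support_reverse, List.mem_reverse]

private noncomputable def Hea_P (d : heawoodGraph.Dart) :
    X.Walk (Hea_f m d.fst) (Hea_f m d.snd) := Classical.choose (Hea_walk m (Hea_edR d))

private lemma Hea_P1 (d : heawoodGraph.Dart) : (Hea_P m d).IsPath :=
  (Classical.choose_spec (Hea_walk m (Hea_edR d))).1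

private lemma Hea_P2 (d : heawoodGraph.Dart) (x : V) :
    x ∈ (Hea_P m d).support ↔ x ∈ (m.P (Hea_ed d)).support :=
  (Classical.choose_spec (Hea_walk m (Hea_edR d))).2 x

private lemma Hea_edge (d : heawoodGraph.Dart) :
    d.edge = s(Hea_X (Hea_ed d), Hea_Y (Hea_ed d)) := by
  have h : d.edge = s(d.fst, d.snd) := rfl
  rw [h]
  rcases Hea_edR d with ⟨h1, h2⟩ | ⟨h1, h2⟩
  · rw [h1, h2]
  · rw [h1, h2]
    exact Sym2.eq_swap

include m in
private lemma Hea_sub : ContainsSubdivision heawoodGraph X := by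
  refine ⟨Hea_f m, Hea_P m, Hea_inj m, Hea_P1 m, ?_, ?_, ?_⟩
  · intro d x
    have h : Hea_ed d.symm = Hea_ed d := Hea_uniq (Hea_edR d.symm) (Or.symm (by
      rcases Hea_edR d with ⟨h1, h2⟩ | ⟨h1, h2⟩
      · exact Or.inl ⟨h2, h1⟩
      · exact Or.inr ⟨h2, h1⟩))
    have h1 := Hea_P2 m d.symm x
    rw [h] at h1
    exact h1.trans (Hea_P2 m d x).symm
  · intro d w hw
    rw [Hea_P2] at hw
    have key : w = Hea_X (Hea_ed d) ∨ w = Hea_Y (Hea_ed d) := by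
      obtain ⟨x, b⟩ := w
      cases b
      · refine Or.inl (Hea_inj m ?_)
        rw [Hea_fX]
        exact m.ix _ (x, 0) hw
      · refine Or.inr (Hea_inj m ?_)
        rw [Hea_fY]
        exact m.iy _ (x, 0) hw
    rcases Hea_edR d with ⟨h1, h2⟩ | ⟨h1, h2⟩
    · rw [h1, h2]
      exact key
    · rw [h1, h2]
      exact Or.symm key
  · intro d d' x hne hx hx'
    rw [Hea_P2] at hx hx'
    have h : Hea_ed d ≠ Hea_ed d' := by
      intro h
      apply hne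
      rw [Hea_edge, Hea_edge, h]
    rcases m.disj _ _ x h hx hx' with h1 | h1
    · exact ⟨Hea_X _, (Hea_fX m _).trans h1.symm⟩
    · exact ⟨Hea_Y _, (Hea_fY m _).trans h1.symm⟩

end model

/-- a model of the honeycomb torus of index 7 gives a subdivision of the Heawood graph.

Proof plan: `HT (Lt (2, 1) (-7, 0)) ≅ HG (1 : ZMod 7) (-2)` (`uiso_cyc` style, see `Exc.lean`; or directly `uiso_hom`) `≅ HG 1 3` (as in
`Fam.lean`), `ZMod 7 = Fin 7` definitionally.  With `m : Mdl (HG (A := ZMod 7) 1 3) X`: `f (i, false) = m.vx (i, 0)`,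
`f (j, true) = m.vy (j, 0)`; for a dart from `(i, false)` to `(j, true)` take the slot `k : Fin 3` with `j - i = dl 1 3 k` and the path
`m.P (i, k)` (with `Walk.copy`); for the reversed dart the reversed path. -/
theorem heawood_of_mdl {V : Type w} {X : SimpleGraph V} (m : Mdl (HT (Lt (2, 1) (-7, 0))) X) :
    ContainsSubdivision heawoodGraph X := by
  obtain ⟨i⟩ := Hea_uiso
  obtain ⟨m'⟩ := i.mdl m
  exact Hea_sub m'

end Pool.Agent.PP
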