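import Pool.Agent.Lib_MP_7c0803_tor.Defs

/-!
# Euler characteristic zero: all faces are hexagons

`hexagons`: as `short` in `Lib_MP_7c0803_pp/Short.lean` (copy the private lemmas with the prefix `Hex_`): if there is no `Th`, `Dg`, `Sq`
then every class of `G.Fc tw` has at least 12 elements, the images of the injective map `F : Fin 6 × Bool → _` there; `12 * #Fc ≤ 4 * |E|`
and `Chi0` gives equality, so every class has exactly 12 elements, so `(G.nx tw)^[6] a`, which is in the class of `a`, is one of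
`(G.nx tw)^[i] a`, `i < 6` (the others are excluded by the direction or by `Short_rn`), so `i = 0` (otherwise `(G.nx tw)^[6 - i] a = a`,
excluded by `Short_two`, `Short_four` and the directions).
-/

set_option autoImplicit false

open Finset Function

namespace Pool.Agent.PP

universe u

variable {E : Type u} [Fintype E]

section shortaux

omit [Fintype E]

private lemma Hex_tri {s : Equiv.Perm E} (s3 : ∀ e, s (s (s e)) = e) {e f : E}
    (h : f = s e ∨ f = s (s e)) : ∃ g, Tri s g e f := by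
  rcases h with rfl | rfl
  · exact ⟨s (s e), Or.inl ⟨s3 e, rfl, rfl⟩⟩
  · exact ⟨s e, Or.inr ⟨rfl, s3 e, rfl⟩⟩

private lemma Hex_par (G : CB E) {e f g h : E} (hg : Tri G.s g e f) (hh : Tri G.t h e f) :
    Nonempty (Th G) ∨ Nonempty (Dg G) := by
  by_cases hgh : g = h
  · subst hgh
    exact Or.inl ⟨⟨e, f, g, hg, hh⟩⟩
  · exact Or.inr ⟨⟨e, f, g, h, hg, hh, hgh⟩⟩

private def Hex_v (s : Equiv.Perm E) (e : E) : Set E := {f | f = e ∨ f = s e ∨ f = s (s e)}

private lemma Hex_v_s {s : Equiv.Perm E} (s3 : ∀ e, s (s (s e)) = e) (e : E) :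
    Hex_v s (s e) = Hex_v s e := by
  ext f
  simp only [Hex_v, Set.mem_ofPred_eq, s3]
  tauto

private lemma Hex_v_tri {s : Equiv.Perm E} (s3 : ∀ e, s (s (s e)) = e) {x y z : E}
    (h : Tri s x y z) : Hex_v s x = Hex_v s y ∧ Hex_v s y = Hex_v s z := by
  rcases h with ⟨h1, h2, h3⟩ | ⟨h1, h2, h3⟩
  · constructor
    · rw [← h1, Hex_v_s s3]
    · rw [← h2, Hex_v_s s3]
  · constructor
    · rw [← h3, Hex_v_s s3]
    · rw [← h2, Hex_v_s s3]

private lemma Hex_eq (G : CB E) (hP : ¬ (Nonempty (Th G) ∨ Nonempty (Dg G))) {e f : E}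
    (h1 : Hex_v G.s e = Hex_v G.s f) (h2 : Hex_v G.t e = Hex_v G.t f) : e = f := by
  by_contra hne
  have m1 : f ∈ Hex_v G.s e := by
    rw [h1]
    exact Or.inl rfl
  have m2 : f ∈ Hex_v G.t e := by
    rw [h2]
    exact Or.inl rfl
  rcases m1 with m1 | m1
  · exact hne m1.symm
  rcases m2 with m2 | m2
  · exact hne m2.symm
  obtain ⟨g, hg⟩ := Hex_tri G.s3 m1
  obtain ⟨k, hk⟩ := Hex_tri G.t3 m2
  exact hP (Hex_par G hg hk)

private lemma Hex_rr (G : CB E) (tw : E → Bool) (a : E × Bool × Bool) :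
    G.rv tw (G.rv tw a) = a := by
  obtain ⟨e, d, o⟩ := a
  simp only [CB.rv]
  cases d <;> cases o <;> cases tw e <;> rfl

private lemma Hex_frf (G : CB E) (tw : E → Bool) (a : E × Bool × Bool) :
    G.nx tw (G.rv tw (G.nx tw a)) = G.rv tw a := by
  obtain ⟨e, d, o⟩ := a
  cases d
  · cases ho : xor o (tw e)
    · cases ht : tw (G.s.symm e) <;> simp [CB.nx, CB.rv, ho, ht]
    · cases ht : tw (G.s e) <;> simp [CB.nx, CB.rv, ho, ht]
  · cases ho : xor o (tw e)
    · cases ht : tw (G.t.symm e) <;> simp [CB.nx, CB.rv, ho, ht]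
    · cases ht : tw (G.t e) <;> simp [CB.nx, CB.rv, ho, ht]

private lemma Hex_rinj (G : CB E) (tw : E → Bool) : Function.Injective (G.rv tw) := by
  intro a b h
  rw [← Hex_rr G tw a, h, Hex_rr]

private lemma Hex_finj (G : CB E) (tw : E → Bool) : Function.Injective (G.nx tw) := by
  intro a b h
  apply Hex_rinj G tw
  rw [← Hex_frf G tw a, h, Hex_frf]

private lemma Hex_fd (G : CB E) (tw : E → Bool) (a : E × Bool × Bool) :
    (G.nx tw a).2.1 = !a.2.1 := by
  obtain ⟨e, d, o⟩ := a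
  cases d <;> rfl

private lemma Hex_rd (G : CB E) (tw : E → Bool) (a : E × Bool × Bool) :
    (G.rv tw a).2.1 = !a.2.1 := rfl

private lemma Hex_symm {s : Equiv.Perm E} (s3 : ∀ e, s (s (s e)) = e) (e : E) :
    s.symm e = s (s e) := by
  rw [Equiv.symm_apply_eq, s3]

/-- a step from an `X`-end to a `Y`-end -/
private lemma Hex_stepT (G : CB E) (tw : E → Bool) (a : E × Bool × Bool) (h : a.2.1 = true) :
    ∃ y, Tri G.t y a.1 (G.nx tw a).1 := by
  obtain ⟨e, d, o⟩ := a
  simp only at h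
  subst h
  apply Hex_tri G.t3
  simp only [CB.nx]
  cases xor o (tw e)
  · right
    simp [Hex_symm G.t3]
  · left
    simp

private lemma Hex_stepF (G : CB E) (tw : E → Bool) (a : E × Bool × Bool) (h : a.2.1 = false) :
    ∃ y, Tri G.s y a.1 (G.nx tw a).1 := by
  obtain ⟨e, d, o⟩ := a
  simp only at h
  subst h
  apply Hex_tri G.s3
  simp only [CB.nx]
  cases xor o (tw e)
  · right
    simp [Hex_symm G.s3]
  · left
    simp

private lemma Hex_step_ne (G : CB E) (tw : E → Bool) (a : E × Bool × Bool) :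
    (G.nx tw a).1 ≠ a.1 := by
  cases h : a.2.1
  · obtain ⟨y, hy⟩ := Hex_stepF G tw a h
    exact (hy.ne G.s1).2.2.symm
  · obtain ⟨y, hy⟩ := Hex_stepT G tw a h
    exact (hy.ne G.t1).2.2.symm

private lemma Hex_rn (G : CB E) (tw : E → Bool) (m : ℕ) :
    ∀ a, G.rv tw a ≠ (G.nx tw)^[m] a := by
  induction m using Nat.strong_induction_on with
  | _ m ih =>
    intro a h
    match m, ih, h with
    | 0, _, h =>
      have h1 := congrArg (fun x => x.2.1) h
      simp only [Function.iterate_zero, id, Hex_rd] at h1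
      cases hd : a.2.1 <;> simp [hd] at h1
    | 1, _, h =>
      have h1 := congrArg (fun x => x.1) h
      simp only [Function.iterate_one] at h1
      exact Hex_step_ne G tw a h1.symm
    | m + 2, ih, h =>
      rw [← Hex_frf, Function.iterate_succ_apply'] at h
      have h2 := Hex_finj G tw h
      rw [Function.iterate_succ_apply] at h2
      exact ih m (by omega) _ h2

private lemma Hex_fm (G : CB E) (tw : E → Bool) (m : ℕ) :
    ∀ a, (G.nx tw)^[m] (G.rv tw ((G.nx tw)^[m] a)) = G.rv tw a := by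
  induction m with
  | zero => intro a; rfl
  | succ m ih =>
    intro a
    rw [Function.iterate_succ_apply, Function.iterate_succ_apply' (G.nx tw) m a, Hex_frf, ih]

private lemma Hex_dm (G : CB E) (tw : E → Bool) (m : ℕ) (a : E × Bool × Bool) :
    ((G.nx tw)^[2 * m + 1] a).2.1 = !a.2.1 := by
  induction m generalizing a with
  | zero => exact Hex_fd G tw a
  | succ m ih =>
    have h1 : 2 * (m + 1) + 1 = (2 * m + 1) + 1 + 1 := by ring
    rw [h1, Function.iterate_succ_apply', Function.iterate_succ_apply', Hex_fd, Hex_fd, ih,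
      Bool.not_not]

private lemma Hex_two (G : CB E) (tw : E → Bool) (hP : ¬ (Nonempty (Th G) ∨ Nonempty (Dg G)))
    (a : E × Bool × Bool) : G.nx tw (G.nx tw a) ≠ a := by
  intro h
  have hd := Hex_fd G tw a
  cases hh : a.2.1
  · obtain ⟨g, hg⟩ := Hex_stepF G tw a hh
    obtain ⟨k, hk⟩ := Hex_stepT G tw (G.nx tw a) (by rw [hd, hh]; rfl)
    rw [h] at hk
    exact hP (Hex_par G hg hk.swap)
  · obtain ⟨g, hg⟩ := Hex_stepT G tw a hh
    obtain ⟨k, hk⟩ := Hex_stepF G tw (G.nx tw a) (by rw [hd, hh]; rfl)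
    rw [h] at hk
    exact hP (Hex_par G hk.swap hg)

private lemma Hex_sq (G : CB E) (hP : ¬ (Nonempty (Th G) ∨ Nonempty (Dg G)))
    {e1 e2 e3 e4 x y z w : E} (ta : Tri G.s x e1 e4) (tb : Tri G.t y e1 e2)
    (tc : Tri G.s z e3 e2) (td : Tri G.t w e3 e4) : Nonempty (Sq G) := by
  obtain ⟨A1, A2⟩ := Hex_v_tri G.s3 ta
  obtain ⟨B1, B2⟩ := Hex_v_tri G.t3 tb
  obtain ⟨C1, C2⟩ := Hex_v_tri G.s3 tc
  obtain ⟨D1, D2⟩ := Hex_v_tri G.t3 td
  obtain ⟨a1, a2, a3⟩ := ta.ne G.s1
  obtain ⟨b1, b2, b3⟩ := tb.ne G.t1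
  obtain ⟨c1, c2, c3⟩ := tc.ne G.s1
  obtain ⟨d1, d2, d3⟩ := td.ne G.t1
  have hAC : Hex_v G.s e1 ≠ Hex_v G.s e3 := fun h =>
    b3 (Hex_eq G hP (h.trans C2) B2)
  have hBD : Hex_v G.t e1 ≠ Hex_v G.t e3 := fun h =>
    a3 (Hex_eq G hP A2 (h.trans D2))
  refine ⟨⟨e1, e2, e3, e4, x, y, z, w, ta, tb, tc, td, ?_⟩⟩
  have n13 : e1 ≠ e3 := by rintro rfl; exact hAC rfl
  have n24 : e2 ≠ e4 := by rintro rfl; exact hAC (A2.trans C2.symm)
  have n1z : e1 ≠ z := by rintro rfl; exact hAC C1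
  have n1w : e1 ≠ w := by rintro rfl; exact hBD D1
  have n2x : e2 ≠ x := by rintro rfl; exact hAC (A1.symm.trans C2.symm)
  have n2w : e2 ≠ w := by rintro rfl; exact hBD (B2.trans D1)
  have n3x : e3 ≠ x := by rintro rfl; exact hAC A1.symm
  have n3y : e3 ≠ y := by rintro rfl; exact hBD B1.symm
  have n4y : e4 ≠ y := by rintro rfl; exact hBD (B1.symm.trans D2.symm)
  have n4z : e4 ≠ z := by rintro rfl; exact hAC (A2.trans C1)
  have nxz : x ≠ z := by rintro rfl; exact hAC (A1.symm.trans C1)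
  have nyw : y ≠ w := by rintro rfl; exact hBD (B1.symm.trans D1)
  have nxy : x ≠ y := by rintro rfl; exact a1 (Hex_eq G hP A1 B1)
  have nxw : x ≠ w := by rintro rfl; exact a2 (Hex_eq G hP (A1.trans A2) (D1.trans D2))
  have nyz : y ≠ z := by rintro rfl; exact b2 (Hex_eq G hP (C1.trans C2) (B1.trans B2))
  have nzw : z ≠ w := by rintro rfl; exact c1 (Hex_eq G hP C1 D1)
  simp only [List.nodup_cons, List.mem_cons, not_or, List.not_mem_nil, not_false_eq_true,
    List.nodup_nil, and_true]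
  exact ⟨⟨b3, n13, a3, a1.symm, b1.symm, n1z, n1w⟩, ⟨c3.symm, n24, n2x, b2.symm, c2.symm, n2w⟩,
    ⟨d3, n3x, n3y, c1.symm, d1.symm⟩, ⟨a2.symm, n4y, n4z, d2.symm⟩, ⟨nxy, nxz, nxw⟩, ⟨nyz, nyw⟩,
    nzw⟩

private lemma Hex_four' (G : CB E) (tw : E → Bool) (hP : ¬ (Nonempty (Th G) ∨ Nonempty (Dg G)))
    (a : E × Bool × Bool) (ha : a.2.1 = true) (h : (G.nx tw)^[4] a = a) : Nonempty (Sq G) := by
  have h1 := Hex_fd G tw a
  have h2 := Hex_fd G tw (G.nx tw a)
  have h3 := Hex_fd G tw (G.nx tw (G.nx tw a))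
  rw [ha] at h1
  rw [h1] at h2
  rw [h2] at h3
  obtain ⟨y, hy⟩ := Hex_stepT G tw a ha
  obtain ⟨z, hz⟩ := Hex_stepF G tw (G.nx tw a) h1
  obtain ⟨w, hw⟩ := Hex_stepT G tw (G.nx tw (G.nx tw a)) h2
  obtain ⟨x, hx⟩ := Hex_stepF G tw (G.nx tw (G.nx tw (G.nx tw a))) h3
  have h4 : G.nx tw (G.nx tw (G.nx tw (G.nx tw a))) = a := h
  rw [h4] at hx
  exact Hex_sq G hP hx.swap hy hz.swap hw

private lemma Hex_four (G : CB E) (tw : E → Bool) (hP : ¬ (Nonempty (Th G) ∨ Nonempty (Dg G)))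
    (hS : ¬ Nonempty (Sq G)) (a : E × Bool × Bool) : (G.nx tw)^[4] a ≠ a := by
  intro h
  cases ha : a.2.1
  · refine hS (Hex_four' G tw hP (G.nx tw a) (by rw [Hex_fd, ha]; rfl) ?_)
    rw [← Function.iterate_succ_apply, Function.iterate_succ_apply', h]
  · exact hS (Hex_four' G tw hP a ha h)

private lemma Hex_lt (G : CB E) (tw : E → Bool) (hP : ¬ (Nonempty (Th G) ∨ Nonempty (Dg G)))
    (hS : ¬ Nonempty (Sq G)) (a : E × Bool × Bool) {i j : ℕ} (hij : i < j) (hj : j < 6) :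
    (G.nx tw)^[i] a ≠ (G.nx tw)^[j] a := by
  intro h
  obtain ⟨k, rfl⟩ := Nat.exists_eq_add_of_lt hij
  have h1 : (G.nx tw)^[i + k + 1] a = (G.nx tw)^[i] ((G.nx tw)^[k + 1] a) := by
    rw [add_assoc, Function.iterate_add_apply]
  rw [h1] at h
  have h2 : a = (G.nx tw)^[k + 1] a := (Hex_finj G tw).iterate i h
  have hk : k < 5 := by omega
  have hodd : ∀ m, k + 1 = 2 * m + 1 → False := by
    intro m hm
    have h3 : a.2.1 = ((G.nx tw)^[k + 1] a).2.1 := congrArg (fun x => x.2.1) h2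
    rw [hm, Hex_dm] at h3
    cases hh : a.2.1 <;> simp [hh] at h3
  interval_cases k
  · exact hodd 0 rfl
  · exact Hex_two G tw hP a h2.symm
  · exact hodd 1 rfl
  · exact Hex_four G tw hP hS a h2.symm
  · exact hodd 2 rfl

private def Hex_q (G : CB E) (tw : E → Bool) (a : E × Bool × Bool) : G.Fc tw :=
  Quot.mk _ a

private lemma Hex_q1 (G : CB E) (tw : E → Bool) (a : E × Bool × Bool) :
    Hex_q G tw (G.nx tw a) = Hex_q G tw a :=
  (Quot.sound (r := fun a b => G.nx tw a = b ∨ G.rv tw a = b) (Or.inl rfl)).symm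

private lemma Hex_q2 (G : CB E) (tw : E → Bool) (a : E × Bool × Bool) :
    Hex_q G tw (G.rv tw a) = Hex_q G tw a :=
  (Quot.sound (r := fun a b => G.nx tw a = b ∨ G.rv tw a = b) (Or.inr rfl)).symm

private lemma Hex_mk (G : CB E) (tw : E → Bool) (m : ℕ) (a : E × Bool × Bool) :
    Hex_q G tw ((G.nx tw)^[m] a) = Hex_q G tw a := by
  induction m with
  | zero => rfl
  | succ m ih =>
    rw [Function.iterate_succ_apply', ← ih]
    exact Hex_q1 G tw _

end shortaux

private def Hex_F (G : CB E) (tw : E → Bool) (a : E × Bool × Bool) : Fin 6 × Bool → E × Bool × Bool := fun p =>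
    if p.2 then G.rv tw ((G.nx tw)^[(p.1 : ℕ)] a) else (G.nx tw)^[(p.1 : ℕ)] a

omit [Fintype E] in
private lemma Hex_Finj (G : CB E) (tw : E → Bool) (hP : ¬ (Nonempty (Th G) ∨ Nonempty (Dg G)))
    (hS : ¬ Nonempty (Sq G)) (a : E × Bool × Bool) : Function.Injective (Hex_F G tw a) := by
  have key : ∀ i j : Fin 6, (G.nx tw)^[(i : ℕ)] a = (G.nx tw)^[(j : ℕ)] a → i = j := by
    intro i j h
    rcases lt_trichotomy (i : ℕ) (j : ℕ) with hij | hij | hij
    · exact absurd h (Hex_lt G tw hP hS a hij j.2)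
    · exact Fin.ext hij
    · exact absurd h.symm (Hex_lt G tw hP hS a hij i.2)
  have key2 : ∀ i j : Fin 6, (G.nx tw)^[(i : ℕ)] a ≠ G.rv tw ((G.nx tw)^[(j : ℕ)] a) := by
    intro i j h
    have h1 := congrArg ((G.nx tw)^[(j : ℕ)]) h
    rw [Hex_fm, ← Function.iterate_add_apply] at h1
    exact Hex_rn G tw _ a h1.symm
  rintro ⟨i, b⟩ ⟨j, b'⟩ h
  cases b <;> cases b'
  · exact Prod.ext (key i j (by simpa [Hex_F] using h)) rfl
  · exact absurd (by simpa [Hex_F] using h) (key2 i j)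
  · exact absurd (by simpa [Hex_F] using h.symm) (key2 j i)
  · refine Prod.ext (key i j (Hex_rinj G tw ?_)) rfl
    simpa [Hex_F] using h

private lemma Hex_sub (G : CB E) (tw : E → Bool) [DecidableEq E] [DecidableEq (G.Fc tw)] (a : E × Bool × Bool) :
    univ.image (Hex_F G tw a) ⊆
      univ.filter (fun b : E × Bool × Bool => Hex_q G tw b = Hex_q G tw a) := by
  intro b hb
  obtain ⟨⟨i, d⟩, -, rfl⟩ := Finset.mem_image.1 hb
  rw [Finset.mem_filter]
  refine ⟨Finset.mem_univ _, ?_⟩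
  cases d
  · exact Hex_mk G tw i a
  · exact (Hex_q2 G tw _).trans (Hex_mk G tw i a)

private lemma Hex_fiber (G : CB E) (tw : E → Bool) (hP : ¬ (Nonempty (Th G) ∨ Nonempty (Dg G)))
    (hS : ¬ Nonempty (Sq G)) [DecidableEq (G.Fc tw)] (c : G.Fc tw) :
    12 ≤ (univ.filter (fun a : E × Bool × Bool => Hex_q G tw a = c)).card := by
  classical
  obtain ⟨a, rfl⟩ : ∃ a, Hex_q G tw a = c := Quot.exists_rep c
  have h12 : (univ.image (Hex_F G tw a)).card = 12 := by
    rw [Finset.card_image_of_injective _ (Hex_Finj G tw hP hS a)]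
    simp
  rw [← h12]
  exact Finset.card_le_card (Hex_sub G tw a)

theorem hexagons (G : CB E) (tw : E → Bool) (h : G.Chi0 tw) (hT : IsEmpty (Th G)) (hD : IsEmpty (Dg G))
    (hS : IsEmpty (Sq G)) (a : E × Bool × Bool) : (G.nx tw)^[6] a = a := by
  classical
  have hP : ¬ (Nonempty (Th G) ∨ Nonempty (Dg G)) := by
    rintro (h1 | h1)
    · exact hT.false h1.some
    · exact hD.false h1.some
  have hS' : ¬ Nonempty (Sq G) := fun h1 => hS.false h1.some
  have hfin : Finite (G.Fc tw) := by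
    unfold CB.Fc
    infer_instance
  let _ : Fintype (G.Fc tw) := Fintype.ofFinite _
  have h1 : (univ : Finset (E × Bool × Bool)).card = ∑ c : G.Fc tw,
      (univ.filter (fun a : E × Bool × Bool => Hex_q G tw a = c)).card :=
    Finset.card_eq_sum_card_fiberwise (fun a _ => Finset.mem_coe.2 (Finset.mem_univ _))
  have h2 : ∀ c ∈ (univ : Finset (G.Fc tw)), 12 ≤
      (univ.filter (fun a : E × Bool × Bool => Hex_q G tw a = c)).card :=
    fun c _ => Hex_fiber G tw hP hS' c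
  have h3 : ∑ c : G.Fc tw, 12 = ∑ c : G.Fc tw,
      (univ.filter (fun a : E × Bool × Bool => Hex_q G tw a = c)).card := by
    apply le_antisymm (Finset.sum_le_sum h2)
    rw [← h1]
    simp only [Finset.sum_const, Finset.card_univ, smul_eq_mul, Fintype.card_prod,
      Fintype.card_bool]
    unfold CB.Chi0 at h
    rw [Nat.card_eq_fintype_card, Nat.card_eq_fintype_card] at h
    omega
  have h4 := (Finset.sum_eq_sum_iff_of_le h2).1 h3 (Hex_q G tw a) (Finset.mem_univ _)
  have h5 : univ.image (Hex_F G tw a) =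
      univ.filter (fun b : E × Bool × Bool => Hex_q G tw b = Hex_q G tw a) := by
    apply Finset.eq_of_subset_of_card_le
    · exact Hex_sub G tw a
    · rw [← h4, Finset.card_image_of_injective _ (Hex_Finj G tw hP hS' a)]
      simp
  have h6 : (G.nx tw)^[6] a ∈ univ.image (Hex_F G tw a) := by
    rw [h5, Finset.mem_filter]
    exact ⟨Finset.mem_univ _, Hex_mk G tw 6 a⟩
  obtain ⟨⟨i, b⟩, -, hi⟩ := Finset.mem_image.1 h6
  have hi6 := i.2
  cases b
  · have h7 : (G.nx tw)^[(i : ℕ)] a = (G.nx tw)^[6] a := by simpa [Hex_F] using hi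
    have h8 : (G.nx tw)^[6] a = (G.nx tw)^[(i : ℕ)] ((G.nx tw)^[6 - (i : ℕ)] a) := by
      rw [← Function.iterate_add_apply]
      congr 1
      omega
    rw [h8] at h7
    have h9 : a = (G.nx tw)^[6 - (i : ℕ)] a := (Hex_finj G tw).iterate i h7
    rcases Nat.eq_zero_or_pos (i : ℕ) with h0 | h0
    · rw [h0] at h9
      exact h9.symm
    · exact absurd h9 (Hex_lt G tw hP hS' a (i := 0) (j := 6 - (i : ℕ)) (by omega) (by omega))
  · have h7 : G.rv tw ((G.nx tw)^[(i : ℕ)] a) = (G.nx tw)^[6] a := by simpa [Hex_F] using hi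
    have h8 := congrArg ((G.nx tw)^[(i : ℕ)]) h7
    rw [Hex_fm, ← Function.iterate_add_apply] at h8
    exact absurd h8 (Hex_rn G tw _ a)

/-- without twists, all faces of length six means `(s t)³ = 1` -/
theorem st3 (G : CB E) (tw : E → Bool) (h : ∀ e, tw e = false) (h6 : ∀ a, (G.nx tw)^[6] a = a) (e : E) :
    G.s (G.t (G.s (G.t (G.s (G.t e))))) = e := by
  have h1 : ∀ e, G.nx tw (e, true, true) = (G.t e, false, true) := by
    intro e
    simp [CB.nx, h]
  have h2 : ∀ e, G.nx tw (e, false, true) = (G.s e, true, true) := by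
    intro e
    simp [CB.nx, h]
  have h3 := congrArg (fun x => x.1) (h6 (e, true, true))
  simpa only [Function.iterate_succ_apply, Function.iterate_zero, id, h1, h2] using h3

end Pool.Agent.PP
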