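import Pool.Agent.Lib_MP_7c0803_tor.Mdl3

/-!
# Shrinking a honeycomb torus

Let `u = (p, q)`, `p, q ≥ 0`, `M = dt u v`, `M' = M - (p + q)`, `M' ≥ 1`, `M' ≥ p`, `M' ≥ q`, `v' = v + (1, -1)` (so `dt u v' = M'`),
`L = Lt u v`, `L' = Lt u v'`.  Claim: a model of `HT L` in `X` gives a model of `HT L'` in `X`.

Proof plan.  `θ x = dt u x = p * x.2 - q * x.1`; on `L` it takes the values in `M ℤ`, on `L'` the values in `M' ℤ`, and an element of `L`
(or of `L'`) with `θ = 0` is a multiple of `u`, so in `L ∩ L'`.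
For a class `z` of `(ℤ × ℤ) ⧸ L'` let `rep z` be a representative with `0 ≤ θ (rep z) < M'` (`Quotient.out z` minus the right multiple of
`v'`); if `mk' x = mk' y`, both `θ` in `[0, M')` then `x - y ∈ ℤ u`, so `mk x = mk y` in `(ℤ × ℤ) ⧸ L`.  `mk` is injective on the classes
in the same way.  Let `a = (1, 0)`, `b = (0, 1)`; `θ a = -q`, `θ b = p`.
Let `(z, i)` be an edge of `HT L'`, `x = rep z`.
* `i = 0`, or `i = 1` and `θ x ≥ q`, or `i = 2` and `θ x + p < M'`: the path of `(mk x, i)`; then `rep (z + δ i)` is `x + δ i` mod `ℤ u`.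
* `i = 1`, `θ x < q`: `rep (z + a) = x + a + v'` mod `ℤ u`, so its class mod `L` is that of `x + 2 a - b`; the path: `P (mk x, 1)`, then
  `P (mk (x + a - b), 2)` reversed, then `P (mk (x + a - b), 1)`.
* `i = 2`, `θ x + p ≥ M'`: `rep (z + b) = x + b - v'` mod `ℤ u`, class of `x + 2 b - a`; the path: `P (mk x, 2)`, `P (mk (x + b - a), 1)`
  reversed, `P (mk (x + b - a), 2)`.
Disjointness: the residue of `θ` mod `M` of the `X`-vertex `mk x` is in `[0, M')`, of the middle `X`-vertex `mk (x + a - b)` (case 2)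
in `[M', M' + q)`, of `mk (x + b - a)` (case 3) in `[M' + q, M)`; of the middle `Y`-vertex `x + a` (case 2) in `[M - q, M)`, of `x + b`
(case 3) in `[M', M' + p)`, and `M' + p = M - q`; the last `Y`-vertices have residues in `[0, M')`.

Use `mdl3` (file `Mdl3.lean`).
-/

set_option autoImplicit false

open Finset Function

namespace Pool.Agent.PP

universe u v w

private lemma Shrink_s {A : Type u} [AddCommGroup A] (a b : A) (e f : A × Fin 3) :
    (f = e ∨ SO (HG a b).s e f) ↔ f.1 = e.1 := by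
  obtain ⟨x, i⟩ := e
  obtain ⟨y, j⟩ := f
  rw [SO_HG_s]
  by_cases h : j = i
  · subst h; simp
  · simp [h]

private lemma Shrink_t {A : Type u} [AddCommGroup A] (a b : A) (e f : A × Fin 3) :
    (f = e ∨ SO (HG a b).t e f) ↔ f.1 + dl a b f.2 = e.1 + dl a b e.2 := by
  obtain ⟨x, i⟩ := e
  obtain ⟨y, j⟩ := f
  rw [SO_HG_t]
  by_cases h : j = i
  · subst h; simp
  · simp [h]

private lemma Shrink_dt_add (u x y : ℤ × ℤ) : dt u (x + y) = dt u x + dt u y := by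
  simp only [dt, Prod.fst_add, Prod.snd_add]
  ring

private lemma Shrink_dt_sub (u x y : ℤ × ℤ) : dt u (x - y) = dt u x - dt u y := by
  simp only [dt, Prod.fst_sub, Prod.snd_sub]
  ring

private lemma Shrink_dt_neg (u x : ℤ × ℤ) : dt u (-x) = -dt u x := by
  simp only [dt, Prod.fst_neg, Prod.snd_neg]
  ring

private lemma Shrink_dt_smul (u x : ℤ × ℤ) (k : ℤ) : dt u (k • x) = k * dt u x := by
  simp only [dt, Prod.smul_fst, Prod.smul_snd, smul_eq_mul]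
  ring

private lemma Shrink_dt_self (u : ℤ × ℤ) : dt u u = 0 := by
  simp only [dt]
  ring

private lemma Shrink_can {u v x y : ℤ × ℤ} (hx : 0 ≤ dt u x) (hx' : dt u x < dt u v) (hy : 0 ≤ dt u y)
    (hy' : dt u y < dt u v) (h : (x : (ℤ × ℤ) ⧸ Lt u v) = (y : (ℤ × ℤ) ⧸ Lt u v)) :
    ∃ i : ℤ, y = x + i • u := by
  rw [QuotientAddGroup.eq] at h
  obtain ⟨i, j, hij⟩ := mem_Lt.1 h
  have h1 : dt u y - dt u x = j * dt u v := by
    have h2 := congrArg (dt u) hij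
    rw [Shrink_dt_add, Shrink_dt_smul, Shrink_dt_smul, Shrink_dt_self, Shrink_dt_add, Shrink_dt_neg] at h2
    linarith
  have h2 : j = 0 := by
    by_contra hj
    rcases lt_or_gt_of_ne hj with hj | hj
    · nlinarith
    · nlinarith
  subst h2
  refine ⟨i, ?_⟩
  rw [zero_smul, add_zero] at hij
  rw [hij]
  abel

private lemma Shrink_eq {u v x y : ℤ × ℤ} (hx : 0 ≤ dt u x) (hx' : dt u x < dt u v) (hy : 0 ≤ dt u y)
    (hy' : dt u y < dt u v) (h : (x : (ℤ × ℤ) ⧸ Lt u v) = (y : (ℤ × ℤ) ⧸ Lt u v)) : dt u x = dt u y := by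
  obtain ⟨i, rfl⟩ := Shrink_can hx hx' hy hy' h
  rw [Shrink_dt_add, Shrink_dt_smul, Shrink_dt_self]
  ring

private lemma Shrink_mk {u v x y : ℤ × ℤ} (h : ∃ i : ℤ, y = x + i • u) :
    (x : (ℤ × ℤ) ⧸ Lt u v) = (y : (ℤ × ℤ) ⧸ Lt u v) := by
  obtain ⟨i, rfl⟩ := h
  rw [QuotientAddGroup.eq, mem_Lt]
  exact ⟨i, 0, by rw [zero_smul, add_zero, neg_add_cancel_left]⟩

private lemma Shrink_v (u v x : ℤ × ℤ) : ((x + v : ℤ × ℤ) : (ℤ × ℤ) ⧸ Lt u v) = (x : (ℤ × ℤ) ⧸ Lt u v) := by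
  rw [QuotientAddGroup.eq, mem_Lt]
  exact ⟨0, -1, by rw [zero_smul, neg_one_smul]; abel⟩

private lemma Shrink_rep {u v : ℤ × ℤ} (hv : 1 ≤ dt u v) (z : (ℤ × ℤ) ⧸ Lt u v) :
    ∃ x : ℤ × ℤ, (x : (ℤ × ℤ) ⧸ Lt u v) = z ∧ 0 ≤ dt u x ∧ dt u x < dt u v := by
  obtain ⟨x, rfl⟩ := QuotientAddGroup.mk_surjective z
  refine ⟨x - (dt u x / dt u v) • v, ?_, ?_, ?_⟩
  · rw [QuotientAddGroup.eq, mem_Lt]
    exact ⟨0, dt u x / dt u v, by rw [zero_smul]; abel⟩
  · rw [Shrink_dt_sub, Shrink_dt_smul]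
    have h1 := Int.emod_nonneg (dt u x) (b := dt u v) (by omega)
    have h2 := Int.emod_add_mul_ediv (dt u x) (dt u v)
    nlinarith
  · rw [Shrink_dt_sub, Shrink_dt_smul]
    have h1 := Int.emod_lt_of_pos (dt u x) (b := dt u v) (by omega)
    have h2 := Int.emod_add_mul_ediv (dt u x) (dt u v)
    nlinarith

/-- the difference between the middle and the first `X`-vertex -/
private def Shrink_d (i : Fin 3) : ℤ × ℤ := if i = 1 then (1, -1) else (-1, 1)

theorem shrink {V : Type w} {X : SimpleGraph V} (u v : ℤ × ℤ) (hp : 0 ≤ u.1) (hq : 0 ≤ u.2)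
    (h1 : 1 ≤ dt u v - (u.1 + u.2)) (h2 : u.1 ≤ dt u v - (u.1 + u.2)) (h3 : u.2 ≤ dt u v - (u.1 + u.2))
    (m : Mdl (HT (Lt u v)) X) : Nonempty (Mdl (HT (Lt u (v + (1, -1)))) X) := by
  classical
  obtain ⟨v', hv'⟩ : ∃ v' : ℤ × ℤ, v' = v + (1, -1) := ⟨_, rfl⟩
  rw [← hv']
  have hM : dt u v' = dt u v - (u.1 + u.2) := by
    rw [hv']
    simp only [dt, Prod.fst_add, Prod.snd_add]
    ring
  rw [← hM] at h1 h2 h3
  have hv2 : ∀ x : ℤ × ℤ, x + v' = x + (v + (1, -1)) := fun x => by rw [hv']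
  have hv3 : ∀ x : ℤ × ℤ, x - v' = x - (v + (1, -1)) := fun x => by rw [hv']
  have ha : dt u (1, 0) = -u.2 := by simp [dt]
  have hb : dt u (0, 1) = u.1 := by simp [dt]
  have hab : dt u (1, -1) = -u.1 - u.2 := by simp [dt]
  have hba : dt u (-1, 1) = u.1 + u.2 := by simp [dt]
  choose w hw hw0 hw1 using Shrink_rep (u := u) (v := v') h1
  obtain ⟨C, hC⟩ : ∃ C : ((ℤ × ℤ) ⧸ Lt u v') × Fin 3 → Prop, ∀ e, C e ↔
      ((e.2 = 1 ∧ dt u (w e.1) < u.2) ∨ (e.2 = 2 ∧ dt u v' ≤ dt u (w e.1) + u.1)) := ⟨_, fun e => Iff.rfl⟩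
  obtain ⟨b0, hb0⟩ : ∃ b0 : ((ℤ × ℤ) ⧸ Lt u v') × Fin 3 → ((ℤ × ℤ) ⧸ Lt u v) × Fin 3, ∀ e,
      b0 e = (((w e.1 : ℤ × ℤ) : (ℤ × ℤ) ⧸ Lt u v), e.2) := ⟨_, fun e => rfl⟩
  obtain ⟨b2, hb2⟩ : ∃ b2 : ((ℤ × ℤ) ⧸ Lt u v') × Fin 3 → ((ℤ × ℤ) ⧸ Lt u v) × Fin 3, ∀ e,
      b2 e = (((w e.1 + Shrink_d e.2 : ℤ × ℤ) : (ℤ × ℤ) ⧸ Lt u v), -e.2) := ⟨_, fun e => rfl⟩
  obtain ⟨b1, hb1⟩ : ∃ b1 : ((ℤ × ℤ) ⧸ Lt u v') × Fin 3 → ((ℤ × ℤ) ⧸ Lt u v) × Fin 3, ∀ e,
      b1 e = if C e then (((w e.1 + Shrink_d e.2 : ℤ × ℤ) : (ℤ × ℤ) ⧸ Lt u v), e.2) else b0 e := ⟨_, fun e => rfl⟩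
  -- injectivity on classes
  have inj : ∀ x y : ℤ × ℤ, 0 ≤ dt u x → dt u x < dt u v' → 0 ≤ dt u y → dt u y < dt u v' →
      ((x : (ℤ × ℤ) ⧸ Lt u v) = (y : (ℤ × ℤ) ⧸ Lt u v) ↔ (x : (ℤ × ℤ) ⧸ Lt u v') = (y : (ℤ × ℤ) ⧸ Lt u v')) := by
    intro x y hx hx' hy hy'
    constructor
    · intro h
      exact Shrink_mk (Shrink_can hx (by omega) hy (by omega) h)
    · intro h
      exact Shrink_mk (Shrink_can hx hx' hy hy' h)
  have injw : ∀ z z' : (ℤ × ℤ) ⧸ Lt u v', ((w z : (ℤ × ℤ) ⧸ Lt u v) = (w z' : (ℤ × ℤ) ⧸ Lt u v) ↔ z = z') := by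
    intro z z'
    rw [inj _ _ (hw0 z) (hw1 z) (hw0 z') (hw1 z'), hw, hw]
  -- the middle `X`-vertex
  have FX : ∀ e f, C e → C f → ((w e.1 + Shrink_d e.2 : ℤ × ℤ) : (ℤ × ℤ) ⧸ Lt u v) =
      ((w f.1 + Shrink_d f.2 : ℤ × ℤ) : (ℤ × ℤ) ⧸ Lt u v) → e = f := by
    intro e f he hf h
    have same : e.2 = f.2 → e = f := by
      intro h4
      refine Prod.ext ?_ h4
      rw [← injw]
      rw [h4, QuotientAddGroup.mk_add, QuotientAddGroup.mk_add] at h
      exact add_right_cancel h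
    have diff : ∀ e f : ((ℤ × ℤ) ⧸ Lt u v') × Fin 3, (e.2 = 1 ∧ dt u (w e.1) < u.2) →
        (f.2 = 2 ∧ dt u v' ≤ dt u (w f.1) + u.1) → ((w e.1 + Shrink_d e.2 : ℤ × ℤ) : (ℤ × ℤ) ⧸ Lt u v) =
      ((w f.1 + Shrink_d f.2 : ℤ × ℤ) : (ℤ × ℤ) ⧸ Lt u v) → False := by
      intro e f he hf h
      have e1 : Shrink_d e.2 = (1, -1) := by rw [he.1]; rfl
      have e2 : Shrink_d f.2 = (-1, 1) := by rw [hf.1]; rfl
      rw [e1, e2, ← Shrink_v] at h
      have k0 := hw0 e.1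
      have k1 := hw1 e.1
      have k2 := hw0 f.1
      have k3 := hw1 f.1
      have k4 : dt u (w e.1 + (1, -1) + v) = dt u (w e.1) + dt u v' := by
        rw [Shrink_dt_add, Shrink_dt_add, hab]
        omega
      have k5 : dt u (w f.1 + (-1, 1)) = dt u (w f.1) + u.1 + u.2 := by
        rw [Shrink_dt_add, hba]
        omega
      have := Shrink_eq (by omega) (by omega) (by omega) (by omega) h
      omega
    rcases (hC e).1 he with he | he
    · rcases (hC f).1 hf with hf | hf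
      · exact same (he.1.trans hf.1.symm)
      · exact (diff e f he hf h).elim
    · rcases (hC f).1 hf with hf | hf
      · exact (diff f e hf he h.symm).elim
      · exact same (he.1.trans hf.1.symm)
  have FX' : ∀ e z, C e → ((w e.1 + Shrink_d e.2 : ℤ × ℤ) : (ℤ × ℤ) ⧸ Lt u v) ≠ (w z : (ℤ × ℤ) ⧸ Lt u v) := by
    intro e z he h
    have k0 := hw0 e.1
    have k1 := hw1 e.1
    have k2 := hw0 z
    have k3 := hw1 z
    rcases (hC e).1 he with he | he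
    · have e1 : Shrink_d e.2 = (1, -1) := by rw [he.1]; rfl
      rw [e1, ← Shrink_v] at h
      have k4 : dt u (w e.1 + (1, -1) + v) = dt u (w e.1) + dt u v' := by
        rw [Shrink_dt_add, Shrink_dt_add, hab]
        omega
      have := Shrink_eq (by omega) (by omega) (by omega) (by omega) h
      omega
    · have e1 : Shrink_d e.2 = (-1, 1) := by rw [he.1]; rfl
      rw [e1] at h
      have k5 : dt u (w e.1 + (-1, 1)) = dt u (w e.1) + u.1 + u.2 := by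
        rw [Shrink_dt_add, hba]
        omega
      have := Shrink_eq (by omega) (by omega) (by omega) (by omega) h
      omega
  -- the middle `Y`-vertex
  have FY : ∀ e f, C e → C f → ((w e.1 + dl (1, 0) (0, 1) e.2 : ℤ × ℤ) : (ℤ × ℤ) ⧸ Lt u v) =
      ((w f.1 + dl (1, 0) (0, 1) f.2 : ℤ × ℤ) : (ℤ × ℤ) ⧸ Lt u v) → e = f := by
    intro e f he hf h
    have same : e.2 = f.2 → e = f := by
      intro h4
      refine Prod.ext ?_ h4
      rw [← injw]
      rw [h4, QuotientAddGroup.mk_add, QuotientAddGroup.mk_add] at h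
      exact add_right_cancel h
    have diff : ∀ e f : ((ℤ × ℤ) ⧸ Lt u v') × Fin 3, (e.2 = 1 ∧ dt u (w e.1) < u.2) →
        (f.2 = 2 ∧ dt u v' ≤ dt u (w f.1) + u.1) →
        ((w e.1 + dl (1, 0) (0, 1) e.2 : ℤ × ℤ) : (ℤ × ℤ) ⧸ Lt u v) =
      ((w f.1 + dl (1, 0) (0, 1) f.2 : ℤ × ℤ) : (ℤ × ℤ) ⧸ Lt u v) → False := by
      intro e f he hf h
      rw [he.1, hf.1, dl_one, dl_two, ← Shrink_v] at h
      have k0 := hw0 e.1
      have k1 := hw1 e.1
      have k2 := hw0 f.1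
      have k3 := hw1 f.1
      have k4 : dt u (w e.1 + (1, 0) + v) = dt u (w e.1) - u.2 + dt u v := by
        rw [Shrink_dt_add, Shrink_dt_add, ha]
        omega
      have k5 : dt u (w f.1 + (0, 1)) = dt u (w f.1) + u.1 := by
        rw [Shrink_dt_add, hb]
      have := Shrink_eq (by omega) (by omega) (by omega) (by omega) h
      omega
    rcases (hC e).1 he with he | he
    · rcases (hC f).1 hf with hf | hf
      · exact same (he.1.trans hf.1.symm)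
      · exact (diff e f he hf h).elim
    · rcases (hC f).1 hf with hf | hf
      · exact (diff f e hf he h.symm).elim
      · exact same (he.1.trans hf.1.symm)
  have FY' : ∀ e y, C e → 0 ≤ dt u y → dt u y < dt u v' →
      ((w e.1 + dl (1, 0) (0, 1) e.2 : ℤ × ℤ) : (ℤ × ℤ) ⧸ Lt u v) ≠ (y : (ℤ × ℤ) ⧸ Lt u v) := by
    intro e y he hy hy' h
    have k0 := hw0 e.1
    have k1 := hw1 e.1
    rcases (hC e).1 he with he | he
    · rw [he.1, dl_one, ← Shrink_v] at h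
      have k4 : dt u (w e.1 + (1, 0) + v) = dt u (w e.1) - u.2 + dt u v := by
        rw [Shrink_dt_add, Shrink_dt_add, ha]
        omega
      have := Shrink_eq (by omega) (by omega) (by omega) (by omega) h
      omega
    · rw [he.1, dl_two] at h
      have k5 : dt u (w e.1 + (0, 1)) = dt u (w e.1) + u.1 := by
        rw [Shrink_dt_add, hb]
      have := Shrink_eq (by omega) (by omega) (by omega) (by omega) h
      omega
  -- the last `Y`-vertex
  have dlmk : ∀ (L : AddSubgroup (ℤ × ℤ)) (i : Fin 3), ((dl (1, 0) (0, 1) i : ℤ × ℤ) : (ℤ × ℤ) ⧸ L) =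
      dl (((1, 0) : ℤ × ℤ) : (ℤ × ℤ) ⧸ L) (((0, 1) : ℤ × ℤ) : (ℤ × ℤ) ⧸ L) i := fun L i =>
    dl_map (QuotientAddGroup.mk' L) (1, 0) (0, 1) i
  have RY : ∀ e, ∃ y : ℤ × ℤ, 0 ≤ dt u y ∧ dt u y < dt u v' ∧
      (y : (ℤ × ℤ) ⧸ Lt u v') = e.1 + dl (((1, 0) : ℤ × ℤ) : (ℤ × ℤ) ⧸ Lt u v') (((0, 1) : ℤ × ℤ) : (ℤ × ℤ) ⧸ Lt u v') e.2 ∧
      (y : (ℤ × ℤ) ⧸ Lt u v) = (b1 e).1 + dl (((1, 0) : ℤ × ℤ) : (ℤ × ℤ) ⧸ Lt u v) (((0, 1) : ℤ × ℤ) : (ℤ × ℤ) ⧸ Lt u v) (b1 e).2 := by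
    intro e
    have k0 := hw0 e.1
    have k1 := hw1 e.1
    by_cases he : C e
    · rw [hb1, if_pos he]
      rcases (hC e).1 he with he | he
      · refine ⟨w e.1 + (1, 0) + v', ?_, ?_, ?_, ?_⟩
        · rw [Shrink_dt_add, Shrink_dt_add, ha]
          omega
        · rw [Shrink_dt_add, Shrink_dt_add, ha]
          omega
        · rw [Shrink_v, ← dlmk, he.1, dl_one, QuotientAddGroup.mk_add, hw]
        · have e1 : Shrink_d e.2 = (1, -1) := by rw [he.1]; rfl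
          rw [← dlmk, e1]
          simp only [he.1, dl_one]
          rw [← QuotientAddGroup.mk_add, ← Shrink_v u v (w e.1 + (1, -1) + (1, 0)), hv2]
          congr 1
          abel
      · refine ⟨w e.1 + (0, 1) - v', ?_, ?_, ?_, ?_⟩
        · rw [Shrink_dt_sub, Shrink_dt_add, hb]
          omega
        · rw [Shrink_dt_sub, Shrink_dt_add, hb]
          omega
        · rw [← Shrink_v u v' (w e.1 + (0, 1) - v'), sub_add_cancel, ← dlmk, he.1, dl_two, QuotientAddGroup.mk_add, hw]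
        · have e1 : Shrink_d e.2 = (-1, 1) := by rw [he.1]; rfl
          rw [← dlmk, e1]
          simp only [he.1, dl_two]
          rw [← QuotientAddGroup.mk_add, ← Shrink_v u v (w e.1 + (0, 1) - v'), hv3]
          congr 1
          have : ((-1, 1) : ℤ × ℤ) = - (1, -1) := rfl
          rw [this]
          abel
    · rw [hb1, if_neg he, hb0]
      rw [hC] at he
      push Not at he
      refine ⟨w e.1 + dl (1, 0) (0, 1) e.2, ?_, ?_, ?_, ?_⟩
      · rw [Shrink_dt_add]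
        obtain ⟨z, i⟩ := e
        fin_cases i
        · simpa [dt] using k0
        · have := he.1 rfl
          show 0 ≤ dt u (w z) + dt u (1, 0)
          simp only at this
          omega
        · show 0 ≤ dt u (w z) + dt u (0, 1)
          simp only at k0
          omega
      · rw [Shrink_dt_add]
        obtain ⟨z, i⟩ := e
        fin_cases i
        · simpa [dt] using k1
        · show dt u (w z) + dt u (1, 0) < _
          simp only at k1
          omega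
        · have := he.2 rfl
          show dt u (w z) + dt u (0, 1) < _
          simp only at this
          omega
      · rw [QuotientAddGroup.mk_add, dlmk, hw]
      · rw [QuotientAddGroup.mk_add, dlmk]
  choose r hr0 hr1 hr' hr using RY
  have b2t : ∀ e, C e → (b2 e).1 + dl (((1, 0) : ℤ × ℤ) : (ℤ × ℤ) ⧸ Lt u v) (((0, 1) : ℤ × ℤ) : (ℤ × ℤ) ⧸ Lt u v) (b2 e).2 =
      ((w e.1 + dl (1, 0) (0, 1) e.2 : ℤ × ℤ) : (ℤ × ℤ) ⧸ Lt u v) := by
    intro e he
    rw [hb2, ← dlmk]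
    simp only
    rw [← QuotientAddGroup.mk_add]
    congr 1
    rcases (hC e).1 he with he | he
    · rw [he.1]
      show w e.1 + (1, -1) + (0, 1) = w e.1 + (1, 0)
      rw [add_assoc]
      rfl
    · rw [he.1]
      show w e.1 + (-1, 1) + (1, 0) = w e.1 + (0, 1)
      rw [add_assoc]
      rfl
  have b0t : ∀ e, (b0 e).1 + dl (((1, 0) : ℤ × ℤ) : (ℤ × ℤ) ⧸ Lt u v) (((0, 1) : ℤ × ℤ) : (ℤ × ℤ) ⧸ Lt u v) (b0 e).2 =
      ((w e.1 + dl (1, 0) (0, 1) e.2 : ℤ × ℤ) : (ℤ × ℤ) ⧸ Lt u v) := by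
    intro e
    rw [hb0, ← dlmk]
    rfl
  refine mdl3 (HT (Lt u v')) m b0 b1 b2 C ?_ ?_ ?_ ?_ ?_ (fun e a => a = b0 e ∨ (C e ∧ (a = b2 e ∨ a = b1 e)))
    (fun e a => Iff.rfl) ?_ ?_ ?_
  · intro e he
    rw [hb1, if_neg he]
  · intro e he
    have h4 : b2 e = b0 e ∨ SO (HT (Lt u v)).t (b0 e) (b2 e) := by
      unfold HT
      rw [Shrink_t, b2t e he, b0t]
    rcases h4 with h4 | h4
    · exfalso
      rw [hb2, hb0, Prod.mk.injEq] at h4
      exact FX' e _ he h4.1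
    · exact h4
  · intro e he
    have h4 : b1 e = b2 e ∨ SO (HT (Lt u v)).s (b2 e) (b1 e) := by
      unfold HT
      rw [Shrink_s, hb1, if_pos he, hb2]
    rcases h4 with h4 | h4
    · exfalso
      rw [hb1, if_pos he, hb2, Prod.mk.injEq] at h4
      have h5 := h4.2
      rcases (hC e).1 he with he | he
      · rw [he.1] at h5
        exact absurd h5 (by decide)
      · rw [he.1] at h5
        exact absurd h5 (by decide)
    · exact h4
  · intro e f
    unfold HT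
    rw [Shrink_s, Shrink_s, hb0, hb0]
    exact injw _ _
  · intro e f
    unfold HT
    rw [Shrink_t, Shrink_t, ← hr, ← hr, ← hr', ← hr']
    exact inj _ _ (hr0 _) (hr1 _) (hr0 _) (hr1 _)
  · rintro e f a hef (ha | ⟨he, ha⟩) (hb | ⟨hf, hb⟩)
    · rw [ha, hb0, hb0, Prod.mk.injEq, injw] at hb
      exact hef (Prod.ext hb.1 hb.2)
    · have h4 : a.1 = ((w f.1 + Shrink_d f.2 : ℤ × ℤ) : (ℤ × ℤ) ⧸ Lt u v) := by
        rcases hb with hb | hb
        · rw [hb, hb2]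
        · rw [hb, hb1, if_pos hf]
      refine FX' f e.1 hf ?_
      rw [← h4, ha, hb0]
    · have h4 : a.1 = ((w e.1 + Shrink_d e.2 : ℤ × ℤ) : (ℤ × ℤ) ⧸ Lt u v) := by
        rcases ha with hb | hb
        · rw [hb, hb2]
        · rw [hb, hb1, if_pos he]
      refine FX' e f.1 he ?_
      rw [← h4, hb, hb0]
    · have h4 : a.1 = ((w e.1 + Shrink_d e.2 : ℤ × ℤ) : (ℤ × ℤ) ⧸ Lt u v) := by
        rcases ha with hb | hb
        · rw [hb, hb2]
        · rw [hb, hb1, if_pos he]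
      have h5 : a.1 = ((w f.1 + Shrink_d f.2 : ℤ × ℤ) : (ℤ × ℤ) ⧸ Lt u v) := by
        rcases hb with hb | hb
        · rw [hb, hb2]
        · rw [hb, hb1, if_pos hf]
      exact hef (FX e f he hf (h4.symm.trans h5))
  · intro e f a b hef ha hb h
    unfold HT at h ⊢
    rw [Shrink_s] at h ⊢
    rcases ha with ha | ⟨he, ha⟩
    · rw [ha]
    · exfalso
      have h4 : a.1 = ((w e.1 + Shrink_d e.2 : ℤ × ℤ) : (ℤ × ℤ) ⧸ Lt u v) := by
        rcases ha with hb | hb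
        · rw [hb, hb2]
        · rw [hb, hb1, if_pos he]
      rcases hb with hb | ⟨hf, hb⟩
      · refine FX' e f.1 he ?_
        rw [← h4, ← h, hb, hb0]
      · have h5 : b.1 = ((w f.1 + Shrink_d f.2 : ℤ × ℤ) : (ℤ × ℤ) ⧸ Lt u v) := by
          rcases hb with hb | hb
          · rw [hb, hb2]
          · rw [hb, hb1, if_pos hf]
        exact hef (FX e f he hf (by rw [← h4, ← h5, h]))
  · intro e f a b hef ha hb h
    unfold HT at h ⊢
    rw [Shrink_t] at h ⊢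
    have key : a = b1 e ∨ (C e ∧ a.1 + dl (((1, 0) : ℤ × ℤ) : (ℤ × ℤ) ⧸ Lt u v) (((0, 1) : ℤ × ℤ) : (ℤ × ℤ) ⧸ Lt u v) a.2 =
        ((w e.1 + dl (1, 0) (0, 1) e.2 : ℤ × ℤ) : (ℤ × ℤ) ⧸ Lt u v)) := by
      rcases ha with ha | ⟨he, ha | ha⟩
      · by_cases he : C e
        · exact Or.inr ⟨he, by rw [ha, b0t]⟩
        · left
          rw [ha, hb1, if_neg he]
      · exact Or.inr ⟨he, by rw [ha, b2t e he]⟩
      · exact Or.inl ha
    have key2 : b = b1 f ∨ (C f ∧ b.1 + dl (((1, 0) : ℤ × ℤ) : (ℤ × ℤ) ⧸ Lt u v) (((0, 1) : ℤ × ℤ) : (ℤ × ℤ) ⧸ Lt u v) b.2 =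
        ((w f.1 + dl (1, 0) (0, 1) f.2 : ℤ × ℤ) : (ℤ × ℤ) ⧸ Lt u v)) := by
      rcases hb with hb | ⟨hf, hb | hb⟩
      · by_cases hf : C f
        · exact Or.inr ⟨hf, by rw [hb, b0t]⟩
        · left
          rw [hb, hb1, if_neg hf]
      · exact Or.inr ⟨hf, by rw [hb, b2t f hf]⟩
      · exact Or.inl hb
    rcases key with key | ⟨he, key⟩
    · rw [key]
    · exfalso
      rcases key2 with key2 | ⟨hf, key2⟩
      · refine FY' e (r f) he (hr0 f) (hr1 f) ?_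
        rw [← key, ← h, key2, ← hr]
      · exact hef (FY e f he hf (by rw [← key, ← key2, h]))

end Pool.Agent.PP
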