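import Pool.Agent.Lib_MP_7c0803_tor.Faces0

/-!
# Descent to a graph without parallel edges and 4-cycles, with connectivity and Euler characteristic

As `exists_stuck` in `Lib_MP_7c0803_pp/TopB.lean`; in addition keep `Cn` and `Chi0`: for `Th` the reduced graph is empty (`Th.empty` in
`Conn.lean`), so `Con` holds for it (`red_con` with `Red.empty`), which contradicts `¬ Con` (`theta_Con`); for `Dg` use `Dg.conn`,
`Dg.chi0`; for `Sq` use `Sq.conn` (one of `Q`, `Q.flip` gives a connected graph) and `Sq.chi0`, `square_PC`, `square_Con`, `mdl_Sq`.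
-/

set_option autoImplicit false

open Finset Function

namespace Pool.Agent.PP

universe u v

private lemma Stuck0_card_lt {E : Type v} [Fintype E] [DecidableEq E] (R : Finset E) (x : E) (hx : x ∈ R) :
    Fintype.card {e // e ∉ R} < Fintype.card E :=
  Fintype.card_subtype_lt (x := x) (by simpa using hx)

theorem exists_stuck0 {V : Type u} {G : SimpleGraph V} (N : ℕ) : ∀ (E : Type v) [Fintype E] (B : CB E) (tw : E → Bool),
    Fintype.card E ≤ N → Nonempty (Mdl B G) → B.PC → ¬ B.Con → B.Cn → B.Chi0 tw →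
    ∃ (E' : Type v) (_ : Fintype E') (B' : CB E') (tw' : E' → Bool), Nonempty (Mdl B' G) ∧ B'.PC ∧ ¬ B'.Con ∧ B'.Cn ∧
      B'.Chi0 tw' ∧ ((∀ e, tw e = false) → ∀ e, tw' e = false) ∧ Nonempty E' ∧
      IsEmpty (Th B') ∧ IsEmpty (Dg B') ∧ IsEmpty (Sq B') := by
  induction N with
  | zero =>
    intro E _ B tw hN _ _ hnC _ _
    exfalso
    have : IsEmpty E := Fintype.card_eq_zero_iff.mp (by omega)
    exact hnC (red_con E B (Red.empty E B this) (fun c c' _ _ => by rw [Subsingleton.elim c c']))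
  | succ N ih =>
    intro E _ B tw hN hm hp hnC hcn hchi
    classical
    obtain ⟨m⟩ := hm
    by_cases hT : Nonempty (Th B)
    · obtain ⟨Q⟩ := hT
      exfalso
      have hE := Q.empty hcn
      exact hnC (theta_Con Q (red_con _ _ (Red.empty _ _ hE) (fun c c' _ _ => by rw [Subsingleton.elim c c'])))
    by_cases hD : Nonempty (Dg B)
    · obtain ⟨Q⟩ := hD
      have hlt := Stuck0_card_lt Q.redn.R Q.e (by simp [Dg.redn_R])
      obtain ⟨tw', h1, h2⟩ := Q.chi0 tw hchi
      obtain ⟨E', hF, B', tw'', a1, a2, a3, a4, a5, a6, a7⟩ := ih _ _ tw' (by omega) (mdl_Dg m Q) (digon_PC Q hp)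
        (fun h => hnC (digon_Con Q h)) (Q.conn hcn) h1
      exact ⟨E', hF, B', tw'', a1, a2, a3, a4, a5, fun h => a6 (h2 h), a7⟩
    by_cases hS : Nonempty (Sq B)
    · obtain ⟨Q⟩ := hS
      have key : ∀ Q : Sq B, (B.red Q.redn).Cn → ∃ (E' : Type v) (_ : Fintype E') (B' : CB E') (tw' : E' → Bool),
          Nonempty (Mdl B' G) ∧ B'.PC ∧ ¬ B'.Con ∧ B'.Cn ∧
          B'.Chi0 tw' ∧ ((∀ e, tw e = false) → ∀ e, tw' e = false) ∧ Nonempty E' ∧
          IsEmpty (Th B') ∧ IsEmpty (Dg B') ∧ IsEmpty (Sq B') := by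
        intro Q hQ
        have hlt := Stuck0_card_lt Q.redn.R Q.e1 (by simp [Sq.redn_R])
        obtain ⟨tw', h1, h2⟩ := Q.chi0 tw hchi
        obtain ⟨E', hF, B', tw'', a1, a2, a3, a4, a5, a6, a7⟩ := ih _ _ tw' (by omega) (mdl_Sq m Q) (square_PC Q hp)
          (fun h => hnC (square_Con Q hp h)) hQ h1
        exact ⟨E', hF, B', tw'', a1, a2, a3, a4, a5, fun h => a6 (h2 h), a7⟩
      rcases Q.conn hcn with h | h
      · exact key Q h
      · exact key Q.flip h
    · refine ⟨E, inferInstance, B, tw, ⟨m⟩, hp, hnC, hcn, hchi, fun h => h, ?_, not_nonempty_iff.mp hT,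
        not_nonempty_iff.mp hD, not_nonempty_iff.mp hS⟩
      by_contra hE
      rw [not_nonempty_iff] at hE
      exact hnC (red_con E B (Red.empty E B hE) (fun c c' _ _ => by rw [Subsingleton.elim c c']))

end Pool.Agent.PP
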