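import Pool.Agent.Lib_MP_7c0803_tor.Main2
import Pool.Agent.Lib_MP_7c0803_tor.Shrink
import Pool.Agent.Lib_MP_7c0803_tor.CoordT
import Pool.Agent.Lib_MP_7c0803_tor.Stuck0
import Pool.Agent.Lib_MP_7c0803_tor.Hex
import Pool.Agent.Lib_MP_7c0803_tor.Hea

/-!
# The toroidal theorem
-/

set_option autoImplicit false

open Finset Function

namespace Pool.Agent.PP

open SimpleGraph

universe u v w

/-- the class of the lattices whose torus is a topological minor of `X` -/
lemma cl_mdl {V : Type w} (X : SimpleGraph V) : Cl (fun L => Nonempty (Mdl (HT L) X)) where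
  rho := fun L ⟨m⟩ => by
    obtain ⟨i⟩ := uiso_rho L
    exact i.mdl m
  tau := fun L ⟨m⟩ => by
    obtain ⟨i⟩ := uiso_tau L
    exact i.mdl m
  shr := fun u v h1 h2 h3 h4 h5 ⟨m⟩ => shrink u v h1 h2 h3 h4 h5 m

/-- a torus with constant parity and more than one Kempe class contains the Heawood graph -/
theorem heawood_of_bad {V : Type w} {X : SimpleGraph V} (L : AddSubgroup (ℤ × ℤ)) (n : ℤ) (hn : 0 < n) (h1 : (n, (0 : ℤ)) ∈ L)
    (h2 : ((0 : ℤ), n) ∈ L) (h3 : ∀ x ∈ L, x ≠ 0 → 3 ≤ nrm x) (hB : Bad.{u} L) (m : Mdl (HT L) X) :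
    ContainsSubdivision heawoodGraph X := by
  obtain ⟨m'⟩ := main_torus (cl_mdl X) L n hn h1 h2 h3 ⟨m⟩ hB
  exact heawood_of_mdl m'

variable {V : Type u} {G : SimpleGraph V}

lemma edge_count [Finite V] (κ : G.Coloring Bool)
    (hcub : ∀ v, (G.neighborSet v).ncard = 3) : 3 * Nat.card V = 2 * Nat.card G.edgeSet := by
  classical
  have : Fintype V := Fintype.ofFinite V
  have : Finite G.edgeSet := inferInstance
  have : Finite G.Dart := Finite.of_equiv _ (dartEquiv κ).symm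
  have h1 : Nat.card G.Dart = Nat.card G.edgeSet * 2 := by
    rw [Nat.card_congr (dartEquiv κ), Nat.card_prod]
    simp
  have h2 : Nat.card G.Dart = ∑ v : V, Nat.card {d : G.Dart // d.fst = v} := by
    rw [← Nat.card_congr (Equiv.sigmaFiberEquiv (fun d : G.Dart => d.fst)), Nat.card_sigma]
  have h3 : ∀ v : V, Nat.card {d : G.Dart // d.fst = v} = 3 := by
    intro v
    have := card_out hcub v
    rw [← Nat.card_coe_set_eq] at this
    exact this
  simp_rw [h3] at h2
  rw [Finset.sum_const, Finset.card_univ, smul_eq_mul, ← Nat.card_eq_fintype_card] at h2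
  omega

theorem chi0_iff [Finite V] (M : Emb G) (κ : G.Coloring Bool) (hcub : ∀ v, (G.neighborSet v).ncard = 3) :
    Nat.card G.edgeSet ≤ Nat.card V + Nat.card M.Face ↔ (toCB M κ hcub).Chi0 (twE M κ) := by
  unfold CB.Chi0
  rw [faces_card M κ hcub]
  have h := edge_count κ hcub
  omega

/-- **Torus.** -/
theorem kc_torus [Finite V] (M : Emb G) (κ : G.Coloring Bool) (hcub : ∀ v, (G.neighborSet v).ncard = 3)
    (hG : G.Connected) (htw : ∀ d, M.tw d = false) (hχ : Nat.card G.edgeSet ≤ Nat.card V + Nat.card M.Face)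
    (hH : ¬ ContainsSubdivision heawoodGraph G) (hE : EvenFlips G) : Kc G.lineGraph 3 = 1 := by
  classical
  by_contra hK
  have : Fintype G.edgeSet := Fintype.ofFinite _
  have hp : (toCB M κ hcub).PC := (PC_iff M κ hcub).2 hE
  have hnC : ¬ (toCB M κ hcub).Con := fun h => hK ((Kc_iff M κ hcub).2 h)
  obtain ⟨E', hF, B', tw', ⟨m⟩, hp', hnC', hC', hχ', ht', hne, hT, hD, hS⟩ :=
    exists_stuck0 _ _ (toCB M κ hcub) (twE M κ) le_rfl (mdl0 M κ hcub) hp hnC (cn_of_connected M κ hcub hG)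
      ((chi0_iff M κ hcub).1 hχ)
  have h6 := hexagons B' tw' hχ' hT hD hS
  have h3 := st3 B' tw' (ht' fun e => htw _) h6
  obtain ⟨L, n, hn, h1, h2, hnm, ⟨i⟩⟩ := coord_torus B' hC' h3 hT hD hS
  obtain ⟨m'⟩ := i.mdl m
  exact hH (heawood_of_bad L n hn h1 h2 hnm ⟨E', hF, B', hp', hnC', ⟨i⟩⟩ m')

end Pool.Agent.PP
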