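import Pool.Agent.Lib_MP_7c0803_tor.KSharp
import Pool.Agent.Lib_MP_7c0803_tor.Final

/-!
# The second obstruction in the Klein bottle

An embedding with three twisted edges and nine (hexagonal) faces.
-/

set_option autoImplicit false

open Finset Function

namespace Pool.Agent.PP

open SimpleGraph

private def KEmb_A (u v : (Fin 3 × Fin 3) × Bool) : Prop :=
  (u.2 = false ∧ v.2 = true ∧ ∃ j, kf 2 2 0 j u.1 = v.1) ∨ (v.2 = false ∧ u.2 = true ∧ ∃ j, kf 2 2 0 j v.1 = u.1)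

private instance KEmb_dec (u v : (Fin 3 × Fin 3) × Bool) : Decidable (KEmb_A u v) :=
  inferInstanceAs (Decidable ((u.2 = false ∧ v.2 = true ∧ ∃ j, kf 2 2 0 j u.1 = v.1) ∨
    (v.2 = false ∧ u.2 = true ∧ ∃ j, kf 2 2 0 j v.1 = u.1)))

private def KEmb_nx (u : (Fin 3 × Fin 3) × Bool) (k : Fin 3) : (Fin 3 × Fin 3) × Bool :=
  if u.2 = false then (kf 2 2 0 k u.1, true) else ((kf 2 2 0 k).symm u.1, false)

private def KEmb_sl (u v : (Fin 3 × Fin 3) × Bool) : Fin 3 :=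
  if u.2 = false then (if kf 2 2 0 0 u.1 = v.1 then 0 else if kf 2 2 0 1 u.1 = v.1 then 1 else 2)
  else (if kf 2 2 0 0 v.1 = u.1 then 0 else if kf 2 2 0 1 v.1 = u.1 then 1 else 2)

private lemma KEmb_adj : ∀ (u : (Fin 3 × Fin 3) × Bool) (k : Fin 3), KEmb_A u (KEmb_nx u k) := by decide +kernel

private lemma KEmb_slnx : ∀ (u : (Fin 3 × Fin 3) × Bool) (k : Fin 3), KEmb_sl u (KEmb_nx u k) = k := by decide +kernel

private lemma KEmb_nxsl : ∀ (u v : (Fin 3 × Fin 3) × Bool), KEmb_A u v →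
    KEmb_nx u (KEmb_sl u v) = v ∧ KEmb_sl v u = KEmb_sl u v := by decide +kernel

/-- the darts: a vertex and a slot -/
private def KEmb_ph : kleinGraph.Dart ≃ ((Fin 3 × Fin 3) × Bool) × Fin 3 where
  toFun d := (d.fst, KEmb_sl d.fst d.snd)
  invFun p := ⟨(p.1, KEmb_nx p.1 p.2), KEmb_adj p.1 p.2⟩
  left_inv d := by
    apply Dart.ext
    show (d.fst, KEmb_nx d.fst (KEmb_sl d.fst d.snd)) = d.toProd
    rw [(KEmb_nxsl _ _ d.adj).1]
  right_inv p := by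
    show (p.1, KEmb_sl p.1 (KEmb_nx p.1 p.2)) = p
    rw [KEmb_slnx]

private def KEmb_rot : Equiv.Perm kleinGraph.Dart :=
  (KEmb_ph.trans (Equiv.prodCongr (Equiv.refl _) (Equiv.addRight 1))).trans KEmb_ph.symm

private lemma KEmb_rot_ph (d : kleinGraph.Dart) :
    KEmb_ph (KEmb_rot d) = ((KEmb_ph d).1, (KEmb_ph d).2 + 1) := by
  unfold KEmb_rot
  rw [Equiv.trans_apply, Equiv.apply_symm_apply, Equiv.trans_apply]
  rfl

private lemma KEmb_rotinv_ph (d : kleinGraph.Dart) :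
    KEmb_ph (KEmb_rot.symm d) = ((KEmb_ph d).1, (KEmb_ph d).2 + 2) := by
  obtain ⟨d', rfl⟩ := KEmb_rot.surjective d
  rw [Equiv.symm_apply_apply, KEmb_rot_ph]
  have h : ∀ k : Fin 3, k + 1 + 2 = k := by decide
  show _ = ((KEmb_ph d').1, (KEmb_ph d').2 + 1 + 2)
  rw [h]

private lemma KEmb_symm_ph (d : kleinGraph.Dart) :
    KEmb_ph d.symm = (KEmb_nx (KEmb_ph d).1 (KEmb_ph d).2, (KEmb_ph d).2) := by
  have h1 := KEmb_nxsl d.fst d.snd d.adj
  show (d.snd, KEmb_sl d.snd d.fst) = (KEmb_nx d.fst (KEmb_sl d.fst d.snd), KEmb_sl d.fst d.snd)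
  rw [h1.1, h1.2]

/-- the twisted edges: slot `0` on the level `0` -/
private def KEmb_tw (u : (Fin 3 × Fin 3) × Bool) (k : Fin 3) : Bool := decide (k = 0 ∧ u.1.1 = 0)

private lemma KEmb_tw_nx : ∀ (u : (Fin 3 × Fin 3) × Bool) (k : Fin 3), KEmb_tw (KEmb_nx u k) k = KEmb_tw u k := by
  decide +kernel

/-- the embedding -/
private def KEmb_M : Emb kleinGraph where
  rot := KEmb_rot
  rot_fst d := by
    have h := congrArg Prod.fst (KEmb_rot_ph d)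
    exact h
  rot_trans d d' h := by
    have h3 : ∀ k k' : Fin 3, k' = k ∨ k' = k + 1 ∨ k' = k + 1 + 1 := by decide
    have e1 : (KEmb_ph d).1 = (KEmb_ph d').1 := h
    rcases h3 (KEmb_ph d).2 (KEmb_ph d').2 with h4 | h4 | h4
    · refine ⟨0, KEmb_ph.injective ?_⟩
      rw [pow_zero, Equiv.Perm.one_apply]
      exact Prod.ext e1 h4.symm
    · refine ⟨1, KEmb_ph.injective ?_⟩
      rw [pow_one, KEmb_rot_ph]
      exact Prod.ext e1 h4.symm
    · refine ⟨2, KEmb_ph.injective ?_⟩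
      rw [pow_two, Equiv.Perm.mul_apply, KEmb_rot_ph, KEmb_rot_ph]
      exact Prod.ext e1 h4.symm
  tw := fun d => KEmb_tw (KEmb_ph d).1 (KEmb_ph d).2
  tw_symm := fun d => by
    rw [KEmb_symm_ph]
    exact KEmb_tw_nx _ _

private def KEmb_tab : List (Fin 9) := [0, 1, 2, 0, 1, 2, 3, 0, 4, 3, 0, 4, 1, 3, 5, 1, 3, 5, 4, 2, 6, 4, 2, 6, 5, 4, 7, 5, 4, 7, 2, 5, 8, 2, 5, 8, 7, 6, 0, 7,
  6, 0, 8, 7, 1, 8, 7, 1, 6, 8, 3, 6, 8, 3, 0, 1, 7, 0, 1, 7, 3, 0, 6, 3, 0, 6, 1, 3, 8, 1, 3, 8, 2, 4, 0, 2, 4, 0, 4, 5,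
  3, 4, 5, 3, 5, 2, 1, 5, 2, 1, 6, 7, 4, 6, 7, 4, 7, 8, 5, 7, 8, 5, 8, 6, 2, 8, 6, 2]

private def KEmb_F (u : (Fin 3 × Fin 3) × Bool) (k : Fin 3) (o : Bool) : Fin 9 :=
  KEmb_tab.getD (((((if u.2 = false then 0 else 9) + 3 * u.1.1.val + u.1.2.val) * 3 + k.val)) * 2 +
    (if o = true then 1 else 0)) 0

private lemma KEmb_F1 : ∀ (u : (Fin 3 × Fin 3) × Bool) (k : Fin 3) (o : Bool),
    KEmb_F (KEmb_nx u k) (if xor o (KEmb_tw u k) = true then k + 1 else k + 2) (xor o (KEmb_tw u k)) =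
      KEmb_F u k o := by decide +kernel

private lemma KEmb_F3 : ∀ (u : (Fin 3 × Fin 3) × Bool) (k : Fin 3) (o : Bool),
    KEmb_F (KEmb_nx u k) k (!(xor o (KEmb_tw u k))) = KEmb_F u k o := by decide +kernel

private def KEmb_f (a : kleinGraph.Dart × Bool) : Fin 9 := KEmb_F (KEmb_ph a.1).1 (KEmb_ph a.1).2 a.2

private lemma KEmb_next (a : kleinGraph.Dart × Bool) : KEmb_f (KEmb_M.next a) = KEmb_f a := by
  obtain ⟨d, o⟩ := a
  have e : KEmb_M.next (d, o) = (if xor o (KEmb_tw (KEmb_ph d).1 (KEmb_ph d).2) then KEmb_rot d.symm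
    else KEmb_rot.symm d.symm, xor o (KEmb_tw (KEmb_ph d).1 (KEmb_ph d).2)) := rfl
  have h := KEmb_F1 (KEmb_ph d).1 (KEmb_ph d).2 o
  rw [e]
  unfold KEmb_f
  by_cases hx : xor o (KEmb_tw (KEmb_ph d).1 (KEmb_ph d).2) = true
  · rw [hx, if_pos rfl] at h
    show KEmb_F (KEmb_ph (if xor o (KEmb_tw (KEmb_ph d).1 (KEmb_ph d).2) = true then KEmb_rot d.symm
      else KEmb_rot.symm d.symm)).1 (KEmb_ph (if xor o (KEmb_tw (KEmb_ph d).1 (KEmb_ph d).2) = true then KEmb_rot d.symm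
      else KEmb_rot.symm d.symm)).2 (xor o (KEmb_tw (KEmb_ph d).1 (KEmb_ph d).2)) = _
    rw [if_pos hx, hx, KEmb_rot_ph, KEmb_symm_ph]
    exact h
  · have hy : xor o (KEmb_tw (KEmb_ph d).1 (KEmb_ph d).2) = false := by simpa using hx
    rw [hy, if_neg (by decide)] at h
    show KEmb_F (KEmb_ph (if xor o (KEmb_tw (KEmb_ph d).1 (KEmb_ph d).2) = true then KEmb_rot d.symm
      else KEmb_rot.symm d.symm)).1 (KEmb_ph (if xor o (KEmb_tw (KEmb_ph d).1 (KEmb_ph d).2) = true then KEmb_rot d.symm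
      else KEmb_rot.symm d.symm)).2 (xor o (KEmb_tw (KEmb_ph d).1 (KEmb_ph d).2)) = _
    rw [if_neg hx, hy, KEmb_rotinv_ph, KEmb_symm_ph]
    exact h

private lemma KEmb_back (a : kleinGraph.Dart × Bool) : KEmb_f (KEmb_M.back a) = KEmb_f a := by
  obtain ⟨d, o⟩ := a
  have e : KEmb_M.back (d, o) = (d.symm, !(xor o (KEmb_tw (KEmb_ph d).1 (KEmb_ph d).2))) := rfl
  rw [e]
  unfold KEmb_f
  show KEmb_F (KEmb_ph d.symm).1 (KEmb_ph d.symm).2 (!(xor o (KEmb_tw (KEmb_ph d).1 (KEmb_ph d).2))) = _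
  rw [KEmb_symm_ph]
  exact KEmb_F3 _ _ _

private lemma KEmb_surj (i : Fin 9) : ∃ a, KEmb_f a = i := by
  have h : ∀ i : Fin 9, ∃ (u : (Fin 3 × Fin 3) × Bool) (k : Fin 3) (o : Bool), KEmb_F u k o = i := by decide +kernel
  obtain ⟨u, k, o, h1⟩ := h i
  refine ⟨(KEmb_ph.symm (u, k), o), ?_⟩
  unfold KEmb_f
  rw [Equiv.apply_symm_apply]
  exact h1

private lemma KEmb_face : 9 ≤ Nat.card KEmb_M.Face := by
  classical
  have : Finite kleinGraph.Dart := Finite.of_equiv _ KEmb_ph.symm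
  have : Finite KEmb_M.Face := Quot.finite _
  let g : KEmb_M.Face → Fin 9 := Quot.lift KEmb_f (by
    rintro a b (h | h)
    · rw [← h, KEmb_next]
    · rw [← h, KEmb_back])
  have hg : Function.Surjective g := by
    intro i
    obtain ⟨a, ha⟩ := KEmb_surj i
    exact ⟨Quot.mk _ a, ha⟩
  have h := Nat.card_le_card_of_surjective g hg
  rwa [Nat.card_eq_fintype_card, Fintype.card_fin] at h

/-- the graph has an embedding in the Klein bottle -/
theorem klein_embedded : ∃ M : Emb kleinGraph,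
    Nat.card kleinGraph.edgeSet ≤ Nat.card ((Fin 3 × Fin 3) × Bool) + Nat.card M.Face := by
  obtain ⟨-, h1, h2, -, -⟩ := klein_facts
  obtain ⟨κ⟩ := col_of_colorable h1
  have h3 := edge_count κ h2
  have h4 : Nat.card ((Fin 3 × Fin 3) × Bool) = 18 := by simp
  have h5 := KEmb_face
  exact ⟨KEmb_M, by omega⟩

end Pool.Agent.PP
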