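import Pool.Agent.Lib_MP_7c0803_tor.KIso

/-!
# Klein bottle: at least three levels and at least three positions

Proof plan.  Two edges `a`, `b` of the double cover with the same `X`-end: `SO (dc B tw).s a b`; then `SO B.s a.1 b.1` (`SO_dc_s`); `Y`-ends: the
same with `SO_dc_t`.  `SO` for `φ`: `φ x i`, `φ x j` (`i ≠ j`) have the same `X`-end, `φ x i`, `φ y j` with `x + δ i = y + δ j`, `i ≠ j` the same
`Y`-end (`hs`, `ht`, twice for `j = i + 2`).
`k = 0`: `(1, -1)` is a period: `φ 0 1`, `φ 0 2 = φ (1, -1) 2` have the same `Y`-end and the same `X`-end: `Th` or `Dg`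
(`CoordT_par'`, private in `CoordT.lean`, copy it).
`k = 1`: `(2, -2)` is a period: the 4-cycle `φ 0 1`, `φ (1, -1) 2`, `φ (1, -1) 1`, `φ (2, -2) 2 = φ 0 2` (`Y`-ends `(1, 0)` and `(2, -1)`):
`Sq` (`CoordT_sq`, private, copy it).
`m = 0`: `fl (φ x i) = φ (tau x + (1 - c, c)) (-i)`.  Choose `x` with `tau x + (1 - c, c) = x + (1, 0)` (`x = (0, c)`: `tau x + (1 - c, c) =
(c + 1 - c, c) = (1, c)`).  So `φ x 0` and `φ (x + (1, 0)) 0` have the same first component `e`; `φ x 1` has the same `X`-end as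
`φ x 0` and the same `Y`-end `x + (1, 0)` as `φ (x + (1, 0)) 0`.  So `e` and `f = (φ x 1).1` have both ends in common: `Th` or `Dg`.
`m = 1`: choose `x = (0, c - 1)`: `tau x + (2 - c, c) = (c - 1 + 2 - c, c) = (1, c) = x + (1, 1)`.  4-cycle in `B`: first components of `φ x 1`,
`φ (x + (1, 0)) 0` (`Y`-end `x + (1, 0)`), `φ (x + (1, 0)) 2`, `φ (x + (1, 1)) 0` (`Y`-end `x + (1, 1)`), and `φ (x + (1, 1)) 0 =
fl (φ x 0)` has the same `X`-end in `B` as `φ x 1`.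
-/

set_option autoImplicit false

open Finset Function

namespace Pool.Agent.PP

universe u

variable {E : Type u}

private lemma KBig_tri {s : Equiv.Perm E} (s3 : ∀ e, s (s (s e)) = e) {e f : E}
    (h : SO s e f) : ∃ g, Tri s g e f := by
  rcases h with rfl | rfl
  · exact ⟨s (s e), Or.inl ⟨s3 e, rfl, rfl⟩⟩
  · exact ⟨s e, Or.inr ⟨rfl, s3 e, rfl⟩⟩

private lemma KBig_par (G : CB E) {e f g h : E} (hg : Tri G.s g e f) (hh : Tri G.t h e f) :
    Nonempty (Th G) ∨ Nonempty (Dg G) := by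
  by_cases hgh : g = h
  · subst hgh
    exact Or.inl ⟨⟨e, f, g, hg, hh⟩⟩
  · exact Or.inr ⟨⟨e, f, g, h, hg, hh, hgh⟩⟩

private lemma KBig_par' (G : CB E) {e f : E} (hg : SO G.s e f) (hh : SO G.t e f) :
    Nonempty (Th G) ∨ Nonempty (Dg G) := by
  obtain ⟨g, hg⟩ := KBig_tri G.s3 hg
  obtain ⟨h, hh⟩ := KBig_tri G.t3 hh
  exact KBig_par G hg hh

private def KBig_v (s : Equiv.Perm E) (e : E) : Set E := {f | f = e ∨ f = s e ∨ f = s (s e)}

private lemma KBig_v_s {s : Equiv.Perm E} (s3 : ∀ e, s (s (s e)) = e) (e : E) :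
    KBig_v s (s e) = KBig_v s e := by
  ext f
  simp only [KBig_v, Set.mem_ofPred_eq, s3]
  tauto

private lemma KBig_v_tri {s : Equiv.Perm E} (s3 : ∀ e, s (s (s e)) = e) {x y z : E}
    (h : Tri s x y z) : KBig_v s x = KBig_v s y ∧ KBig_v s y = KBig_v s z := by
  rcases h with ⟨h1, h2, h3⟩ | ⟨h1, h2, h3⟩
  · constructor
    · rw [← h1, KBig_v_s s3]
    · rw [← h2, KBig_v_s s3]
  · constructor
    · rw [← h3, KBig_v_s s3]
    · rw [← h2, KBig_v_s s3]

private lemma KBig_eq (G : CB E) (hP : ¬ (Nonempty (Th G) ∨ Nonempty (Dg G))) {e f : E}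
    (h1 : KBig_v G.s e = KBig_v G.s f) (h2 : KBig_v G.t e = KBig_v G.t f) : e = f := by
  by_contra hne
  have m1 : f ∈ KBig_v G.s e := by
    rw [h1]
    exact Or.inl rfl
  have m2 : f ∈ KBig_v G.t e := by
    rw [h2]
    exact Or.inl rfl
  rcases m1 with m1 | m1
  · exact hne m1.symm
  rcases m2 with m2 | m2
  · exact hne m2.symm
  exact hP (KBig_par' G m1 m2)

private lemma KBig_sq (G : CB E) (hP : ¬ (Nonempty (Th G) ∨ Nonempty (Dg G)))
    {e1 e2 e3 e4 x y z w : E} (ta : Tri G.s x e1 e4) (tb : Tri G.t y e1 e2)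
    (tc : Tri G.s z e3 e2) (td : Tri G.t w e3 e4) : Nonempty (Sq G) := by
  obtain ⟨A1, A2⟩ := KBig_v_tri G.s3 ta
  obtain ⟨B1, B2⟩ := KBig_v_tri G.t3 tb
  obtain ⟨C1, C2⟩ := KBig_v_tri G.s3 tc
  obtain ⟨D1, D2⟩ := KBig_v_tri G.t3 td
  obtain ⟨a1, a2, a3⟩ := ta.ne G.s1
  obtain ⟨b1, b2, b3⟩ := tb.ne G.t1
  obtain ⟨c1, c2, c3⟩ := tc.ne G.s1
  obtain ⟨d1, d2, d3⟩ := td.ne G.t1
  have hAC : KBig_v G.s e1 ≠ KBig_v G.s e3 := fun h =>
    b3 (KBig_eq G hP (h.trans C2) B2)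
  have hBD : KBig_v G.t e1 ≠ KBig_v G.t e3 := fun h =>
    a3 (KBig_eq G hP A2 (h.trans D2))
  refine ⟨⟨e1, e2, e3, e4, x, y, z, w, ta, tb, tc, td, ?_⟩⟩
  have n13 : e1 ≠ e3 := by rintro rfl; exact hAC rfl
  have n24 : e2 ≠ e4 := by rintro rfl; exact hAC (A2.trans C2.symm)
  have n1z : e1 ≠ z := by rintro rfl; exact hAC C1
  have n1w : e1 ≠ w := by rintro rfl; exact hBD D1
  have n2x : e2 ≠ x := by rintro rfl; exact hAC (A1.symm.trans C2.symm)
  have n2w : e2 ≠ w := by rintro rfl; exact hBD (B2.trans D1)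
  have n3x : e3 ≠ x := by rintro rfl; exact hAC A1.symm
  have n3y : e3 ≠ y := by rintro rfl; exact hBD B1.symm
  have n4y : e4 ≠ y := by rintro rfl; exact hBD (B1.symm.trans D2.symm)
  have n4z : e4 ≠ z := by rintro rfl; exact hAC (A2.trans C1)
  have nxz : x ≠ z := by rintro rfl; exact hAC (A1.symm.trans C1)
  have nyw : y ≠ w := by rintro rfl; exact hBD (B1.symm.trans D1)
  have nxy : x ≠ y := by rintro rfl; exact a1 (KBig_eq G hP A1 B1)
  have nxw : x ≠ w := by rintro rfl; exact a2 (KBig_eq G hP (A1.trans A2) (D1.trans D2))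
  have nyz : y ≠ z := by rintro rfl; exact b2 (KBig_eq G hP (C1.trans C2) (B1.trans B2))
  have nzw : z ≠ w := by rintro rfl; exact c1 (KBig_eq G hP C1 D1)
  simp only [List.nodup_cons, List.mem_cons, not_or, List.not_mem_nil, not_false_eq_true,
    List.nodup_nil, and_true]
  exact ⟨⟨b3, n13, a3, a1.symm, b1.symm, n1z, n1w⟩, ⟨c3.symm, n24, n2x, b2.symm, c2.symm, n2w⟩,
    ⟨d3, n3x, n3y, c1.symm, d1.symm⟩, ⟨a2.symm, n4y, n4z, d2.symm⟩, ⟨nxy, nxz, nxw⟩, ⟨nyz, nyw⟩,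
    nzw⟩

private lemma KBig_sq' (G : CB E) (hP : ¬ (Nonempty (Th G) ∨ Nonempty (Dg G))) {e1 e2 e3 e4 : E}
    (h14 : SO G.s e1 e4) (h12 : SO G.t e1 e2) (h32 : SO G.s e3 e2) (h34 : SO G.t e3 e4) :
    Nonempty (Sq G) := by
  obtain ⟨x, hx⟩ := KBig_tri G.s3 h14
  obtain ⟨y, hy⟩ := KBig_tri G.t3 h12
  obtain ⟨z, hz⟩ := KBig_tri G.s3 h32
  obtain ⟨w, hw⟩ := KBig_tri G.t3 h34
  exact KBig_sq G hP hx hy hz hw

private lemma KBig_S {B : CB E} {tw : E → Bool} {m k : ℕ} {c : ℤ} (K : KCo B tw m k c) (x : ℤ × ℤ)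
    (i j : Fin 3) (hj : j ≠ i) : SO B.s (K.φ x i).1 (K.φ x j).1 := by
  have h : SO (dc B tw).s (K.φ x i) (K.φ x j) := by
    rw [← fin3_ne_iff] at hj
    rcases hj with rfl | rfl
    · exact Or.inl (K.hs x i).symm
    · refine Or.inr ?_
      rw [K.hs, K.hs]
  exact ((SO_dc_s B tw (K.φ x i).1 (K.φ x j).1 (K.φ x i).2 (K.φ x j).2).1 h).1

private lemma KBig_T {B : CB E} {tw : E → Bool} {m k : ℕ} {c : ℤ} (K : KCo B tw m k c) (x y : ℤ × ℤ)
    (i j : Fin 3) (hj : j ≠ i) (hy : y = x + dl (1, 0) (0, 1) i - dl (1, 0) (0, 1) j) :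
    SO B.t (K.φ x i).1 (K.φ y j).1 := by
  subst hy
  have h : SO (dc B tw).t (K.φ x i) (K.φ (x + dl (1, 0) (0, 1) i - dl (1, 0) (0, 1) j) j) := by
    rw [← fin3_ne_iff] at hj
    rcases hj with rfl | rfl
    · exact Or.inl (K.ht x i).symm
    · refine Or.inr ?_
      rw [K.ht, K.ht]
      congr 1
      abel
  exact ((SO_dc_t B tw (K.φ x i).1 _ (K.φ x i).2 _).1 h).1

private lemma KBig_f {B : CB E} {tw : E → Bool} {m k : ℕ} {c : ℤ} (K : KCo B tw m k c) (x y : ℤ × ℤ)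
    (hy : y = tau x + ((m : ℤ) + 1 - c, c)) : (K.φ x 0).1 = (K.φ y 0).1 := by
  subst hy
  have h := congrArg Prod.fst (K.hf x 0)
  rw [neg_zero] at h
  exact h

theorem KCo.big {B : CB E} {tw : E → Bool} {m k : ℕ} {c : ℤ} (K : KCo B tw m k c) (hT : IsEmpty (Th B)) (hD : IsEmpty (Dg B))
    (hS : IsEmpty (Sq B)) : 2 ≤ m ∧ 2 ≤ k := by
  have hP : ¬ (Nonempty (Th B) ∨ Nonempty (Dg B)) := by
    rintro (h | h)
    · exact not_isEmpty_iff.2 h hT
    · exact not_isEmpty_iff.2 h hD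
  have h10 : (1 : Fin 3) ≠ 0 := by decide
  have h12 : (1 : Fin 3) ≠ 2 := by decide
  have h20 : (2 : Fin 3) ≠ 0 := by decide
  constructor
  · by_contra hm
    rcases (show m = 0 ∨ m = 1 by omega) with rfl | rfl
    · have e1 : (K.φ (0, c) 0).1 = (K.φ (1, c) 0).1 := by
        refine KBig_f K _ _ ?_
        refine Prod.ext ?_ ?_
        · simp
        · simp
      have e2 := KBig_T K (0, c) (1, c) 1 0 h10.symm (by simp)
      rw [← e1] at e2
      exact hP (KBig_par' B (KBig_S K (0, c) 1 0 h10.symm) e2)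
    · have e1 : (K.φ (0, c - 1) 0).1 = (K.φ (1, c) 0).1 := by
        refine KBig_f K _ _ ?_
        refine Prod.ext ?_ ?_
        · show (1 : ℤ) = c - 1 + (((1 : ℕ) : ℤ) + 1 - c)
          push_cast
          ring
        · simp
      have a1 := KBig_S K (0, c - 1) 1 0 h10.symm
      have a2 := KBig_T K (0, c - 1) (1, c - 1) 1 0 h10.symm (by simp)
      have a3 := KBig_S K (1, c - 1) 2 0 h20.symm
      have a4 := KBig_T K (1, c - 1) (1, c) 2 0 h20.symm (by simp)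
      rw [← e1] at a4
      exact not_isEmpty_iff.2 (KBig_sq' B hP a1 a2 a3 a4) hS
  · by_contra hk
    rcases (show k = 0 ∨ k = 1 by omega) with rfl | rfl
    · have e1 : K.φ (1, -1) 2 = K.φ (0, 0) 2 := by
        rw [K.inj]
        exact ⟨rfl, 0, 1, by simp⟩
      have e2 := KBig_T K (0, 0) (1, -1) 1 2 h12.symm (by simp)
      rw [e1] at e2
      exact hP (KBig_par' B (KBig_S K (0, 0) 1 2 h12.symm) e2)
    · have e1 : K.φ (2, -2) 2 = K.φ (0, 0) 2 := by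
        rw [K.inj]
        exact ⟨rfl, 0, 1, by simp⟩
      have a1 := KBig_S K (0, 0) 1 2 h12.symm
      have a2 := KBig_T K (0, 0) (1, -1) 1 2 h12.symm (by simp)
      have a3 := KBig_S K (1, -1) 1 2 h12.symm
      have a4 := KBig_T K (1, -1) (2, -2) 1 2 h12.symm (by simp)
      rw [e1] at a4
      exact not_isEmpty_iff.2 (KBig_sq' B hP a1 a2 a3 a4) hS

end Pool.Agent.PP
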