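import Pool.Agent.Lib_MP_7c0803_tor.Iso

/-!
# A general construction of models

`mdl3`: the new edges `e : E'` run along `b0 e` (and, if `C e`, then back along `b2 e` and forward along `b1 e`).
It is close to `TopA_gen` and its use in `mdl_Dg` in `Lib_MP_7c0803_pp/TopA.lean` (private there; copy what you need):
`vx' e = m.vx (b0 e)`, `vy' e = m.vy (b1 e)`, the path is `m.P (b0 e)` or (if `C e`) the walk `m.P (b0 e)`, `(m.P (b2 e)).reverse`,
`m.P (b1 e)` (with `Walk.copy`, `m.hy`, `m.hx`), made a path by `Walk.bypass`.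
-/

set_option autoImplicit false

open Finset Function

namespace Pool.Agent.PP

universe u v w

private theorem Mdl3_walk {E : Type u} {E' : Type v} {V : Type w} {X : SimpleGraph V} {B : CB E} (m : Mdl B X)
    (b0 b1 b2 : E' → E) (C : E' → Prop) (hC0 : ∀ e, ¬ C e → b1 e = b0 e)
    (hC1 : ∀ e, C e → SO B.t (b0 e) (b2 e)) (hC2 : ∀ e, C e → SO B.s (b2 e) (b1 e)) (e : E') :
    ∃ p : X.Walk (m.vx (b0 e)) (m.vy (b1 e)), ∀ x ∈ p.support,
      ∃ a, (a = b0 e ∨ (C e ∧ (a = b2 e ∨ a = b1 e))) ∧ x ∈ (m.P a).support := by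
  by_cases h : C e
  · have hy2 : m.vy (b0 e) = m.vy (b2 e) := (m.hy _ _).2 (Or.inr (hC1 e h))
    have hx2 : m.vx (b2 e) = m.vx (b1 e) := (m.hx _ _).2 (Or.inr (hC2 e h))
    refine ⟨((m.P (b0 e)).append ((m.P (b2 e)).reverse.copy hy2.symm hx2)).append (m.P (b1 e)), ?_⟩
    intro x hx
    rw [SimpleGraph.Walk.mem_support_append_iff, SimpleGraph.Walk.mem_support_append_iff,
      SimpleGraph.Walk.support_copy, SimpleGraph.Walk.support_reverse, List.mem_reverse] at hx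
    rcases hx with (hx | hx) | hx
    · exact ⟨_, Or.inl rfl, hx⟩
    · exact ⟨_, Or.inr ⟨h, Or.inl rfl⟩, hx⟩
    · exact ⟨_, Or.inr ⟨h, Or.inr rfl⟩, hx⟩
  · refine ⟨(m.P (b0 e)).copy rfl (by rw [hC0 e h]), ?_⟩
    intro x hx
    rw [SimpleGraph.Walk.support_copy] at hx
    exact ⟨_, Or.inl rfl, hx⟩

theorem mdl3 {E : Type u} {E' : Type v} {V : Type w} {X : SimpleGraph V} {B : CB E} (B' : CB E') (m : Mdl B X)
    (b0 b1 b2 : E' → E) (C : E' → Prop) (hC0 : ∀ e, ¬ C e → b1 e = b0 e)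
    (hC1 : ∀ e, C e → SO B.t (b0 e) (b2 e)) (hC2 : ∀ e, C e → SO B.s (b2 e) (b1 e))
    (hx : ∀ e f, (b0 f = b0 e ∨ SO B.s (b0 e) (b0 f)) ↔ (f = e ∨ SO B'.s e f))
    (hy : ∀ e f, (b1 f = b1 e ∨ SO B.t (b1 e) (b1 f)) ↔ (f = e ∨ SO B'.t e f))
    (S : E' → E → Prop) (hS : ∀ e a, S e a ↔ (a = b0 e ∨ (C e ∧ (a = b2 e ∨ a = b1 e))))
    (hd : ∀ e f a, e ≠ f → S e a → S f a → False)
    (h1 : ∀ e f a b, e ≠ f → S e a → S f b → (b = a ∨ SO B.s a b) → (a = b0 e ∨ SO B.s (b0 e) a))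
    (h2 : ∀ e f a b, e ≠ f → S e a → S f b → (b = a ∨ SO B.t a b) → (a = b1 e ∨ SO B.t (b1 e) a)) :
    Nonempty (Mdl B' X) := by
  classical
  choose p hp using Mdl3_walk m b0 b1 b2 C hC0 hC1 hC2
  have hS1 : ∀ e, S e (b0 e) := fun e => (hS e _).2 (Or.inl rfl)
  have hS2 : ∀ e, S e (b1 e) := by
    intro e
    rw [hS]
    by_cases h : C e
    · exact Or.inr ⟨h, Or.inr rfl⟩
    · exact Or.inl (hC0 e h)
  have hsup : ∀ e x, x ∈ (p e).bypass.support → ∃ a, S e a ∧ x ∈ (m.P a).support := by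
    intro e x hx
    obtain ⟨a, ha, hxa⟩ := hp e x ((p e).support_bypass_subset_support hx)
    exact ⟨a, (hS e a).2 ha, hxa⟩
  exact ⟨{
    vx := fun e => m.vx (b0 e)
    vy := fun e => m.vy (b1 e)
    hx := fun e f => (m.hx _ _).trans (hx e f)
    hy := fun e f => (m.hy _ _).trans (hy e f)
    hxy := fun e f => m.hxy _ _
    P := fun e => (p e).bypass
    path := fun e => (p e).bypass_isPath
    ix := by
      intro e f h
      show m.vx (b0 f) = m.vx (b0 e)
      by_cases hef : e = f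
      · rw [hef]
      · obtain ⟨a, ha, hxa⟩ := hsup e _ h
        have h3 : m.vx (b0 f) = m.vx a := m.ix a _ hxa
        rw [h3]
        exact ((m.hx _ _).2 (h1 e f a (b0 f) hef ha (hS1 f) ((m.hx _ _).1 h3.symm))).symm
    iy := by
      intro e f h
      show m.vy (b1 f) = m.vy (b1 e)
      by_cases hef : e = f
      · rw [hef]
      · obtain ⟨a, ha, hxa⟩ := hsup e _ h
        have h3 : m.vy (b1 f) = m.vy a := m.iy a _ hxa
        rw [h3]
        exact ((m.hy _ _).2 (h2 e f a (b1 f) hef ha (hS2 f) ((m.hy _ _).1 h3.symm))).symm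
    disj := by
      intro e f x hef hx hx'
      obtain ⟨a, ha, hxa⟩ := hsup e _ hx
      obtain ⟨b, hb, hxb⟩ := hsup f _ hx'
      have hab : a ≠ b := fun h => hd e f a hef ha (h ▸ hb)
      show x = m.vx (b0 e) ∨ x = m.vy (b1 e)
      rcases m.disj a b x hab hxa hxb with h3 | h3
      · rcases m.disj b a x (Ne.symm hab) hxb hxa with h4 | h4
        · left
          rw [h3]
          exact ((m.hx _ _).2 (h1 e f a b hef ha hb ((m.hx _ _).1 (h3.symm.trans h4)))).symm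
        · exact (m.hxy a b (h3.symm.trans h4)).elim
      · rcases m.disj b a x (Ne.symm hab) hxb hxa with h4 | h4
        · exact (m.hxy b a (h4.symm.trans h3)).elim
        · right
          rw [h3]
          exact ((m.hy _ _).2 (h2 e f a b hef ha hb ((m.hy _ _).1 (h3.symm.trans h4)))).symm }⟩

end Pool.Agent.PP
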