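import Pool.Agent.Lib_MP_7c0803_tor.KDefs
import Pool.Agent.Lib_MP_7c0803_tor.Mdl3

/-!
# Klein bottle: remove the position 0

Proof plan (`mdl3`, the hypotheses were checked by a program).  The new vertex `(l, i)` is the old vertex `(l, i + 1)` (`i.succ`).  New edge
`((l, i), j)`: `b0 = ((l, i.succ), j)`; if `i = 0` and `j = 2` the path is `((l, 1), 2)`, `((l, 0), 1)` backwards, `((l, 0), 2)`:
`C e ↔ (i = 0 ∧ j = 2)`, `b2 = ((l, 0), 1)`, `b1 = ((l, 0), 2)`.  Inner vertices: `Y (l + 1, 0)` (or `Y (0, 0)` for the last `l`)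
and `X (l, 0)`.  The new reflection constant is `-1`.
-/

set_option autoImplicit false

open Finset Function

namespace Pool.Agent.PP

universe u v w

private lemma KCol_s {A : Type u} (f : Fin 3 → Equiv.Perm A) (e g : A × Fin 3) :
    (g = e ∨ SO (BG f).s e g) ↔ g.1 = e.1 := by
  obtain ⟨x, i⟩ := e
  obtain ⟨y, j⟩ := g
  rw [SO_BG_s]
  by_cases h : j = i
  · subst h; simp
  · simp [h]

private lemma KCol_t {A : Type u} (f : Fin 3 → Equiv.Perm A) (e g : A × Fin 3) :
    (g = e ∨ SO (BG f).t e g) ↔ f g.2 g.1 = f e.2 e.1 := by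
  obtain ⟨x, i⟩ := e
  obtain ⟨y, j⟩ := g
  rw [SO_BG_t]
  by_cases h : j = i
  · subst h; simp
  · simp [h]

/-- the embedding of the vertices -/
private def KCol_em {m k : ℕ} (p : Fin (m + 1) × Fin (k + 1)) : Fin (m + 1) × Fin (k + 2) :=
  (p.1, p.2.succ)

private lemma KCol_em_inj {m k : ℕ} {p q : Fin (m + 1) × Fin (k + 1)} :
    KCol_em p = KCol_em q ↔ p = q := by
  constructor
  · intro h
    have h1 := congrArg Prod.fst h
    have h2 := congrArg Prod.snd h
    exact Prod.ext h1 (Fin.succ_injective _ h2)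
  · intro h
    rw [h]

/-- the next level -/
private def KCol_nx {m : ℕ} (l : Fin (m + 1)) : Fin (m + 1) := if l = Fin.last m then 0 else l + 1

private lemma KCol_nx_inj {m : ℕ} {l l' : Fin (m + 1)} (h : KCol_nx l = KCol_nx l') : l = l' := by
  have h1 : ∀ l : Fin (m + 1), KCol_nx l = l + 1 := by
    intro l
    unfold KCol_nx
    split_ifs with h
    · rw [h, Fin.last_add_one]
    · rfl
  rw [h1, h1] at h
  exact add_right_cancel h

private lemma KCol_neg_succ {k : ℕ} (i : Fin (k + 1)) : -i.succ = ((-1 : Fin (k + 1)) - i).succ := by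
  rw [neg_eq_iff_add_eq_zero, ← Fin.val_inj]
  have h1 : (-1 : Fin (k + 1)) - i = Fin.rev i := by
    rw [sub_eq_iff_eq_add, eq_comm, eq_neg_iff_add_eq_zero, ← Fin.val_inj, Fin.val_add,
      Fin.val_add, Fin.val_rev]
    have hi := i.isLt
    rcases Nat.eq_zero_or_pos k with hk | hk
    · subst hk
      simp
    · have h2 : ((1 : Fin (k + 1)) : ℕ) = 1 := by
        rw [Fin.val_one', Nat.mod_eq_of_lt (by omega)]
      rw [h2, Nat.mod_add_mod, Fin.val_zero]
      have h3 : k + 1 - (i.val + 1) + i.val + 1 = k + 1 := by omega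
      rw [h3, Nat.mod_self]
  rw [h1, Fin.val_add, Fin.val_succ, Fin.val_succ, Fin.val_rev, Fin.val_zero]
  have hi := i.isLt
  have h3 : i.val + 1 + (k + 1 - (i.val + 1) + 1) = k + 1 + 1 := by omega
  rw [h3, Nat.mod_self]

private lemma KCol_succ_sub {k : ℕ} (i : Fin (k + 1)) (hi : i ≠ 0) :
    i.succ - 1 = (i - 1).succ := by
  rw [sub_eq_iff_eq_add, ← Fin.val_inj, Fin.val_add, Fin.val_succ, Fin.val_succ]
  have h0 : i.val ≠ 0 := fun h => hi (Fin.ext h)
  have h1 := i.isLt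
  have h2 : ((1 : Fin (k + 1 + 1)) : ℕ) = 1 := by
    rw [Fin.val_one', Nat.mod_eq_of_lt (by omega)]
  have h3 : ((i - 1 : Fin (k + 1)) : ℕ) = i.val - 1 := by
    rw [Fin.val_sub_one_of_ne_zero hi]
  rw [h2, h3]
  have h4 : i.val - 1 + 1 + 1 = i.val + 1 := by omega
  rw [h4, Nat.mod_eq_of_lt (by omega)]

private lemma KCol_neg {k : ℕ} (i : Fin (k + 1)) (hi : i ≠ 0) :
    (0 : Fin (k + 1 + 1)) + 1 - i.succ = ((-1 : Fin (k + 1)) + 1 - i).succ := by
  have h1 : (0 : Fin (k + 1 + 1)) + 1 - i.succ = -(i.succ - 1) := by abel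
  have h2 : (-1 : Fin (k + 1)) + 1 - i = -1 - (i - 1) := by abel
  rw [h1, h2, KCol_succ_sub i hi, KCol_neg_succ]

theorem kb_col {V : Type w} {X : SimpleGraph V} (m k : ℕ) (M : Mdl (KB m (k + 1) 0) X) :
    Nonempty (Mdl (KB m k (-1)) X) := by
  classical
  obtain ⟨C, hC⟩ : ∃ C : (Fin (m + 1) × Fin (k + 1)) × Fin 3 → Prop, ∀ e, C e ↔
      (e.1.2 = 0 ∧ e.2 = 2) := ⟨_, fun e => Iff.rfl⟩
  obtain ⟨b0, hb0⟩ : ∃ b0 : (Fin (m + 1) × Fin (k + 1)) × Fin 3 →
      (Fin (m + 1) × Fin (k + 1 + 1)) × Fin 3, ∀ e, b0 e = (KCol_em e.1, e.2) := ⟨_, fun e => rfl⟩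
  obtain ⟨b2, hb2⟩ : ∃ b2 : (Fin (m + 1) × Fin (k + 1)) × Fin 3 →
      (Fin (m + 1) × Fin (k + 1 + 1)) × Fin 3, ∀ e, b2 e = ((e.1.1, 0), 1) := ⟨_, fun e => rfl⟩
  obtain ⟨b1, hb1⟩ : ∃ b1 : (Fin (m + 1) × Fin (k + 1)) × Fin 3 →
      (Fin (m + 1) × Fin (k + 1 + 1)) × Fin 3, ∀ e, b1 e = if C e then ((e.1.1, 0), 2) else b0 e :=
    ⟨_, fun e => rfl⟩
  have hsucc : ∀ i : Fin (k + 1), i.succ ≠ 0 := fun i => Fin.succ_ne_zero i
  -- the Y-vertices
  have hY1 : ∀ e, kf m (k + 1) 0 (b1 e).2 (b1 e).1 = KCol_em (kf m k (-1) e.2 e.1) := by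
    rintro ⟨⟨l, i⟩, j⟩
    by_cases he : C ((l, i), j)
    · rw [hb1, if_pos he]
      obtain ⟨h1, h2⟩ := (hC _).1 he
      simp only at h1 h2
      subst h1
      subst h2
      rw [kf_two, kf_two]
      unfold KCol_em
      simp only
      split_ifs with hl
      · refine Prod.ext rfl ?_
        show (0 : Fin (k + 1 + 1)) + 1 - 0 = ((-1 : Fin (k + 1)) + 1 - 0).succ
        have h3 : (-1 : Fin (k + 1)) + 1 - 0 = 0 := by abel
        rw [h3, sub_zero, zero_add]
        exact Fin.succ_zero_eq_one.symm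
      · refine Prod.ext rfl ?_
        show (0 : Fin (k + 1 + 1)) - 1 = ((0 : Fin (k + 1)) - 1).succ
        rw [zero_sub, zero_sub]
        have h3 := KCol_neg_succ (0 : Fin (k + 1))
        rw [sub_zero] at h3
        rw [← h3]
        congr 1
    · rw [hb1, if_neg he, hb0]
      rw [hC] at he
      have hj : j = 0 ∨ j = 1 ∨ j = 2 := by
        clear he
        revert j
        decide
      rcases hj with rfl | rfl | rfl
      · rw [kf_zero, kf_zero]
      · rw [kf_one, kf_one]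
        unfold KCol_em
        simp only
        split_ifs with hl
        · refine Prod.ext rfl ?_
          show (0 : Fin (k + 1 + 1)) - i.succ = _
          rw [zero_sub]
          exact KCol_neg_succ i
        · rfl
      · have hi : i ≠ 0 := fun h => he ⟨h, rfl⟩
        rw [kf_two, kf_two]
        unfold KCol_em
        simp only
        split_ifs with hl
        · exact Prod.ext rfl (KCol_neg i hi)
        · exact Prod.ext rfl (KCol_succ_sub i hi)
  have hY0 : ∀ e, C e → kf m (k + 1) 0 (b0 e).2 (b0 e).1 = (KCol_nx e.1.1, 0) := by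
    rintro ⟨⟨l, i⟩, j⟩ he
    rw [hb0]
    obtain ⟨h1, h2⟩ := (hC _).1 he
    simp only at h1 h2
    subst h1
    subst h2
    rw [kf_two]
    unfold KCol_em KCol_nx
    simp only
    have h4 : (0 : Fin (k + 1)).succ = 1 := Fin.succ_zero_eq_one
    split_ifs with hl
    · refine Prod.ext rfl ?_
      show (0 : Fin (k + 1 + 1)) + 1 - (0 : Fin (k + 1)).succ = 0
      rw [h4]
      abel
    · refine Prod.ext rfl ?_
      show (0 : Fin (k + 1)).succ - 1 = 0
      rw [h4, sub_self]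
  have hY2 : ∀ e, C e → kf m (k + 1) 0 (b2 e).2 (b2 e).1 = (KCol_nx e.1.1, 0) := by
    rintro ⟨⟨l, i⟩, j⟩ he
    rw [hb2]
    rw [kf_one]
    unfold KCol_nx
    simp only
    split_ifs with hl
    · exact Prod.ext rfl (sub_zero _)
    · rfl
  have hCC : ∀ e f, C e → C f → e.1.1 = f.1.1 → e = f := by
    intro e f he hf h
    obtain ⟨h1, h2⟩ := (hC _).1 he
    obtain ⟨h3, h4⟩ := (hC _).1 hf
    exact Prod.ext (Prod.ext h (h1.trans h3.symm)) (h2.trans h4.symm)
  have hX : ∀ e a, C e → (a = b2 e ∨ a = b1 e) → a.1 = (e.1.1, 0) := by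
    rintro e a he (ha | ha)
    · rw [ha, hb2]
    · rw [ha, hb1, if_pos he]
  refine mdl3 (KB m k (-1)) M b0 b1 b2 C ?_ ?_ ?_ ?_ ?_
    (fun e a => a = b0 e ∨ (C e ∧ (a = b2 e ∨ a = b1 e))) (fun e a => Iff.rfl) ?_ ?_ ?_
  · intro e he
    rw [hb1, if_neg he]
  · intro e he
    have h4 : b2 e = b0 e ∨ SO (KB m (k + 1) 0).t (b0 e) (b2 e) := by
      unfold KB
      rw [KCol_t, hY2 e he, hY0 e he]
    rcases h4 with h4 | h4
    · exfalso
      rw [hb2, hb0] at h4
      have h5 := congrArg (fun p => p.1.2) h4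
      exact hsucc _ h5.symm
    · exact h4
  · intro e he
    have h4 : b1 e = b2 e ∨ SO (KB m (k + 1) 0).s (b2 e) (b1 e) := by
      unfold KB
      rw [KCol_s, hb1, if_pos he, hb2]
    rcases h4 with h4 | h4
    · exfalso
      rw [hb1, if_pos he, hb2] at h4
      have h5 : (2 : Fin 3) = 1 := congrArg Prod.snd h4
      exact absurd h5 (by decide)
    · exact h4
  · intro e f
    unfold KB
    rw [KCol_s, KCol_s, hb0, hb0]
    exact KCol_em_inj
  · intro e f
    unfold KB
    rw [KCol_t, KCol_t, hY1, hY1]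
    exact KCol_em_inj
  · rintro e f a hef (ha | ⟨he, ha⟩) (hb | ⟨hf, hb⟩)
    · rw [ha, hb0, hb0] at hb
      have h1 := KCol_em_inj.1 (congrArg Prod.fst hb)
      have h2 := congrArg Prod.snd hb
      exact hef (Prod.ext h1 h2)
    · have h4 := hX f a hf hb
      rw [ha, hb0] at h4
      exact hsucc _ (congrArg Prod.snd h4)
    · have h4 := hX e a he ha
      rw [hb, hb0] at h4
      exact hsucc _ (congrArg Prod.snd h4)
    · have h4 := hX e a he ha
      have h5 := hX f a hf hb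
      rw [h4] at h5
      exact hef (hCC e f he hf (Prod.mk.inj h5).1)
  · intro e f a b hef ha hb h
    unfold KB at h ⊢
    rw [KCol_s] at h ⊢
    rcases ha with ha | ⟨he, ha⟩
    · rw [ha]
    · exfalso
      have h4 := hX e a he ha
      rcases hb with hb | ⟨hf, hb⟩
      · rw [h4, hb, hb0] at h
        exact hsucc _ (congrArg Prod.snd h)
      · have h5 := hX f b hf hb
        rw [h4, h5] at h
        exact hef (hCC e f he hf (congrArg Prod.fst h).symm)
  · intro e f a b hef ha hb h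
    unfold KB at h ⊢
    rw [KCol_t] at h ⊢
    have key : ∀ e a, (a = b0 e ∨ (C e ∧ (a = b2 e ∨ a = b1 e))) →
        a = b1 e ∨ (C e ∧ kf m (k + 1) 0 a.2 a.1 = (KCol_nx e.1.1, 0)) := by
      rintro e a (ha | ⟨he, ha | ha⟩)
      · by_cases he : C e
        · exact Or.inr ⟨he, by rw [ha, hY0 e he]⟩
        · left
          rw [ha, hb1, if_neg he]
      · exact Or.inr ⟨he, by rw [ha, hY2 e he]⟩
      · exact Or.inl ha
    rcases key e a ha with ka | ⟨he, ka⟩
    · rw [ka]
    · exfalso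
      rcases key f b hb with kb | ⟨hf, kb⟩
      · rw [ka, kb, hY1] at h
        exact hsucc _ (congrArg Prod.snd h)
      · rw [ka, kb] at h
        exact hef (hCC e f he hf (KCol_nx_inj (congrArg Prod.fst h)).symm)

end Pool.Agent.PP
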