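import Pool.Agent.Lib_MP_7c0803_tor.KDefs
import Pool.Agent.Lib_MP_7c0803_tor.Mdl3

/-!
# Klein bottle: remove a level

Proof plan (`mdl3`, the hypotheses were checked by a program).  New edges `((l, i), j)` with `l < m`: the same edge (`l.castSucc`).
Last level `l = m`: `b0 = ((m + 1, i), j)`; for `j = 0` the path is `((m + 1, i), 0)`, `((m, i), 1)` backwards, `((m, i), 0)`:
`C e ↔ (l = m ∧ j = 0)`, `b2 = ((m, i), 1)`, `b1 = ((m, i), 0)`.
The new `X`-vertex `(l, i)` is the old one for `l < m` and `(m + 1, i)` for `l = m`, the new `Y`-vertex `(l, i)` is the old one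
(`l.castSucc`); inner vertices: `Y (m + 1, i)` and `X (m, i)`.
-/

set_option autoImplicit false

open Finset Function

namespace Pool.Agent.PP

universe u v w

private lemma KRow_s (m k : ℕ) (r : Fin (k + 1)) (e f : (Fin (m + 1) × Fin (k + 1)) × Fin 3) :
    (f = e ∨ SO (KB m k r).s e f) ↔ f.1 = e.1 := by
  obtain ⟨x, i⟩ := e
  obtain ⟨y, j⟩ := f
  unfold KB
  rw [SO_BG_s]
  by_cases h : j = i
  · subst h; simp
  · simp [h]

private lemma KRow_t (m k : ℕ) (r : Fin (k + 1)) (e f : (Fin (m + 1) × Fin (k + 1)) × Fin 3) :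
    (f = e ∨ SO (KB m k r).t e f) ↔ kf m k r f.2 f.1 = kf m k r e.2 e.1 := by
  obtain ⟨x, i⟩ := e
  obtain ⟨y, j⟩ := f
  unfold KB
  rw [SO_BG_t]
  by_cases h : j = i
  · subst h; simp
  · simp [h]

/-- the old level of the new level (`X`-vertices) -/
private def KRow_l {m : ℕ} (l : Fin (m + 1)) : Fin (m + 2) :=
  if l = Fin.last m then Fin.last (m + 1) else l.castSucc

private lemma KRow_l_inj {m : ℕ} {l l' : Fin (m + 1)} (h : KRow_l l = KRow_l l') : l = l' := by
  unfold KRow_l at h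
  split_ifs at h with h1 h2 h2
  · rw [h1, h2]
  · exact ((Fin.castSucc_lt_last l').ne h.symm).elim
  · exact ((Fin.castSucc_lt_last l).ne h).elim
  · exact Fin.castSucc_injective _ h

private lemma KRow_l_ne {m : ℕ} (l : Fin (m + 1)) : KRow_l l ≠ (Fin.last m).castSucc := by
  intro h
  unfold KRow_l at h
  split_ifs at h with h1
  · exact (Fin.castSucc_lt_last (Fin.last m)).ne h.symm
  · exact h1 (Fin.castSucc_injective _ h)

private lemma KRow_succ {m : ℕ} {l : Fin (m + 1)} (h : l ≠ Fin.last m) :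
    l.castSucc + 1 = (l + 1).castSucc := by
  apply Fin.ext
  rw [Fin.val_add_one_of_lt (Fin.castSucc_lt_last l), Fin.val_castSucc, Fin.val_castSucc,
    Fin.val_add_one_of_lt (Fin.lt_last_iff_ne_last.2 h)]

private lemma KRow_last (m : ℕ) : (Fin.last m).castSucc + 1 = Fin.last (m + 1) := by
  apply Fin.ext
  rw [Fin.val_add_one_of_lt (Fin.castSucc_lt_last _), Fin.val_castSucc, Fin.val_last, Fin.val_last]

private lemma KRow_fin : ∀ j : Fin 3, j ≠ 0 → j = 1 ∨ j = 2 := by decide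

theorem kb_row {V : Type w} {X : SimpleGraph V} (m k : ℕ) (r : Fin (k + 1)) (M : Mdl (KB (m + 1) k r) X) :
    Nonempty (Mdl (KB m k r) X) := by
  classical
  obtain ⟨C, hC⟩ : ∃ C : (Fin (m + 1) × Fin (k + 1)) × Fin 3 → Prop, ∀ e, C e ↔
      (e.1.1 = Fin.last m ∧ e.2 = 0) := ⟨_, fun e => Iff.rfl⟩
  obtain ⟨b0, hb0⟩ : ∃ b0 : (Fin (m + 1) × Fin (k + 1)) × Fin 3 → (Fin (m + 2) × Fin (k + 1)) × Fin 3,
      ∀ e, b0 e = ((KRow_l e.1.1, e.1.2), e.2) := ⟨_, fun e => rfl⟩
  obtain ⟨b2, hb2⟩ : ∃ b2 : (Fin (m + 1) × Fin (k + 1)) × Fin 3 → (Fin (m + 2) × Fin (k + 1)) × Fin 3,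
      ∀ e, b2 e = (((Fin.last m).castSucc, e.1.2), 1) := ⟨_, fun e => rfl⟩
  obtain ⟨b1, hb1⟩ : ∃ b1 : (Fin (m + 1) × Fin (k + 1)) × Fin 3 → (Fin (m + 2) × Fin (k + 1)) × Fin 3,
      ∀ e, b1 e = if C e then (((Fin.last m).castSucc, e.1.2), 0) else b0 e := ⟨_, fun e => rfl⟩
  -- the last `Y`-vertex
  have hY : ∀ e, kf (m + 1) k r (b1 e).2 (b1 e).1 =
      ((kf m k r e.2 e.1).1.castSucc, (kf m k r e.2 e.1).2) := by
    intro e
    by_cases he : C e
    · rw [hb1, if_pos he]
      obtain ⟨h1, h2⟩ := (hC e).1 he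
      show kf (m + 1) k r 0 ((Fin.last m).castSucc, e.1.2) = _
      rw [h2, kf_zero, kf_zero, h1]
    · rw [hb1, if_neg he, hb0]
      obtain ⟨⟨l, i⟩, j⟩ := e
      rw [hC] at he
      push Not at he
      show kf (m + 1) k r j (KRow_l l, i) = ((kf m k r j (l, i)).1.castSucc, (kf m k r j (l, i)).2)
      by_cases hl : l = Fin.last m
      · have hj := he hl
        simp only at hj
        have hl' : KRow_l l = Fin.last (m + 1) := if_pos hl
        rw [hl', hl]
        obtain hj2 | hj2 := KRow_fin j hj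
        · subst hj2
          rw [kf_one, kf_one, if_pos rfl, if_pos rfl]
          rfl
        · subst hj2
          rw [kf_two, kf_two, if_pos rfl, if_pos rfl]
          rfl
      · have hl' : KRow_l l = l.castSucc := if_neg hl
        rw [hl']
        have hl2 : l.castSucc ≠ Fin.last (m + 1) := (Fin.castSucc_lt_last l).ne
        fin_cases j
        · rfl
        · show kf (m + 1) k r 1 (l.castSucc, i) = ((kf m k r 1 (l, i)).1.castSucc, (kf m k r 1 (l, i)).2)
          rw [kf_one, kf_one, if_neg hl2, if_neg hl, KRow_succ hl]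
        · show kf (m + 1) k r 2 (l.castSucc, i) = ((kf m k r 2 (l, i)).1.castSucc, (kf m k r 2 (l, i)).2)
          rw [kf_two, kf_two, if_neg hl2, if_neg hl, KRow_succ hl]
  -- the middle `Y`-vertex
  have hY0 : ∀ e, C e → kf (m + 1) k r (b0 e).2 (b0 e).1 = (Fin.last (m + 1), e.1.2) := by
    intro e he
    obtain ⟨h1, h2⟩ := (hC e).1 he
    rw [hb0]
    show kf (m + 1) k r e.2 (KRow_l e.1.1, e.1.2) = _
    rw [h2, kf_zero, h1]
    exact Prod.ext (if_pos rfl) rfl
  have hY2 : ∀ e, kf (m + 1) k r (b2 e).2 (b2 e).1 = (Fin.last (m + 1), e.1.2) := by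
    intro e
    rw [hb2]
    show kf (m + 1) k r 1 ((Fin.last m).castSucc, e.1.2) = _
    rw [kf_one, if_neg (Fin.castSucc_lt_last (Fin.last m)).ne, KRow_last]
  have hCe : ∀ e f, C e → C f → e.1.2 = f.1.2 → e = f := by
    intro e f he hf h
    obtain ⟨h1, h2⟩ := (hC e).1 he
    obtain ⟨h3, h4⟩ := (hC f).1 hf
    exact Prod.ext (Prod.ext (h1.trans h3.symm) h) (h2.trans h4.symm)
  have hX1 : ∀ e a, C e → (a = b2 e ∨ a = b1 e) → a.1 = ((Fin.last m).castSucc, e.1.2) := by
    rintro e a he (ha | ha)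
    · rw [ha, hb2]
    · rw [ha, hb1, if_pos he]
  have hX2 : ∀ e i, (b0 e).1 ≠ ((Fin.last m).castSucc, i) := by
    intro e i h
    rw [hb0, Prod.mk.injEq] at h
    exact KRow_l_ne _ h.1
  refine mdl3 (KB m k r) M b0 b1 b2 C ?_ ?_ ?_ ?_ ?_ (fun e a => a = b0 e ∨ (C e ∧ (a = b2 e ∨ a = b1 e)))
    (fun e a => Iff.rfl) ?_ ?_ ?_
  · intro e he
    rw [hb1, if_neg he]
  · intro e he
    have h4 : b2 e = b0 e ∨ SO (KB (m + 1) k r).t (b0 e) (b2 e) := by
      rw [KRow_t, hY2, hY0 e he]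
    rcases h4 with h4 | h4
    · exact (hX2 e e.1.2 (by rw [← h4, hb2])).elim
    · exact h4
  · intro e he
    have h4 : b1 e = b2 e ∨ SO (KB (m + 1) k r).s (b2 e) (b1 e) := by
      rw [KRow_s, hX1 e _ he (Or.inr rfl), hX1 e _ he (Or.inl rfl)]
    rcases h4 with h4 | h4
    · exfalso
      rw [hb1, if_pos he, hb2, Prod.mk.injEq] at h4
      exact absurd h4.2 (by decide)
    · exact h4
  · intro e f
    rw [KRow_s, KRow_s, hb0, hb0]
    constructor
    · intro h
      rw [Prod.mk.injEq] at h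
      exact Prod.ext (KRow_l_inj h.1) h.2
    · intro h
      rw [h]
  · intro e f
    rw [KRow_t, KRow_t, hY, hY]
    constructor
    · intro h
      rw [Prod.mk.injEq] at h
      exact Prod.ext (Fin.castSucc_injective _ h.1) h.2
    · intro h
      rw [h]
  · rintro e f a hef (ha | ⟨he, ha⟩) (hb | ⟨hf, hb⟩)
    · rw [ha, hb0, hb0, Prod.mk.injEq, Prod.mk.injEq] at hb
      exact hef (Prod.ext (Prod.ext (KRow_l_inj hb.1.1) hb.1.2) hb.2)
    · have h4 := hX1 f a hf hb
      rw [ha] at h4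
      exact hX2 e _ h4
    · have h4 := hX1 e a he ha
      rw [hb] at h4
      exact hX2 f _ h4
    · have h4 := hX1 e a he ha
      have h5 := hX1 f a hf hb
      rw [h4, Prod.mk.injEq] at h5
      exact hef (hCe e f he hf h5.2)
  · intro e f a b hef ha hb h
    rw [KRow_s] at h ⊢
    rcases ha with ha | ⟨he, ha⟩
    · rw [ha]
    · exfalso
      have h4 := hX1 e a he ha
      rcases hb with hb | ⟨hf, hb⟩
      · refine hX2 f e.1.2 ?_
        rw [← hb, h, h4]
      · have h5 := hX1 f b hf hb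
        rw [h, h4, Prod.mk.injEq] at h5
        exact hef (hCe e f he hf h5.2)
  · intro e f a b hef ha hb h
    rw [KRow_t] at h ⊢
    have key : ∀ e a, (a = b0 e ∨ (C e ∧ (a = b2 e ∨ a = b1 e))) →
        a = b1 e ∨ (C e ∧ kf (m + 1) k r a.2 a.1 = (Fin.last (m + 1), e.1.2)) := by
      rintro e a (ha | ⟨he, ha | ha⟩)
      · by_cases he : C e
        · exact Or.inr ⟨he, by rw [ha, hY0 e he]⟩
        · left
          rw [ha, hb1, if_neg he]
      · exact Or.inr ⟨he, by rw [ha, hY2]⟩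
      · exact Or.inl ha
    rcases key e a ha with key1 | ⟨he, key1⟩
    · rw [key1]
    · exfalso
      rcases key f b hb with key2 | ⟨hf, key2⟩
      · rw [key2, hY, key1, Prod.mk.injEq] at h
        exact (Fin.castSucc_lt_last _).ne h.1
      · rw [key2, key1, Prod.mk.injEq] at h
        exact hef (hCe e f he hf h.2.symm)

end Pool.Agent.PP
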