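import Pool.Agent.Lib_MP_7c0803_tor.KRot
import Pool.Agent.Lib_MP_7c0803_tor.KRow
import Pool.Agent.Lib_MP_7c0803_tor.KCol

/-!
# Klein bottle: the smallest graph

`klein_of_mdl`: exactly as `heawood_of_mdl` in `Hea.lean` (finished): `f (a, false) = M.vx (a, 0)`, `f (a, true) = M.vy (a, 0)`
(`kf 2 2 0 0 a = a`), for a dart from `(a, false)` to `(b, true)` the slot `j` with `kf 2 2 0 j a = b` (unique: the three are different,
`decide`) and the path `M.P (a, j)`.

`klein_small`: induction on `m` (`kb_row`) and on `k` (`kb_all` to get the constant `0`, then `kb_col`), then `kb_all` and `klein_of_mdl`.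
-/

set_option autoImplicit false

open Finset Function

namespace Pool.Agent.PP

universe u v w

section model
variable {V : Type w} {X : SimpleGraph V} (m : Mdl (KB 2 2 0) X)

/-- the branch vertices -/
private def KHea_f (w : (Fin 3 × Fin 3) × Bool) : V := if w.2 = true then m.vy (w.1, 0) else m.vx (w.1, 0)

private lemma KHea_vx (x y : Fin 3 × Fin 3) (i j : Fin 3) : m.vx (x, i) = m.vx (y, j) ↔ y = x := by
  have h : SO (KB 2 2 0).s (x, i) (y, j) ↔ (y = x ∧ j ≠ i) := SO_BG_s _ _ _ _ _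
  rw [m.hx, h, Prod.mk.injEq]
  tauto

private lemma KHea_vy (x y : Fin 3 × Fin 3) (i j : Fin 3) :
    m.vy (x, i) = m.vy (y, j) ↔ kf 2 2 0 j y = kf 2 2 0 i x := by
  have h : SO (KB 2 2 0).t (x, i) (y, j) ↔ (kf 2 2 0 j y = kf 2 2 0 i x ∧ j ≠ i) := SO_BG_t _ _ _ _ _
  rw [m.hy, h, Prod.mk.injEq]
  constructor
  · rintro (⟨rfl, rfl⟩ | h)
    · rfl
    · exact h.1
  · intro h
    by_cases hij : j = i
    · subst hij
      exact Or.inl ⟨(kf 2 2 0 j).injective h, rfl⟩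
    · exact Or.inr ⟨h, hij⟩

/-- the `X`-end of an edge -/
private def KHea_X (e : (Fin 3 × Fin 3) × Fin 3) : (Fin 3 × Fin 3) × Bool := (e.1, false)

/-- the `Y`-end of an edge -/
private def KHea_Y (e : (Fin 3 × Fin 3) × Fin 3) : (Fin 3 × Fin 3) × Bool := (kf 2 2 0 e.2 e.1, true)

private lemma KHea_fX (e : (Fin 3 × Fin 3) × Fin 3) : KHea_f m (KHea_X e) = m.vx e :=
  (KHea_vx m e.1 e.1 0 e.2).2 rfl

private lemma KHea_fY (e : (Fin 3 × Fin 3) × Fin 3) : KHea_f m (KHea_Y e) = m.vy e :=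
  (KHea_vy m (kf 2 2 0 e.2 e.1) e.1 0 e.2).2 rfl

private lemma KHea_inj : Function.Injective (KHea_f m) := by
  rintro ⟨x, b⟩ ⟨y, c⟩ h
  cases b <;> cases c
  · have h1 : m.vx (x, 0) = m.vx (y, 0) := h
    rw [KHea_vx] at h1
    rw [h1]
  · exact absurd h (m.hxy _ _)
  · exact absurd h.symm (m.hxy _ _)
  · have h1 : m.vy (x, 0) = m.vy (y, 0) := h
    rw [KHea_vy, kf_zero, kf_zero] at h1
    rw [h1]

/-- `e` joins `u` and `v` -/
private def KHea_R (u v : (Fin 3 × Fin 3) × Bool) (e : (Fin 3 × Fin 3) × Fin 3) : Prop :=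
  (u = KHea_X e ∧ v = KHea_Y e) ∨ (u = KHea_Y e ∧ v = KHea_X e)

private lemma KHea_R_of_adj {u v : (Fin 3 × Fin 3) × Bool} (h : kleinGraph.Adj u v) : ∃ e, KHea_R u v e := by
  obtain ⟨x, b⟩ := u
  obtain ⟨y, c⟩ := v
  rcases h with ⟨h1, h2, j, h3⟩ | ⟨h1, h2, j, h3⟩
  · simp only at h1 h2 h3
    subst h1 h2 h3
    exact ⟨(x, j), Or.inl ⟨rfl, rfl⟩⟩
  · simp only at h1 h2 h3
    subst h1 h2 h3
    exact ⟨(y, j), Or.inr ⟨rfl, rfl⟩⟩

private lemma KHea_dl : ∀ (x : Fin 3 × Fin 3) (i j : Fin 3), kf 2 2 0 i x = kf 2 2 0 j x → i = j := by decide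

private lemma KHea_XY {e e' : (Fin 3 × Fin 3) × Fin 3} (h1 : KHea_X e = KHea_X e') (h2 : KHea_Y e = KHea_Y e') :
    e = e' := by
  obtain ⟨x, i⟩ := e
  obtain ⟨y, j⟩ := e'
  have h3 : x = y := congrArg Prod.fst h1
  subst h3
  have h4 : kf 2 2 0 i x = kf 2 2 0 j x := congrArg Prod.fst h2
  rw [KHea_dl x i j h4]

private lemma KHea_uniq {u v : (Fin 3 × Fin 3) × Bool} {e e' : (Fin 3 × Fin 3) × Fin 3} (h : KHea_R u v e)
    (h' : KHea_R u v e') : e = e' := by
  have hne : ∀ e e' : (Fin 3 × Fin 3) × Fin 3, KHea_X e ≠ KHea_Y e' := fun e e' h =>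
    Bool.noConfusion (congrArg Prod.snd h)
  rcases h with ⟨h1, h2⟩ | ⟨h1, h2⟩ <;> rcases h' with ⟨h3, h4⟩ | ⟨h3, h4⟩
  · exact KHea_XY (h1.symm.trans h3) (h2.symm.trans h4)
  · exact absurd (h1.symm.trans h3) (hne _ _)
  · exact absurd (h3.symm.trans h1) (hne _ _)
  · exact KHea_XY (h2.symm.trans h4) (h1.symm.trans h3)

private noncomputable def KHea_ed (d : kleinGraph.Dart) : (Fin 3 × Fin 3) × Fin 3 :=
  Classical.choose (KHea_R_of_adj d.adj)

private lemma KHea_edR (d : kleinGraph.Dart) : KHea_R d.fst d.snd (KHea_ed d) :=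
  Classical.choose_spec (KHea_R_of_adj d.adj)

private lemma KHea_walk {u v : (Fin 3 × Fin 3) × Bool} {e : (Fin 3 × Fin 3) × Fin 3} (h : KHea_R u v e) :
    ∃ p : X.Walk (KHea_f m u) (KHea_f m v), p.IsPath ∧ ∀ x, x ∈ p.support ↔ x ∈ (m.P e).support := by
  have h1 := KHea_fX m e
  have h2 := KHea_fY m e
  rcases h with ⟨rfl, rfl⟩ | ⟨rfl, rfl⟩
  · refine ⟨(m.P e).copy h1.symm h2.symm, ?_, fun x => ?_⟩
    · rw [SimpleGraph.Walk.isPath_copy]
      exact m.path e
    · rw [SimpleGraph.Walk.support_copy]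
  · refine ⟨(m.P e).reverse.copy h2.symm h1.symm, ?_, fun x => ?_⟩
    · rw [SimpleGraph.Walk.isPath_copy]
      exact (m.path e).reverse
    · rw [SimpleGraph.Walk.support_copy, SimpleGraph.Walk.support_reverse, List.mem_reverse]

private noncomputable def KHea_P (d : kleinGraph.Dart) :
    X.Walk (KHea_f m d.fst) (KHea_f m d.snd) := Classical.choose (KHea_walk m (KHea_edR d))

private lemma KHea_P1 (d : kleinGraph.Dart) : (KHea_P m d).IsPath :=
  (Classical.choose_spec (KHea_walk m (KHea_edR d))).1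

private lemma KHea_P2 (d : kleinGraph.Dart) (x : V) :
    x ∈ (KHea_P m d).support ↔ x ∈ (m.P (KHea_ed d)).support :=
  (Classical.choose_spec (KHea_walk m (KHea_edR d))).2 x

private lemma KHea_edge (d : kleinGraph.Dart) :
    d.edge = s(KHea_X (KHea_ed d), KHea_Y (KHea_ed d)) := by
  have h : d.edge = s(d.fst, d.snd) := rfl
  rw [h]
  rcases KHea_edR d with ⟨h1, h2⟩ | ⟨h1, h2⟩
  · rw [h1, h2]
  · rw [h1, h2]
    exact Sym2.eq_swap

include m in
private lemma KHea_sub : ContainsSubdivision kleinGraph X := by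
  refine ⟨KHea_f m, KHea_P m, KHea_inj m, KHea_P1 m, ?_, ?_, ?_⟩
  · intro d x
    have h : KHea_ed d.symm = KHea_ed d := KHea_uniq (KHea_edR d.symm) (Or.symm (by
      rcases KHea_edR d with ⟨h1, h2⟩ | ⟨h1, h2⟩
      · exact Or.inl ⟨h2, h1⟩
      · exact Or.inr ⟨h2, h1⟩))
    have h1 := KHea_P2 m d.symm x
    rw [h] at h1
    exact h1.trans (KHea_P2 m d x).symm
  · intro d w hw
    rw [KHea_P2] at hw
    have key : w = KHea_X (KHea_ed d) ∨ w = KHea_Y (KHea_ed d) := by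
      obtain ⟨x, b⟩ := w
      cases b
      · refine Or.inl (KHea_inj m ?_)
        rw [KHea_fX]
        exact m.ix _ (x, 0) hw
      · refine Or.inr (KHea_inj m ?_)
        rw [KHea_fY]
        exact m.iy _ (x, 0) hw
    rcases KHea_edR d with ⟨h1, h2⟩ | ⟨h1, h2⟩
    · rw [h1, h2]
      exact key
    · rw [h1, h2]
      exact Or.symm key
  · intro d d' x hne hx hx'
    rw [KHea_P2] at hx hx'
    have h : KHea_ed d ≠ KHea_ed d' := by
      intro h
      apply hne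
      rw [KHea_edge, KHea_edge, h]
    rcases m.disj _ _ x h hx hx' with h1 | h1
    · exact ⟨KHea_X _, (KHea_fX m _).trans h1.symm⟩
    · exact ⟨KHea_Y _, (KHea_fY m _).trans h1.symm⟩

end model

theorem klein_of_mdl {V : Type w} {X : SimpleGraph V} (M : Mdl (KB 2 2 0) X) : ContainsSubdivision kleinGraph X :=
  KHea_sub M

theorem klein_small {V : Type w} {X : SimpleGraph V} (m k : ℕ) (hm : 2 ≤ m) (hk : 2 ≤ k) (r : Fin (k + 1))
    (M : Mdl (KB m k r) X) : ContainsSubdivision kleinGraph X := by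
  have h1 : ∀ (n : ℕ) (k : ℕ) (r : Fin (k + 1)), Mdl (KB (2 + n) k r) X → Nonempty (Mdl (KB 2 k r) X) := by
    intro n k r
    induction n with
    | zero => exact fun M => ⟨M⟩
    | succ n ih =>
      intro M
      obtain ⟨M'⟩ := kb_row (2 + n) k r M
      exact ih M'
  have h2 : ∀ (n : ℕ) (r : Fin (2 + n + 1)), Mdl (KB 2 (2 + n) r) X → Nonempty (Mdl (KB 2 2 0) X) := by
    intro n
    induction n with
    | zero =>
      intro r M
      obtain ⟨i⟩ := kb_all 2 2 r 0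
      exact i.mdl M
    | succ n ih =>
      intro r M
      obtain ⟨i⟩ := kb_all 2 (2 + n + 1) r 0
      obtain ⟨M1⟩ := i.mdl M
      obtain ⟨M2⟩ := kb_col 2 (2 + n) M1
      exact ih _ M2
  obtain ⟨m, rfl⟩ := Nat.exists_eq_add_of_le hm
  obtain ⟨k, rfl⟩ := Nat.exists_eq_add_of_le hk
  obtain ⟨M1⟩ := h1 m _ r M
  obtain ⟨M2⟩ := h2 k r M1
  exact klein_of_mdl M2

end Pool.Agent.PP
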