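import Pool.Agent.Lib_MP_7c0803_tor.KIso

/-!
# Klein bottle: the isomorphism with `KB`

Proof plan.  `J ((l, i), j) = (φ (l + i, -i) j).1` for `l = 0, …, m`, `i = 0, …, k`: the level of `x` is `x.1 + x.2`.
(1) Well defined mod `k + 1`: `(φ (l + i, -i) j)` only depends on `l` and on `i` mod `k + 1`.
(2) Injective: if the first components of `φ x j`, `φ x' j'` agree then `φ x' j' = φ x j` or `φ x' j' = fl (φ x j) = φ (tau x + (m + 1 - c, c)) (-j)`;
the levels agree mod `2 (m + 1)` in the first case, and differ by `m + 1` mod `2 (m + 1)` in the second one, impossible for levels in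
`[0, m]`.  In the first case the positions agree mod `k + 1`.
(3) Surjective: `a.1` for `a = φ x j`; using `(m + 1, m + 1)` and `fl` the level gets into `[0, m]`, using `(k + 1, - k - 1)` the position
gets into `[0, k]`.
(4) `X`-ends: `SO B.s (J (a, j)) (J (a', j')) ↔ a' = a ∧ j' ≠ j` (`SO_dc_s`, `hs`, (2)).
(5) `Y`-ends: the `Y`-end of `φ x j` is `x + δ j`; in level and position coordinates `(l, i)`, `(l + 1, i)`, `(l + 1, i - 1)` for `j = 0, 1, 2`.
`SO B.t (φ x j).1 (φ x' j').1` iff `x' + δ j' ≡ x + δ j` (and `j' ≠ j`) or `x' + δ j' ≡ tau (x + δ j) + (m + 1 - c, c)` (and `j' ≠ - j`), mod the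
lattice.  The `Y`-vertex with level `m + 1` and position `i`, i.e. `(m + 1 + i, -i)`, is mapped to `(-i + m + 1 - c, m + 1 + i + c) ≡
(-i - c, i + c)`: level `0`, position `- c - i`.  This is `kf m k (-c)`: `kf_one`, `kf_two`.
So `r` is the residue of `-c` mod `k + 1`.  `UIso` is symmetric (`UIso.symm`), so it is enough to give a `UIso (KB m k r) B`.
-/

set_option autoImplicit false

open Finset Function

namespace Pool.Agent.PP

universe u

variable {E : Type u}

/-- the vector with level `l` and position `i` -/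
private def KU_P (l i : ℤ) : ℤ × ℤ := (l + i, -i)

private lemma KU_P_surj (x : ℤ × ℤ) : ∃ l i, x = KU_P l i :=
  ⟨x.1 + x.2, -x.2, by unfold KU_P; refine Prod.ext ?_ ?_ <;> simp⟩

/-- the `Y`-end of the edge `j` of `(l, i)` in level and position coordinates -/
private def KU_l (l : ℤ) (j : Fin 3) : ℤ := if j = 0 then l else l + 1
private def KU_i (i : ℤ) (j : Fin 3) : ℤ := if j = 2 then i - 1 else i

private lemma KU_P_add (l i : ℤ) (j : Fin 3) :
    KU_P l i + dl (1, 0) (0, 1) j = KU_P (KU_l l j) (KU_i i j) := by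
  have h : j = 0 ∨ j = 1 ∨ j = 2 := by fin_cases j <;> simp
  unfold KU_P KU_l KU_i
  rcases h with rfl | rfl | rfl
  · refine Prod.ext ?_ ?_ <;> simp
  · refine Prod.ext ?_ ?_
    · simp; ring
    · simp
  · refine Prod.ext ?_ ?_
    · simp
    · simp; ring

private lemma KU_tau (l i M c : ℤ) : tau (KU_P l i) + (M - c, c) = KU_P (l + M) (-l - i - c) := by
  unfold KU_P
  refine Prod.ext ?_ ?_
  · simp; ring
  · simp; ring

/-- `tau` exchanges the last two differences -/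
private lemma KU_tau_dl (j : Fin 3) : tau (dl ((1, 0) : ℤ × ℤ) (0, 1) j) = dl (1, 0) (0, 1) (-j) := by
  have h : j = 0 ∨ j = 1 ∨ j = 2 := by fin_cases j <;> simp
  rcases h with rfl | rfl | rfl <;> rfl

/-- the congruence -/
private def KU_R (m k : ℕ) (x y : ℤ × ℤ) : Prop :=
  ∃ p q : ℤ, x - y = (p * (m + 1) + q * (k + 1), p * (m + 1) - q * (k + 1))

private lemma KU_R_congr {m k : ℕ} {x y x' y' : ℤ × ℤ} (h : x - y = x' - y') :
    KU_R m k x y ↔ KU_R m k x' y' := by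
  unfold KU_R
  rw [h]

private lemma KU_R_symm {m k : ℕ} {x y : ℤ × ℤ} (h : KU_R m k x y) : KU_R m k y x := by
  obtain ⟨p, q, h⟩ := h
  refine ⟨-p, -q, ?_⟩
  rw [← neg_sub, h]
  refine Prod.ext ?_ ?_
  · simp; ring
  · simp; ring

private lemma KU_R_iff {m k : ℕ} (l i l' i' : ℤ) : KU_R m k (KU_P l i) (KU_P l' i') ↔
    ∃ p : ℤ, l - l' = 2 * p * (m + 1) ∧ ((i : ZMod (k + 1)) - i' + p * (m + 1) = 0) := by
  unfold KU_R KU_P
  constructor
  · rintro ⟨p, q, h⟩
    have h1 : l + i - (l' + i') = p * (m + 1) + q * (k + 1) := congrArg Prod.fst h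
    have h2 : -i - -i' = p * (m + 1) - q * (k + 1) := congrArg Prod.snd h
    refine ⟨p, by linear_combination h1 + h2, ?_⟩
    have h3 : i - i' + p * (m + 1) = q * ((k + 1 : ℕ) : ℤ) := by push_cast; linear_combination -h2
    have h4 := congrArg (Int.cast : ℤ → ZMod (k + 1)) h3
    push_cast at h4
    have h5 : ((k : ZMod (k + 1)) + 1) = 0 := by exact_mod_cast ZMod.natCast_self (k + 1)
    rw [h5, mul_zero] at h4
    exact h4
  · rintro ⟨p, h1, h2⟩
    have h3 : ((i - i' + p * (m + 1) : ℤ) : ZMod (k + 1)) = 0 := by push_cast; exact h2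
    rw [ZMod.intCast_zmod_eq_zero_iff_dvd] at h3
    obtain ⟨q, hq⟩ := h3
    push_cast at hq
    refine ⟨p, q, Prod.ext ?_ ?_⟩
    · show l + i - (l' + i') = _
      linear_combination h1 + hq
    · show -i - -i' = _
      linear_combination -hq

section

variable {B : CB E} {tw : E → Bool} {m k : ℕ} {c : ℤ} (K : KCo B tw m k c)

include K

private lemma KU_inj (x y : ℤ × ℤ) (i j : Fin 3) : K.φ x i = K.φ y j ↔ (i = j ∧ KU_R m k x y) :=
  K.inj x y i j

private lemma KU_hf (l i : ℤ) (j : Fin 3) :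
    fl (K.φ (KU_P l i) j) = K.φ (KU_P (l + (m + 1)) (-l - i - c)) (-j) := by
  rw [K.hf, KU_tau]

private lemma KU_s (x y : ℤ × ℤ) (i j : Fin 3) :
    SO (dc B tw).s (K.φ x i) (K.φ y j) ↔ (j ≠ i ∧ KU_R m k y x) := by
  unfold SO
  rw [K.hs, K.hs, KU_inj, KU_inj, ← or_and_right, fin3_ne_iff]

private lemma KU_t (x y : ℤ × ℤ) (i j : Fin 3) :
    SO (dc B tw).t (K.φ x i) (K.φ y j) ↔
      (j ≠ i ∧ KU_R m k (y + dl (1, 0) (0, 1) j) (x + dl (1, 0) (0, 1) i)) := by
  unfold SO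
  rw [K.ht, K.ht, KU_inj, KU_inj, ← fin3_ne_iff, or_and_right]
  refine or_congr (and_congr_right ?_) (and_congr_right ?_)
  · rintro rfl
    apply KU_R_congr
    abel
  · rintro rfl
    apply KU_R_congr
    abel

end

private lemma KU_SO_s {B : CB E} {tw : E → Bool} (a b : E × Bool) :
    SO B.s a.1 b.1 ↔ (SO (dc B tw).s a b ∨ SO (dc B tw).s a (fl b)) := by
  obtain ⟨e, o⟩ := a
  obtain ⟨f, o'⟩ := b
  unfold fl
  rw [SO_dc_s, SO_dc_s]
  constructor
  · intro h
    cases o <;> cases o' <;> simp [h]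
  · rintro (h | h)
    · exact h.1
    · exact h.1

private lemma KU_SO_t {B : CB E} {tw : E → Bool} (a b : E × Bool) :
    SO B.t a.1 b.1 ↔ (SO (dc B tw).t a b ∨ SO (dc B tw).t a (fl b)) := by
  obtain ⟨e, o⟩ := a
  obtain ⟨f, o'⟩ := b
  unfold fl
  rw [SO_dc_t, SO_dc_t]
  constructor
  · intro h
    simp only at h ⊢
    cases o <;> cases o' <;> cases tw e <;> cases tw f <;> simp [h]
  · rintro (h | h)
    · exact h.1
    · exact h.1

/-- small multiples -/
private lemma KU_small {a p M : ℤ} (hM : 0 < M) (h : a = 2 * p * M) (h1 : -M ≤ a) (h2 : a ≤ M) : p = 0 := by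
  rcases lt_trichotomy p 0 with hp | hp | hp
  · nlinarith
  · exact hp
  · nlinarith

private lemma KU_odd {a p M : ℤ} (hM : 0 < M) (h : a - M = 2 * p * M) (h1 : -M ≤ a) (h2 : a ≤ M) :
    (p = 0 ∧ a = M) ∨ (p = -1 ∧ a = -M) := by
  rcases lt_trichotomy p 0 with hp | hp | hp
  · have hp1 : p = -1 := by
      by_contra hne
      have : p ≤ -2 := by omega
      nlinarith
    right
    refine ⟨hp1, ?_⟩
    rw [hp1] at h
    linarith
  · left
    refine ⟨hp, ?_⟩
    rw [hp] at h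
    linarith
  · nlinarith

/-- `Fin (k + 1)` is `ZMod (k + 1)` -/
private def KU_z {k : ℕ} (i : Fin (k + 1)) : ZMod (k + 1) := i

private lemma KU_z_val {k : ℕ} (i : Fin (k + 1)) : (((i.val : ℤ)) : ZMod (k + 1)) = KU_z i := by
  have h : (((KU_z i).val : ℕ) : ZMod (k + 1)) = KU_z i := ZMod.natCast_zmod_val (n := k + 1) (KU_z i)
  rw [← h, Int.cast_natCast]
  rfl

private lemma KU_z_sub {k : ℕ} (i j : Fin (k + 1)) : KU_z (i - j) = KU_z i - KU_z j := rfl
private lemma KU_z_add {k : ℕ} (i j : Fin (k + 1)) : KU_z (i + j) = KU_z i + KU_z j := rfl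
private lemma KU_z_one {k : ℕ} : KU_z (1 : Fin (k + 1)) = 1 := rfl
private lemma KU_z_inj {k : ℕ} {i j : Fin (k + 1)} (h : KU_z i = KU_z j) : i = j := h

/-- the position of the `Y`-end -/
private def KU_zi {k : ℕ} (i : Fin (k + 1)) (j : Fin 3) : Fin (k + 1) := if j = 2 then i - 1 else i

private lemma KU_i_cast {k : ℕ} (i : Fin (k + 1)) (j : Fin 3) :
    ((KU_i (i.val : ℤ) j : ℤ) : ZMod (k + 1)) = KU_z (KU_zi i j) := by
  unfold KU_i KU_zi
  split_ifs
  · rw [KU_z_sub, KU_z_one, ← KU_z_val]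
    push_cast
    rfl
  · exact KU_z_val i

private lemma KU_kf (m k : ℕ) (r : Fin (k + 1)) (l : Fin (m + 1)) (i : Fin (k + 1)) (j : Fin 3) :
    kf m k r j (l, i) = if j = 0 then (l, i) else
      if l = Fin.last m then (0, r - KU_zi i j) else (l + 1, KU_zi i j) := by
  have h : j = 0 ∨ j = 1 ∨ j = 2 := by fin_cases j <;> simp
  unfold KU_zi
  rcases h with rfl | rfl | rfl
  · rfl
  · rw [kf_one]
    rfl
  · rw [kf_two]
    show (if l = Fin.last m then _ else _) = if l = Fin.last m then (0, r - (i - 1)) else (l + 1, i - 1)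
    have h : r - (i - 1) = r + 1 - i := by abel
    rw [h]

private lemma KU_kf' (m k : ℕ) (r : Fin (k + 1)) (l : Fin (m + 1)) (i : Fin (k + 1)) (j : Fin 3) :
    (∃ A : Fin (m + 1), kf m k r j (l, i) = (A, KU_zi i j) ∧ KU_l (l.val : ℤ) j = A.val) ∨
    (kf m k r j (l, i) = (0, r - KU_zi i j) ∧ KU_l (l.val : ℤ) j = m + 1 ∧ j ≠ 0) := by
  rw [KU_kf]
  unfold KU_l
  by_cases hj : j = 0
  · left
    refine ⟨l, ?_, ?_⟩
    · rw [if_pos hj]
      unfold KU_zi
      rw [hj]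
      rfl
    · rw [if_pos hj]
  · rw [if_neg hj, if_neg hj]
    by_cases hl : l = Fin.last m
    · right
      refine ⟨by rw [if_pos hl], ?_, hj⟩
      rw [hl]
      rfl
    · left
      refine ⟨l + 1, by rw [if_neg hl], ?_⟩
      have h1 : l.val < m := Fin.val_lt_last hl
      have h2 : (l + 1).val = l.val + 1 := Fin.val_add_one_of_lt (Fin.lt_last_iff_ne_last.2 hl)
      rw [h2]
      push_cast
      rfl

private lemma KU_neg : ∀ j : Fin 3, j ≠ 0 → -j ≠ 0 := by decide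

theorem KCo.uiso {B : CB E} {tw : E → Bool} {m k : ℕ} {c : ℤ} (K : KCo B tw m k c) :
    ∃ r : Fin (k + 1), Nonempty (UIso B (KB m k r)) := by
  classical
  obtain ⟨r, hr⟩ : ∃ r : Fin (k + 1), KU_z r = -(c : ZMod (k + 1)) := ⟨(-(c : ZMod (k + 1)) : ZMod (k + 1)), rfl⟩
  refine ⟨r, ?_⟩
  have hM : (0 : ℤ) < (m : ℤ) + 1 := by positivity
  let J : (Fin (m + 1) × Fin (k + 1)) × Fin 3 → E := fun a => (K.φ (KU_P (a.1.1.val : ℤ) (a.1.2.val : ℤ)) a.2).1
  have hlev : ∀ l : Fin (m + 1), (0 : ℤ) ≤ (l.val : ℤ) ∧ (l.val : ℤ) < (m : ℤ) + 1 := by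
    intro l
    have := l.isLt
    omega
  -- equality of first components
  have hfst : ∀ a b : E × Bool, a.1 = b.1 → b = a ∨ b = fl a := by
    rintro ⟨e, o⟩ ⟨f, o'⟩ h
    simp only at h
    subst h
    unfold fl
    cases o <;> cases o' <;> simp
  have hinj : Function.Injective J := by
    rintro ⟨⟨l, i⟩, j⟩ ⟨⟨l', i'⟩, j'⟩ h
    have hl := hlev l
    have hl' := hlev l'
    rcases hfst _ _ h with h1 | h1
    · rw [KU_inj, KU_R_iff] at h1
      obtain ⟨h2, p, h3, h4⟩ := h1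
      simp only at h2 h3 h4
      have hp : p = 0 := KU_small hM h3 (by omega) (by omega)
      rw [hp] at h3 h4
      have e1 : l' = l := by
        apply Fin.ext
        omega
      have e2 : i' = i := by
        apply KU_z_inj
        rw [KU_z_val, KU_z_val] at h4
        simp only [Int.cast_zero, zero_mul, add_zero] at h4
        exact sub_eq_zero.1 h4
      rw [e1, e2, h2]
    · rw [KU_hf, KU_inj, KU_R_iff] at h1
      obtain ⟨h2, p, h3, h4⟩ := h1
      simp only at h3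
      have h5 : ((l'.val : ℤ) - l.val) - ((m : ℤ) + 1) = 2 * p * ((m : ℤ) + 1) := by linarith
      rcases KU_odd hM h5 (by omega) (by omega) with ⟨_, h6⟩ | ⟨_, h6⟩ <;> omega
  -- even translates
  have hred : ∀ (l p i : ℤ) (j : Fin 3) (l0 : Fin (m + 1)), l = 2 * p * ((m : ℤ) + 1) + l0.val →
      ∃ a, J a = (K.φ (KU_P l i) j).1 := by
    intro l p i j l0 hl
    obtain ⟨i0, hi0⟩ : ∃ i0 : Fin (k + 1), KU_z i0 = (i : ZMod (k + 1)) + p * (m + 1) :=
      ⟨((i : ZMod (k + 1)) + p * (m + 1) : ZMod (k + 1)), rfl⟩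
    refine ⟨((l0, i0), j), ?_⟩
    have h1 : K.φ (KU_P (l0.val : ℤ) (i0.val : ℤ)) j = K.φ (KU_P l i) j := by
      rw [KU_inj, KU_R_iff]
      refine ⟨rfl, -p, by rw [hl]; ring, ?_⟩
      rw [KU_z_val, hi0]
      push_cast
      ring
    exact congrArg Prod.fst h1
  have hsurj : Function.Surjective J := by
    intro e
    obtain ⟨x, j, hx⟩ := K.surj (e, true)
    obtain ⟨l, i, rfl⟩ := KU_P_surj x
    have h1 : l % ((m : ℤ) + 1) + ((m : ℤ) + 1) * (l / ((m : ℤ) + 1)) = l := Int.emod_add_mul_ediv l _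
    have h2 := Int.emod_nonneg l hM.ne'
    have h3 := Int.emod_lt_of_pos l hM
    obtain ⟨l0, hl0⟩ : ∃ l0 : Fin (m + 1), (l0.val : ℤ) = l % ((m : ℤ) + 1) := by
      refine ⟨⟨(l % ((m : ℤ) + 1)).toNat, by omega⟩, ?_⟩
      simp only
      omega
    rcases Int.even_or_odd' (l / ((m : ℤ) + 1)) with ⟨p, hp | hp⟩
    · obtain ⟨a, ha⟩ := hred l p i j l0 (by
        rw [hp] at h1
        rw [hl0]
        linarith)
      exact ⟨a, by rw [ha, hx]⟩
    · obtain ⟨a, ha⟩ := hred (l + (m + 1)) (p + 1) (-l - i - c) (-j) l0 (by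
        rw [hp] at h1
        rw [hl0]
        linarith)
      refine ⟨a, ?_⟩
      rw [ha, ← KU_hf, hx]
      rfl
  have hcong : ∀ (l l' : ℤ) (z z' : Fin (k + 1)) (i i' : ℤ), (i : ZMod (k + 1)) = KU_z z →
      (i' : ZMod (k + 1)) = KU_z z' → 0 ≤ l → 0 ≤ l' → l ≤ m + 1 → l' ≤ m + 1 →
      (KU_R m k (KU_P l' i') (KU_P l i) ↔ (l' = l ∧ z' = z)) := by
    intro l l' z z' i i' hi hi' h0 h0' h1 h1'
    rw [KU_R_iff, hi, hi']
    constructor
    · rintro ⟨p, h3, h4⟩
      have hp : p = 0 := KU_small hM h3 (by linarith) (by linarith)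
      rw [hp] at h3 h4
      refine ⟨by linarith, KU_z_inj ?_⟩
      simp only [Int.cast_zero, zero_mul, add_zero] at h4
      exact sub_eq_zero.1 h4
    · rintro ⟨rfl, rfl⟩
      exact ⟨0, by ring, by simp⟩
  -- the twisted congruence
  have htw : ∀ (l l' : ℤ) (z z' : Fin (k + 1)) (i i' : ℤ), (i : ZMod (k + 1)) = KU_z z →
      (i' : ZMod (k + 1)) = KU_z z' → 0 ≤ l → 0 ≤ l' → l ≤ m + 1 → l' ≤ m + 1 →
      (KU_R m k (KU_P (l' + (m + 1)) (-l' - i' - c)) (KU_P l i) ↔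
        (((l' = 0 ∧ l = m + 1) ∨ (l' = m + 1 ∧ l = 0)) ∧ z = r - z')) := by
    intro l l' z z' i i' hi hi' h0 h0' h1 h1'
    rw [KU_R_iff]
    push_cast
    rw [hi, hi']
    have hmk : ∀ w : Fin (k + 1), w = r - z' ↔ KU_z w = -c - KU_z z' := by
      intro w
      rw [← hr, ← KU_z_sub]
      exact ⟨fun h => by rw [h], fun h => KU_z_inj h⟩
    rw [hmk]
    constructor
    · rintro ⟨p, h3, h4⟩
      have h5 : (l - l') - ((m : ℤ) + 1) = 2 * (-p) * ((m : ℤ) + 1) := by linarith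
      rcases KU_odd hM h5 (by linarith) (by linarith) with ⟨hp, h6⟩ | ⟨hp, h6⟩
      · have hp0 : p = 0 := by omega
        have e1 : l' = 0 := by linarith
        refine ⟨Or.inl ⟨e1, by linarith⟩, ?_⟩
        rw [hp0, e1] at h4
        push_cast at h4
        linear_combination -h4
      · have hp0 : p = 1 := by omega
        have e1 : l' = m + 1 := by linarith
        refine ⟨Or.inr ⟨e1, by linarith⟩, ?_⟩
        rw [hp0, e1] at h4
        push_cast at h4
        linear_combination -h4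
    · rintro ⟨⟨rfl, rfl⟩ | ⟨rfl, rfl⟩, h⟩
      · refine ⟨0, by ring, ?_⟩
        rw [h]
        push_cast
        ring
      · refine ⟨1, by ring, ?_⟩
        rw [h]
        push_cast
        ring
  have hs : ∀ a a', SO (KB m k r).s a a' ↔ SO B.s (J a) (J a') := by
    rintro ⟨⟨l, i⟩, j⟩ ⟨⟨l', i'⟩, j'⟩
    have hl := hlev l
    have hl' := hlev l'
    unfold KB
    rw [SO_BG_s, KU_SO_s (tw := tw), KU_hf, KU_s, KU_s]
    simp only
    rw [hcong _ _ i i' _ _ (KU_z_val i) (KU_z_val i') hl.1 hl'.1 hl.2.le hl'.2.le,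
      htw _ _ i i' _ _ (KU_z_val i) (KU_z_val i') hl.1 hl'.1 hl.2.le hl'.2.le]
    constructor
    · rintro ⟨h1, h2⟩
      rw [Prod.mk.injEq] at h1
      exact Or.inl ⟨h2, by rw [h1.1], h1.2⟩
    · rintro (⟨h2, h3, h4⟩ | ⟨h2, (⟨h3, h4⟩ | ⟨h3, h4⟩), h5⟩)
      · refine ⟨Prod.ext (Fin.ext ?_) h4, h2⟩
        exact_mod_cast h3
      · omega
      · omega
  have ht : ∀ a a', SO (KB m k r).t a a' ↔ SO B.t (J a) (J a') := by
    rintro ⟨⟨l, i⟩, j⟩ ⟨⟨l', i'⟩, j'⟩
    have hl := hlev l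
    have hl' := hlev l'
    unfold KB
    rw [SO_BG_t, KU_SO_t (tw := tw), K.hf, KU_t, KU_t]
    simp only
    have e1 : tau (KU_P (l'.val : ℤ) (i'.val : ℤ)) + ((m : ℤ) + 1 - c, c) + dl (1, 0) (0, 1) (-j') =
        KU_P (KU_l (l'.val : ℤ) j' + ((m : ℤ) + 1)) (-KU_l (l'.val : ℤ) j' - KU_i (i'.val : ℤ) j' - c) := by
      rw [← KU_tau, ← KU_P_add, map_add, KU_tau_dl]
      abel
    rw [e1, KU_P_add, KU_P_add]
    have b1 : 0 ≤ KU_l (l.val : ℤ) j := by unfold KU_l; split_ifs <;> omega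
    have b2 : 0 ≤ KU_l (l'.val : ℤ) j' := by unfold KU_l; split_ifs <;> omega
    have b3 : KU_l (l.val : ℤ) j ≤ m + 1 := by unfold KU_l; split_ifs <;> omega
    have b4 : KU_l (l'.val : ℤ) j' ≤ m + 1 := by unfold KU_l; split_ifs <;> omega
    rw [hcong _ _ _ _ _ _ (KU_i_cast i j) (KU_i_cast i' j') b1 b2 b3 b4,
      htw _ _ _ _ _ _ (KU_i_cast i j) (KU_i_cast i' j') b1 b2 b3 b4]
    have z0 : ∀ (l : Fin (m + 1)) (j : Fin 3), KU_l (l.val : ℤ) j = 0 → j = 0 := by
      intro l j h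
      by_contra hj
      unfold KU_l at h
      rw [if_neg hj] at h
      omega
    rcases KU_kf' m k r l i j with ⟨A, hA, hL⟩ | ⟨hA, hL, hj⟩ <;>
      rcases KU_kf' m k r l' i' j' with ⟨A', hA', hL'⟩ | ⟨hA', hL', hj'⟩
    · have hA1 := hlev A
      have hA1' := hlev A'
      rw [hA, hA', hL, hL', Prod.mk.injEq]
      constructor
      · rintro ⟨⟨h1, h2⟩, h3⟩
        exact Or.inl ⟨h3, by rw [h1], h2⟩
      · rintro (⟨h2, h3, h4⟩ | ⟨h2, (⟨h3, h4⟩ | ⟨h3, h4⟩), h5⟩)
        · exact ⟨⟨Fin.ext (by exact_mod_cast h3), h4⟩, h2⟩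
        · omega
        · omega
    · have hA1 := hlev A
      rw [hA, hA', hL', Prod.mk.injEq]
      constructor
      · rintro ⟨⟨h1, h2⟩, h3⟩
        have h4 : KU_l (l.val : ℤ) j = 0 := by rw [hL, ← h1]; rfl
        have h5 := z0 l j h4
        refine Or.inr ⟨?_, Or.inr ⟨rfl, h4⟩, h2.symm⟩
        rw [h5]
        exact KU_neg j' hj'
      · rintro (⟨h2, h3, h4⟩ | ⟨h2, (⟨h3, h4⟩ | ⟨h3, h4⟩), h5⟩)
        · rw [hL] at h3
          omega
        · omega
        · have h6 := z0 l j h4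
          rw [hL] at h4
          refine ⟨⟨Fin.ext ?_, h5.symm⟩, ?_⟩
          · have : A.val = 0 := by omega
            rw [this]
            rfl
          · rw [h6]
            exact hj'
    · have hA1' := hlev A'
      rw [hA, hA', hL, Prod.mk.injEq]
      constructor
      · rintro ⟨⟨h1, h2⟩, h3⟩
        have h4 : KU_l (l'.val : ℤ) j' = 0 := by rw [hL', h1]; rfl
        have h5 := z0 l' j' h4
        refine Or.inr ⟨?_, Or.inl ⟨h4, rfl⟩, by rw [h2]; abel⟩
        rw [h5]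
        exact fun h => hj h.symm
      · rintro (⟨h2, h3, h4⟩ | ⟨h2, (⟨h3, h4⟩ | ⟨h3, h4⟩), h5⟩)
        · rw [hL'] at h3
          omega
        · have h6 := z0 l' j' h3
          rw [hL'] at h3
          refine ⟨⟨Fin.ext ?_, by rw [h5]; abel⟩, ?_⟩
          · have : A'.val = 0 := by omega
            rw [this]
            rfl
          · rw [h6]
            exact fun h => hj h.symm
        · omega
    · rw [hA, hA', hL, hL', Prod.mk.injEq]
      constructor
      · rintro ⟨⟨_, h2⟩, h3⟩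
        exact Or.inl ⟨h3, rfl, sub_right_injective h2⟩
      · rintro (⟨h2, h3, h4⟩ | ⟨h2, (⟨h3, h4⟩ | ⟨h3, h4⟩), h5⟩)
        · exact ⟨⟨rfl, by rw [h4]⟩, h2⟩
        · omega
        · omega
  let eJ : (Fin (m + 1) × Fin (k + 1)) × Fin 3 ≃ E := Equiv.ofBijective J ⟨hinj, hsurj⟩
  exact ⟨(⟨eJ, hs, ht⟩ : UIso (KB m k r) B).symm⟩

end Pool.Agent.PP
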