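import Pool.Agent.Lib_MP_7c0803_tor.DcB
import Pool.Agent.Lib_MP_7c0803_tor.CoordT

/-!
# The orientable case: the double cover is not connected

Proof plan.  Let `A` be a proper nonempty subset of `E × Bool`, closed under both rotations of `D = dc B tw` (so under their inverses, which
are their squares, and the complement is closed too).  The projections of `A` and of its complement to `E` are nonempty and closed under
`B.s`, `B.t` (`SO_dc_s`, `SO_dc_t`, or directly: the first component of `D.s (e, o)` is `B.s e` or `B.s⁻¹ e`), so both are everything by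
`B.Cn`.  So every `e : E` has exactly one sheet `o e` with `(e, o e) ∈ A`.  Define `B' : CB E` by `B'.s e = (D.s (e, o e)).1`,
`B'.t e = (D.t (e, o e)).1`, so that `j : e ↦ (e, o e)` satisfies `j (B'.s e) = D.s (j e)`, `j (B'.t e) = D.t (j e)`.  Hence `(s t)³ = 1`
for `B'`.  The vertices are the same: `Tri B'.s x y z ↔ Tri B.s x y z`, the same for `t`, `SO` (so `Th`, `Dg`, `Sq`, `Cn`
carry over, and the identity is a `UIso B B'`).  Then `coord_torus B'`.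
-/

set_option autoImplicit false

open Finset Function

namespace Pool.Agent.PP

universe u

variable {E : Type u}

private lemma Untw_tri {s : Equiv.Perm E} (s3 : ∀ e, s (s (s e)) = e) (s1 : ∀ e, s e ≠ e) (x y z : E) :
    Tri s x y z ↔ (SO s x y ∧ SO s x z ∧ y ≠ z) := by
  constructor
  · rintro (⟨h1, h2, h3⟩ | ⟨h1, h2, h3⟩)
    · subst h1
      subst h2
      exact ⟨Or.inl rfl, Or.inr rfl, fun h => s1 _ h.symm⟩
    · subst h1
      subst h2
      exact ⟨Or.inr rfl, Or.inl rfl, fun h => s1 _ h⟩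
  · rintro ⟨h1 | h1, h2 | h2, h3⟩
    · exact absurd (h1.trans h2.symm) h3
    · subst h1
      subst h2
      exact Or.inl ⟨rfl, rfl, s3 x⟩
    · subst h1
      subst h2
      exact Or.inr ⟨rfl, rfl, s3 x⟩
    · exact absurd (h1.trans h2.symm) h3

private lemma Untw_so {s : Equiv.Perm E} (s3 : ∀ e, s (s (s e)) = e) (e f : E) :
    SO s e f ↔ ∃ g, Tri s g e f := by
  constructor
  · rintro (rfl | rfl)
    · exact ⟨s (s e), Or.inl ⟨s3 e, rfl, rfl⟩⟩
    · exact ⟨s e, Or.inr ⟨rfl, s3 e, rfl⟩⟩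
  · rintro ⟨g, ⟨h1, h2, h3⟩ | ⟨h1, h2, h3⟩⟩
    · exact Or.inl h2.symm
    · refine Or.inr ?_
      rw [h3, h1]

private lemma Untw_so_mem {F : Type u} {s : Equiv.Perm F} {A : Set F} (hA : ∀ e ∈ A, s e ∈ A) {a b : F} (ha : a ∈ A)
    (h : SO s a b) : b ∈ A := by
  rcases h with rfl | rfl
  · exact hA _ ha
  · exact hA _ (hA _ ha)

/-- the projection of a closed set is everything -/
private lemma Untw_proj (B : CB E) (tw : E → Bool) (hC : B.Cn) (A : Set (E × Bool)) (hne : A.Nonempty)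
    (hs : ∀ a ∈ A, (dc B tw).s a ∈ A) (ht : ∀ a ∈ A, (dc B tw).t a ∈ A) (e : E) : ∃ o, (e, o) ∈ A := by
  have h := hC {e | ∃ o, (e, o) ∈ A} (by
    obtain ⟨⟨e, o⟩, h⟩ := hne
    exact ⟨e, o, h⟩) (by
    rintro e ⟨o, ho⟩
    constructor
    · exact ⟨o, Untw_so_mem hs ho ((SO_dc_s B tw e (B.s e) o o).2 ⟨Or.inl rfl, rfl⟩)⟩
    · refine ⟨xor (xor o (tw e)) (tw (B.t e)), Untw_so_mem ht ho ((SO_dc_t B tw e (B.t e) o _).2 ⟨Or.inl rfl, ?_⟩)⟩
      rw [Bool.xor_assoc, Bool.xor_self, Bool.xor_false])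
  have h2 : e ∈ {e | ∃ o, (e, o) ∈ A} := by
    rw [h]
    trivial
  exact h2

private lemma Untw_compl {F : Type u} {s : Equiv.Perm F} (s3 : ∀ e, s (s (s e)) = e) {A : Set F} (hA : ∀ e ∈ A, s e ∈ A) :
    ∀ e ∈ Aᶜ, s e ∈ Aᶜ := by
  intro e he h
  apply he
  have h2 := hA _ (hA _ h)
  rwa [s3] at h2

/-- the rotation on the section -/
private def Untw_perm {s : Equiv.Perm (E × Bool)} (s3 : ∀ e, s (s (s e)) = e) {A : Set (E × Bool)} (hA : ∀ e ∈ A, s e ∈ A)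
    (j : E → E × Bool) (hj : ∀ e, j e ∈ A) (hj1 : ∀ e, (j e).1 = e) (hj2 : ∀ a ∈ A, j a.1 = a) : Equiv.Perm E where
  toFun e := (s (j e)).1
  invFun e := (s (s (j e))).1
  left_inv e := by
    show (s (s (j (s (j e)).1))).1 = e
    rw [hj2 _ (hA _ (hj e)), s3, hj1]
  right_inv e := by
    show (s (j (s (s (j e))).1)).1 = e
    rw [hj2 _ (hA _ (hA _ (hj e))), s3, hj1]

/-- switching: a multigraph with the same vertices and `(s t)³ = 1` -/
theorem untw_switch [Finite E] (B : CB E) (tw : E → Bool) (hC : B.Cn) (hn : ¬ (dc B tw).Cn)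
    (h3 : ∀ a, (dc B tw).s ((dc B tw).t ((dc B tw).s ((dc B tw).t ((dc B tw).s ((dc B tw).t a))))) = a) :
    ∃ B' : CB E, (∀ x y z, Tri B'.s x y z ↔ Tri B.s x y z) ∧ (∀ x y z, Tri B'.t x y z ↔ Tri B.t x y z) ∧
      ∀ e, B'.s (B'.t (B'.s (B'.t (B'.s (B'.t e))))) = e := by
  classical
  have hex : ∃ A : Set (E × Bool), A.Nonempty ∧ (∀ e ∈ A, (dc B tw).s e ∈ A ∧ (dc B tw).t e ∈ A) ∧ A ≠ Set.univ := by
    by_contra h
    apply hn
    intro A h1 h2
    by_contra h3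
    exact h ⟨A, h1, h2, h3⟩
  obtain ⟨A, hne, hcl, hnu⟩ := hex
  have hAs : ∀ a ∈ A, (dc B tw).s a ∈ A := fun a ha => (hcl a ha).1
  have hAt : ∀ a ∈ A, (dc B tw).t a ∈ A := fun a ha => (hcl a ha).2
  have hne2 : (Aᶜ).Nonempty := Set.nonempty_compl.2 hnu
  have hp1 : ∀ e, ∃ o, (e, o) ∈ A := Untw_proj B tw hC A hne hAs hAt
  have hp2 : ∀ e, ∃ o, (e, o) ∈ Aᶜ :=
    Untw_proj B tw hC Aᶜ hne2 (Untw_compl (dc B tw).s3 hAs) (Untw_compl (dc B tw).t3 hAt)
  choose o ho using hp1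
  have huniq : ∀ e o', (e, o') ∈ A → o' = o e := by
    intro e o' h
    obtain ⟨o2, h2⟩ := hp2 e
    have h3 : o2 ≠ o' := by
      rintro rfl
      exact h2 h
    have h4 : o2 ≠ o e := by
      rintro rfl
      exact h2 (ho e)
    revert h3 h4
    cases o' <;> cases o2 <;> cases (o e) <;> simp
  let j : E → E × Bool := fun e => (e, o e)
  have hj1 : ∀ e, (j e).1 = e := fun e => rfl
  have hj2 : ∀ a ∈ A, j a.1 = a := by
    rintro ⟨e, o'⟩ h
    exact Prod.ext rfl (huniq e o' h).symm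
  let S := Untw_perm (dc B tw).s3 hAs j ho hj1 hj2
  let T := Untw_perm (dc B tw).t3 hAt j ho hj1 hj2
  have hjS : ∀ e, j (S e) = (dc B tw).s (j e) := fun e => hj2 _ (hAs _ (ho e))
  have hjT : ∀ e, j (T e) = (dc B tw).t (j e) := fun e => hj2 _ (hAt _ (ho e))
  have hji : ∀ e f, j e = j f → e = f := fun e f h => congrArg Prod.fst h
  have hS3 : ∀ e, S (S (S e)) = e := by
    intro e
    apply hji
    rw [hjS, hjS, hjS, (dc B tw).s3]
  have hT3 : ∀ e, T (T (T e)) = e := by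
    intro e
    apply hji
    rw [hjT, hjT, hjT, (dc B tw).t3]
  have hS1 : ∀ e, S e ≠ e := by
    intro e h
    apply (dc B tw).s1 (j e)
    rw [← hjS, h]
  have hT1 : ∀ e, T e ≠ e := by
    intro e h
    apply (dc B tw).t1 (j e)
    rw [← hjT, h]
  have hSO1 : ∀ e f, SO S e f ↔ SO (dc B tw).s (j e) (j f) := by
    intro e f
    unfold SO
    rw [← hjS, ← hjS]
    constructor
    · rintro (rfl | rfl)
      · exact Or.inl rfl
      · exact Or.inr rfl
    · rintro (h | h)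
      · exact Or.inl (hji _ _ h)
      · exact Or.inr (hji _ _ h)
  have hSO2 : ∀ e f, SO T e f ↔ SO (dc B tw).t (j e) (j f) := by
    intro e f
    unfold SO
    rw [← hjT, ← hjT]
    constructor
    · rintro (rfl | rfl)
      · exact Or.inl rfl
      · exact Or.inr rfl
    · rintro (h | h)
      · exact Or.inl (hji _ _ h)
      · exact Or.inr (hji _ _ h)
  have hSO3 : ∀ e f, SO S e f ↔ SO B.s e f := by
    intro e f
    rw [hSO1]
    show SO (dc B tw).s (e, o e) (f, o f) ↔ _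
    rw [SO_dc_s]
    constructor
    · exact fun h => h.1
    · intro h
      refine ⟨h, ?_⟩
      exact (huniq f _ (Untw_so_mem hAs (ho e) ((SO_dc_s B tw e f (o e) (o e)).2 ⟨h, rfl⟩))).symm
  have hSO4 : ∀ e f, SO T e f ↔ SO B.t e f := by
    intro e f
    rw [hSO2]
    show SO (dc B tw).t (e, o e) (f, o f) ↔ _
    rw [SO_dc_t]
    constructor
    · exact fun h => h.1
    · intro h
      refine ⟨h, ?_⟩
      have h5 : xor (xor (xor (o e) (tw e)) (tw f)) (tw f) = xor (o e) (tw e) := by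
        rw [Bool.xor_assoc, Bool.xor_self, Bool.xor_false]
      have h6 := huniq f _ (Untw_so_mem hAt (ho e) ((SO_dc_t B tw e f (o e) _).2 ⟨h, h5⟩))
      rw [← h6, h5]
  refine ⟨⟨S, T, hS3, hT3, hS1, hT1⟩, ?_, ?_, ?_⟩
  · intro x y z
    rw [Untw_tri B.s3 B.s1]
    show Tri S x y z ↔ _
    rw [Untw_tri hS3 hS1, hSO3, hSO3]
  · intro x y z
    rw [Untw_tri B.t3 B.t1]
    show Tri T x y z ↔ _
    rw [Untw_tri hT3 hT1, hSO4, hSO4]
  · intro e
    show S (T (S (T (S (T e))))) = e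
    apply hji
    rw [hjS, hjT, hjS, hjT, hjS, hjT, h3]

theorem untw [Finite E] [Nonempty E] (B : CB E) (tw : E → Bool) (hC : B.Cn) (hn : ¬ (dc B tw).Cn)
    (h3 : ∀ a, (dc B tw).s ((dc B tw).t ((dc B tw).s ((dc B tw).t ((dc B tw).s ((dc B tw).t a))))) = a)
    (hT : IsEmpty (Th B)) (hD : IsEmpty (Dg B)) (hS : IsEmpty (Sq B)) :
    ∃ (L : AddSubgroup (ℤ × ℤ)) (n : ℤ), 0 < n ∧ (n, 0) ∈ L ∧ (0, n) ∈ L ∧ (∀ x ∈ L, x ≠ 0 → 3 ≤ nrm x) ∧
      Nonempty (UIso B (HT L)) := by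
  obtain ⟨B', hs, ht, h4⟩ := untw_switch B tw hC hn h3
  have hs' : ∀ e f, SO B.s e f ↔ SO B'.s e f := by
    intro e f
    rw [Untw_so B.s3, Untw_so B'.s3]
    exact exists_congr fun g => (hs g e f).symm
  have ht' : ∀ e f, SO B.t e f ↔ SO B'.t e f := by
    intro e f
    rw [Untw_so B.t3, Untw_so B'.t3]
    exact exists_congr fun g => (ht g e f).symm
  have hC' : B'.Cn := by
    intro A hne hcl
    refine hC A hne fun e he => ⟨?_, ?_⟩
    · exact Untw_so_mem (fun a ha => (hcl a ha).1) he ((hs' e (B.s e)).1 (Or.inl rfl))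
    · exact Untw_so_mem (fun a ha => (hcl a ha).2) he ((ht' e (B.t e)).1 (Or.inl rfl))
  have hT' : IsEmpty (Th B') := ⟨fun Q => hT.false ⟨Q.e, Q.f, Q.g, (hs _ _ _).1 Q.ts, (ht _ _ _).1 Q.tt⟩⟩
  have hD' : IsEmpty (Dg B') := ⟨fun Q => hD.false ⟨Q.e, Q.f, Q.g, Q.h, (hs _ _ _).1 Q.tg, (ht _ _ _).1 Q.th, Q.gh⟩⟩
  have hS' : IsEmpty (Sq B') := ⟨fun Q => hS.false
    ⟨Q.e1, Q.e2, Q.e3, Q.e4, Q.x, Q.y, Q.z, Q.w, (hs _ _ _).1 Q.ta, (ht _ _ _).1 Q.tb, (hs _ _ _).1 Q.tc,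
      (ht _ _ _).1 Q.td, Q.nd⟩⟩
  obtain ⟨L, n, h5, h6, h7, h8, ⟨i⟩⟩ := coord_torus B' hC' h4 hT' hD' hS'
  exact ⟨L, n, h5, h6, h7, h8, ⟨UIso.trans ⟨Equiv.refl E, hs', ht'⟩ i⟩⟩

end Pool.Agent.PP
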