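import Pool.Agent.Lib_MP_7c0803_tor.Final
import Pool.Agent.Lib_MP_7c0803_tor.Untw
import Pool.Agent.Lib_MP_7c0803_tor.KUiso
import Pool.Agent.Lib_MP_7c0803_tor.KBig
import Pool.Agent.Lib_MP_7c0803_tor.KHea

/-!
# All surfaces of Euler characteristic at least zero
-/

set_option autoImplicit false

open Finset Function

namespace Pool.Agent.PP

open SimpleGraph

universe u v w

variable {V : Type u} {G : SimpleGraph V}

theorem kc_nonneg [Finite V] (M : Emb G) (κ : G.Coloring Bool) (hcub : ∀ v, (G.neighborSet v).ncard = 3)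
    (hG : G.Connected) (hχ : Nat.card G.edgeSet ≤ Nat.card V + Nat.card M.Face)
    (hH : ¬ ContainsSubdivision heawoodGraph G) (hQ : (∀ d, M.tw d = false) ∨ ¬ ContainsSubdivision kleinGraph G)
    (hE : EvenFlips G) : Kc G.lineGraph 3 = 1 := by
  classical
  rcases hQ with htw | hQ
  · exact kc_torus M κ hcub hG htw hχ hH hE
  by_contra hK
  have : Fintype G.edgeSet := Fintype.ofFinite _
  have hp : (toCB M κ hcub).PC := (PC_iff M κ hcub).2 hE
  have hnC : ¬ (toCB M κ hcub).Con := fun h => hK ((Kc_iff M κ hcub).2 h)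
  obtain ⟨E', hF, B', tw', ⟨m⟩, hp', hnC', hC', hχ', -, hne, hT, hD, hS⟩ :=
    exists_stuck0 _ _ (toCB M κ hcub) (twE M κ) le_rfl (mdl0 M κ hcub) hp hnC (cn_of_connected M κ hcub hG)
      ((chi0_iff M κ hcub).1 hχ)
  have h6 := hexagons B' tw' hχ' hT hD hS
  have h3 := dc_h3 B' tw' h6
  by_cases hn : (dc B' tw').Cn
  · obtain ⟨a, b, c, ⟨K⟩⟩ := exists_KCo B' tw' hn h3 (dc_h1 B' tw' hT hD)
    obtain ⟨ha, hb⟩ := K.big hT hD hS
    obtain ⟨r, ⟨i⟩⟩ := K.uiso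
    obtain ⟨m'⟩ := i.mdl m
    exact hQ (klein_small a b ha hb r m')
  · obtain ⟨L, n, hn, h1, h2, hnm, ⟨i⟩⟩ := untw B' tw' hC' hn h3 hT hD hS
    obtain ⟨m'⟩ := i.mdl m
    exact hH (heawood_of_bad L n hn h1 h2 hnm ⟨E', hF, B', hp', hnC', ⟨i⟩⟩ m')

end Pool.Agent.PP
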