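import Pool.Agent.Lib_MP_7c0803_pp.Kempe
import Pool.Agent.Lib_MP_7c0803_pp.EmbB
import Pool.Agent.Lib_MP_7c0803_tor.Hea

/-!
# The Heawood graph: constant parity, but more than one Kempe class

The same as `Lib_MP_7c0803_pp/Heawood.lean`, for `heawoodGraph` (the two classes of vertices are exchanged there).
-/

set_option autoImplicit false

open Finset Function

namespace Pool.Agent.PP

open SimpleGraph

private def HeaS_dl : Fin 3 → Fin 7
  | 0 => 0
  | 1 => 1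
  | 2 => 3

private def HeaS_T : Fin 6 → Fin 3 → Fin 3
  | 0, 0 => 0 | 0, 1 => 1 | 0, 2 => 2
  | 1, 0 => 0 | 1, 1 => 2 | 1, 2 => 1
  | 2, 0 => 1 | 2, 1 => 0 | 2, 2 => 2
  | 3, 0 => 1 | 3, 1 => 2 | 3, 2 => 0
  | 4, 0 => 2 | 4, 1 => 0 | 4, 2 => 1
  | 5, 0 => 2 | 5, 1 => 1 | 5, 2 => 0

private lemma HeaS_T_surj : ∀ a b c : Fin 3, a ≠ b → a ≠ c → b ≠ c →
    ∃ r, HeaS_T r 0 = a ∧ HeaS_T r 1 = b ∧ HeaS_T r 2 = c := by decide

private def HeaS_G : SimpleGraph (Fin 7 × Bool) where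
  Adj u v := (u.2 = false ∧ v.2 = true ∧ ∃ d, v.1 = u.1 + HeaS_dl d) ∨
    (u.2 = true ∧ v.2 = false ∧ ∃ d, u.1 = v.1 + HeaS_dl d)
  symm := by
    constructor
    rintro u v (⟨h1, h2, h3⟩ | ⟨h1, h2, h3⟩)
    · exact Or.inr ⟨h2, h1, h3⟩
    · exact Or.inl ⟨h2, h1, h3⟩
  loopless := by
    constructor
    rintro u (⟨h1, h2, h3⟩ | ⟨h1, h2, h3⟩)
    · rw [h1] at h2
      exact absurd h2 (by decide)
    · rw [h1] at h2
      exact absurd h2 (by decide)

private instance HeaS_dec : DecidableRel HeaS_G.Adj := fun u v =>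
  inferInstanceAs (Decidable ((u.2 = false ∧ v.2 = true ∧ ∃ d, v.1 = u.1 + HeaS_dl d) ∨
    (u.2 = true ∧ v.2 = false ∧ ∃ d, u.1 = v.1 + HeaS_dl d)))

private lemma HeaS_adj (i : Fin 7) (d : Fin 3) :
    HeaS_G.Adj (i, false) (i + HeaS_dl d, true) := Or.inl ⟨rfl, rfl, d, rfl⟩

private def HeaS_e (p : Fin 7 × Fin 3) : HeaS_G.edgeSet :=
  ⟨s((p.1, false), (p.1 + HeaS_dl p.2, true)), HeaS_adj p.1 p.2⟩

private lemma HeaS_dl_inj : Function.Injective HeaS_dl := by decide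

private lemma HeaS_e_inj : Function.Injective HeaS_e := by
  rintro ⟨i, d⟩ ⟨j, d'⟩ h
  have h1 : (s((i, false), (i + HeaS_dl d, true)) : Sym2 (Fin 7 × Bool)) =
      s((j, false), (j + HeaS_dl d', true)) := congrArg Subtype.val h
  rcases Sym2.eq_iff.1 h1 with ⟨h2, h3⟩ | ⟨h2, -⟩
  · have h4 : i = j := congrArg Prod.fst h2
    subst h4
    have h5 : i + HeaS_dl d = i + HeaS_dl d' := congrArg Prod.fst h3
    rw [HeaS_dl_inj (add_left_cancel h5)]
  · have h3 : false = true := congrArg Prod.snd h2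
    exact absurd h3 (by decide)

private lemma HeaS_e_surj : Function.Surjective HeaS_e := by
  rintro ⟨e, he⟩
  induction e using Sym2.ind with
  | _ u v =>
    obtain ⟨i, b⟩ := u
    obtain ⟨j, b'⟩ := v
    rcases he with ⟨h1, h2, d, h3⟩ | ⟨h1, h2, d, h3⟩
    · have h1' : b = false := h1
      have h2' : b' = true := h2
      have h3' : j = i + HeaS_dl d := h3
      subst h1' h2' h3'
      exact ⟨(i, d), rfl⟩
    · have h1' : b = true := h1
      have h2' : b' = false := h2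
      have h3' : i = j + HeaS_dl d := h3
      subst h1' h2' h3'
      exact ⟨(j, d), Subtype.ext Sym2.eq_swap⟩

private noncomputable def HeaS_E : Fin 7 × Fin 3 ≃ HeaS_G.edgeSet :=
  Equiv.ofBijective HeaS_e ⟨HeaS_e_inj, HeaS_e_surj⟩

/-- the edges at a vertex -/
private def HeaS_P (v : Fin 7 × Bool) (d : Fin 3) : Fin 7 × Fin 3 :=
  if v.2 = false then (v.1, d) else (v.1 - HeaS_dl d, d)

private lemma HeaS_P_inj (v : Fin 7 × Bool) : Function.Injective (HeaS_P v) := by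
  intro d d' h
  have h1 := congrArg Prod.snd h
  unfold HeaS_P at h1
  split_ifs at h1
  · exact h1
  · exact h1

private lemma HeaS_mem (v : Fin 7 × Bool) (p : Fin 7 × Fin 3) :
    v ∈ (HeaS_e p : Sym2 (Fin 7 × Bool)) ↔ ∃ d, p = HeaS_P v d := by
  obtain ⟨i, b⟩ := v
  obtain ⟨j, d⟩ := p
  have h0 : (i, b) ∈ (HeaS_e (j, d) : Sym2 (Fin 7 × Bool)) ↔
      (i, b) = (j, false) ∨ (i, b) = (j + HeaS_dl d, true) := Sym2.mem_iff
  rw [h0]
  cases b with
  | false =>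
    constructor
    · rintro (h | h)
      · have h1 : i = j := congrArg Prod.fst h
        exact ⟨d, by rw [h1]; rfl⟩
      · have h1 : false = true := congrArg Prod.snd h
        exact absurd h1 (by decide)
    · rintro ⟨d', h⟩
      have h1 : j = i := congrArg Prod.fst h
      left
      rw [h1]
  | true =>
    constructor
    · rintro (h | h)
      · have h1 : true = false := congrArg Prod.snd h
        exact absurd h1 (by decide)
      · have h1 : i = j + HeaS_dl d := congrArg Prod.fst h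
        refine ⟨d, ?_⟩
        show (j, d) = (i - HeaS_dl d, d)
        rw [h1, add_sub_cancel_right]
    · rintro ⟨d', h⟩
      have h1 : j = i - HeaS_dl d' := congrArg Prod.fst h
      have h2 : d = d' := congrArg Prod.snd h
      right
      rw [h1, h2, sub_add_cancel]

/-- proper colourings as functions on the index set -/
private def HeaS_Pr (m : Fin 7 × Fin 3 → Fin 3) : Prop :=
  ∀ (v : Fin 7 × Bool) (d d' : Fin 3), d ≠ d' → m (HeaS_P v d) ≠ m (HeaS_P v d')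

private lemma HeaS_Pr_col (c : HeaS_G.lineGraph.Coloring (Fin 3)) :
    HeaS_Pr (fun p => c (HeaS_e p)) := by
  intro v d d' hd
  apply c.valid
  rw [SimpleGraph.lineGraph_adj_iff_exists]
  exact ⟨fun h => hd (HeaS_P_inj v (HeaS_e_inj h)), v, (HeaS_mem v _).2 ⟨d, rfl⟩,
    (HeaS_mem v _).2 ⟨d', rfl⟩⟩

private lemma HeaS_exists_col (m : Fin 7 × Fin 3 → Fin 3) (hm : HeaS_Pr m) :
    ∃ c : HeaS_G.lineGraph.Coloring (Fin 3), ∀ p, c (HeaS_e p) = m p := by
  refine ⟨SimpleGraph.Coloring.mk (fun e => m (HeaS_E.symm e)) ?_, ?_⟩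
  · intro e e' h
    rw [SimpleGraph.lineGraph_adj_iff_exists] at h
    obtain ⟨hne, v, hv, hv'⟩ := h
    obtain ⟨p, rfl⟩ := HeaS_E.surjective e
    obtain ⟨p', rfl⟩ := HeaS_E.surjective e'
    obtain ⟨d, rfl⟩ := (HeaS_mem v p).1 hv
    obtain ⟨d', rfl⟩ := (HeaS_mem v p').1 hv'
    rw [Equiv.symm_apply_apply, Equiv.symm_apply_apply]
    apply hm
    rintro rfl
    exact hne rfl
  · intro p
    exact congrArg m (HeaS_E.symm_apply_apply p)

/-! ### The search -/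

private def HeaS_R1 (a b : Fin 6) : Bool := decide (HeaS_T b 0 ≠ HeaS_T a 1)

private def HeaS_R2 (a b : Fin 6) : Bool := decide (HeaS_T b 1 ≠ HeaS_T a 2)

private def HeaS_R3 (a b : Fin 6) : Bool := decide (HeaS_T b 0 ≠ HeaS_T a 2)

private def HeaS_sg (a b : Fin 3) : ZMod 2 := if b = a + 1 then 0 else 1

private def HeaS_S (m : Fin 7 × Fin 3 → Fin 3) : ZMod 2 :=
  ∑ i : Fin 7, (HeaS_sg (m (i, 0)) (m (i, 1)) + HeaS_sg (m (i - 0, 0)) (m (i - 1, 1)))

private def HeaS_mm (r : Fin 7 → Fin 6) : Fin 7 × Fin 3 → Fin 3 := fun p => HeaS_T (r p.1) p.2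

private def HeaS_leaf (r : Fin 7 → Fin 6) : Bool :=
  decide (HeaS_S (HeaS_mm r) = 0 ∧
    ((∃ k k0 : Fin 3, ∀ (i : Fin 7) (d : Fin 3), HeaS_mm r (i, d) = k ↔ d = k0) →
      ∀ (i : Fin 7) (d : Fin 3), HeaS_mm r (i, d) = HeaS_mm r (0, d)))

set_option synthInstance.maxSize 5000 in
set_option maxRecDepth 10000 in
private lemma HeaS_search : ∀ r0 r1 : Fin 6, HeaS_R1 r0 r1 = true →
    ∀ r2 : Fin 6, HeaS_R2 r0 r2 = true → HeaS_R1 r1 r2 = true →
    ∀ r3 : Fin 6, HeaS_R3 r0 r3 = true → HeaS_R2 r1 r3 = true → HeaS_R1 r2 r3 = true →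
    ∀ r4 : Fin 6, HeaS_R3 r4 r0 = true → HeaS_R3 r1 r4 = true → HeaS_R2 r2 r4 = true →
      HeaS_R1 r3 r4 = true →
    ∀ r5 : Fin 6, HeaS_R2 r5 r0 = true → HeaS_R3 r5 r1 = true → HeaS_R3 r2 r5 = true →
      HeaS_R2 r3 r5 = true → HeaS_R1 r4 r5 = true →
    ∀ r6 : Fin 6, HeaS_R1 r6 r0 = true → HeaS_R2 r6 r1 = true → HeaS_R3 r6 r2 = true →
      HeaS_R3 r3 r6 = true → HeaS_R2 r4 r6 = true → HeaS_R1 r5 r6 = true →
      HeaS_leaf ![r0, r1, r2, r3, r4, r5, r6] = true := by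
  decide +kernel

private lemma HeaS_key (m : Fin 7 × Fin 3 → Fin 3) (hm : HeaS_Pr m) :
    HeaS_S m = 0 ∧ ((∃ k k0 : Fin 3, ∀ (i : Fin 7) (d : Fin 3), m (i, d) = k ↔ d = k0) →
      ∀ (i : Fin 7) (d : Fin 3), m (i, d) = m (0, d)) := by
  have h0 : ∀ i : Fin 7, ∃ r, HeaS_T r 0 = m (i, 0) ∧ HeaS_T r 1 = m (i, 1) ∧
      HeaS_T r 2 = m (i, 2) := by
    intro i
    exact HeaS_T_surj _ _ _ (hm (i, false) 0 1 (by decide)) (hm (i, false) 0 2 (by decide))
      (hm (i, false) 1 2 (by decide))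
  choose r hr using h0
  have hmr : HeaS_mm r = m := by
    funext p
    obtain ⟨i, d⟩ := p
    obtain ⟨h1, h2, h3⟩ := hr i
    show HeaS_T (r i) d = m (i, d)
    revert d
    rw [Fin.forall_fin_succ, Fin.forall_fin_succ, Fin.forall_fin_succ]
    exact ⟨h1, h2, h3, fun d => d.elim0⟩
  have g1 : ∀ i, HeaS_R1 (r i) (r (i + 1)) = true := by
    intro i
    have h1 := hm (i + 1, true) 0 1 (by decide)
    have h2 : HeaS_P (i + 1, true) 0 = (i + 1, 0) := by
      show (i + 1 - 0, (0 : Fin 3)) = (i + 1, 0)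
      rw [sub_zero]
    have h3 : HeaS_P (i + 1, true) 1 = (i, 1) := by
      show (i + 1 - 1, (1 : Fin 3)) = (i, 1)
      rw [add_sub_cancel_right]
    rw [h2, h3, ← hmr] at h1
    exact decide_eq_true h1
  have g2 : ∀ i, HeaS_R2 (r i) (r (i + 2)) = true := by
    intro i
    have h1 := hm (i + 3, true) 1 2 (by decide)
    have h2 : HeaS_P (i + 3, true) 1 = (i + 2, 1) := by
      show (i + 3 - 1, (1 : Fin 3)) = (i + 2, 1)
      rw [add_sub_assoc]
      rfl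
    have h3 : HeaS_P (i + 3, true) 2 = (i, 2) := by
      show (i + 3 - 3, (2 : Fin 3)) = (i, 2)
      rw [add_sub_cancel_right]
    rw [h2, h3, ← hmr] at h1
    exact decide_eq_true h1
  have g3 : ∀ i, HeaS_R3 (r i) (r (i + 3)) = true := by
    intro i
    have h1 := hm (i + 3, true) 0 2 (by decide)
    have h2 : HeaS_P (i + 3, true) 0 = (i + 3, 0) := by
      show (i + 3 - 0, (0 : Fin 3)) = (i + 3, 0)
      rw [sub_zero]
    have h3 : HeaS_P (i + 3, true) 2 = (i, 2) := by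
      show (i + 3 - 3, (2 : Fin 3)) = (i, 2)
      rw [add_sub_cancel_right]
    rw [h2, h3, ← hmr] at h1
    exact decide_eq_true h1
  have h5 := HeaS_search (r 0) (r 1) (g1 0) (r 2) (g2 0) (g1 1) (r 3) (g3 0) (g2 1) (g1 2)
    (r 4) (g3 4) (g3 1) (g2 2) (g1 3) (r 5) (g2 5) (g3 5) (g3 2) (g2 3) (g1 4)
    (r 6) (g1 6) (g2 6) (g3 6) (g3 3) (g2 4) (g1 5)
  have h6 : ![r 0, r 1, r 2, r 3, r 4, r 5, r 6] = r := by
    funext i
    fin_cases i <;> rfl
  rw [h6] at h5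
  have h7 := of_decide_eq_true h5
  rw [hmr] at h7
  exact h7

/-! ### Parity -/

set_option synthInstance.maxSize 1000 in
private lemma HeaS_fin : ∀ a b x a' b' x' : Fin 3, a ≠ b → a ≠ x → b ≠ x → a' ≠ b' → a' ≠ x' →
    b' ≠ x' → (if (a = a' ∧ b ≠ b' ∧ x ≠ x') ∨ (a ≠ a' ∧ b = b' ∧ x ≠ x') ∨ (a ≠ a' ∧ b ≠ b' ∧ x = x')
      then (1 : ZMod 2) else 0) = HeaS_sg a b + HeaS_sg a' b' := by decide +kernel

private lemma HeaS_three (p : Fin 3 → Prop) : (∃! d, p d) ↔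
    (p 0 ∧ ¬ p 1 ∧ ¬ p 2) ∨ (¬ p 0 ∧ p 1 ∧ ¬ p 2) ∨ (¬ p 0 ∧ ¬ p 1 ∧ p 2) := by
  have h01 : (0 : Fin 3) ≠ 1 := by decide
  have h02 : (0 : Fin 3) ≠ 2 := by decide
  have h12 : (1 : Fin 3) ≠ 2 := by decide
  have hall : ∀ d : Fin 3, d = 0 ∨ d = 1 ∨ d = 2 := by decide
  constructor
  · rintro ⟨d, hd, hu⟩
    rcases hall d with rfl | rfl | rfl
    · exact Or.inl ⟨hd, fun h => h01 (hu 1 h).symm, fun h => h02 (hu 2 h).symm⟩
    · exact Or.inr (Or.inl ⟨fun h => h01 (hu 0 h), hd, fun h => h12 (hu 2 h).symm⟩)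
    · exact Or.inr (Or.inr ⟨fun h => h02 (hu 0 h), fun h => h12 (hu 1 h), hd⟩)
  · rintro (⟨h0, h1, h2⟩ | ⟨h0, h1, h2⟩ | ⟨h0, h1, h2⟩)
    · refine ⟨0, h0, fun d hd => ?_⟩
      rcases hall d with rfl | rfl | rfl
      · rfl
      · exact absurd hd h1
      · exact absurd hd h2
    · refine ⟨1, h1, fun d hd => ?_⟩
      rcases hall d with rfl | rfl | rfl
      · exact absurd hd h0
      · rfl
      · exact absurd hd h2
    · refine ⟨2, h2, fun d hd => ?_⟩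
      rcases hall d with rfl | rfl | rfl
      · exact absurd hd h0
      · exact absurd hd h1
      · rfl

private lemma HeaS_flips (c c' : HeaS_G.lineGraph.Coloring (Fin 3)) (v : Fin 7 × Bool) :
    v ∈ flips c c' ↔ ∃! d, c (HeaS_e (HeaS_P v d)) = c' (HeaS_e (HeaS_P v d)) := by
  unfold flips
  rw [Set.mem_ofPred_eq]
  constructor
  · rintro ⟨e, ⟨he1, he2⟩, he3⟩
    obtain ⟨p, rfl⟩ := HeaS_e_surj e
    obtain ⟨d, rfl⟩ := (HeaS_mem v p).1 he1
    refine ⟨d, he2, fun d' hd' => ?_⟩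
    exact HeaS_P_inj v (HeaS_e_inj (he3 _ ⟨(HeaS_mem v _).2 ⟨d', rfl⟩, hd'⟩))
  · rintro ⟨d, hd1, hd2⟩
    refine ⟨HeaS_e (HeaS_P v d), ⟨(HeaS_mem v _).2 ⟨d, rfl⟩, hd1⟩, ?_⟩
    rintro e ⟨he1, he2⟩
    obtain ⟨p, rfl⟩ := HeaS_e_surj e
    obtain ⟨d', rfl⟩ := (HeaS_mem v p).1 he1
    rw [hd2 d' he2]

private lemma HeaS_parity (c c' : HeaS_G.lineGraph.Coloring (Fin 3)) :
    Even (flips c c').ncard := by
  classical
  have hm := HeaS_Pr_col c
  have hm' := HeaS_Pr_col c'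
  have h1 : ∀ v : Fin 7 × Bool, (if v ∈ flips c c' then (1 : ZMod 2) else 0) =
      HeaS_sg (c (HeaS_e (HeaS_P v 0))) (c (HeaS_e (HeaS_P v 1))) +
      HeaS_sg (c' (HeaS_e (HeaS_P v 0))) (c' (HeaS_e (HeaS_P v 1))) := by
    intro v
    rw [← HeaS_fin _ _ _ _ _ _ (hm v 0 1 (by decide)) (hm v 0 2 (by decide))
      (hm v 1 2 (by decide)) (hm' v 0 1 (by decide)) (hm' v 0 2 (by decide))
      (hm' v 1 2 (by decide))]
    have h2 := (HeaS_flips c c' v).trans (HeaS_three _)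
    by_cases hf : v ∈ flips c c'
    · rw [if_pos hf, if_pos (h2.1 hf)]
    · rw [if_neg hf, if_neg (fun h => hf (h2.2 h))]
  have h2 : ((flips c c').ncard : ZMod 2) = ∑ v : Fin 7 × Bool, if v ∈ flips c c' then (1 : ZMod 2) else 0 := by
    rw [Finset.sum_boole]
    congr 1
    rw [← Set.ncard_coe_finset]
    congr 1
    ext v
    simp
  have h3 : ∀ c : HeaS_G.lineGraph.Coloring (Fin 3), ∑ v : Fin 7 × Bool,
      HeaS_sg (c (HeaS_e (HeaS_P v 0))) (c (HeaS_e (HeaS_P v 1))) = 0 := by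
    intro c
    have h4 := (HeaS_key _ (HeaS_Pr_col c)).1
    rw [Fintype.sum_prod_type]
    simp only [Fintype.sum_bool]
    exact (Finset.sum_congr rfl fun i _ => add_comm _ _).trans h4
  have h4 : ((flips c c').ncard : ZMod 2) = 0 := by
    rw [h2]
    simp_rw [h1]
    rw [Finset.sum_add_distrib, h3, h3, add_zero]
  rw [ZMod.natCast_eq_zero_iff] at h4
  exact even_iff_two_dvd.2 h4

/-! ### Kempe classes -/

private def HeaS_Phi (c : HeaS_G.lineGraph.Coloring (Fin 3)) : Prop :=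
  ∀ (i : Fin 7) (d : Fin 3), c (HeaS_e (i, d)) = c (HeaS_e (0, d))

private lemma HeaS_inj3 : ∀ f : Fin 3 → Fin 3, f 0 ≠ f 1 → f 0 ≠ f 2 → f 1 ≠ f 2 →
    ∀ k, ∃ d0, ∀ d, f d = k ↔ d = d0 := by decide +kernel

private lemma HeaS_rel (c c' : HeaS_G.lineGraph.Coloring (Fin 3))
    (h : Rel (fun e => c e) (fun e => c' e)) (hc : HeaS_Phi c) : HeaS_Phi c' := by
  obtain ⟨k, hk⟩ := h
  have hm := HeaS_Pr_col c (0, false)
  obtain ⟨d0, hd0⟩ := HeaS_inj3 (fun d => c (HeaS_e (0, d))) (hm 0 1 (by decide))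
    (hm 0 2 (by decide)) (hm 1 2 (by decide)) k
  refine (HeaS_key _ (HeaS_Pr_col c')).2 ⟨k, d0, fun i d => ?_⟩
  have h1 : c (HeaS_e (i, d)) = k ↔ c' (HeaS_e (i, d)) = k := hk _
  show c' (HeaS_e (i, d)) = k ↔ d = d0
  rw [← h1, hc i d]
  exact hd0 d

private lemma HeaS_eqv {c c' : HeaS_G.lineGraph.Coloring (Fin 3)}
    (h : Relation.EqvGen (KempeStep HeaS_G.lineGraph 3) c c') :
    HeaS_Phi c ↔ HeaS_Phi c' := by
  induction h with
  | rel x y h =>
    obtain ⟨k, hk⟩ := rel_of_step x y h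
    exact ⟨HeaS_rel x y ⟨k, hk⟩, HeaS_rel y x ⟨k, fun e => (hk e).symm⟩⟩
  | refl x => exact Iff.rfl
  | symm x y _ ih => exact ih.symm
  | trans x y z _ _ ih1 ih2 => exact ih1.trans ih2

private def HeaS_c1 (p : Fin 7 × Fin 3) : Fin 3 :=
  HeaS_T (![0, 0, 5, 0, 1, 2, 3] p.1) p.2

private lemma HeaS_two : Kc HeaS_G.lineGraph 3 ≠ 1 := by
  intro h
  unfold Kc at h
  rw [Nat.card_eq_one_iff_unique] at h
  obtain ⟨hs, -⟩ := h
  obtain ⟨c0, hc0⟩ := HeaS_exists_col (fun p => p.2) (by unfold HeaS_Pr; decide +kernel)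
  obtain ⟨c1, hc1⟩ := HeaS_exists_col HeaS_c1 (by unfold HeaS_Pr; decide +kernel)
  have h1 : Quot.mk (KempeStep HeaS_G.lineGraph 3) c0 =
      Quot.mk (KempeStep HeaS_G.lineGraph 3) c1 := Subsingleton.elim _ _
  have h2 := HeaS_eqv (Quot.eqvGen_exact h1)
  have h3 : HeaS_Phi c0 := by
    intro i d
    rw [hc0, hc0]
  have h4 := h2.1 h3 2 0
  rw [hc1, hc1] at h4
  exact absurd h4 (by decide +kernel)

/-! ### The graph -/

private lemma HeaS_conn : HeaS_G.Connected := by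
  have h1 : ∀ i : Fin 7, HeaS_G.Reachable (i, false) (i, true) := by
    intro i
    have h2 := HeaS_adj i 0
    have h3 : i + HeaS_dl 0 = i := add_zero i
    rw [h3] at h2
    exact h2.reachable
  have h2 : ∀ i : Fin 7, HeaS_G.Reachable (i, false) (i + 1, false) := by
    intro i
    exact (HeaS_adj i 1).reachable.trans (h1 (i + 1)).symm
  have h3 : ∀ i : Fin 7, HeaS_G.Reachable (0, false) (i, false) := by
    intro i
    induction i using Fin.induction with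
    | zero => exact SimpleGraph.Reachable.refl _
    | succ i ih =>
      have h4 := h2 i.castSucc
      rw [Fin.coeSucc_eq_succ] at h4
      exact ih.trans h4
  have h4 : ∀ v : Fin 7 × Bool, HeaS_G.Reachable (0, false) v := by
    rintro ⟨i, b⟩
    cases b with
    | false => exact h3 i
    | true => exact (h3 i).trans (h1 i)
  exact (SimpleGraph.connected_iff_exists_forall_reachable _).2 ⟨(0, false), h4⟩

private lemma HeaS_col2 : HeaS_G.Colorable 2 := by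
  have h1 : HeaS_G.Coloring Bool := SimpleGraph.Coloring.mk (fun v => v.2) (by
    rintro u v (⟨h1, h2, -⟩ | ⟨h1, h2, -⟩)
    · rw [h1, h2]
      decide
    · rw [h1, h2]
      decide)
  have h2 := h1.colorable
  rw [Fintype.card_bool] at h2
  exact h2

private lemma HeaS_cub (v : Fin 7 × Bool) : (HeaS_G.neighborSet v).ncard = 3 := by
  rw [Set.ncard_eq_toFinset_card']
  revert v
  decide +kernel

private lemma HeaS_eq : heawoodGraph = HeaS_G := by
  have h : ∀ u v : Fin 7 × Bool,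
      ((u.2 = false ∧ v.2 = true ∧ (v.1 - u.1 = 0 ∨ v.1 - u.1 = 1 ∨ v.1 - u.1 = 3)) ∨
        (v.2 = false ∧ u.2 = true ∧ (u.1 - v.1 = 0 ∨ u.1 - v.1 = 1 ∨ u.1 - v.1 = 3))) ↔
      ((u.2 = false ∧ v.2 = true ∧ ∃ d, v.1 = u.1 + HeaS_dl d) ∨
        (u.2 = true ∧ v.2 = false ∧ ∃ d, u.1 = v.1 + HeaS_dl d)) := by decide +kernel
  ext u v
  exact h u v

/-- the Heawood graph is connected, cubic, bipartite, all its 3-edge-colourings have the same parity, but there is more than one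
Kempe class -/
theorem heawood_facts : heawoodGraph.Connected ∧ heawoodGraph.Colorable 2 ∧
    (∀ v, (heawoodGraph.neighborSet v).ncard = 3) ∧
    (∀ c c' : heawoodGraph.lineGraph.Coloring (Fin 3), Even (flips c c').ncard) ∧ Kc heawoodGraph.lineGraph 3 ≠ 1 := by
  rw [HeaS_eq]
  exact ⟨HeaS_conn, HeaS_col2, HeaS_cub, HeaS_parity, HeaS_two⟩

end Pool.Agent.PP
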