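import Pool.Agent.Lib_MP_7c0803_tor.KSharp
import Pool.Agent.Lib_MP_7c0803_tor.HeaSharp

/-!
# The second obstruction does not contain the first one

Proof plan.  Let `K = kleinGraph` (18 vertices), `H = heawoodGraph` (14 vertices), `f`, `P` a subdivision of `H` in `K`.
(0) Replace `P` by `P' d = P d` if `d.fst.2 = false` and `(P d.symm).reverse` otherwise; then `P' d.symm = (P' d).reverse`, and all
properties remain (all statements about the supports).
(1) Let `x1 d` be the second vertex of `P' d` (`P' d` is not `nil`, `f` is injective).  If `d.fst = d'.fst` and `x1 d = x1 d'` then `d = d'`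
(otherwise `x1 d` is in both supports, so it is a branch vertex `f w`, `w ≠ d.fst` because `P' d` is a path, so `w = d.snd = d'.snd`).  Both
graphs are cubic, so for every branch vertex `f w` and every neighbour `v` of `f w` there is exactly one dart `d` with `d.fst = w`, `x1 d = v`.
(2) Let `N` be the set of the four vertices which are not in the range of `f`.  An edge `uv` of `K` is used if it is an edge of some `P' d`.  All edges
at branch vertices are used.  A vertex `u ∈ N` is an inner vertex of the paths of at most one edge of `H`, so it has no or exactly two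
used edges, i.e. three or one unused ones, and their other ends are in `N`.
(3) So the set `U` of the unused edges is a perfect matching of `N` (two disjoint edges) or a star (three edges): `|N| = 4`.
(4) For each of the `297 + 18` sets `U` of two disjoint edges or of three edges at a vertex (`N` = the set of their ends) there is a 6-cycle
`C` of `K` (a set of six vertices, each with at least two neighbours in `C`) with `C ∩ N` not empty, such that for every `u ∈ C ∩ N` the neighbours of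
`u` along edges not in `U` are in `C` (checked by a program; there are twenty 6-cycles; `decide +kernel` on numbers, vertices
`3 l + i` and `9 + 3 l + i`, with the table in `KSharp.lean`).
(5) Let `W = {w | f w ∈ C}`: not empty, at most five elements.  Every `w ∈ W` has at least two neighbours in `W`: let `v` be one of the (at least)
two neighbours of `f w` in `C`, `d` the dart with `d.fst = w`, `x1 d = v`; following `P' d` from `v`, all vertices are in `C` by (4), so
`f d.snd ∈ C`; different `v` give different `d`.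
(6) In the Heawood graph there is no nonempty set `W` of at most five vertices, each with at least two neighbours in `W` (girth 6): by
`decide +kernel`, e.g. by walking: no closed walk without backtracking of length at most five.
-/

set_option autoImplicit false

open Finset Function

namespace Pool.Agent.PP

open SimpleGraph

/-! ### tables -/

private abbrev KNoH_V : Type := (Fin 3 × Fin 3) × Bool

private def KNoH_nb (u : KNoH_V) (k : Fin 3) : KNoH_V :=
  if u.2 = false then (kf 2 2 0 k u.1, true) else ((kf 2 2 0 k).symm u.1, false)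

private lemma KNoH_adj (u v : KNoH_V) : kleinGraph.Adj u v ↔ ∃ k, KNoH_nb u k = v := by
  have h : ∀ u v : KNoH_V, ((u.2 = false ∧ v.2 = true ∧ ∃ j, kf 2 2 0 j u.1 = v.1) ∨
      (v.2 = false ∧ u.2 = true ∧ ∃ j, kf 2 2 0 j v.1 = u.1)) ↔ ∃ k, KNoH_nb u k = v := by
    decide +kernel
  exact h u v

private lemma KNoH_nb_inj : ∀ (u : KNoH_V) (k k' : Fin 3), KNoH_nb u k = KNoH_nb u k' → k = k' := by
  decide +kernel

private lemma KNoH_nb_nb : ∀ (u : KNoH_V) (k : Fin 3), KNoH_nb (KNoH_nb u k) k = u := by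
  decide +kernel

private def KNoH_dl : Fin 3 → Fin 7 := ![0, 1, 3]

private def KNoH_nH (u : Fin 7 × Bool) (k : Fin 3) : Fin 7 × Bool :=
  if u.2 = false then (u.1 + KNoH_dl k, true) else (u.1 - KNoH_dl k, false)

private lemma KNoH_adjH (u v : Fin 7 × Bool) : heawoodGraph.Adj u v ↔ ∃ k, KNoH_nH u k = v := by
  have h : ∀ x y : Fin 7 × Bool, ((x.2 = false ∧ y.2 = true ∧ (y.1 - x.1 = 0 ∨ y.1 - x.1 = 1 ∨ y.1 - x.1 = 3)) ∨
      (y.2 = false ∧ x.2 = true ∧ (x.1 - y.1 = 0 ∨ x.1 - y.1 = 1 ∨ x.1 - y.1 = 3))) ↔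
      ∃ k, KNoH_nH x k = y := by
    decide +kernel
  exact h u v

private lemma KNoH_nH_inj : ∀ (u : Fin 7 × Bool) (k k' : Fin 3), KNoH_nH u k = KNoH_nH u k' → k = k' := by
  decide +kernel

private lemma KNoH_nH_bool : ∀ (u : Fin 7 × Bool) (k : Fin 3), (KNoH_nH u k).2 = !u.2 := by
  decide +kernel

private lemma KNoH_nodup : ∀ (w : Fin 7 × Bool) (k0 k1 k2 k3 k4 : Fin 3),
    KNoH_nH (KNoH_nH w k0) k1 ≠ w →
    KNoH_nH (KNoH_nH (KNoH_nH w k0) k1) k2 ≠ KNoH_nH w k0 →
    KNoH_nH (KNoH_nH (KNoH_nH (KNoH_nH w k0) k1) k2) k3 ≠ KNoH_nH (KNoH_nH w k0) k1 →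
    KNoH_nH (KNoH_nH (KNoH_nH (KNoH_nH (KNoH_nH w k0) k1) k2) k3) k4 ≠
      KNoH_nH (KNoH_nH (KNoH_nH w k0) k1) k2 →
    [w, KNoH_nH w k0, KNoH_nH (KNoH_nH w k0) k1, KNoH_nH (KNoH_nH (KNoH_nH w k0) k1) k2,
      KNoH_nH (KNoH_nH (KNoH_nH (KNoH_nH w k0) k1) k2) k3,
      KNoH_nH (KNoH_nH (KNoH_nH (KNoH_nH (KNoH_nH w k0) k1) k2) k3) k4].Nodup := by
  decide +kernel

/-! ### the 6-cycles -/

private def KNoH_enc (u : KNoH_V) : ℕ := (if u.2 = true then 9 else 0) + 3 * u.1.1.val + u.1.2.val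

private lemma KNoH_enc_lt : ∀ u : KNoH_V, KNoH_enc u < 18 := by decide +kernel

private lemma KNoH_enc_inj : ∀ u v : KNoH_V, KNoH_enc u = KNoH_enc v → u = v := by decide +kernel

private def KNoH_tb (u k : ℕ) : ℕ :=
  (187592469572133472857701597220671794275835227800250748938349427833772525852375433 >>> (5 * (3 * u + k))) % 32

private lemma KNoH_enc_nb : ∀ (u : KNoH_V) (k : Fin 3), KNoH_enc (KNoH_nb u k) = KNoH_tb (KNoH_enc u) k.val := by
  decide +kernel

private def KNoH_M : List ℕ := [28679, 5699, 19077, 151593, 37449, 82593, 11526, 45082, 37962, 136458, 42066, 90164, 75924,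
  84132, 149796, 229432, 165192, 99024, 199072, 4032]

private def KNoH_ok (m u k : ℕ) : Bool :=
  !(m.testBit u) || ((k == 0 || m.testBit (KNoH_tb u 0)) && (k == 1 || m.testBit (KNoH_tb u 1)) &&
    (k == 2 || m.testBit (KNoH_tb u 2)))

private def KNoH_chk2 : Bool :=
  (List.range 18).all fun u0 => (List.range 3).all fun k0 => (List.range 18).all fun u1 => (List.range 3).all fun k1 =>
    u1 == u0 || u1 == KNoH_tb u0 k0 || KNoH_tb u1 k1 == u0 || KNoH_tb u1 k1 == KNoH_tb u0 k0 ||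
    KNoH_M.any fun m => (m.testBit u0 || m.testBit (KNoH_tb u0 k0) || m.testBit u1 || m.testBit (KNoH_tb u1 k1)) &&
      KNoH_ok m u0 k0 && KNoH_ok m (KNoH_tb u0 k0) k0 && KNoH_ok m u1 k1 && KNoH_ok m (KNoH_tb u1 k1) k1

private lemma KNoH_chk2_true : KNoH_chk2 = true := by decide +kernel

private def KNoH_chk1 : Bool :=
  (List.range 18).all fun u =>
    KNoH_M.any fun m => (m.testBit u || m.testBit (KNoH_tb u 0) || m.testBit (KNoH_tb u 1) || m.testBit (KNoH_tb u 2)) &&
      KNoH_ok m (KNoH_tb u 0) 0 && KNoH_ok m (KNoH_tb u 1) 1 && KNoH_ok m (KNoH_tb u 2) 2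

private lemma KNoH_chk1_true : KNoH_chk1 = true := by decide +kernel

/-- membership in the 6-cycle `m` -/
private def KNoH_mem (m : ℕ) (u : KNoH_V) : Prop := m.testBit (KNoH_enc u) = true

private instance KNoH_dec (m : ℕ) (u : KNoH_V) : Decidable (KNoH_mem m u) :=
  inferInstanceAs (Decidable (m.testBit (KNoH_enc u) = true))

private lemma KNoH_card : ∀ m ∈ KNoH_M, (univ.filter fun u => KNoH_mem m u).card = 6 := by decide +kernel

private lemma KNoH_deg : ∀ m ∈ KNoH_M, ∀ u, KNoH_mem m u →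
    ∃ k k' : Fin 3, k ≠ k' ∧ KNoH_mem m (KNoH_nb u k) ∧ KNoH_mem m (KNoH_nb u k') := by decide +kernel

private lemma KNoH_ok_iff (m : ℕ) (u : KNoH_V) (k : Fin 3) (h : KNoH_ok m (KNoH_enc u) k.val = true) :
    KNoH_mem m u → ∀ j, j ≠ k → KNoH_mem m (KNoH_nb u j) := by
  intro h1 j hj
  have h1' : m.testBit (KNoH_enc u) = true := h1
  unfold KNoH_ok at h
  rw [h1', Bool.not_true, Bool.false_or, Bool.and_eq_true, Bool.and_eq_true, Bool.or_eq_true, Bool.or_eq_true,
    Bool.or_eq_true, beq_iff_eq, beq_iff_eq, beq_iff_eq] at h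
  obtain ⟨⟨h2, h3⟩, h4⟩ := h
  show m.testBit (KNoH_enc (KNoH_nb u j)) = true
  rw [KNoH_enc_nb]
  have hj' : k.val ≠ j.val := fun h => hj (Fin.ext h.symm)
  fin_cases j
  · exact h2.resolve_left hj'
  · exact h3.resolve_left hj'
  · exact h4.resolve_left hj'

private lemma KNoH_two (u0 : KNoH_V) (k0 : Fin 3) (u1 : KNoH_V) (k1 : Fin 3) (h1 : u1 ≠ u0) (h2 : u1 ≠ KNoH_nb u0 k0)
    (h3 : KNoH_nb u1 k1 ≠ u0) (h4 : KNoH_nb u1 k1 ≠ KNoH_nb u0 k0) :
    ∃ m ∈ KNoH_M, (KNoH_mem m u0 ∨ KNoH_mem m (KNoH_nb u0 k0) ∨ KNoH_mem m u1 ∨ KNoH_mem m (KNoH_nb u1 k1)) ∧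
      (KNoH_mem m u0 → ∀ j, j ≠ k0 → KNoH_mem m (KNoH_nb u0 j)) ∧
      (KNoH_mem m (KNoH_nb u0 k0) → ∀ j, j ≠ k0 → KNoH_mem m (KNoH_nb (KNoH_nb u0 k0) j)) ∧
      (KNoH_mem m u1 → ∀ j, j ≠ k1 → KNoH_mem m (KNoH_nb u1 j)) ∧
      (KNoH_mem m (KNoH_nb u1 k1) → ∀ j, j ≠ k1 → KNoH_mem m (KNoH_nb (KNoH_nb u1 k1) j)) := by
  have h := KNoH_chk2_true
  unfold KNoH_chk2 at h
  rw [List.all_eq_true] at h
  have h := h (KNoH_enc u0) (List.mem_range.2 (KNoH_enc_lt u0))
  rw [List.all_eq_true] at h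
  have h := h k0.val (List.mem_range.2 k0.2)
  rw [List.all_eq_true] at h
  have h := h (KNoH_enc u1) (List.mem_range.2 (KNoH_enc_lt u1))
  rw [List.all_eq_true] at h
  have h := h k1.val (List.mem_range.2 k1.2)
  rw [← KNoH_enc_nb, ← KNoH_enc_nb] at h
  simp only [Bool.or_eq_true, beq_iff_eq, List.any_eq_true, Bool.and_eq_true] at h
  rcases h with (((h | h) | h) | h) | ⟨m, hm, ⟨⟨⟨⟨h5, h6⟩, h7⟩, h8⟩, h9⟩⟩
  · exact absurd (KNoH_enc_inj _ _ h) h1
  · exact absurd (KNoH_enc_inj _ _ h) h2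
  · exact absurd (KNoH_enc_inj _ _ h) h3
  · exact absurd (KNoH_enc_inj _ _ h) h4
  · refine ⟨m, hm, ?_, KNoH_ok_iff m _ _ h6, KNoH_ok_iff m _ _ h7, KNoH_ok_iff m _ _ h8, KNoH_ok_iff m _ _ h9⟩
    rcases h5 with ((h5 | h5) | h5) | h5
    · exact Or.inl h5
    · exact Or.inr (Or.inl h5)
    · exact Or.inr (Or.inr (Or.inl h5))
    · exact Or.inr (Or.inr (Or.inr h5))

private lemma KNoH_one (u : KNoH_V) :
    ∃ m ∈ KNoH_M, (KNoH_mem m u ∨ ∃ k, KNoH_mem m (KNoH_nb u k)) ∧
      ∀ k, KNoH_mem m (KNoH_nb u k) → ∀ j, j ≠ k → KNoH_mem m (KNoH_nb (KNoH_nb u k) j) := by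
  have h := KNoH_chk1_true
  unfold KNoH_chk1 at h
  rw [List.all_eq_true] at h
  have h := h (KNoH_enc u) (List.mem_range.2 (KNoH_enc_lt u))
  have e0 : KNoH_tb (KNoH_enc u) 0 = KNoH_enc (KNoH_nb u 0) := (KNoH_enc_nb u 0).symm
  have e1 : KNoH_tb (KNoH_enc u) 1 = KNoH_enc (KNoH_nb u 1) := (KNoH_enc_nb u 1).symm
  have e2 : KNoH_tb (KNoH_enc u) 2 = KNoH_enc (KNoH_nb u 2) := (KNoH_enc_nb u 2).symm
  rw [e0, e1, e2] at h
  simp only [Bool.or_eq_true, List.any_eq_true, Bool.and_eq_true] at h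
  obtain ⟨m, hm, ⟨⟨h5, h6⟩, h7⟩, h8⟩ := h
  refine ⟨m, hm, ?_, ?_⟩
  · rcases h5 with ((h5 | h5) | h5) | h5
    · exact Or.inl h5
    · exact Or.inr ⟨0, h5⟩
    · exact Or.inr ⟨1, h5⟩
    · exact Or.inr ⟨2, h5⟩
  · intro k
    fin_cases k
    · exact KNoH_ok_iff m (KNoH_nb u 0) 0 h6
    · exact KNoH_ok_iff m (KNoH_nb u 1) 1 h7
    · exact KNoH_ok_iff m (KNoH_nb u 2) 2 h8

/-! ### small vertex sets of the Heawood graph -/

private lemma KNoH_six (W : Fin 7 × Bool → Prop) (w : Fin 7 × Bool) (hw : W w)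
    (h2 : ∀ w, W w → ∃ k k', k ≠ k' ∧ W (KNoH_nH w k) ∧ W (KNoH_nH w k')) :
    ∃ l : List (Fin 7 × Bool), l.Nodup ∧ l.length = 6 ∧ ∀ w ∈ l, W w := by
  have step : ∀ w, W w → ∀ v, ∃ k, KNoH_nH w k ≠ v ∧ W (KNoH_nH w k) := by
    intro w hw v
    obtain ⟨k, k', hne, h3, h4⟩ := h2 w hw
    by_cases h5 : KNoH_nH w k = v
    · refine ⟨k', fun h6 => hne (KNoH_nH_inj w k k' (h5.trans h6.symm)), h4⟩
    · exact ⟨k, h5, h3⟩
  obtain ⟨k0, -, h0⟩ := step w hw w
  obtain ⟨k1, n1, h1⟩ := step _ h0 w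
  obtain ⟨k2, n2, h2⟩ := step _ h1 (KNoH_nH w k0)
  obtain ⟨k3, n3, h3⟩ := step _ h2 (KNoH_nH (KNoH_nH w k0) k1)
  obtain ⟨k4, n4, h4⟩ := step _ h3 (KNoH_nH (KNoH_nH (KNoH_nH w k0) k1) k2)
  refine ⟨_, KNoH_nodup w k0 k1 k2 k3 k4 n1 n2 n3 n4, rfl, ?_⟩
  intro v hv
  simp only [List.mem_cons, List.not_mem_nil, or_false] at hv
  rcases hv with rfl | rfl | rfl | rfl | rfl | rfl
  · exact hw
  · exact h0
  · exact h1
  · exact h2
  · exact h3
  · exact h4

/-! ### the used edges -/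

section used
variable {f : Fin 7 × Bool → KNoH_V} {P : ∀ d : heawoodGraph.Dart, kleinGraph.Walk (f d.fst) (f d.snd)}

/-- the edge is an edge of one of the paths -/
private def KNoH_used (P : ∀ d : heawoodGraph.Dart, kleinGraph.Walk (f d.fst) (f d.snd)) (e : Sym2 KNoH_V) : Prop :=
  ∃ d : heawoodGraph.Dart, d.fst.2 = false ∧ e ∈ (P d).edges

private lemma KNoH_dart (d : heawoodGraph.Dart) : d.snd.2 = !d.fst.2 := by
  obtain ⟨k, hk⟩ := (KNoH_adjH d.fst d.snd).1 d.adj
  rw [← hk]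
  exact KNoH_nH_bool _ _

/-- the normalised path -/
private lemma KNoH_W (h1 : ∀ d, (P d).IsPath) (h2 : ∀ d x, x ∈ (P d.symm).support ↔ x ∈ (P d).support)
    (d : heawoodGraph.Dart) :
    ∃ p : kleinGraph.Walk (f d.fst) (f d.snd), p.IsPath ∧ (∀ x, x ∈ p.support ↔ x ∈ (P d).support) ∧
      ∀ e ∈ p.edges, KNoH_used P e := by
  have key : ∀ {a b : KNoH_V} (p : kleinGraph.Walk a b), ∃ q : kleinGraph.Walk b a, (p.IsPath → q.IsPath) ∧
      (∀ x, x ∈ q.support ↔ x ∈ p.support) ∧ ∀ e, e ∈ q.edges → e ∈ p.edges := by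
    intro a b p
    refine ⟨p.reverse, fun h => h.reverse, ?_, ?_⟩
    · intro x
      rw [Walk.support_reverse, List.mem_reverse]
    · intro e he
      rwa [Walk.edges_reverse, List.mem_reverse] at he
  rcases Bool.eq_false_or_eq_true d.fst.2 with h | h
  · obtain ⟨q, hq1, hq2, hq3⟩ := key (P d.symm)
    have h5 : d.symm.fst.2 = false := by
      show d.snd.2 = false
      rw [KNoH_dart, h]
      rfl
    exact ⟨q, hq1 (h1 _), fun x => (hq2 x).trans (h2 d x), fun e he => ⟨d.symm, h5, hq3 e he⟩⟩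
  · exact ⟨P d, h1 d, fun x => Iff.rfl, fun e he => ⟨d, h, he⟩⟩

variable (hf : Function.Injective f) (h1 : ∀ d, (P d).IsPath)
  (h2 : ∀ d x, x ∈ (P d.symm).support ↔ x ∈ (P d).support)
  (h3 : ∀ d w, f w ∈ (P d).support → w = d.fst ∨ w = d.snd)
  (h4 : ∀ d d' x, d.edge ≠ d'.edge → x ∈ (P d).support → x ∈ (P d').support → ∃ w, f w = x)

include hf h1 h2 h3 h4

/-- for every neighbour of a branch vertex there is a path which starts with this neighbour -/
private lemma KNoH_start (w : Fin 7 × Bool) : ∃ τ : Fin 3 → Fin 3, Function.Injective τ ∧ ∀ k,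
    ∃ q : kleinGraph.Walk (KNoH_nb (f w) k) (f (KNoH_nH w (τ k))), (∀ e ∈ q.edges, KNoH_used P e) ∧
      (∀ x ∈ q.support, x ≠ f (KNoH_nH w (τ k)) → ∀ w', f w' ≠ x) ∧ KNoH_used P s(f w, KNoH_nb (f w) k) := by
  choose W hW1 hW2 hW3 using KNoH_W (P := P) h1 h2
  have hnil : ∀ d, ¬ (W d).Nil := by
    intro d h
    have h5 := h.eq
    exact d.adj.ne (hf h5)
  have hinj : ∀ d d' : heawoodGraph.Dart, d.fst = d'.fst → (W d).snd = (W d').snd → d.snd = d'.snd := by
    intro d d' he hs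
    by_contra hne
    have hed : d.edge ≠ d'.edge := by
      intro h5
      rcases dart_edge_eq_iff d d' |>.1 h5 with h6 | h6
      · rw [h6] at hne
        exact hne rfl
      · have h7 : d.fst = d'.snd := by
          rw [h6]
          rfl
        exact d'.adj.ne (he.symm.trans h7)
    have m1 : (W d).snd ∈ (P d).support := (hW2 d _).1 ((W d).getVert_mem_support 1)
    have m2 : (W d).snd ∈ (P d').support := by
      rw [hs]
      exact (hW2 d' _).1 ((W d').getVert_mem_support 1)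
    obtain ⟨w', hw'⟩ := h4 d d' _ hed m1 m2
    have a1 : kleinGraph.Adj (f d.fst) (W d).snd := Walk.adj_snd (hnil d)
    have a2 : kleinGraph.Adj (f d'.fst) (W d').snd := Walk.adj_snd (hnil d')
    have n1 : w' = d.snd := by
      rcases h3 d w' (by rw [hw']; exact m1) with h5 | h5
      · rw [← hw', h5] at a1
        exact absurd rfl a1.ne
      · exact h5
    have n2 : w' = d'.snd := by
      rcases h3 d' w' (by rw [hw']; exact m2) with h5 | h5
      · rw [← hs, ← hw', h5] at a2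
        exact absurd rfl a2.ne
      · exact h5
    exact hne (n1.symm.trans n2)
  let D : Fin 3 → heawoodGraph.Dart := fun k => ⟨(w, KNoH_nH w k), (KNoH_adjH _ _).2 ⟨k, rfl⟩⟩
  have hs : ∀ k, ∃ j, KNoH_nb (f w) j = (W (D k)).snd := by
    intro k
    exact (KNoH_adj _ _).1 (Walk.adj_snd (hnil (D k)))
  choose σ hσ using hs
  have hσi : Function.Injective σ := by
    intro k k' hk
    have h5 : (W (D k)).snd = (W (D k')).snd := by rw [← hσ, ← hσ, hk]
    exact KNoH_nH_inj w k k' (hinj (D k) (D k') rfl h5)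
  choose τ hτ using Finite.injective_iff_surjective.1 hσi
  refine ⟨τ, fun k k' h => by rw [← hτ k, ← hτ k', h], fun k' => ?_⟩
  have hvk : (W (D (τ k'))).snd = KNoH_nb (f w) k' := by rw [← hσ, hτ]
  rw [← hvk]
  generalize τ k' = k
  have hcons := (W (D k)).cons_tail_eq (hnil (D k))
  have hpath := hW1 (D k)
  rw [← hcons, Walk.cons_isPath_iff] at hpath
  refine ⟨(W (D k)).tail, ?_, ?_, ?_⟩
  · intro e he
    refine hW3 (D k) e ?_
    rw [← hcons, Walk.edges_cons]
    exact List.mem_cons_of_mem _ he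
  · intro x hx hne w' hw'
    have hx2 : x ∈ (W (D k)).support := by
      rw [← hcons, Walk.support_cons]
      exact List.mem_cons_of_mem _ hx
    rcases h3 (D k) w' (by rw [hw']; exact (hW2 (D k) x).1 hx2) with h5 | h5
    · rw [h5] at hw'
      rw [← hw'] at hx
      exact hpath.2 hx
    · rw [h5] at hw'
      exact hne hw'.symm
  · exact hW3 (D k) _ (Walk.mk_start_snd_mem_edges (hnil (D k)))

omit hf h2 h3 h4 in
private lemma KNoH_nbs (d : heawoodGraph.Dart) (u : KNoH_V) (hu : ∀ w, f w ≠ u) (h : u ∈ (P d).support) :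
    ∃ a b, ∀ v, s(u, v) ∈ (P d).edges ↔ (v = a ∨ v = b) ∧ a ≠ b := by
  obtain ⟨n, hn, hnl⟩ := Walk.mem_support_iff_exists_getVert.1 h
  have n0 : n ≠ 0 := by
    intro h5
    rw [h5, Walk.getVert_zero] at hn
    exact hu _ hn
  have nl : n < (P d).length := by
    refine lt_of_le_of_ne hnl ?_
    intro h5
    rw [h5, Walk.getVert_length] at hn
    exact hu _ hn
  have h5 := (h1 d).ncard_neighborSet_toSubgraph_internal_eq_two n0 nl
  rw [hn] at h5
  obtain ⟨a, b, hab, h6⟩ := Set.ncard_eq_two.1 h5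
  refine ⟨a, b, fun v => ?_⟩
  have h7 : v ∈ (P d).toSubgraph.neighborSet u ↔ s(u, v) ∈ (P d).edges := Walk.adj_toSubgraph_iff_mem_edges
  rw [← h7, h6]
  simp only [Set.mem_insert_iff, Set.mem_singleton_iff]
  tauto

omit hf h2 h3 h4 in
/-- at an inner vertex of a path there are at least two used edges -/
private lemma KNoH_U2 (u v : KNoH_V) (hu : ∀ w, f w ≠ u) (h : KNoH_used P s(u, v)) :
    ∃ v', v' ≠ v ∧ kleinGraph.Adj u v' ∧ KNoH_used P s(u, v') := by
  obtain ⟨d, hd, he⟩ := h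
  obtain ⟨a, b, hab⟩ := KNoH_nbs h1 d u hu (Walk.fst_mem_support_of_mem_edges _ he)
  obtain ⟨h5, h6⟩ := (hab v).1 he
  rcases h5 with h5 | h5
  · have h7 := (hab b).2 ⟨Or.inr rfl, h6⟩
    exact ⟨b, fun h8 => h6 (h5.symm.trans h8.symm), Walk.adj_of_mem_edges _ h7, d, hd, h7⟩
  · have h7 := (hab a).2 ⟨Or.inl rfl, h6⟩
    exact ⟨a, fun h8 => h6 (h8.trans h5), Walk.adj_of_mem_edges _ h7, d, hd, h7⟩

omit hf h2 h3 in
/-- at an inner vertex of a path there is an edge which is not used -/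
private lemma KNoH_U1 (u : KNoH_V) (hu : ∀ w, f w ≠ u) : ∃ k, ¬ KNoH_used P s(u, KNoH_nb u k) := by
  by_contra hc
  push Not at hc
  obtain ⟨d, hd, he⟩ := hc 0
  have hm := Walk.fst_mem_support_of_mem_edges _ he
  obtain ⟨a, b, hab⟩ := KNoH_nbs h1 d u hu hm
  have key : ∀ k, KNoH_nb u k = a ∨ KNoH_nb u k = b := by
    intro k
    obtain ⟨d', hd', he'⟩ := hc k
    have hm' := Walk.fst_mem_support_of_mem_edges _ he'
    have hed : d.edge = d'.edge := by
      by_contra hne
      obtain ⟨w, hw⟩ := h4 d d' u hne hm hm'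
      exact hu w hw
    rcases (dart_edge_eq_iff d d').1 hed with h6 | h6
    · subst h6
      exact ((hab _).1 he').1
    · have h7 : d.fst = d'.snd := by
        rw [h6]
        rfl
      rw [h7, KNoH_dart, hd'] at hd
      exact absurd hd (by decide)
  have h01 : KNoH_nb u 0 ≠ KNoH_nb u 1 := fun h => absurd (KNoH_nb_inj _ _ _ h) (by decide)
  have h02 : KNoH_nb u 0 ≠ KNoH_nb u 2 := fun h => absurd (KNoH_nb_inj _ _ _ h) (by decide)
  have h12 : KNoH_nb u 1 ≠ KNoH_nb u 2 := fun h => absurd (KNoH_nb_inj _ _ _ h) (by decide)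
  rcases key 0 with k0 | k0 <;> rcases key 1 with k1 | k1 <;> rcases key 2 with k2 | k2
  · exact h01 (k0.trans k1.symm)
  · exact h01 (k0.trans k1.symm)
  · exact h02 (k0.trans k2.symm)
  · exact h12 (k1.trans k2.symm)
  · exact h12 (k1.trans k2.symm)
  · exact h02 (k0.trans k2.symm)
  · exact h01 (k0.trans k1.symm)
  · exact h01 (k0.trans k1.symm)

omit hf h1 h2 h3 h4 in
/-- following a path in a set which is closed under used edges at the inner vertices -/
private lemma KNoH_follow (m : ℕ) (hm : ∀ u, KNoH_mem m u → (∀ w, f w ≠ u) → ∀ v, kleinGraph.Adj u v →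
      KNoH_used P s(u, v) → KNoH_mem m v) {a b : KNoH_V} (p : kleinGraph.Walk a b) (ha : KNoH_mem m a)
    (hi : ∀ x ∈ p.support, x ≠ b → ∀ w, f w ≠ x) (he : ∀ e ∈ p.edges, KNoH_used P e) : KNoH_mem m b := by
  induction p with
  | nil => exact ha
  | @cons a c b h q ih =>
    by_cases hab : a = b
    · rw [← hab]
      exact ha
    · have h5 : KNoH_mem m c := hm a ha (hi a (by rw [Walk.support_cons]; exact List.mem_cons_self) hab) c h
        (he _ (by rw [Walk.edges_cons]; exact List.mem_cons_self))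
      refine ih h5 ?_ ?_
      · intro x hx
        exact hi x (by rw [Walk.support_cons]; exact List.mem_cons_of_mem _ hx)
      · intro e hx
        exact he e (by rw [Walk.edges_cons]; exact List.mem_cons_of_mem _ hx)

/-- a 6-cycle as in the plan gives a contradiction -/
private lemma KNoH_cycle (m : ℕ) (hmM : m ∈ KNoH_M) (u : KNoH_V) (hu : KNoH_mem m u) (hub : ∀ w, f w ≠ u)
    (hm : ∀ u, KNoH_mem m u → (∀ w, f w ≠ u) → ∀ v, kleinGraph.Adj u v → KNoH_used P s(u, v) → KNoH_mem m v) :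
    False := by
  have hcard := KNoH_card m hmM
  -- a branch vertex in the cycle
  obtain ⟨w, hw⟩ : ∃ w, KNoH_mem m (f w) := by
    by_contra hc
    push Not at hc
    have h5 : (univ.filter fun u => KNoH_mem m u) ⊆ (univ : Finset KNoH_V) \ (univ.image f) := by
      intro x hx
      rw [Finset.mem_sdiff]
      refine ⟨Finset.mem_univ _, ?_⟩
      intro h6
      obtain ⟨w, -, h7⟩ := Finset.mem_image.1 h6
      rw [Finset.mem_filter, ← h7] at hx
      exact hc w hx.2
    have h6 := Finset.card_le_card h5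
    rw [hcard, Finset.card_sdiff_of_subset (Finset.subset_univ _), Finset.card_image_of_injective _ hf] at h6
    simp at h6
  obtain ⟨l, hl1, hl2, hl3⟩ := KNoH_six (fun w => KNoH_mem m (f w)) w hw (by
    intro w hw
    obtain ⟨k, k', hne, h5, h6⟩ := KNoH_deg m hmM _ hw
    obtain ⟨τ, hτ, h7⟩ := KNoH_start hf h1 h2 h3 h4 w
    have go : ∀ k, KNoH_mem m (KNoH_nb (f w) k) → KNoH_mem m (f (KNoH_nH w (τ k))) := by
      intro k hk
      obtain ⟨q, h8, h9, -⟩ := h7 k
      exact KNoH_follow m hm q hk h9 h8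
    exact ⟨τ k, τ k', fun h => hne (hτ h), go k h5, go k' h6⟩)
  -- seven vertices in the cycle
  have h5 : insert u (l.map f).toFinset ⊆ univ.filter fun u => KNoH_mem m u := by
    intro x hx
    rw [Finset.mem_filter]
    refine ⟨Finset.mem_univ _, ?_⟩
    rw [Finset.mem_insert, List.mem_toFinset, List.mem_map] at hx
    rcases hx with h6 | ⟨w, h6, h7⟩
    · rw [h6]
      exact hu
    · rw [← h7]
      exact hl3 w h6
  have h6 : u ∉ (l.map f).toFinset := by
    rw [List.mem_toFinset, List.mem_map]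
    rintro ⟨w, -, h7⟩
    exact hub w h7
  have h7 : (l.map f).toFinset.card = 6 := by
    rw [List.toFinset_card_of_nodup (hl1.map hf), List.length_map, hl2]
  have h8 := Finset.card_le_card h5
  rw [Finset.card_insert_of_notMem h6, h7, hcard] at h8
  omega

/-- all edges at a branch vertex are used -/
private lemma KNoH_branch (w : Fin 7 × Bool) (v : KNoH_V) (hv : kleinGraph.Adj (f w) v) : KNoH_used P s(f w, v) := by
  obtain ⟨τ, -, h7⟩ := KNoH_start hf h1 h2 h3 h4 w
  obtain ⟨k, rfl⟩ := (KNoH_adj _ _).1 hv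
  obtain ⟨-, -, -, h8⟩ := h7 k
  exact h8

private lemma KNoH_main : False := by
  -- un u k: the edge k at u is not used
  have hsym : ∀ u k, ¬ KNoH_used P s(u, KNoH_nb u k) → ¬ KNoH_used P s(KNoH_nb u k, KNoH_nb (KNoH_nb u k) k) := by
    intro u k h
    rw [KNoH_nb_nb, Sym2.eq_swap]
    exact h
  have hN : ∀ u k, ¬ KNoH_used P s(u, KNoH_nb u k) → ∀ w, f w ≠ u := by
    intro u k h w hw
    rw [← hw] at h
    exact h (KNoH_branch hf h1 h2 h3 h4 w _ ((KNoH_adj _ _).2 ⟨k, rfl⟩))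
  have hthree : ∀ u k k', k ≠ k' → ¬ KNoH_used P s(u, KNoH_nb u k) → ¬ KNoH_used P s(u, KNoH_nb u k') →
      ∀ j, ¬ KNoH_used P s(u, KNoH_nb u j) := by
    intro u k k' hne h5 h6 j h7
    obtain ⟨v, hv1, hv2, hv3⟩ := KNoH_U2 h1 u _ (hN u k h5) h7
    obtain ⟨i, rfl⟩ := (KNoH_adj _ _).1 hv2
    have hij : i ≠ j := fun h => hv1 (by rw [h])
    have hik : i ≠ k := fun h => h5 (by rw [← h]; exact hv3)
    have hik' : i ≠ k' := fun h => h6 (by rw [← h]; exact hv3)
    have hjk : j ≠ k := fun h => h5 (by rw [← h]; exact h7)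
    have hjk' : j ≠ k' := fun h => h6 (by rw [← h]; exact h7)
    have key : ∀ k k' j i : Fin 3, k ≠ k' → i ≠ j → i ≠ k → i ≠ k' → j ≠ k → ¬ (j ≠ k') := by decide
    exact key k k' j i hne hij hik hik' hjk hjk'
  -- the set of the vertices which are not branch vertices
  have hNcard : ((univ : Finset KNoH_V) \ univ.image f).card = 4 := by
    rw [Finset.card_sdiff_of_subset (Finset.subset_univ _), Finset.card_image_of_injective _ hf]
    simp
  have hNmem : ∀ u, u ∈ (univ : Finset KNoH_V) \ univ.image f ↔ ∀ w, f w ≠ u := by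
    intro u
    rw [Finset.mem_sdiff, Finset.mem_image]
    constructor
    · rintro ⟨-, h⟩ w hw
      exact h ⟨w, Finset.mem_univ _, hw⟩
    · intro h
      exact ⟨Finset.mem_univ _, fun ⟨w, _, hw⟩ => h w hw⟩
  by_cases hA : ∃ u, ∀ k, ¬ KNoH_used P s(u, KNoH_nb u k)
  · obtain ⟨u, hu⟩ := hA
    -- all non-branch vertices are u and its neighbours
    have hall : ∀ x, (∀ w, f w ≠ x) → x = u ∨ ∃ k, x = KNoH_nb u k := by
      have hsub : insert u ((univ : Finset (Fin 3)).image (KNoH_nb u)) ⊆ (univ : Finset KNoH_V) \ univ.image f := by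
        intro x hx
        rw [hNmem]
        rw [Finset.mem_insert, Finset.mem_image] at hx
        rcases hx with h5 | ⟨k, -, h5⟩
        · rw [h5]
          exact hN u 0 (hu 0)
        · rw [← h5]
          exact hN _ k (hsym u k (hu k))
      have hc : (insert u ((univ : Finset (Fin 3)).image (KNoH_nb u))).card = 4 := by
        rw [Finset.card_insert_of_notMem, Finset.card_image_of_injective _ (fun k k' h => KNoH_nb_inj u k k' h)]
        · simp
        · rw [Finset.mem_image]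
          rintro ⟨k, -, h5⟩
          exact ((KNoH_adj u (KNoH_nb u k)).2 ⟨k, rfl⟩).ne h5.symm
      have heq := Finset.eq_of_subset_of_card_le hsub (by rw [hNcard, hc])
      intro x hx
      have h5 := (hNmem x).2 hx
      rw [← heq, Finset.mem_insert, Finset.mem_image] at h5
      rcases h5 with h5 | ⟨k, -, h5⟩
      · exact Or.inl h5
      · exact Or.inr ⟨k, h5.symm⟩
    obtain ⟨m, hm, h5, h6⟩ := KNoH_one u
    have hcl : ∀ x, KNoH_mem m x → (∀ w, f w ≠ x) → ∀ v, kleinGraph.Adj x v → KNoH_used P s(x, v) → KNoH_mem m v := by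
      intro x hx hxN v hv hxv
      obtain ⟨j, rfl⟩ := (KNoH_adj _ _).1 hv
      rcases hall x hxN with h7 | ⟨k, h7⟩
      · rw [h7] at hxv
        exact absurd hxv (hu j)
      · subst h7
        refine h6 k hx j ?_
        intro h8
        rw [h8] at hxv
        exact hsym u k (hu k) hxv
    rcases h5 with h5 | ⟨k, h5⟩
    · exact KNoH_cycle hf h1 h2 h3 h4 m hm u h5 (hN u 0 (hu 0)) hcl
    · exact KNoH_cycle hf h1 h2 h3 h4 m hm _ h5 (hN _ k (hsym u k (hu k))) hcl
  · push Not at hA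
    have huniq : ∀ u k k', ¬ KNoH_used P s(u, KNoH_nb u k) → ¬ KNoH_used P s(u, KNoH_nb u k') → k = k' := by
      intro u k k' h5 h6
      by_contra hne
      obtain ⟨j, hj⟩ := hA u
      exact hthree u k k' hne h5 h6 j hj
    obtain ⟨u0, hu0⟩ : ((univ : Finset KNoH_V) \ univ.image f).Nonempty := by
      rw [← Finset.card_pos, hNcard]
      omega
    have hu0 := (hNmem u0).1 hu0
    obtain ⟨k0, hk0⟩ := KNoH_U1 h1 h4 u0 hu0
    have hv0 := hN _ k0 (hsym u0 k0 hk0)
    obtain ⟨u1, hu1, hne⟩ : ∃ u1 ∈ (univ : Finset KNoH_V) \ univ.image f, u1 ∉ ({u0, KNoH_nb u0 k0} : Finset KNoH_V) := by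
      refine Finset.exists_mem_notMem_of_card_lt_card ?_
      rw [hNcard]
      exact lt_of_le_of_lt Finset.card_le_two (by omega)
    have hu1 := (hNmem u1).1 hu1
    rw [Finset.mem_insert, Finset.mem_singleton, not_or] at hne
    obtain ⟨n1, n2⟩ := hne
    obtain ⟨k1, hk1⟩ := KNoH_U1 h1 h4 u1 hu1
    have hv1 := hN _ k1 (hsym u1 k1 hk1)
    have n3 : KNoH_nb u1 k1 ≠ u0 := by
      intro h
      have h5 := hsym u1 k1 hk1
      rw [h] at h5
      have h6 := huniq u0 k0 k1 hk0 h5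
      apply n2
      rw [h6, ← h, KNoH_nb_nb]
    have n4 : KNoH_nb u1 k1 ≠ KNoH_nb u0 k0 := by
      intro h
      have h5 := hsym u1 k1 hk1
      rw [h] at h5
      have h6 := huniq _ k0 k1 (hsym u0 k0 hk0) h5
      apply n1
      rw [← KNoH_nb_nb u1 k1, h, ← h6, KNoH_nb_nb]
    have hall : ∀ x, (∀ w, f w ≠ x) → x = u0 ∨ x = KNoH_nb u0 k0 ∨ x = u1 ∨ x = KNoH_nb u1 k1 := by
      have hsub : ({u0, KNoH_nb u0 k0, u1, KNoH_nb u1 k1} : Finset KNoH_V) ⊆ (univ : Finset KNoH_V) \ univ.image f := by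
        intro x hx
        rw [hNmem]
        simp only [Finset.mem_insert, Finset.mem_singleton] at hx
        rcases hx with h5 | h5 | h5 | h5 <;> rw [h5]
        · exact hu0
        · exact hv0
        · exact hu1
        · exact hv1
      have a0 : u0 ≠ KNoH_nb u0 k0 := ((KNoH_adj u0 (KNoH_nb u0 k0)).2 ⟨k0, rfl⟩).ne
      have a1 : u1 ≠ KNoH_nb u1 k1 := ((KNoH_adj u1 (KNoH_nb u1 k1)).2 ⟨k1, rfl⟩).ne
      have hc : ({u0, KNoH_nb u0 k0, u1, KNoH_nb u1 k1} : Finset KNoH_V).card = 4 := by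
        rw [Finset.card_insert_of_notMem, Finset.card_insert_of_notMem, Finset.card_insert_of_notMem,
          Finset.card_singleton]
        · rw [Finset.mem_singleton]
          exact a1
        · simp only [Finset.mem_insert, Finset.mem_singleton, not_or]
          exact ⟨fun h => n2 h.symm, fun h => n4 h.symm⟩
        · simp only [Finset.mem_insert, Finset.mem_singleton, not_or]
          exact ⟨a0, fun h => n1 h.symm, fun h => n3 h.symm⟩
      have heq := Finset.eq_of_subset_of_card_le hsub (by rw [hNcard, hc])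
      intro x hx
      have h5 := (hNmem x).2 hx
      rw [← heq] at h5
      simpa only [Finset.mem_insert, Finset.mem_singleton] using h5
    obtain ⟨m, hm, h5, c0, c1, c2, c3⟩ := KNoH_two u0 k0 u1 k1 n1 n2 n3 n4
    have hcl : ∀ x, KNoH_mem m x → (∀ w, f w ≠ x) → ∀ v, kleinGraph.Adj x v → KNoH_used P s(x, v) → KNoH_mem m v := by
      intro x hx hxN v hv hxv
      obtain ⟨j, rfl⟩ := (KNoH_adj _ _).1 hv
      rcases hall x hxN with h7 | h7 | h7 | h7
      · subst h7
        exact c0 hx j fun h8 => hk0 (by rw [← h8]; exact hxv)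
      · subst h7
        exact c1 hx j fun h8 => hsym u0 k0 hk0 (by rw [← h8]; rw [← h8] at hxv; exact hxv)
      · subst h7
        exact c2 hx j fun h8 => hk1 (by rw [← h8]; exact hxv)
      · subst h7
        exact c3 hx j fun h8 => hsym u1 k1 hk1 (by rw [← h8]; rw [← h8] at hxv; exact hxv)
    rcases h5 with h5 | h5 | h5 | h5
    · exact KNoH_cycle hf h1 h2 h3 h4 m hm _ h5 hu0 hcl
    · exact KNoH_cycle hf h1 h2 h3 h4 m hm _ h5 hv0 hcl
    · exact KNoH_cycle hf h1 h2 h3 h4 m hm _ h5 hu1 hcl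
    · exact KNoH_cycle hf h1 h2 h3 h4 m hm _ h5 hv1 hcl

end used

theorem klein_no_heawood : ¬ ContainsSubdivision heawoodGraph kleinGraph := by
  rintro ⟨f, P, hf, h1, h2, h3, h4⟩
  exact KNoH_main hf h1 h2 h3 h4

end Pool.Agent.PP
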