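import Pool.Agent.Lib_MP_7c0803_tor.Cert

/-!
# The index of a lattice and its shortest vector
-/

set_option autoImplicit false

namespace Pool.Agent.PP

private lemma Bound_cases {N : ℤ} {x : ℤ × ℤ} (h : N ≤ nrm x) (h1 : |x.1 + x.2| < N) :
    N ≤ x.1 ∨ x.1 ≤ -N ∨ N ≤ x.2 ∨ x.2 ≤ -N := by
  unfold nrm at h
  rw [le_max_iff, le_max_iff, le_abs, le_abs] at h
  rcases h with ((h | h) | (h | h)) | h
  · exact Or.inl h
  · exact Or.inr (Or.inl (by omega))
  · exact Or.inr (Or.inr (Or.inl h))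
  · exact Or.inr (Or.inr (Or.inr (by omega)))
  · omega

/-- the index of a lattice with shortest vector `(p, q)`, `N = p + q`, is at least `3 N² / 4`.
Proof: replace `v` by `v + i u` such that `s = v.1 + v.2` satisfies `2 |s| ≤ N`.  `dt u v = N v.2 - q s = p s - N v.1`.
`nrm v ≥ N` gives `v.2 ≥ N` (then `dt ≥ N² - q N / 2 ≥ 3 N² / 4`) or `v.1 ≤ -N` (the cases `v.2 ≤ -N`, `v.1 ≥ N` contradict `dt u v > 0`).
In the case `v.1 ≤ -N`: if `s ≥ 0` then `dt ≥ N²`; if `s < 0` use `nrm (v + u) ≥ N`, where `s + N ∈ [N/2, N)`: `v.2 + q ≥ N` (then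
`dt u v = p v.2 - q v.1 ≥ p² + q N = N² - p N + p² ≥ 3 N² / 4`) or `v.1 + p ≤ -N` (then `dt = p s - N v.1 ≥ N (N + p) - p N / 2`). -/
theorem index_bound (u v : ℤ × ℤ) (hq : 0 ≤ u.2) (hqp : u.2 ≤ u.1) (hp : 0 < u.1) (hd : 0 < dt u v)
    (hmin : ∀ x ∈ Lt u v, x ≠ 0 → nrm u ≤ nrm x) : 3 * (u.1 + u.2) ^ 2 ≤ 4 * dt u v := by
  obtain ⟨p, q⟩ := u
  obtain ⟨v1, v2⟩ := v
  simp only at hq hqp hp
  simp only [dt] at hd ⊢
  have hnu : nrm (p, q) = p + q := by
    unfold nrm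
    simp only
    rw [abs_of_pos hp, abs_of_nonneg hq, abs_of_nonneg (by omega : (0 : ℤ) ≤ p + q)]
    rw [max_eq_left hqp, max_eq_right (by omega)]
  rw [hnu] at hmin
  -- every vector `w = v + i u`
  have key : ∀ i w1 w2 : ℤ, w1 = v1 + i * p → w2 = v2 + i * q → |w1 + w2| < p + q →
      p + q ≤ w1 ∨ w1 ≤ -(p + q) ∨ p + q ≤ w2 ∨ w2 ≤ -(p + q) := by
    intro i w1 w2 h1 h2 h3
    have hw : ((w1, w2) : ℤ × ℤ) ∈ Lt (p, q) (v1, v2) :=
      mem_Lt'.2 ⟨i, 1, by simp only [h1]; ring, by simp only [h2]; ring⟩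
    refine Bound_cases (x := (w1, w2)) (hmin _ hw ?_) h3
    intro h0
    have e1 : w1 = 0 := congrArg Prod.fst h0
    have e2 : w2 = 0 := congrArg Prod.snd h0
    have : p * v2 - q * v1 = p * w2 - q * w1 := by rw [h1, h2]; ring
    rw [e1, e2] at this
    simp only [mul_zero, sub_zero] at this
    omega
  -- reduction
  obtain ⟨i, hi1, hi2⟩ : ∃ i : ℤ, 2 * (v1 + v2 + i * (p + q)) ≤ p + q ∧
      -(p + q) ≤ 2 * (v1 + v2 + i * (p + q)) := by
    have hN : 0 < p + q := by omega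
    set s := v1 + v2 with hs
    have h1 := Int.emod_nonneg s hN.ne'
    have h2 := Int.emod_lt_of_pos s hN
    have h3 := Int.emod_add_mul_ediv s (p + q)
    by_cases h4 : 2 * (s % (p + q)) ≤ p + q
    · refine ⟨-(s / (p + q)), ?_, ?_⟩
      · have : s + -(s / (p + q)) * (p + q) = s % (p + q) := by linarith
        rw [this]; exact h4
      · have : s + -(s / (p + q)) * (p + q) = s % (p + q) := by linarith
        rw [this]; omega
    · refine ⟨-(s / (p + q)) - 1, ?_, ?_⟩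
      · have : s + (-(s / (p + q)) - 1) * (p + q) = s % (p + q) - (p + q) := by linarith
        rw [this]; omega
      · have : s + (-(s / (p + q)) - 1) * (p + q) = s % (p + q) - (p + q) := by linarith
        rw [this]; omega
  obtain ⟨w1, hw1⟩ : ∃ w1, w1 = v1 + i * p := ⟨_, rfl⟩
  obtain ⟨w2, hw2⟩ : ∃ w2, w2 = v2 + i * q := ⟨_, rfl⟩
  obtain ⟨d, hdd⟩ : ∃ d, d = p * v2 - q * v1 := ⟨_, rfl⟩
  have hdw : d = p * w2 - q * w1 := by rw [hdd, hw1, hw2]; ring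
  have hs : w1 + w2 = v1 + v2 + i * (p + q) := by rw [hw1, hw2]; ring
  rw [← hs] at hi1 hi2
  rw [← hdd] at hd ⊢
  have hk := key i w1 w2 hw1 hw2 (by rw [abs_lt]; constructor <;> omega)
  rcases hk with h | h | h | h
  · exfalso
    nlinarith [mul_nonneg hq (by omega : (0 : ℤ) ≤ w1 - (p + q)),
      mul_nonneg hp.le (by omega : (0 : ℤ) ≤ (p + q) - 2 * (w1 + w2)),
      mul_nonneg hp.le (by omega : (0 : ℤ) ≤ w1 - (p + q)), mul_pos hp hp, mul_nonneg hq hq,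
      mul_nonneg hp.le hq]
  · by_cases hs0 : 0 ≤ w1 + w2
    · nlinarith [mul_nonneg hp.le hs0, mul_nonneg hp.le (by omega : (0 : ℤ) ≤ -(p + q) - w1),
        mul_nonneg hq (by omega : (0 : ℤ) ≤ -(p + q) - w1), sq_nonneg (p + q)]
    · have hk2 := key (i + 1) (w1 + p) (w2 + q) (by rw [hw1]; ring) (by rw [hw2]; ring) (by
        rw [abs_lt]; constructor <;> omega)
      rcases hk2 with h' | h' | h' | h'
      · omega
      · nlinarith [mul_nonneg hp.le (by omega : (0 : ℤ) ≤ 2 * (w1 + w2) + (p + q)),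
          mul_nonneg hp.le (by omega : (0 : ℤ) ≤ -(p + q) - (w1 + p)),
          mul_nonneg hq (by omega : (0 : ℤ) ≤ -(p + q) - (w1 + p)), mul_pos hp hp, mul_nonneg hq hq,
          mul_nonneg hp.le hq]
      · nlinarith [mul_nonneg hp.le (by omega : (0 : ℤ) ≤ w2 - p),
          mul_nonneg hq (by omega : (0 : ℤ) ≤ -(p + q) - w1), sq_nonneg (p - q)]
      · omega
  · nlinarith [mul_nonneg hp.le (by omega : (0 : ℤ) ≤ w2 - (p + q)),
      mul_nonneg hq (by omega : (0 : ℤ) ≤ w2 - (p + q)),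
      mul_nonneg hq (by omega : (0 : ℤ) ≤ (p + q) - 2 * (w1 + w2)),
      mul_nonneg hq (by omega : (0 : ℤ) ≤ p - q), mul_pos hp hp, mul_nonneg hq hq,
      mul_nonneg hp.le hq, mul_nonneg hp.le (by omega : (0 : ℤ) ≤ p - q)]
  · exfalso
    nlinarith [mul_nonneg hp.le (by omega : (0 : ℤ) ≤ -(p + q) - w2),
      mul_nonneg hq (by omega : (0 : ℤ) ≤ -(p + q) - w2),
      mul_nonneg hq (by omega : (0 : ℤ) ≤ (p + q) + 2 * (w1 + w2)), mul_pos hp hp, mul_nonneg hq hq,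
      mul_nonneg hp.le hq]

end Pool.Agent.PP
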