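import Pool.Agent.Lib_MP_7c0803_tor.Cert

/-!
# Reduced bases
-/

set_option autoImplicit false

namespace Pool.Agent.PP

/-- every nonzero vector is, up to sign and the symmetries, `(p, q)` with `0 ≤ q ≤ p`, `0 < p`.
Proof: with `x3 = - x1 - x2` the symmetries `sy k m` are the permutations of `(x1, x2, x3)`; make the coordinate of maximal absolute
value the third one and negative; `omega` in each case. -/
theorem exists_sector (x : ℤ × ℤ) (hx : x ≠ 0) : ∃ (k : ℕ) (m : Bool) (e : ℤ), k < 3 ∧ (e = 1 ∨ e = -1) ∧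
    0 ≤ e * (sy k m x).2 ∧ e * (sy k m x).2 ≤ e * (sy k m x).1 ∧ 0 < e * (sy k m x).1 := by
  obtain ⟨a, b⟩ := x
  have hab : a ≠ 0 ∨ b ≠ 0 := by
    by_contra h
    push Not at h
    exact hx (Prod.ext h.1 h.2)
  have h12 : (0 ≤ b ∧ b ≤ a ∧ 0 < a) ∨ (0 ≤ -b ∧ -b ≤ -a ∧ 0 < -a) ∨
      (0 ≤ a ∧ a ≤ b ∧ 0 < b) ∨ (0 ≤ -a ∧ -a ≤ -b ∧ 0 < -b) ∨
      (0 ≤ a ∧ a ≤ -a - b ∧ 0 < -a - b) ∨ (0 ≤ -a ∧ -a ≤ -(-a - b) ∧ 0 < -(-a - b)) ∨
      (0 ≤ b ∧ b ≤ -b - a ∧ 0 < -b - a) ∨ (0 ≤ -b ∧ -b ≤ -(-b - a) ∧ 0 < -(-b - a)) ∨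
      (0 ≤ -a - b ∧ -a - b ≤ b ∧ 0 < b) ∨ (0 ≤ -(-a - b) ∧ -(-a - b) ≤ -b ∧ 0 < -b) ∨
      (0 ≤ -b - a ∧ -b - a ≤ a ∧ 0 < a) ∨ (0 ≤ -(-b - a) ∧ -(-b - a) ≤ -a ∧ 0 < -a) := by
    clear hx
    omega
  rcases h12 with h | h | h | h | h | h | h | h | h | h | h | h
  · exact ⟨0, false, 1, by norm_num, Or.inl rfl, by simpa [sy] using h⟩
  · exact ⟨0, false, -1, by norm_num, Or.inr rfl, by simpa [sy] using h⟩
  · exact ⟨0, true, 1, by norm_num, Or.inl rfl, by simpa [sy] using h⟩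
  · exact ⟨0, true, -1, by norm_num, Or.inr rfl, by simpa [sy] using h⟩
  · refine ⟨1, false, 1, by norm_num, Or.inl rfl, ?_⟩
    show 0 ≤ 1 * a ∧ 1 * a ≤ 1 * (-a - b) ∧ 0 < 1 * (-a - b)
    omega
  · refine ⟨1, false, -1, by norm_num, Or.inr rfl, ?_⟩
    show 0 ≤ -1 * a ∧ -1 * a ≤ -1 * (-a - b) ∧ 0 < -1 * (-a - b)
    omega
  · refine ⟨1, true, 1, by norm_num, Or.inl rfl, ?_⟩
    show 0 ≤ 1 * b ∧ 1 * b ≤ 1 * (-b - a) ∧ 0 < 1 * (-b - a)
    omega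
  · refine ⟨1, true, -1, by norm_num, Or.inr rfl, ?_⟩
    show 0 ≤ -1 * b ∧ -1 * b ≤ -1 * (-b - a) ∧ 0 < -1 * (-b - a)
    omega
  · refine ⟨2, false, 1, by norm_num, Or.inl rfl, ?_⟩
    show 0 ≤ 1 * (-a - b) ∧ 1 * (-a - b) ≤ 1 * b ∧ 0 < 1 * b
    omega
  · refine ⟨2, false, -1, by norm_num, Or.inr rfl, ?_⟩
    show 0 ≤ -1 * (-a - b) ∧ -1 * (-a - b) ≤ -1 * b ∧ 0 < -1 * b
    omega
  · refine ⟨2, true, 1, by norm_num, Or.inl rfl, ?_⟩
    show 0 ≤ 1 * (-b - a) ∧ 1 * (-b - a) ≤ 1 * a ∧ 0 < 1 * a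
    omega
  · refine ⟨2, true, -1, by norm_num, Or.inr rfl, ?_⟩
    show 0 ≤ -1 * (-b - a) ∧ -1 * (-b - a) ≤ -1 * a ∧ 0 < -1 * a
    omega

lemma nrm_sy (k : ℕ) (m : Bool) (x : ℤ × ℤ) : nrm (sy k m x) = nrm x := by
  obtain ⟨a, b⟩ := x
  unfold nrm sy
  simp only [abs_eq_max_neg]
  cases m <;> by_cases hk : k = 0 <;> by_cases hk1 : k = 1 <;>
    simp only [hk, hk1, if_true, if_false, Bool.false_eq_true, one_ne_zero] <;> omega

private lemma Basis_dt_sub (u x v : ℤ × ℤ) (j : ℤ) : dt u (x - j • v) = dt u x - j * dt u v := by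
  unfold dt
  simp only [Prod.fst_sub, Prod.snd_sub, Prod.smul_fst, Prod.smul_snd, smul_eq_mul]
  ring

/-- a shortest vector `u = (p, q)`, `0 ≤ q ≤ p`, extends to a basis: choose `v ∈ L` with `dt u v > 0` minimal (it exists as `(n, 0)`,
`(0, n) ∈ L`); for `x ∈ L`, `dt u x` is a multiple `j` of `dt u v` (division with remainder), and `y = x - j v` has `dt u y = 0`;
with `i = y.1 / u.1` the vector `y - i u` has `dt u _ = 0`, first coordinate in `[0, u.1)`, hence norm less than `nrm u`, hence is `0`. -/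
theorem exists_basis (L : AddSubgroup (ℤ × ℤ)) (n : ℤ) (hn : 0 < n) (h1 : (n, 0) ∈ L) (h2 : (0, n) ∈ L) (u : ℤ × ℤ)
    (hu : u ∈ L) (hq : 0 ≤ u.2) (hqp : u.2 ≤ u.1) (hp : 0 < u.1) (hmin : ∀ x ∈ L, x ≠ 0 → nrm u ≤ nrm x) :
    ∃ v : ℤ × ℤ, 0 < dt u v ∧ L = Lt u v := by
  classical
  have hex : ∃ j : ℕ, 0 < j ∧ ∃ v ∈ L, dt u v = j := by
    refine ⟨(u.1 * n).toNat, ?_, (0, n), h2, ?_⟩
    · have : 0 < u.1 * n := mul_pos hp hn
      omega
    · have : 0 < u.1 * n := mul_pos hp hn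
      unfold dt
      simp only
      rw [Int.toNat_of_nonneg this.le]
      ring
  obtain ⟨hd0, v, hvL, hv⟩ := Nat.find_spec hex
  have hmin' : ∀ j : ℕ, 0 < j → (∃ v ∈ L, dt u v = j) → Nat.find hex ≤ j := fun j hj hv =>
    Nat.find_min' hex ⟨hj, hv⟩
  generalize Nat.find hex = d at hd0 hv hmin'
  have hd0' : (0 : ℤ) < (d : ℤ) := by exact_mod_cast hd0
  refine ⟨v, by rw [hv]; exact hd0', ?_⟩
  ext x
  rw [mem_Lt]
  constructor
  · intro hx
    have hx' : x - (dt u x / d) • v ∈ L := L.sub_mem hx (L.zsmul_mem hvL _)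
    have e1 : dt u (x - (dt u x / d) • v) = dt u x % d := by
      rw [Basis_dt_sub, hv]
      have := Int.emod_add_mul_ediv (dt u x) (d : ℤ)
      linarith
    have e2 : dt u (x - (dt u x / d) • v) = 0 := by
      by_contra hne
      have h3 : 0 ≤ dt u x % d := Int.emod_nonneg _ hd0'.ne'
      have h4 : dt u x % d < d := Int.emod_lt_of_pos _ hd0'
      have h5 := hmin' (dt u x % d).toNat (by omega)
        ⟨_, hx', by rw [Int.toNat_of_nonneg h3]; exact e1⟩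
      omega
    have hy : ∃ y : ℤ × ℤ, y = x - (dt u x / d) • v := ⟨_, rfl⟩
    obtain ⟨y, hy⟩ := hy
    rw [← hy] at hx' e2
    have hz : y - (y.1 / u.1) • u ∈ L := L.sub_mem hx' (L.zsmul_mem hu _)
    have hz0 : y - (y.1 / u.1) • u = 0 := by
      by_contra hne
      have h3 := hmin _ hz hne
      have f1 : (y - (y.1 / u.1) • u).1 = y.1 % u.1 := by
        simp only [Prod.fst_sub, Prod.smul_fst, smul_eq_mul]
        have := Int.emod_add_mul_ediv y.1 u.1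
        linarith
      have g1 : 0 ≤ y.1 % u.1 := Int.emod_nonneg _ hp.ne'
      have g2 : y.1 % u.1 < u.1 := Int.emod_lt_of_pos _ hp
      have f2 : u.1 * (y - (y.1 / u.1) • u).2 = u.2 * (y.1 % u.1) := by
        have h4 := Basis_dt_sub u y u (y.1 / u.1)
        have h5 : dt u u = 0 := by unfold dt; ring
        rw [e2, h5] at h4
        unfold dt at h4
        rw [f1] at h4
        linarith
      have g3 : 0 ≤ (y - (y.1 / u.1) • u).2 := by
        have : 0 ≤ u.1 * (y - (y.1 / u.1) • u).2 := by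
          rw [f2]
          exact mul_nonneg hq g1
        exact nonneg_of_mul_nonneg_right this hp
      have g4 : (y - (y.1 / u.1) • u).2 ≤ u.2 := by
        have : u.1 * (y - (y.1 / u.1) • u).2 ≤ u.1 * u.2 := by
          rw [f2]
          nlinarith
        exact le_of_mul_le_mul_left this hp
      unfold nrm at h3
      rw [f1] at h3
      generalize (y - (y.1 / u.1) • u).2 = c at g3 g4 h3
      generalize y.1 % u.1 = b at g1 g2 h3
      simp only [abs_eq_max_neg] at h3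
      omega
    refine ⟨y.1 / u.1, dt u x / d, ?_⟩
    rw [← sub_eq_zero.1 hz0, hy]
    abel
  · rintro ⟨i, j, rfl⟩
    exact L.add_mem (L.zsmul_mem hu _) (L.zsmul_mem hvL _)

end Pool.Agent.PP
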