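import Pool.Agent.Lib_MP_7c0803_tor.CertList

/-!
# The families of lattices with a vector of norm 3 or 4

`h7 = R (Lt (2, 1) (-7, 0))`.  All of this uses `Cl.shr`, changes of basis (`Lt_eq`), the certificates of `CertList.lean` (via
`chk_sound hR _ _ c..`) and, for `row2`, the symmetry `rho ∘ tau : (x, y) ↦ (-x - y, y)` (`Cl.sy` with `k = 1`, `m = true`).
-/

set_option autoImplicit false

namespace Pool.Agent.PP

variable {R : AddSubgroup (ℤ × ℤ) → Prop}

private lemma Chains_cast {u v v' : ℤ × ℤ} (h : R (Lt u v)) (e : Lt u v = Lt u v') : R (Lt u v') := e ▸ h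

/-- adding a multiple of the first vector to the second -/
private lemma Chains_add (a b c d k c' d' : ℤ) (h1 : c' = k * a + c) (h2 : d' = k * b + d) :
    Lt (a, b) (c, d) = Lt (a, b) (c', d') := by
  have h := Lt_eq (a, b) (c, d) 1 0 k 1 (Or.inl (by ring))
  simp only [one_mul, zero_mul, add_zero] at h
  rw [h1, h2, ← h]

/-- `(-n, 0) + (1, -1)` and `(-(n - 3), 0)` differ by `(2, 1)` -/
theorem step21 (hR : Cl R) (n : ℤ) (hn : 5 ≤ n) (h : R (Lt (2, 1) (-n, 0))) : R (Lt (2, 1) (-(n - 3), 0)) := by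
  have h1 := hR.shr (2, 1) (-n, 0) (by norm_num) (by norm_num) (by unfold dt; simp only; omega)
    (by unfold dt; simp only; omega) (by unfold dt; simp only; omega) h
  rw [Prod.mk_add_mk] at h1
  exact Chains_cast h1 (Chains_add _ _ _ _ 1 _ _ (by ring) (by ring))

theorem step31 (hR : Cl R) (n : ℤ) (hn : 7 ≤ n) (h : R (Lt (3, 1) (-n, 0))) : R (Lt (3, 1) (-(n - 4), 0)) := by
  have h1 := hR.shr (3, 1) (-n, 0) (by norm_num) (by norm_num) (by unfold dt; simp only; omega)
    (by unfold dt; simp only; omega) (by unfold dt; simp only; omega) h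
  rw [Prod.mk_add_mk] at h1
  exact Chains_cast h1 (Chains_add _ _ _ _ 1 _ _ (by ring) (by ring))

/-- `(r - k, r) + (1, -1) = ((r - 1) - (k - 2), r - 1)` -/
theorem step22 (hR : Cl R) (k r : ℤ) (hk : 3 ≤ k) (h : R (Lt (2, 2) (r - k, r))) :
    R (Lt (2, 2) ((r - 1) - (k - 2), r - 1)) := by
  have h1 := hR.shr (2, 2) (r - k, r) (by norm_num) (by norm_num) (by unfold dt; simp only; omega)
    (by unfold dt; simp only; omega) (by unfold dt; simp only; omega) h
  rw [Prod.mk_add_mk] at h1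
  exact Chains_cast h1 (Chains_add _ _ _ _ 0 _ _ (by ring) (by ring))

theorem row1 (hR : Cl R) (d r m : ℤ) (hd : 1 ≤ d) (hm : 2 ≤ m) (h : R (Lt (d, 0) (r, m))) :
    R (Lt (d, 0) (r + 1, m - 1)) := by
  have h2 : d * 2 ≤ d * m := mul_le_mul_of_nonneg_left hm (by omega)
  have h1 := hR.shr (d, 0) (r, m) (by simp only; omega) (by norm_num)
    (by unfold dt; simp only; rw [zero_mul]; omega)
    (by unfold dt; simp only; rw [zero_mul]; omega) (by unfold dt; simp only; rw [zero_mul]; omega) h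
  rw [Prod.mk_add_mk] at h1
  exact Chains_cast h1 (Chains_add _ _ _ _ 0 _ _ (by ring) (by ring))

/-- the symmetry of a row -/
private lemma Chains_mir (hR : Cl R) (d r m : ℤ) (h : R (Lt (d, 0) (r, m))) : R (Lt (d, 0) (-r - m, m)) := by
  have h1 := hR.sy 1 true (d, 0) (r, m) h
  have e1 : sy 1 true (d, 0) = (-d, 0) := by
    unfold sy
    simp
  have e2 : sy 1 true (r, m) = (-r - m, m) := by
    unfold sy
    simp
    ring
  rw [e1, e2] at h1
  have h2 := Lt_eq (-d, 0) (-r - m, m) (-1) 0 0 1 (Or.inr (by ring))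
  simp only [one_mul, zero_mul, add_zero, zero_add, mul_zero, neg_mul, neg_neg] at h2
  rw [h2]
  exact h1

theorem row2 (hR : Cl R) (d r m : ℤ) (hd : 1 ≤ d) (hm : 2 ≤ m) (h : R (Lt (d, 0) (r, m))) :
    R (Lt (d, 0) (r, m - 1)) := by
  have h1 := Chains_mir hR _ _ _ (row1 hR d _ m hd hm (Chains_mir hR d r m h))
  exact Chains_cast h1 (Chains_add _ _ _ _ 0 _ _ (by ring) (by ring))

/-- change of the shift -/
theorem shift (d r m k : ℤ) : Lt (d, 0) (r, m) = Lt (d, 0) (r + k * d, m) :=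
  Chains_add _ _ _ _ k _ _ (by ring) (by ring)

theorem good21 (hR : Cl R) (n : ℤ) (hn : 7 ≤ n) (h3 : ¬ 3 ∣ n) (h8 : n ≠ 8) (h11 : n ≠ 11)
    (h : R (Lt (2, 1) (-n, 0))) : R (Lt (2, 1) (-7, 0)) := by
  obtain ⟨N, hN⟩ : ∃ N : ℕ, n ≤ N := ⟨n.toNat, by omega⟩
  induction N using Nat.strong_induction_on generalizing n with
  | _ N ih =>
    by_cases h7 : n = 7
    · subst h7
      exact h
    · by_cases h14 : n = 14
      · subst h14
        exact chk_sound hR _ _ c21_14 h
      · exact ih (n - 3).toNat (by omega) (n - 3) (by omega) (by omega) (by omega) (by omega)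
          (step21 hR n (by omega) h) (by omega)

private lemma Chains_30 (hR : Cl R) (r m : ℤ) (hm : m = 4 ∧ r % 3 = 1) (h : R (Lt (3, 0) (r, m))) :
    R (Lt (2, 1) (-7, 0)) := by
  obtain ⟨rfl, h1⟩ := hm
  refine chk_sound hR _ _ c30_4_1 ?_
  exact Chains_cast h (Chains_add _ _ _ _ (-(r / 3)) _ _ (by omega) (by ring))

theorem good30 (hR : Cl R) (r m : ℤ) (hm : 6 ≤ m ∨ (m = 5 ∧ r % 3 ≠ 2) ∨ (m = 4 ∧ r % 3 = 1))
    (h : R (Lt (3, 0) (r, m))) : R (Lt (2, 1) (-7, 0)) := by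
  obtain ⟨N, hN⟩ : ∃ N : ℕ, m ≤ N := ⟨m.toNat, by omega⟩
  induction N using Nat.strong_induction_on generalizing m r with
  | _ N ih =>
    by_cases h4 : m = 4 ∧ r % 3 = 1
    · exact Chains_30 hR r m h4 h
    · have h5 : 5 ≤ m := by omega
      by_cases c : (m = 5 ∧ r % 3 = 0) ∨ (m = 6 ∧ r % 3 = 2)
      · exact ih (m - 1).toNat (by omega) (r + 1) (m - 1) (by omega) (row1 hR 3 r m (by norm_num) (by omega) h) (by omega)
      · exact ih (m - 1).toNat (by omega) r (m - 1) (by omega) (row2 hR 3 r m (by norm_num) (by omega) h) (by omega)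

theorem good31 (hR : Cl R) (n : ℤ) (hn : 17 ≤ n ∨ n = 14 ∨ n = 15) (h : R (Lt (3, 1) (-n, 0))) :
    R (Lt (2, 1) (-7, 0)) := by
  obtain ⟨N, hN⟩ : ∃ N : ℕ, n ≤ N := ⟨n.toNat, by omega⟩
  induction N using Nat.strong_induction_on generalizing n with
  | _ N ih =>
    by_cases h14 : n = 14
    · subst h14
      exact chk_sound hR _ _ c31_14 h
    by_cases h15 : n = 15
    · subst h15
      exact chk_sound hR _ _ c31_15 h
    by_cases h17 : n = 17
    · subst h17
      exact chk_sound hR _ _ c31_17 h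
    by_cases h20 : n = 20
    · subst h20
      exact chk_sound hR _ _ c31_20 h
    exact ih (n - 4).toNat (by omega) (n - 4) (by omega) (step31 hR n (by omega) h) (by omega)

/-- `k ≥ 9`: down to `k = 9` or `10`; `(9, r)` gives `(7, r - 1)`, `(10, r)` with `r` odd gives `(8, r - 1)`.  Changing `r` by `2` does not
change the lattice (add `(2, 2)`). -/
theorem good22 (hR : Cl R) (r k : ℤ) (hk : 9 ≤ k ∨ k = 7 ∨ (k = 8 ∧ r % 2 = 0)) (h : R (Lt (2, 2) (r - k, r))) :
    R (Lt (2, 1) (-7, 0)) := by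
  obtain ⟨N, hN⟩ : ∃ N : ℕ, k ≤ N := ⟨k.toNat, by omega⟩
  induction N using Nat.strong_induction_on generalizing k r with
  | _ N ih =>
    by_cases h70 : k = 7 ∧ r % 2 = 0
    · refine chk_sound hR _ _ c22_7_0 ?_
      exact Chains_cast h (Chains_add _ _ _ _ (-(r / 2)) _ _ (by omega) (by omega))
    by_cases h71 : k = 7 ∧ r % 2 = 1
    · refine chk_sound hR _ _ c22_7_1 ?_
      exact Chains_cast h (Chains_add _ _ _ _ (-(r / 2)) _ _ (by omega) (by omega))
    by_cases h80 : k = 8 ∧ r % 2 = 0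
    · refine chk_sound hR _ _ c22_8_0 ?_
      exact Chains_cast h (Chains_add _ _ _ _ (-(r / 2)) _ _ (by omega) (by omega))
    by_cases h10 : k = 10 ∧ r % 2 = 0
    · refine chk_sound hR _ _ c22_10_0 ?_
      exact Chains_cast h (Chains_add _ _ _ _ (-(r / 2)) _ _ (by omega) (by omega))
    exact ih (k - 2).toNat (by omega) (r - 1) (k - 2) (by omega) (step22 hR k r (by omega) h) (by omega)

/-- `m ≥ 5`: down to `m = 5` by `row2`; then `r = 2` gives `(2, 4)` by `row2`, `r = 1` gives `(2, 4)` by `row1`, `r = 0` is `c40_5_0`, and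
`r = 3` is equivalent to `r = 0` by `(x, y) ↦ (-x - y, y)`. -/
theorem good40 (hR : Cl R) (r m : ℤ) (hm : 5 ≤ m ∨ (m = 4 ∧ r % 4 = 2)) (h : R (Lt (4, 0) (r, m))) :
    R (Lt (2, 1) (-7, 0)) := by
  obtain ⟨N, hN⟩ : ∃ N : ℕ, m ≤ N := ⟨m.toNat, by omega⟩
  induction N using Nat.strong_induction_on generalizing m r with
  | _ N ih =>
    by_cases h42 : m = 4 ∧ r % 4 = 2
    · obtain ⟨rfl, h1⟩ := h42
      refine chk_sound hR _ _ c40_4_2 ?_
      exact Chains_cast h (Chains_add _ _ _ _ (-(r / 4)) _ _ (by omega) (by ring))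
    by_cases h50 : m = 5 ∧ r % 4 = 0
    · obtain ⟨rfl, h1⟩ := h50
      refine chk_sound hR _ _ c40_5_0 ?_
      exact Chains_cast h (Chains_add _ _ _ _ (-(r / 4)) _ _ (by omega) (by ring))
    by_cases h53 : m = 5 ∧ r % 4 = 3
    · obtain ⟨rfl, h1⟩ := h53
      refine chk_sound hR _ _ c40_5_0 ?_
      exact Chains_cast (Chains_mir hR _ _ _ h) (Chains_add _ _ _ _ (-((-r - 5) / 4)) _ _ (by omega) (by ring))
    by_cases h51 : m = 5 ∧ r % 4 = 1
    · exact ih (m - 1).toNat (by omega) (r + 1) (m - 1) (by omega) (row1 hR 4 r m (by norm_num) (by omega) h) (by omega)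
    · exact ih (m - 1).toNat (by omega) r (m - 1) (by omega) (row2 hR 4 r m (by norm_num) (by omega) h) (by omega)

end Pool.Agent.PP
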