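import Pool.Agent.Lib_MP_7c0803_tor.Basis
import Pool.Agent.Lib_MP_7c0803_tor.Bound
import Pool.Agent.Lib_MP_7c0803_tor.Chains

/-!
# Lattices of minimal norm at least four
-/

set_option autoImplicit false

namespace Pool.Agent.PP

lemma nrm_nonneg (x : ℤ × ℤ) : 0 ≤ nrm x := by
  unfold nrm
  exact le_max_of_le_right (abs_nonneg _)

lemma nrm_neg (x : ℤ × ℤ) : nrm (-x) = nrm x := by
  unfold nrm
  rw [Prod.fst_neg, Prod.snd_neg, abs_neg, abs_neg, ← neg_add, abs_neg]

lemma nrm_pos_coord (x : ℤ × ℤ) (h1 : 0 ≤ x.1) (h2 : 0 ≤ x.2) : nrm x = x.1 + x.2 := by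
  unfold nrm
  rw [abs_of_nonneg h1, abs_of_nonneg h2, abs_of_nonneg (by omega)]
  omega

lemma dt_sy (k : ℕ) (m : Bool) (u v : ℤ × ℤ) : |dt (sy k m u) (sy k m v)| = |dt u v| := by
  unfold sy dt
  cases m
  · simp only [Bool.false_eq_true, if_false]
    split_ifs
    · rfl
    · congr 1
      ring
    · congr 1
      ring
  · simp only [if_true]
    split_ifs
    · rw [← abs_neg]
      congr 1
      ring
    · rw [← abs_neg]
      congr 1
      ring
    · rw [← abs_neg]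
      congr 1
      ring

/-- a generating pair has the same determinant up to sign -/
lemma dt_dvd {u v u' v' : ℤ × ℤ} (hu : u' ∈ Lt u v) (hv : v' ∈ Lt u v) : dt u v ∣ dt u' v' := by
  obtain ⟨a, b, h1, h2⟩ := mem_Lt'.1 hu
  obtain ⟨c, d, h3, h4⟩ := mem_Lt'.1 hv
  refine ⟨a * d - b * c, ?_⟩
  unfold dt
  rw [← h1, ← h2, ← h3, ← h4]
  ring

lemma self_mem_left (u v : ℤ × ℤ) : u ∈ Lt u v := AddSubgroup.subset_closure (by simp)

lemma self_mem_right (u v : ℤ × ℤ) : v ∈ Lt u v := AddSubgroup.subset_closure (by simp)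

lemma dt_unique {u v u' v' : ℤ × ℤ} (h : Lt u v = Lt u' v') (h' : 0 < dt u' v') : dt u' v' = |dt u v| := by
  have h1 : dt u v ∣ dt u' v' := dt_dvd (h ▸ self_mem_left u' v') (h ▸ self_mem_right u' v')
  have h2 : dt u' v' ∣ dt u v := dt_dvd (h ▸ self_mem_left u v) (h ▸ self_mem_right u v)
  have h3 := Int.natAbs_eq_of_dvd_dvd h1 h2
  rw [Int.abs_eq_natAbs, h3]
  omega

lemma axis_mem (u v : ℤ × ℤ) : (|dt u v|, (0 : ℤ)) ∈ Lt u v ∧ ((0 : ℤ), |dt u v|) ∈ Lt u v := by
  rw [mem_Lt', mem_Lt']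
  rcases abs_choice (dt u v) with h | h
  · rw [h]
    unfold dt
    exact ⟨⟨v.2, -u.2, by simp only; ring, by simp only; ring⟩, ⟨-v.1, u.1, by simp only; ring, by simp only; ring⟩⟩
  · rw [h]
    unfold dt
    exact ⟨⟨-v.2, u.2, by simp only; ring, by simp only; ring⟩, ⟨v.1, -u.1, by simp only; ring, by simp only; ring⟩⟩

/-- a shortest vector -/
lemma exists_min (L : AddSubgroup (ℤ × ℤ)) (h : ∃ x ∈ L, x ≠ 0) :
    ∃ x ∈ L, x ≠ 0 ∧ ∀ y ∈ L, y ≠ 0 → nrm x ≤ nrm y := by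
  classical
  have hex : ∃ N : ℕ, ∃ x ∈ L, x ≠ 0 ∧ nrm x = N := by
    obtain ⟨x, hx, h0⟩ := h
    exact ⟨(nrm x).toNat, x, hx, h0, (Int.toNat_of_nonneg (nrm_nonneg x)).symm⟩
  obtain ⟨x, hx, h0, hN⟩ := Nat.find_spec hex
  refine ⟨x, hx, h0, fun y hy hy0 => ?_⟩
  have h1 : Nat.find hex ≤ (nrm y).toNat :=
    Nat.find_min' hex ⟨y, hy, hy0, (Int.toNat_of_nonneg (nrm_nonneg y)).symm⟩
  rw [hN]
  have := Int.toNat_of_nonneg (nrm_nonneg y)
  omega

/-- the lattice in normal position -/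
lemma normal_form (u v : ℤ × ℤ) (hd : dt u v ≠ 0) :
    ∃ (k : ℕ) (m : Bool) (u' v' : ℤ × ℤ), Lt (sy k m u) (sy k m v) = Lt u' v' ∧ 0 ≤ u'.2 ∧ u'.2 ≤ u'.1 ∧ 0 < u'.1 ∧
      dt u' v' = |dt u v| ∧ (∀ x ∈ Lt u' v', x ≠ 0 → nrm u' ≤ nrm x) ∧
      ∃ x ∈ Lt u v, x ≠ 0 ∧ nrm x = nrm u' := by
  have hpos : 0 < |dt u v| := abs_pos.2 hd
  obtain ⟨x, hx, h0, hmin⟩ := exists_min (Lt u v) ⟨_, (axis_mem u v).1, fun h => by
    have := congrArg Prod.fst h
    simp only [Prod.fst_zero] at this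
    omega⟩
  obtain ⟨k, m, e, hk, he, hs1, hs2, hs3⟩ := exists_sector x h0
  have hsy : ∀ (c d : ℤ) (y z : ℤ × ℤ), sy k m (c * y.1 + d * z.1, c * y.2 + d * z.2) =
      (c * (sy k m y).1 + d * (sy k m z).1, c * (sy k m y).2 + d * (sy k m z).2) := by
    intro c d y z
    unfold sy
    cases m
    · simp only [Bool.false_eq_true, if_false]
      split_ifs
      · rfl
      · refine Prod.ext ?_ rfl
        simp only
        ring
      · refine Prod.ext rfl ?_
        simp only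
        ring
    · simp only [if_true]
      split_ifs
      · rfl
      · refine Prod.ext ?_ rfl
        simp only
        ring
      · refine Prod.ext rfl ?_
        simp only
        ring
  have hinj : ∀ y z : ℤ × ℤ, sy k m y = sy k m z → y = z := by
    intro y z h
    unfold sy at h
    cases m
    · simp only [Bool.false_eq_true, if_false] at h
      split_ifs at h
      · exact h
      · rw [Prod.mk.injEq] at h
        exact Prod.ext h.2 (by omega)
      · rw [Prod.mk.injEq] at h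
        exact Prod.ext (by omega) h.1
    · simp only [if_true] at h
      split_ifs at h
      · rw [Prod.mk.injEq] at h
        exact Prod.ext h.2 h.1
      · rw [Prod.mk.injEq] at h
        exact Prod.ext (by omega) h.2
      · rw [Prod.mk.injEq] at h
        exact Prod.ext h.1 (by omega)
  have hmem : ∀ y, y ∈ Lt u v → sy k m y ∈ Lt (sy k m u) (sy k m v) := by
    intro y hy
    obtain ⟨i, j, h1, h2⟩ := mem_Lt'.1 hy
    have : y = (i * u.1 + j * v.1, i * u.2 + j * v.2) := Prod.ext h1.symm h2.symm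
    rw [this, hsy, mem_Lt']
    exact ⟨i, j, rfl, rfl⟩
  have hmem' : ∀ z, z ∈ Lt (sy k m u) (sy k m v) → ∃ y ∈ Lt u v, sy k m y = z := by
    intro z hz
    obtain ⟨i, j, h1, h2⟩ := mem_Lt'.1 hz
    refine ⟨(i * u.1 + j * v.1, i * u.2 + j * v.2), mem_Lt'.2 ⟨i, j, rfl, rfl⟩, ?_⟩
    rw [hsy]
    exact Prod.ext h1 h2
  have hax := axis_mem (sy k m u) (sy k m v)
  rw [dt_sy] at hax
  let u' : ℤ × ℤ := (e * (sy k m x).1, e * (sy k m x).2)
  have hu' : u' = sy k m x ∨ u' = -sy k m x := by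
    rcases he with he | he
    · left
      exact Prod.ext (by show e * _ = _; rw [he, one_mul]) (by show e * _ = _; rw [he, one_mul])
    · right
      exact Prod.ext (by show e * _ = _; rw [he, neg_one_mul]; rfl) (by show e * _ = _; rw [he, neg_one_mul]; rfl)
  have hu'm : u' ∈ Lt (sy k m u) (sy k m v) := by
    rcases hu' with h | h
    · rw [h]
      exact hmem x hx
    · rw [h]
      exact neg_mem (hmem x hx)
  have hun : nrm u' = nrm x := by
    rcases hu' with h | h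
    · rw [h, nrm_sy]
    · rw [h, nrm_neg, nrm_sy]
  have hzero : sy k m 0 = 0 := by
    unfold sy
    cases m
    · simp only [Bool.false_eq_true, if_false]
      split_ifs <;> rfl
    · simp only [if_true]
      split_ifs <;> rfl
  have hmin' : ∀ z ∈ Lt (sy k m u) (sy k m v), z ≠ 0 → nrm u' ≤ nrm z := by
    intro z hz hz0
    obtain ⟨y, hy, rfl⟩ := hmem' z hz
    rw [hun, nrm_sy]
    refine hmin y hy fun h => hz0 ?_
    rw [h, hzero]
  obtain ⟨v', hdv, hL⟩ := exists_basis (Lt (sy k m u) (sy k m v)) |dt u v| hpos hax.1 hax.2 u' hu'm hs1 hs2 hs3 hmin'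
  refine ⟨k, m, u', v', hL, hs1, hs2, hs3, ?_, ?_, ⟨x, hx, h0, hun.symm⟩⟩
  · rw [dt_unique hL hdv, dt_sy]
  · rw [← hL]
    exact hmin'

/-- the general step: the shrunk lattice has minimal norm at least four -/
lemma shrink_min (u v : ℤ × ℤ) (hq : 0 ≤ u.2) (hp : 0 ≤ u.1) (hN : 5 ≤ u.1 + u.2)
    (hmin : ∀ x ∈ Lt u v, x ≠ 0 → u.1 + u.2 ≤ nrm x) (hd : 0 < dt u v)
    (h2 : 3 * (u.1 + u.2) < 2 * (dt u v - (u.1 + u.2))) :
    ∀ x ∈ Lt u (v + (1, -1)), x ≠ 0 → 4 ≤ nrm x := by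
  intro x hx hx0
  obtain ⟨i, j, h3, h4⟩ := mem_Lt'.1 hx
  simp only [Prod.fst_add, Prod.snd_add] at h3 h4
  have hy : (i * u.1 + j * v.1, i * u.2 + j * v.2) ∈ Lt u v := mem_Lt'.2 ⟨i, j, rfl, rfl⟩
  have hb : |x.1| ≤ nrm x ∧ |x.2| ≤ nrm x ∧ |x.1 + x.2| ≤ nrm x := by
    unfold nrm
    exact ⟨le_trans (le_max_left _ _) (le_max_left _ _), le_trans (le_max_right _ _) (le_max_left _ _),
      le_max_right _ _⟩
  by_cases hj0 : j = 0
  · subst hj0
    have : x = (i * u.1 + 0 * v.1, i * u.2 + 0 * v.2) :=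
      Prod.ext (by rw [← h3]; ring) (by rw [← h4]; ring)
    rw [this] at hx0 ⊢
    have := hmin _ hy hx0
    omega
  by_cases hj1 : j = 1 ∨ j = -1
  · have hy0 : (i * u.1 + j * v.1, i * u.2 + j * v.2) ≠ (0 : ℤ × ℤ) := by
      intro h
      have e1 := congrArg Prod.fst h
      have e2 := congrArg Prod.snd h
      simp only [Prod.fst_zero, Prod.snd_zero] at e1 e2
      have : j * dt u v = 0 := by
        unfold dt
        linear_combination u.1 * e2 - u.2 * e1
      rcases mul_eq_zero.1 this with h | h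
      · exact hj0 h
      · omega
    have h5 := hmin _ hy hy0
    unfold nrm at h5
    simp only at h5
    have h6 : |i * u.1 + j * v.1| ≤ nrm x + 1 := by
      have e : i * u.1 + j * v.1 = x.1 - j := by rw [← h3]; ring
      rw [e]
      rcases hj1 with h | h <;> subst h <;> have := hb.1 <;> rw [abs_le] at this ⊢ <;> omega
    have h7 : |i * u.2 + j * v.2| ≤ nrm x + 1 := by
      have e : i * u.2 + j * v.2 = x.2 + j := by rw [← h4]; ring
      rw [e]
      rcases hj1 with h | h <;> subst h <;> have := hb.2.1 <;> rw [abs_le] at this ⊢ <;> omega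
    have h8 : |i * u.1 + j * v.1 + (i * u.2 + j * v.2)| ≤ nrm x + 1 := by
      have e : i * u.1 + j * v.1 + (i * u.2 + j * v.2) = x.1 + x.2 := by rw [← h3, ← h4]; ring
      rw [e]
      have := hb.2.2
      omega
    have h9 := le_trans h5 (max_le (max_le h6 h7) h8)
    omega
  · have e : dt u x = j * (dt u v - (u.1 + u.2)) := by
      unfold dt
      rw [← h3, ← h4]
      ring
    have h5 : |dt u x| ≤ (u.1 + u.2) * nrm x := by
      unfold dt
      have h6 := hb.1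
      have h7 := hb.2.1
      rw [abs_le] at h6 h7 ⊢
      constructor
      · nlinarith
      · nlinarith
    have h6 : 2 * (dt u v - (u.1 + u.2)) ≤ |dt u x| := by
      rw [e, abs_mul]
      have h7 : 2 ≤ |j| := by
        rw [le_abs]
        omega
      have h8 : dt u v - (u.1 + u.2) ≤ |dt u v - (u.1 + u.2)| := le_abs_self _
      have h9 : 0 ≤ dt u v - (u.1 + u.2) := by omega
      nlinarith
    by_contra h7
    have h8 : nrm x ≤ 3 := by omega
    nlinarith

variable {R : AddSubgroup (ℤ × ℤ) → Prop}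

lemma basis21 (v : ℤ × ℤ) : Lt (2, 1) v = Lt (2, 1) (-(dt (2, 1) v), 0) := by
  rw [← Lt_eq (2, 1) v 1 0 (-v.2) 1 (by norm_num)]
  unfold dt
  congr 2 <;> simp only <;> ring

lemma basis31 (v : ℤ × ℤ) : Lt (3, 1) v = Lt (3, 1) (-(dt (3, 1) v), 0) := by
  rw [← Lt_eq (3, 1) v 1 0 (-v.2) 1 (by norm_num)]
  unfold dt
  congr 2 <;> simp only <;> ring

lemma basis41 (v : ℤ × ℤ) : Lt (4, 1) v = Lt (4, 1) (-(dt (4, 1) v), 0) := by
  rw [← Lt_eq (4, 1) v 1 0 (-v.2) 1 (by norm_num)]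
  unfold dt
  congr 2 <;> simp only <;> ring

lemma basis51 (v : ℤ × ℤ) : Lt (5, 1) v = Lt (5, 1) (-(dt (5, 1) v), 0) := by
  rw [← Lt_eq (5, 1) v 1 0 (-v.2) 1 (by norm_num)]
  unfold dt
  congr 2 <;> simp only <;> ring

end Pool.Agent.PP
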