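import Pool.Agent.Lib_MP_7c0803_tor.Exc

/-!
# The honeycomb torus of `Lt (3, 0) (0, 4)` has one Kempe class

`HG (A := ZMod 12) 4 3` has `408 = 6 * 68` proper colourings, all Kempe equivalent.

A colouring is coded by a number with 12 octal digits: the digit of the `X`-vertex `x` is `3 c (x, 0) + c (x, 1)`.
`ConT_go` searches through all proper colourings (5347 nodes); every leaf is in the list `ConT_L`, which lists the 408
codes together with a code which shares a colour class and stands earlier in the list.
-/

set_option autoImplicit false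
set_option maxRecDepth 100000

open Finset Function

namespace Pool.Agent.PP

universe u

/-- octal digit -/
private def ConT_d (n x : ℕ) : ℕ := n / 8 ^ x % 8

/-- colour number `i` of a digit -/
private def ConT_c (a i : ℕ) : ℕ :=
  if Nat.beq i 0 then a / 3 else if Nat.beq i 1 then a % 3 else (6 - a / 3 - a % 3) % 3

/-- the colouring with code `n` -/
private def ConT_f (n : ℕ) (p : ZMod 12 × Fin 3) : Fin 3 :=
  Fin.ofNat 3 (ConT_c (ConT_d n (ZMod.val p.1)) p.2.val)

/-- a number is a digit of a proper colouring -/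
private def ConT_g (a : ℕ) : Bool := !(Nat.beq (a / 3) (a % 3))

private def ConT_ok (n : ℕ) : Bool := (List.range 12).all fun y =>
  ConT_g (ConT_d n y) &&
    !(Nat.beq (ConT_c (ConT_d n y) 0) (ConT_c (ConT_d n ((y + 8) % 12)) 1)) &&
    !(Nat.beq (ConT_c (ConT_d n ((y + 8) % 12)) 1) (ConT_c (ConT_d n ((y + 9) % 12)) 2)) &&
    !(Nat.beq (ConT_c (ConT_d n ((y + 9) % 12)) 2) (ConT_c (ConT_d n y) 0))

private def ConT_r3 (a b k : ℕ) : Bool :=
  ((Nat.beq (ConT_c a 0) k) == (Nat.beq (ConT_c b 0) k)) &&
    ((Nat.beq (ConT_c a 1) k) == (Nat.beq (ConT_c b 1) k)) &&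
    ((Nat.beq (ConT_c a 2) k) == (Nat.beq (ConT_c b 2) k))

private def ConT_rl (n m k : ℕ) : Bool :=
  Nat.blt k 3 && (List.range 12).all fun x => ConT_r3 (ConT_d n x) (ConT_d m x) k

private def ConT_chk : List (ℕ × ℕ × ℕ) → List ℕ → Bool
  | [], _ => true
  | r :: l, acc => acc.any (Nat.beq r.2.1) && ConT_ok r.1 && ConT_rl r.1 r.2.1 r.2.2 && ConT_chk l (r.1 :: acc)

/-- code of the colouring `(x, i) ↦ i` -/
private def ConT_n0 : ℕ := 9817068105

private def ConT_L : List (ℕ × ℕ × ℕ) :=
  [(19634136210, 9817068105, 0), (10623950415, 9817068105, 1), (16272126585, 9817068105, 1),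
   (17079008895, 9817068105, 1), (61457535945, 9817068105, 1), (62264418255, 9817068105, 1),
   (67912594425, 9817068105, 1), (68719476735, 9817068105, 1), (9850630731, 9817068105, 2),
   (10085569113, 9817068105, 2), (10119131739, 9817068105, 2), (11965076169, 9817068105, 2),
   (11998638795, 9817068105, 2), (12233577177, 9817068105, 2), (12267139803, 9817068105, 2),
   (27001132617, 9817068105, 2), (27034695243, 9817068105, 2), (27269633625, 9817068105, 2),
   (27303196251, 9817068105, 2), (29149140681, 9817068105, 2), (29182703307, 9817068105, 2),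
   (29417641689, 9817068105, 2), (29451204315, 9817068105, 2), (19701261462, 19634136210, 1),
   (20171138226, 19634136210, 1), (20238263478, 19634136210, 1), (23930152338, 19634136210, 1),
   (23997277590, 19634136210, 1), (24467154354, 19634136210, 1), (24534279606, 19634136210, 1),
   (54002265234, 19634136210, 1), (54069390486, 19634136210, 1), (54539267250, 19634136210, 1),
   (54606392502, 19634136210, 1), (58298281362, 19634136210, 1), (58365406614, 19634136210, 1),
   (58835283378, 19634136210, 1), (58902408630, 19634136210, 1), (20037577365, 19634136210, 2),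
   (22861665450, 19634136210, 2), (23265106605, 19634136210, 2), (45454370130, 19634136210, 2),
   (45857811285, 19634136210, 2), (48681899370, 19634136210, 2), (49085340525, 19634136210, 2),
   (10642300565, 10623950415, 0), (20019227215, 10623950415, 0), (29854645470, 10623950415, 2),
   (16418927785, 16272126585, 0), (22714864250, 16272126585, 0), (32678733555, 16272126585, 2),
   (15904599295, 17079008895, 2), (33082174710, 17079008895, 2), (34256584310, 17079008895, 2),
   (44279960530, 61457535945, 0), (62631945545, 61457535945, 0), (55271438235, 61457535945, 2),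
   (55674879390, 62264418255, 2), (55821680590, 62264418255, 2), (62117617055, 62264418255, 2),
   (58498967475, 67912594425, 2), (58517317625, 67912594425, 2), (67894244275, 67912594425, 2),
   (49118903151, 68719476735, 0), (49353841533, 68719476735, 0), (49387404159, 68719476735, 0),
   (51233348589, 68719476735, 0), (51266911215, 68719476735, 0), (51501849597, 68719476735, 0),
   (51535412223, 68719476735, 0), (66269405037, 68719476735, 0), (66302967663, 68719476735, 0),
   (66537906045, 68719476735, 0), (66571468671, 68719476735, 0), (68417413101, 68719476735, 0),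
   (68450975727, 68719476735, 0), (68685914109, 68719476735, 0), (9850643603, 9850630731, 0),
   (9903354443, 9850630731, 0), (9903367315, 9850630731, 0), (19648524878, 9850630731, 0),
   (19648537750, 9850630731, 0), (19701248590, 9850630731, 0), (10085672089, 10085569113, 0),
   (10507358809, 10085569113, 0), (10507461785, 10085569113, 0), (19749245554, 10085569113, 0),
   (19749348530, 10085569113, 0), (20171035250, 10085569113, 0), (11965899977, 11965076169, 0),
   (15339393737, 11965076169, 0), (15340217545, 11965076169, 0), (20555010962, 11965076169, 0),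
   (20555834770, 11965076169, 0), (23929328530, 11965076169, 0), (12267143021, 12267139803, 1),
   (12280320731, 12267139803, 1), (12280323949, 12267139803, 1), (66256220891, 12267139803, 1),
   (66256224109, 12267139803, 1), (66269401819, 12267139803, 1), (27001134226, 27001132617, 0),
   (27007723081, 27001132617, 0), (27007724690, 27001132617, 0), (53995673161, 27001132617, 0),
   (53995674770, 27001132617, 0), (54002263625, 27001132617, 0), (27304843867, 27303196251, 1),
   (34051831387, 27303196251, 1), (34053479003, 27303196251, 1), (44483065837, 27303196251, 1),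
   (44484713453, 27303196251, 1), (51231700973, 27303196251, 1), (29182909259, 29182703307, 1),
   (30026282699, 29182703307, 1), (30026488651, 29182703307, 1), (48510056189, 29182703307, 1),
   (48510262141, 29182703307, 1), (49353635581, 29182703307, 1), (29417667433, 29417641689, 1),
   (29523089113, 29417641689, 1), (29523114857, 29417641689, 1), (49013429983, 29417641689, 1),
   (49013455727, 29417641689, 1), (49118877407, 29417641689, 1), (24534281215, 24534279606, 2),
   (24540870070, 24534279606, 2), (24540871679, 24534279606, 2), (51528820150, 24534279606, 2),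
   (51528821759, 24534279606, 2), (51535410614, 24534279606, 2), (54607216310, 54606392502, 2),
   (57980710070, 54606392502, 2), (57981533878, 54606392502, 2), (63196327295, 54606392502, 2),
   (63197151103, 54606392502, 2), (66570644863, 54606392502, 2), (58365509590, 58365406614, 2),
   (58787196310, 58365406614, 2), (58787299286, 58365406614, 2), (68029083055, 58365406614, 2),
   (68029186031, 58365406614, 2), (68450872751, 58365406614, 2), (58835296250, 58835283378, 2),
   (58888007090, 58835283378, 2), (58888019962, 58835283378, 2), (68633177525, 58835283378, 2),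
   (68633190397, 58835283378, 2), (68685901237, 58835283378, 2), (20916287405, 23265106605, 1),
   (57620257435, 23265106605, 1), (32972335955, 45857811285, 1), (45564208885, 45857811285, 1),
   (29891345770, 48681899370, 1), (48645199070, 48681899370, 1), (16346226357, 10642300565, 1),
   (62190318483, 10642300565, 1), (12795354453, 10642300565, 2), (27738291882, 10642300565, 2),
   (24325334991, 20019227215, 1), (54211209849, 20019227215, 1), (22871190111, 20019227215, 2),
   (45793236174, 20019227215, 2), (16486210719, 16418927785, 1), (62050334121, 16418927785, 1),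
   (15747904851, 16418927785, 2), (33643358889, 16418927785, 2), (21372818382, 22714864250, 1),
   (57163726458, 22714864250, 1), (22748505717, 22714864250, 2), (45530567418, 22714864250, 2),
   (15548103933, 15904599295, 0), (21272782767, 15904599295, 0), (15366335823, 15904599295, 1),
   (63170209017, 15904599295, 1), (33987452574, 34256584310, 0), (57889389171, 34256584310, 0),
   (33543593586, 34256584310, 1), (44992951254, 34256584310, 1), (20647155669, 44279960530, 2),
   (44549092266, 44279960530, 2), (57263762073, 62631945545, 2), (62988440907, 62631945545, 2),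
   (33005977422, 55821680590, 0), (55788039123, 55821680590, 0), (44893185951, 62117617055, 0),
   (62788639989, 62117617055, 0), (32743308666, 58517317625, 0), (55665354729, 58517317625, 0),
   (50798252958, 67894244275, 0), (65741190387, 67894244275, 0), (16305859765, 9850643603, 1),
   (62230685075, 9850643603, 1), (16346857085, 9903354443, 1), (62189687755, 9903354443, 1),
   (12057245011, 9903367315, 2), (27369237161, 9903367315, 2), (23956280270, 19648524878, 1),
   (54580264570, 19648524878, 1), (22870289071, 19648537750, 2), (45791704406, 19648537750, 2),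
   (22928856671, 19701248590, 2), (45891269326, 19701248590, 2), (16809143455, 10085672089, 1),
   (61727401385, 10085672089, 1), (16481164895, 10507358809, 1), (62055379945, 10507358809, 1),
   (12795467083, 10507461785, 2), (27738483353, 10507461785, 2), (24325256150, 19749245554, 1),
   (54211288690, 19749245554, 1), (22736251573, 19749348530, 2), (45523359098, 19749348530, 2),
   (23532770933, 20171035250, 2), (45991899898, 20171035250, 2), (12782873935, 11965899977, 1),
   (65753670905, 11965899977, 1), (15406702415, 15339393737, 1), (63129842425, 15339393737, 1),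
   (15749436619, 15340217545, 2), (33644259929, 15340217545, 2), (21373449110, 20555010962, 1),
   (57163095730, 20555010962, 1), (20589489109, 20555834770, 2), (44451059114, 20555834770, 2),
   (24337815509, 23929328530, 2), (50823213994, 23929328530, 2), (15540895613, 12267143021, 0),
   (21260528623, 12267143021, 0), (15548216563, 12280320731, 0), (21272974238, 12280320731, 0),
   (12011089237, 12280323949, 2), (27276959402, 12280323949, 2), (51259585438, 66256220891, 0),
   (66525455603, 66256220891, 0), (57263570602, 66256224109, 2), (62988328277, 66256224109, 2),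
   (57276016217, 66269401819, 2), (62995649227, 66269401819, 2), (33548639410, 27001134226, 1),
   (44987905430, 27001134226, 1), (33543514745, 27007723081, 1), (44993030095, 27007723081, 1),
   (24002402255, 53995673161, 1), (54534142585, 53995673161, 1), (27713330846, 27304843867, 0),
   (54198729331, 27304843867, 0), (34085485726, 34051831387, 0), (57947055731, 34051831387, 0),
   (44892284911, 44483065837, 0), (62787108221, 44483065837, 0), (32544644942, 29182909259, 0),
   (55003773907, 29182909259, 0), (33013185742, 30026282699, 0), (55800293267, 30026282699, 0),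
   (50798061487, 48510056189, 0), (65741077757, 48510056189, 0), (32645275514, 29417667433, 0),
   (55607688169, 29417667433, 0), (32744840434, 29523089113, 0), (55666255769, 29523089113, 0),
   (51167307679, 49013429983, 0), (66479299829, 49013429983, 0), (16346947189, 16346226357, 0),
   (16480444063, 16346226357, 0), (22736972405, 16346226357, 0), (22870469279, 16346226357, 0),
   (15546662269, 16346226357, 2), (16351993013, 16346226357, 2), (32737542010, 16346226357, 2),
   (33542872754, 16346226357, 2), (44993672086, 62190318483, 0), (45799002830, 62190318483, 0),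
   (62184551827, 62190318483, 0), (62989882571, 62190318483, 0), (55666075561, 62190318483, 2),
   (55799572435, 62190318483, 2), (62056100777, 62190318483, 2), (62189597651, 62190318483, 2),
   (15735401807, 12795354453, 0), (15747882325, 12795354453, 0), (21372807119, 12795354453, 0),
   (21385287637, 12795354453, 0), (12057222485, 12795354453, 1), (12795376979, 12795354453, 1),
   (65741167861, 12795354453, 1), (66479322355, 12795354453, 1), (27369225898, 27738291882, 0),
   (27738303145, 27738291882, 0), (54211198586, 27738291882, 0), (54580275833, 27738291882, 0),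
   (33618386590, 27738291882, 1), (33643347626, 27738291882, 1), (44893197214, 27738291882, 1),
   (44918158250, 27738291882, 1), (23956269007, 24325334991, 2), (24325346254, 24325334991, 2),
   (50798241695, 24325334991, 2), (51167318942, 24325334991, 2), (57151257203, 54211209849, 2),
   (57163737721, 54211209849, 2), (62788662515, 54211209849, 2), (62801143033, 54211209849, 2),
   (21272061935, 22871190111, 1), (22882723423, 22871190111, 1), (55653821417, 22871190111, 1),
   (57264482905, 22871190111, 1), (32744750330, 45793236174, 1), (33011744078, 45793236174, 1),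
   (45524800762, 45793236174, 1), (45791794510, 45793236174, 1), (16440077471, 16486210719, 0),
   (22794638965, 16486210719, 0), (15412469071, 16486210719, 2), (34079719070, 16486210719, 2),
   (44456825770, 62050334121, 0), (63124075769, 62050334121, 0), (55741905875, 62050334121, 2),
   (62096467369, 62050334121, 2), (15747994955, 15747904851, 0), (21372728278, 15747904851, 0),
   (15548194037, 15747904851, 1), (62988350803, 15747904851, 1), (33543503482, 33643358889, 0),
   (57263581865, 33643358889, 0), (33643539097, 33643358889, 1), (44893005743, 33643358889, 1),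
   (21272962975, 21372818382, 2), (44993041358, 21372818382, 2), (57163816562, 57163726458, 2),
   (62788549885, 57163726458, 2), (20601022421, 22748505717, 1), (57935522419, 22748505717, 1),
   (32913710926, 45530567418, 1), (45622833914, 45530567418, 1), (17085079157, 16346947189, 1),
   (61451465683, 16346947189, 1), (10575388319, 16480444063, 1), (67961156521, 16480444063, 1),
   (19784444533, 22736972405, 2), (48477328634, 22736972405, 2), (23239535263, 22870469279, 2),
   (45422728526, 22870469279, 2), (12682128751, 15546662269, 0), (24136595453, 15546662269, 0),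
   (16352015539, 16351993013, 1), (62184529301, 16351993013, 1), (32737553273, 32737542010, 0),
   (55653810154, 32737542010, 0), (27813805718, 33542872754, 1), (50722739122, 33542872754, 1),
   (22882734686, 45799002830, 2), (45798991567, 45799002830, 2), (54399949387, 62989882571, 2),
   (65854416089, 62989882571, 2), (33113816314, 55666075561, 0), (55297009577, 55666075561, 0),
   (30059216206, 55799572435, 0), (58752100307, 55799572435, 0), (15736843471, 15735401807, 1),
   (62799701369, 15735401807, 1), (15742115669, 15747882325, 2), (33649114282, 15747882325, 2),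
   (21361273807, 21372807119, 1), (57175271033, 21372807119, 1), (21386008469, 21385287637, 2),
   (44917437418, 21385287637, 2), (10172579501, 12057222485, 2), (29253868882, 12057222485, 2),
   (12661159273, 12795376979, 2), (27872520851, 12795376979, 2), (50664023989, 65741167861, 0),
   (65875385567, 65741167861, 0), (49282675958, 66479322355, 0), (68363965339, 66479322355, 0),
   (24056910842, 54211198586, 1), (54479633998, 54211198586, 1), (20186983039, 54580275833, 1),
   (58349561801, 54580275833, 1), (33619107422, 33618386590, 0), (57150536371, 33618386590, 0),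
   (44887430558, 44893197214, 0), (62794429171, 44893197214, 0), (16439897263, 16440077471, 1),
   (62096647577, 16440077471, 1), (22794548861, 22794638965, 2), (45622924018, 22794638965, 2),
   (15883629817, 15412469071, 1), (62652915023, 15412469071, 1), (34315299443, 34079719070, 0),
   (57699942046, 34079719070, 0), (20836602794, 44456825770, 2), (44221245397, 44456825770, 2),
   (32913620822, 55741905875, 0), (55741995979, 55741905875, 0), (16821736603, 15747994955, 2),
   (32569797449, 15747994955, 2), (23520211574, 21372728278, 1), (55016333266, 21372728278, 1),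
   (15502060789, 15548194037, 0), (21319096223, 15548194037, 0), (57217448617, 62988350803, 2),
   (63034484051, 62988350803, 2), (33451236986, 33543503482, 1), (45085307854, 33543503482, 1),
   (45966747391, 44893005743, 0), (61714808237, 44893005743, 0)]

private def ConT_m (x a : ℕ) : ℕ := 2 ^ (3 * x + ConT_c a 0) ||| 2 ^ (3 * ((x + 4) % 12) + ConT_c a 1) |||
  2 ^ (3 * ((x + 3) % 12) + ConT_c a 2)

private def ConT_go (lf : ℕ → Bool) : ℕ → ℕ → ℕ → Bool
  | 0, _, n => lf n
  | k + 1, u, n => [1, 2, 3, 5, 6, 7].all fun a =>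
      !(Nat.beq (u &&& ConT_m k a) 0) || ConT_go lf k (u ||| ConT_m k a) (n * 8 + a)

private def ConT_lf (n : ℕ) : Bool := Nat.beq ConT_n0 n || ConT_L.any fun r => Nat.beq r.1 n

private lemma ConT_chk_L : (ConT_ok ConT_n0 && ConT_chk ConT_L [ConT_n0]) = true := by decide +kernel

private lemma ConT_search : ConT_go ConT_lf 12 0 0 = true := by decide +kernel

/-! ### Soundness -/

private lemma ConT_d_lt (n x : ℕ) : ConT_d n x < 8 := Nat.mod_lt _ (by norm_num)

private lemma ConT_tab1 : ∀ a : Fin 8, ConT_g a.val = true → ∀ i : Fin 3,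
    Fin.ofNat 3 (ConT_c a.val (i + 1 : Fin 3).val) ≠ Fin.ofNat 3 (ConT_c a.val i.val) := by decide +kernel

private lemma ConT_tab2 : ∀ a b : Fin 8, ∀ i j : Fin 3, Nat.beq (ConT_c a.val i.val) (ConT_c b.val j.val) = false →
    Fin.ofNat 3 (ConT_c a.val i.val) ≠ Fin.ofNat 3 (ConT_c b.val j.val) := by decide +kernel

private lemma ConT_tab3 : ∀ a b : Fin 8, ∀ k : Fin 3, ConT_r3 a.val b.val k.val = true → ∀ i : Fin 3,
    (Fin.ofNat 3 (ConT_c a.val i.val) = k ↔ Fin.ofNat 3 (ConT_c b.val i.val) = k) := by decide +kernel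

private lemma ConT_z4 : ∀ y : ZMod 12, ZMod.val (y - 4) = (ZMod.val y + 8) % 12 := by decide

private lemma ConT_z3 : ∀ y : ZMod 12, ZMod.val (y - 3) = (ZMod.val y + 9) % 12 := by decide

private lemma ConT_ok_P {n : ℕ} (h : ConT_ok n = true) : (HG (A := ZMod 12) 4 3).P (ConT_f n) := by
  unfold ConT_ok at h
  rw [List.all_eq_true] at h
  have hx : ∀ y : ZMod 12, ConT_g (ConT_d n (ZMod.val y)) = true ∧
      Nat.beq (ConT_c (ConT_d n (ZMod.val y)) 0) (ConT_c (ConT_d n (ZMod.val (y - 4))) 1) = false ∧
      Nat.beq (ConT_c (ConT_d n (ZMod.val (y - 4))) 1) (ConT_c (ConT_d n (ZMod.val (y - 3))) 2) = false ∧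
      Nat.beq (ConT_c (ConT_d n (ZMod.val (y - 3))) 2) (ConT_c (ConT_d n (ZMod.val y)) 0) = false := by
    intro y
    have h1 := h (ZMod.val y) (List.mem_range.2 (ZMod.val_lt y))
    simp only [Bool.and_eq_true, Bool.not_eq_true'] at h1
    rw [ConT_z4, ConT_z3]
    exact ⟨h1.1.1.1, h1.1.1.2, h1.1.2, h1.2⟩
  have hY0 : ∀ y : ZMod 12, ConT_f n (y, 0) ≠ ConT_f n (y - 4, 1) := fun y =>
    ConT_tab2 ⟨_, ConT_d_lt n _⟩ ⟨_, ConT_d_lt n _⟩ 0 1 (hx y).2.1
  have hY1 : ∀ y : ZMod 12, ConT_f n (y - 4, 1) ≠ ConT_f n (y - 3, 2) := fun y =>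
    ConT_tab2 ⟨_, ConT_d_lt n _⟩ ⟨_, ConT_d_lt n _⟩ 1 2 (hx y).2.2.1
  have hY2 : ∀ y : ZMod 12, ConT_f n (y - 3, 2) ≠ ConT_f n (y, 0) := fun y =>
    ConT_tab2 ⟨_, ConT_d_lt n _⟩ ⟨_, ConT_d_lt n _⟩ 2 0 (hx y).2.2.2
  rintro ⟨x, i⟩
  refine ⟨ConT_tab1 ⟨_, ConT_d_lt n _⟩ (hx x).1 i, ?_⟩
  rw [HG_t]
  have h3 : ∀ i : Fin 3, i = 0 ∨ i = 1 ∨ i = 2 := by decide
  rcases h3 i with rfl | rfl | rfl
  · have e : x + dl (A := ZMod 12) 4 3 0 - dl (A := ZMod 12) 4 3 (0 + 1) = x - 4 := by
      show x + 0 - 4 = x - 4
      ring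
    rw [e]
    exact (hY0 x).symm
  · have e : x + dl (A := ZMod 12) 4 3 1 - dl (A := ZMod 12) 4 3 (1 + 1) = x + 4 - 3 := rfl
    rw [e]
    have := hY1 (x + 4)
    rw [add_sub_cancel_right] at this
    exact this.symm
  · have e : x + dl (A := ZMod 12) 4 3 2 - dl (A := ZMod 12) 4 3 (2 + 1) = x + 3 := by
      show x + 3 - 0 = x + 3
      ring
    rw [e]
    have := hY2 (x + 3)
    rw [add_sub_cancel_right] at this
    exact this.symm

private lemma ConT_rl_Rel {n m k : ℕ} (h : ConT_rl n m k = true) : Rel (ConT_f n) (ConT_f m) := by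
  unfold ConT_rl at h
  rw [Bool.and_eq_true, List.all_eq_true] at h
  obtain ⟨h1, h2⟩ := h
  have hk : k < 3 := by
    rw [Nat.blt_eq] at h1
    exact h1
  refine ⟨⟨k, hk⟩, ?_⟩
  rintro ⟨x, i⟩
  exact ConT_tab3 ⟨_, ConT_d_lt n _⟩ ⟨_, ConT_d_lt m _⟩ ⟨k, hk⟩ (h2 (ZMod.val x) (List.mem_range.2 (ZMod.val_lt x))) i

/-- the colouring is proper and equivalent to the first one -/
private def ConT_Q (n : ℕ) : Prop :=
  (HG (A := ZMod 12) 4 3).P (ConT_f n) ∧ (HG (A := ZMod 12) 4 3).KE (ConT_f n) (ConT_f ConT_n0)

private lemma ConT_chk_sound : ∀ (l : List (ℕ × ℕ × ℕ)) (acc : List ℕ), ConT_chk l acc = true →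
    (∀ m ∈ acc, ConT_Q m) → ∀ r ∈ l, ConT_Q r.1 := by
  intro l
  induction l with
  | nil =>
    intro acc _ _ r hr
    exact absurd hr List.not_mem_nil
  | cons r l ih =>
    intro acc h hacc r' hr'
    unfold ConT_chk at h
    simp only [Bool.and_eq_true] at h
    obtain ⟨⟨⟨h1, h2⟩, h3⟩, h4⟩ := h
    rw [List.any_eq_true] at h1
    obtain ⟨m, hm, hm2⟩ := h1
    have hm3 : r.2.1 = m := Nat.eq_of_beq_eq_true hm2
    subst hm3
    have hQ := hacc _ hm
    have hP := ConT_ok_P h2
    have hr : ConT_Q r.1 := ⟨hP, (KE_of_rel _ hP hQ.1 (ConT_rl_Rel h3)).trans _ _ _ hQ.2⟩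
    rcases List.mem_cons.1 hr' with rfl | hr'
    · exact hr
    · refine ih _ h4 ?_ r' hr'
      intro m hm
      rcases List.mem_cons.1 hm with rfl | hm
      · exact hr
      · exact hacc m hm

private lemma ConT_lf_sound {n : ℕ} (h : ConT_lf n = true) : ConT_Q n := by
  have h0 := ConT_chk_L
  rw [Bool.and_eq_true] at h0
  have hQ0 : ConT_Q ConT_n0 := ⟨ConT_ok_P h0.1, Relation.EqvGen.refl _⟩
  unfold ConT_lf at h
  rw [Bool.or_eq_true, List.any_eq_true] at h
  rcases h with h | ⟨r, hr, h⟩
  · rw [← Nat.eq_of_beq_eq_true h]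
    exact hQ0
  · rw [← Nat.eq_of_beq_eq_true h]
    refine ConT_chk_sound _ _ h0.2 ?_ r hr
    intro m hm
    rw [List.mem_singleton.1 hm]
    exact hQ0

/-- the code of the digits `f` -/
private def ConT_enc (f : ℕ → ℕ) : ℕ → ℕ → ℕ
  | 0, n => n
  | k + 1, n => ConT_enc f k (n * 8 + f k)

private lemma ConT_enc_div (f : ℕ → ℕ) (hf : ∀ x, f x < 8) : ∀ k n, ConT_enc f k n / 8 ^ k = n := by
  intro k
  induction k with
  | zero => intro n; simp [ConT_enc]
  | succ k ih =>
    intro n
    rw [ConT_enc, pow_succ, ← Nat.div_div_eq_div_mul, ih]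
    have := hf k
    omega

private lemma ConT_enc_d (f : ℕ → ℕ) (hf : ∀ x, f x < 8) : ∀ k n x, x < k → ConT_d (ConT_enc f k n) x = f x := by
  intro k
  induction k with
  | zero => intro n x hx; omega
  | succ k ih =>
    intro n x hx
    rw [ConT_enc]
    rcases Nat.lt_succ_iff_lt_or_eq.1 hx with h | h
    · exact ih _ x h
    · subst h
      unfold ConT_d
      rw [ConT_enc_div f hf]
      have := hf x
      omega

private lemma ConT_go_sound (f : ℕ → ℕ) (hf : ∀ x, f x ∈ [1, 2, 3, 5, 6, 7])
    (hd : ∀ x y, x < 12 → y < x → ConT_m x (f x) &&& ConT_m y (f y) = 0) :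
    ∀ k u n, k ≤ 12 → ConT_go ConT_lf k u n = true → (∀ x, x < k → u &&& ConT_m x (f x) = 0) →
      ConT_lf (ConT_enc f k n) = true := by
  intro k
  induction k with
  | zero => intro u n _ h _; exact h
  | succ k ih =>
    intro u n hk h hu
    unfold ConT_go at h
    rw [List.all_eq_true] at h
    have h1 := h _ (hf k)
    rw [Bool.or_eq_true, hu k (by omega)] at h1
    have h2 : ConT_go ConT_lf k (u ||| ConT_m k (f k)) (n * 8 + f k) = true := by
      rcases h1 with h1 | h1
      · exact absurd h1 (by decide)
      · exact h1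
    refine ih _ _ (by omega) h2 ?_
    intro x hx
    rw [Nat.and_or_distrib_right, hu x (by omega), hd k x (by omega) hx]
    rfl

private lemma ConT_disj (a b c d e f : ℕ) (h1 : a ≠ d) (h2 : a ≠ e) (h3 : a ≠ f) (h4 : b ≠ d) (h5 : b ≠ e)
    (h6 : b ≠ f) (h7 : c ≠ d) (h8 : c ≠ e) (h9 : c ≠ f) :
    (2 ^ a ||| 2 ^ b ||| 2 ^ c) &&& (2 ^ d ||| 2 ^ e ||| 2 ^ f) = 0 := by
  apply Nat.eq_of_testBit_eq
  intro k
  rw [Nat.testBit_and, Nat.testBit_or, Nat.testBit_or, Nat.testBit_or, Nat.testBit_or, Nat.testBit_two_pow,
    Nat.testBit_two_pow, Nat.testBit_two_pow, Nat.testBit_two_pow, Nat.testBit_two_pow, Nat.testBit_two_pow,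
    Nat.zero_testBit, Bool.eq_false_iff]
  simp only [ne_eq, Bool.and_eq_true, Bool.or_eq_true, decide_eq_true_eq]
  omega

private lemma ConT_tab4 : ∀ a b d : Fin 3, a ≠ b → b ≠ d → d ≠ a →
    ConT_c (3 * a.val + b.val) 0 = a.val ∧ ConT_c (3 * a.val + b.val) 1 = b.val ∧
    ConT_c (3 * a.val + b.val) 2 = d.val ∧ 3 * a.val + b.val ∈ [1, 2, 3, 5, 6, 7] := by decide +kernel

private lemma ConT_key {c : ZMod 12 × Fin 3 → Fin 3} (hc : (HG (A := ZMod 12) 4 3).P c) :
    ∃ n, ConT_Q n ∧ ConT_f n = c := by
  have hSO : ∀ e f, SO (HG (A := ZMod 12) 4 3).t e f → c f ≠ c e := by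
    rintro e f (h | h)
    · rw [h]
      exact (hc e).2
    · rw [h]
      intro h2
      have h3 := (hc ((HG (A := ZMod 12) 4 3).t ((HG (A := ZMod 12) 4 3).t e))).2
      rw [CB.t3] at h3
      exact h3 h2.symm
  have hne : ∀ (x y : ℕ) (i j : Fin 3) (u v : ℕ), x < 12 → y < x → (u : ZMod 12) = x + dl (A := ZMod 12) 4 3 i →
      (v : ZMod 12) = y + dl (A := ZMod 12) 4 3 j →
      3 * u + (c ((x : ZMod 12), i)).val ≠ 3 * v + (c ((y : ZMod 12), j)).val := by
    intro x y i j u v hx hy hu hv h
    have h1 := (c ((x : ZMod 12), i)).isLt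
    have h2 := (c ((y : ZMod 12), j)).isLt
    have huv : u = v := by omega
    have hcc : c ((x : ZMod 12), i) = c ((y : ZMod 12), j) := Fin.ext (by omega)
    subst huv
    by_cases hij : j = i
    · subst hij
      have h3 : (x : ZMod 12) = (y : ZMod 12) := add_right_cancel (hu.symm.trans hv)
      have h4 := (ZMod.natCast_eq_natCast_iff' x y 12).1 h3
      rw [Nat.mod_eq_of_lt hx, Nat.mod_eq_of_lt (by omega : y < 12)] at h4
      omega
    · exact hSO _ _ ((SO_HG_t 4 3 (x : ZMod 12) (y : ZMod 12) i j).2 ⟨hv.symm.trans hu, hij⟩) hcc.symm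
  have hs : ∀ x : ZMod 12, c (x, 0) ≠ c (x, 1) ∧ c (x, 1) ≠ c (x, 2) ∧ c (x, 2) ≠ c (x, 0) := by
    intro x
    exact ⟨(hc (x, 0)).1.symm, (hc (x, 1)).1.symm, (hc (x, 2)).1.symm⟩
  obtain ⟨f, hf⟩ : ∃ f : ℕ → ℕ, ∀ x, f x = 3 * (c ((x : ZMod 12), 0)).val + (c ((x : ZMod 12), 1)).val :=
    ⟨_, fun _ => rfl⟩
  have ht := fun x : ZMod 12 => ConT_tab4 _ _ _ (hs x).1 (hs x).2.1 (hs x).2.2
  have hf0 : ∀ x, ConT_c (f x) 0 = (c ((x : ZMod 12), 0)).val := fun x => by rw [hf]; exact (ht x).1
  have hf1 : ∀ x, ConT_c (f x) 1 = (c ((x : ZMod 12), 1)).val := fun x => by rw [hf]; exact (ht x).2.1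
  have hf2 : ∀ x, ConT_c (f x) 2 = (c ((x : ZMod 12), 2)).val := fun x => by rw [hf]; exact (ht x).2.2.1
  have hfm : ∀ x, f x ∈ [1, 2, 3, 5, 6, 7] := fun x => by rw [hf]; exact (ht x).2.2.2
  have hf8 : ∀ x, f x < 8 := by
    intro x
    have h1 := hfm x
    simp only [List.mem_cons, List.not_mem_nil, or_false] at h1
    omega
  have hcast : ∀ x k : ℕ, (((x + k) % 12 : ℕ) : ZMod 12) = (x : ZMod 12) + (k : ZMod 12) := by
    intro x k
    rw [ZMod.natCast_mod]
    push_cast
    rfl
  have e0 : ∀ x : ℕ, ((x : ℕ) : ZMod 12) = (x : ZMod 12) + dl (A := ZMod 12) 4 3 0 := fun x => (add_zero _).symm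
  have e1 : ∀ x : ℕ, (((x + 4) % 12 : ℕ) : ZMod 12) = (x : ZMod 12) + dl (A := ZMod 12) 4 3 1 := fun x => hcast x 4
  have e2 : ∀ x : ℕ, (((x + 3) % 12 : ℕ) : ZMod 12) = (x : ZMod 12) + dl (A := ZMod 12) 4 3 2 := fun x => hcast x 3
  have hd : ∀ x y, x < 12 → y < x → ConT_m x (f x) &&& ConT_m y (f y) = 0 := by
    intro x y hx hy
    unfold ConT_m
    rw [hf0, hf1, hf2, hf0, hf1, hf2]
    exact ConT_disj _ _ _ _ _ _ (hne x y 0 0 _ _ hx hy (e0 x) (e0 y)) (hne x y 0 1 _ _ hx hy (e0 x) (e1 y))
      (hne x y 0 2 _ _ hx hy (e0 x) (e2 y)) (hne x y 1 0 _ _ hx hy (e1 x) (e0 y))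
      (hne x y 1 1 _ _ hx hy (e1 x) (e1 y)) (hne x y 1 2 _ _ hx hy (e1 x) (e2 y))
      (hne x y 2 0 _ _ hx hy (e2 x) (e0 y)) (hne x y 2 1 _ _ hx hy (e2 x) (e1 y))
      (hne x y 2 2 _ _ hx hy (e2 x) (e2 y))
  have hlf := ConT_go_sound f hfm hd 12 0 0 le_rfl ConT_search (fun x _ => Nat.zero_and _)
  refine ⟨_, ConT_lf_sound hlf, ?_⟩
  funext p
  obtain ⟨x, i⟩ := p
  have hx : ((ZMod.val x : ℕ) : ZMod 12) = x := ZMod.natCast_zmod_val x
  have h1 := ConT_enc_d f hf8 12 0 (ZMod.val x) (ZMod.val_lt x)
  show Fin.ofNat 3 (ConT_c (ConT_d _ (ZMod.val x)) i.val) = c (x, i)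
  rw [h1]
  have h3 : ∀ i : Fin 3, i = 0 ∨ i = 1 ∨ i = 2 := by decide
  have h4 : ∀ a : Fin 3, Fin.ofNat 3 a.val = a := by decide
  rcases h3 i with rfl | rfl | rfl
  · show Fin.ofNat 3 (ConT_c (f (ZMod.val x)) 0) = c (x, 0)
    rw [hf0, hx, h4]
  · show Fin.ofNat 3 (ConT_c (f (ZMod.val x)) 1) = c (x, 1)
    rw [hf1, hx, h4]
  · show Fin.ofNat 3 (ConT_c (f (ZMod.val x)) 2) = c (x, 2)
    rw [hf2, hx, h4]

theorem con_12 : (HG (A := ZMod 12) 4 3).Con := by
  intro c c' hc hc'
  obtain ⟨n, hn, rfl⟩ := ConT_key hc
  obtain ⟨n', hn', rfl⟩ := ConT_key hc'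
  exact hn.2.trans _ _ _ (hn'.2.symm _ _)

theorem nb_12 : ¬ Bad.{u} (Lt (3, 0) (0, 4)) :=
  not_bad_of_Con (uiso_cyc 12 4 3 4 3 (by decide) (by decide) ⟨1, -1, 0, by norm_num⟩ _ (by
    intro x
    rw [mem_Lt']
    constructor
    · rintro ⟨i, j, h1, h2⟩
      exact ⟨i + j, by simp only at h1 h2; push_cast; linarith⟩
    · rintro ⟨k, hk⟩
      push_cast at hk
      exact ⟨4 * k - x.1 - x.2, x.1 + x.2 - 3 * k, by simp only; linarith, by simp only; linarith⟩)) con_12

end Pool.Agent.PP
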