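import Pool.Agent.Lib_MP_7c0803_tor.Exc

/-!
# The lattices `Lt (2, 1) (-3k, 0)`, `k ≥ 3`: the parity is not constant

`uiso_cyc` and `mem_21` give `HT (Lt (2, 1) (-n, 0)) ≅ HG (1 : ZMod n) (-2)`; `uiso_rot`, `uiso_mir`, `uiso_equiv (AddEquiv.neg _)` give
`≅ HG (-3) (-1) ≅ HG (-1) (-3) ≅ HG 1 3`.
In `HG (A := ZMod n) 1 3`, `n = 3 k`, `k ≥ 4`: colouring `c' (x, i) = A ((x.val) % 3) i` (periodic) and `c (x, i) = B x.val i` for
`x.val < 9`, `= A (x.val % 3) i` otherwise, with tables `A` (3 rows), `B` (9 rows) such that `A A A` and `B` are closed walks from the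
same state (rows = colours of the slots 0, 1, 2):
`A = (1 0 2), (2 0 1), (2 0 1)`, `B = (1 2 0), (0 2 1), (0 1 2), (2 0 1), (2 1 0), (0 2 1), (0 1 2), (2 0 1), (2 0 1)`.
`P`: at the `X`-vertex `x` the colours are `c (x, 0), c (x, 1), c (x, 2)`, at the `Y`-vertex `y` they are `c (y, 0), c (y - 1, 1), c (y - 3, 2)`
(only earlier positions, so the only wrap-around is at `y < 3`, where `c` of `n - 1, n - 2, n - 3` is in the periodic part).  The parities of `c` and `c'` differ: the contributions of the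
`X`- and `Y`-vertices with `val ≥ 9` agree, the rest is a finite computation independent of `n`.
-/

set_option autoImplicit false

open Finset Function

namespace Pool.Agent.PP

universe u

/-! ### colourings given by a stream of rows -/

/-- the colours at the `Y`-vertex `v` of the stream `h` (row `m` belongs to the position `m - 3`) -/
private def Fam_row (h : ℕ → Fin 3 → Fin 3) (v : ℕ) (i : Fin 3) : Fin 3 :=
  if i = 0 then h (v + 3) 0 else if i = 1 then h (v + 2) 1 else h v 2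

/-- the contribution of the position `v` to the parity -/
private def Fam_W (h : ℕ → Fin 3 → Fin 3) (v : ℕ) : ZMod 2 :=
  (∑ i : Fin 3, sg (h (v + 3) (i + 1) - h (v + 3) i)) + ∑ i : Fin 3, sg (Fam_row h v (i + 1) - Fam_row h v i)

/-- the colouring of a stream -/
private def Fam_c (h : ℕ → Fin 3 → Fin 3) (n : ℕ) (p : ZMod n × Fin 3) : Fin 3 := h (p.1.val + 3) p.2

private lemma Fam_sub (n : ℕ) [NeZero n] (y : ZMod n) (j : ℕ) (hj : j ≤ n) :
    (y - (j : ZMod n)).val = (y.val + (n - j)) % n := by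
  have e : y - (j : ZMod n) = ((y.val + (n - j) : ℕ) : ZMod n) := by
    push_cast [Nat.cast_sub hj]
    simp
    ring
  rw [e, ZMod.val_natCast]

private lemma Fam_key (h : ℕ → Fin 3 → Fin 3) (n : ℕ) [NeZero n] (hn : 3 ≤ n) (w1 : h (n + 2) 1 = h 2 1)
    (w2 : ∀ v < 3, h (n + v) 2 = h v 2) (y : ZMod n) (i : Fin 3) :
    Fam_c h n (y - dl (1 : ZMod n) 3 i, i) = Fam_row h y.val i := by
  have hy : y.val < n := ZMod.val_lt y
  fin_cases i
  · show h ((y - 0).val + 3) 0 = h (y.val + 3) 0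
    rw [sub_zero]
  · show h ((y - 1).val + 3) 1 = h (y.val + 2) 1
    have e := Fam_sub n y 1 (by omega)
    rw [Nat.cast_one] at e
    rw [e]
    by_cases h0 : y.val = 0
    · rw [h0, Nat.zero_add, Nat.mod_eq_of_lt (by omega)]
      rw [show n - 1 + 3 = n + 2 by omega]
      exact w1
    · rw [show y.val + (n - 1) = (y.val - 1) + n by omega, Nat.add_mod_right, Nat.mod_eq_of_lt (by omega)]
      rw [show y.val - 1 + 3 = y.val + 2 by omega]
  · show h ((y - 3).val + 3) 2 = h y.val 2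
    have e := Fam_sub n y 3 hn
    rw [show ((3 : ℕ) : ZMod n) = 3 by norm_num] at e
    rw [e]
    by_cases h0 : y.val < 3
    · rw [Nat.mod_eq_of_lt (by omega)]
      rw [show y.val + (n - 3) + 3 = n + y.val by omega]
      exact w2 _ h0
    · rw [show y.val + (n - 3) = (y.val - 3) + n by omega, Nat.add_mod_right, Nat.mod_eq_of_lt (by omega)]
      rw [show y.val - 3 + 3 = y.val by omega]

private lemma Fam_t (h : ℕ → Fin 3 → Fin 3) (n : ℕ) [NeZero n] (hn : 3 ≤ n) (w1 : h (n + 2) 1 = h 2 1)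
    (w2 : ∀ v < 3, h (n + v) 2 = h v 2) (x : ZMod n) (i : Fin 3) :
    Fam_c h n ((HG (A := ZMod n) 1 3).t (x, i)) = Fam_row h (x + dl 1 3 i).val (i + 1) ∧
      Fam_c h n (x, i) = Fam_row h (x + dl 1 3 i).val i := by
  rw [HG_t]
  refine ⟨Fam_key h n hn w1 w2 _ _, ?_⟩
  rw [← Fam_key h n hn w1 w2, add_sub_cancel_right]

private lemma Fam_P (h : ℕ → Fin 3 → Fin 3) (n : ℕ) [NeZero n] (hn : 3 ≤ n) (w1 : h (n + 2) 1 = h 2 1)
    (w2 : ∀ v < 3, h (n + v) 2 = h v 2) (h1 : ∀ v i, h (v + 3) (i + 1) ≠ h (v + 3) i)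
    (h2 : ∀ v i, Fam_row h v (i + 1) ≠ Fam_row h v i) : (HG (A := ZMod n) 1 3).P (Fam_c h n) := by
  rintro ⟨x, i⟩
  refine ⟨?_, ?_⟩
  · rw [HG_s]
    exact h1 _ _
  · obtain ⟨e1, e2⟩ := Fam_t h n hn w1 w2 x i
    rw [e1, e2]
    exact h2 _ _

private lemma Fam_sum (n : ℕ) [NeZero n] (f : ℕ → ZMod 2) : ∑ x : ZMod n, f x.val = ∑ v ∈ range n, f v := by
  obtain ⟨m, hm⟩ : ∃ m, n = m + 1 := ⟨n - 1, by have := NeZero.pos n; omega⟩
  subst hm
  exact Fin.sum_univ_eq_sum_range f (m + 1)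

private lemma Fam_par (h : ℕ → Fin 3 → Fin 3) (n : ℕ) [NeZero n] (hn : 3 ≤ n) (w1 : h (n + 2) 1 = h 2 1)
    (w2 : ∀ v < 3, h (n + v) 2 = h v 2) :
    (HG (A := ZMod n) 1 3).par (Fam_c h n) = ∑ v ∈ range n, Fam_W h v := by
  unfold CB.par
  rw [← Fam_sum n (Fam_W h)]
  unfold Fam_W
  rw [Finset.sum_add_distrib]
  congr 1
  · rw [Fintype.sum_prod_type]
    rfl
  · have e0 : ∑ x : ZMod n, ∑ i : Fin 3, sg (Fam_row h x.val (i + 1) - Fam_row h x.val i) =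
        ∑ i : Fin 3, ∑ x : ZMod n, sg (Fam_row h x.val (i + 1) - Fam_row h x.val i) := Finset.sum_comm
    rw [e0, Fintype.sum_prod_type, Finset.sum_comm]
    refine Finset.sum_congr rfl fun i _ => ?_
    rw [← Equiv.sum_comp (Equiv.addRight (dl (1 : ZMod n) 3 i))
      (fun y => sg (Fam_row h y.val (i + 1) - Fam_row h y.val i))]
    refine Finset.sum_congr rfl fun x _ => ?_
    obtain ⟨e1, e2⟩ := Fam_t h n hn w1 w2 x i
    rw [e1, e2]
    rfl

/-! ### the two streams -/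

private def Fam_A (r : ℕ) (i : Fin 3) : Fin 3 := lc [1, 0, 2, 2, 0, 1, 2, 0, 1] (3 * r + i.val)

private def Fam_T (m : ℕ) (i : Fin 3) : Fin 3 :=
  lc [1, 0, 2, 2, 0, 1, 2, 0, 1,
    1, 2, 0, 0, 2, 1, 0, 1, 2, 2, 0, 1, 2, 1, 0, 0, 2, 1, 0, 1, 2, 2, 0, 1, 2, 0, 1] (3 * m + i.val)

/-- the periodic stream -/
private def Fam_p (m : ℕ) (i : Fin 3) : Fin 3 := Fam_A (m % 3) i

/-- the other stream -/
private def Fam_q (m : ℕ) (i : Fin 3) : Fin 3 := if m < 12 then Fam_T m i else Fam_A (m % 3) i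

private lemma Fam_q_ge {m : ℕ} (hm : 12 ≤ m) : Fam_q m = Fam_p m := by
  funext i
  unfold Fam_q Fam_p
  rw [if_neg (by omega)]

private lemma Fam_q1 {m : ℕ} (hm : 11 ≤ m) : Fam_q m 1 = Fam_p m 1 := by
  rcases Nat.lt_or_ge m 12 with h | h
  · obtain rfl : m = 11 := by omega
    decide
  · rw [Fam_q_ge h]

private lemma Fam_q2 {m : ℕ} (hm : 9 ≤ m) : Fam_q m 2 = Fam_p m 2 := by
  rcases Nat.lt_or_ge m 12 with h | h
  · interval_cases m <;> decide
  · rw [Fam_q_ge h]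

private lemma Fam_row_ge {v : ℕ} (hv : 9 ≤ v) : Fam_row Fam_q v = Fam_row Fam_p v := by
  funext i
  unfold Fam_row
  rw [Fam_q_ge (by omega : 12 ≤ v + 3), Fam_q1 (by omega : 11 ≤ v + 2), Fam_q2 hv]

private lemma Fam_p_mod (m : ℕ) : Fam_p m = Fam_p (m % 3) := by
  funext i
  unfold Fam_p
  rw [Nat.mod_mod]

private lemma Fam_row_mod (v : ℕ) : Fam_row Fam_p v = Fam_row Fam_p (v % 3) := by
  funext i
  unfold Fam_row Fam_p
  rw [show (v + 3) % 3 = (v % 3 + 3) % 3 by omega, show (v + 2) % 3 = (v % 3 + 2) % 3 by omega,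
    show v % 3 = (v % 3) % 3 by omega]
  simp only [Nat.mod_mod]

private lemma Fam_p1 (v : ℕ) (i : Fin 3) : Fam_p (v + 3) (i + 1) ≠ Fam_p (v + 3) i := by
  rw [Fam_p_mod]
  have h : (v + 3) % 3 < 3 := Nat.mod_lt _ (by norm_num)
  revert h
  generalize (v + 3) % 3 = r
  intro h
  revert i
  interval_cases r <;> decide

private lemma Fam_p2 (v : ℕ) (i : Fin 3) : Fam_row Fam_p v (i + 1) ≠ Fam_row Fam_p v i := by
  rw [Fam_row_mod]
  have h : v % 3 < 3 := Nat.mod_lt _ (by norm_num)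
  revert h
  generalize v % 3 = r
  intro h
  revert i
  interval_cases r <;> decide

private lemma Fam_q1' (v : ℕ) (i : Fin 3) : Fam_q (v + 3) (i + 1) ≠ Fam_q (v + 3) i := by
  rcases Nat.lt_or_ge v 9 with h | h
  · revert i
    interval_cases v <;> decide
  · rw [Fam_q_ge (by omega)]
    exact Fam_p1 v i

private lemma Fam_q2' (v : ℕ) (i : Fin 3) : Fam_row Fam_q v (i + 1) ≠ Fam_row Fam_q v i := by
  rcases Nat.lt_or_ge v 9 with h | h
  · revert i
    interval_cases v <;> decide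
  · rw [Fam_row_ge h]
    exact Fam_p2 v i

private lemma Fam_W_ge {v : ℕ} (hv : 9 ≤ v) : Fam_W Fam_q v = Fam_W Fam_p v := by
  unfold Fam_W
  rw [Fam_row_ge hv, Fam_q_ge (by omega)]

theorem notPC_F (k : ℕ) (hk : 3 ≤ k) [NeZero (3 * k)] : ¬ (HG (A := ZMod (3 * k)) 1 3).PC := by
  have hp1 : Fam_p (3 * k + 2) 1 = Fam_p 2 1 := by
    unfold Fam_p
    rw [show (3 * k + 2) % 3 = 2 % 3 by omega]
  have hp2 : ∀ v < 3, Fam_p (3 * k + v) 2 = Fam_p v 2 := by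
    intro v _
    unfold Fam_p
    rw [show (3 * k + v) % 3 = v % 3 by omega]
  have h2 : Fam_q 2 1 = Fam_p 2 1 := by decide
  have h3 : ∀ v < 3, Fam_q v 2 = Fam_p v 2 := by decide
  have hq1 : Fam_q (3 * k + 2) 1 = Fam_q 2 1 := by
    rw [Fam_q1 (by omega), hp1, h2]
  have hq2 : ∀ v < 3, Fam_q (3 * k + v) 2 = Fam_q v 2 := by
    intro v hv
    rw [Fam_q2 (by omega), hp2 v hv, h3 v hv]
  refine not_PC_of (Fam_c Fam_p (3 * k)) (Fam_c Fam_q (3 * k)) (Fam_P _ _ (by omega) hp1 hp2 Fam_p1 Fam_p2)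
    (Fam_P _ _ (by omega) hq1 hq2 Fam_q1' Fam_q2') ?_
  rw [Fam_par _ _ (by omega) hp1 hp2, Fam_par _ _ (by omega) hq1 hq2]
  obtain ⟨m, hm⟩ : ∃ m, 3 * k = 9 + m := ⟨3 * k - 9, by omega⟩
  rw [hm, Finset.sum_range_add, Finset.sum_range_add]
  have e : ∑ x ∈ range m, Fam_W Fam_q (9 + x) = ∑ x ∈ range m, Fam_W Fam_p (9 + x) :=
    Finset.sum_congr rfl fun x _ => Fam_W_ge (by omega)
  rw [e]
  intro h
  have h4 : ∑ v ∈ range 9, Fam_W Fam_p v = ∑ v ∈ range 9, Fam_W Fam_q v := add_right_cancel h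
  revert h4
  decide

theorem nb_F (n : ℤ) (h3 : 3 ∣ n) (hn : 9 ≤ n) : ¬ Bad.{u} (Lt (2, 1) (-n, 0)) := by
  obtain ⟨k, rfl⟩ : ∃ k : ℕ, n = ((3 * k : ℕ) : ℤ) := by
    obtain ⟨j, rfl⟩ := h3
    exact ⟨j.toNat, by push_cast; omega⟩
  have hk : 3 ≤ k := by
    push_cast at hn
    omega
  have : NeZero (3 * k) := ⟨by omega⟩
  refine not_bad_of_PC ?_ (notPC_F k hk)
  obtain ⟨i1⟩ := uiso_cyc (3 * k) 1 (-2) (1 : ZMod (3 * k)) (-2) (by push_cast; rfl) (by push_cast; rfl)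
    ⟨1, 0, 0, by norm_num⟩ _ (mem_21 ((3 * k : ℕ) : ℤ))
  obtain ⟨i2⟩ := uiso_rot (1 : ZMod (3 * k)) (-2)
  obtain ⟨i3⟩ := uiso_mir ((-2 : ZMod (3 * k)) - 1) (-1)
  obtain ⟨i4⟩ := uiso_equiv (AddEquiv.neg (ZMod (3 * k))) (-1) (-2 - 1)
  have e1 : (AddEquiv.neg (ZMod (3 * k))) (-1) = 1 := by
    show - (-1 : ZMod (3 * k)) = 1
    ring
  have e2 : (AddEquiv.neg (ZMod (3 * k))) (-2 - 1) = 3 := by
    show - (-2 - 1 : ZMod (3 * k)) = 3
    ring
  rw [e1, e2] at i4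
  exact ⟨((i1.trans i2).trans i3).trans i4⟩

end Pool.Agent.PP
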