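import Pool.Agent.Lib_MP_7c0803_tor.Main
import Pool.Agent.Lib_MP_7c0803_tor.Fam
import Pool.Agent.Lib_MP_7c0803_tor.ConT

/-!
# The lattice theorem
-/

set_option autoImplicit false

namespace Pool.Agent.PP

universe u

variable {R : AddSubgroup (ℤ × ℤ) → Prop}

lemma basis22 (v : ℤ × ℤ) : Lt (2, 2) v = Lt (2, 2) (v.2 % 2 - (v.2 - v.1), v.2 % 2) := by
  rw [← Lt_eq (2, 2) v 1 0 (-(v.2 / 2)) 1 (by norm_num)]
  congr 1
  · refine Prod.ext ?_ ?_ <;> simp only <;> omega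
  · refine Prod.ext ?_ ?_ <;> simp only <;> omega

lemma basis33 (v : ℤ × ℤ) : Lt (3, 3) v = Lt (3, 3) (v.2 % 3 - (v.2 - v.1), v.2 % 3) := by
  rw [← Lt_eq (3, 3) v 1 0 (-(v.2 / 3)) 1 (by norm_num)]
  congr 1
  · refine Prod.ext ?_ ?_ <;> simp only <;> omega
  · refine Prod.ext ?_ ?_ <;> simp only <;> omega

lemma basis30 (v : ℤ × ℤ) : Lt (3, 0) v = Lt (3, 0) (v.1 % 3, v.2) := by
  rw [← Lt_eq (3, 0) v 1 0 (-(v.1 / 3)) 1 (by norm_num)]
  congr 1
  · refine Prod.ext ?_ ?_ <;> simp only <;> omega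
  · refine Prod.ext ?_ ?_ <;> simp only <;> omega

lemma basis40 (v : ℤ × ℤ) : Lt (4, 0) v = Lt (4, 0) (v.1 % 4, v.2) := by
  rw [← Lt_eq (4, 0) v 1 0 (-(v.1 / 4)) 1 (by norm_num)]
  congr 1
  · refine Prod.ext ?_ ?_ <;> simp only <;> omega
  · refine Prod.ext ?_ ?_ <;> simp only <;> omega

lemma basis50 (v : ℤ × ℤ) : Lt (5, 0) v = Lt (5, 0) (v.1 % 5, v.2) := by
  rw [← Lt_eq (5, 0) v 1 0 (-(v.1 / 5)) 1 (by norm_num)]
  congr 1
  · refine Prod.ext ?_ ?_ <;> simp only <;> omega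
  · refine Prod.ext ?_ ?_ <;> simp only <;> omega

/-- bases with first vector `(3, 2)` -/
lemma basis32 (v w : ℤ × ℤ) (h : dt (3, 2) v = dt (3, 2) w) : Lt (3, 2) v = Lt (3, 2) w := by
  unfold dt at h
  simp only at h
  have h1 : 3 * (v.2 - w.2) = 2 * (v.1 - w.1) := by linarith
  rw [← Lt_eq (3, 2) v 1 0 (w.1 - v.1 - (w.2 - v.2)) 1 (by norm_num)]
  congr 1
  · refine Prod.ext ?_ ?_ <;> simp only <;> omega
  · refine Prod.ext ?_ ?_ <;> simp only <;> omega

/-- a vector in the lattice, by its coordinates -/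
lemma mem_of (u v : ℤ × ℤ) (i j a b : ℤ) (h1 : i * u.1 + j * v.1 = a) (h2 : i * u.2 + j * v.2 = b) : (a, b) ∈ Lt u v :=
  mem_Lt'.2 ⟨i, j, h1, h2⟩

theorem good_large (hR : Cl R) : ∀ (N : ℕ) (u v : ℤ × ℤ), |dt u v| = N → 17 ≤ N → N ≠ 21 →
    (∀ x ∈ Lt u v, x ≠ 0 → 4 ≤ nrm x) → R (Lt u v) → R (Lt (2, 1) (-7, 0)) := by
  intro N
  induction N using Nat.strong_induction_on with
  | _ N ih =>
  intro u v hdt hN hN21 hmin hRL
  have hd0 : dt u v ≠ 0 := by
    intro h
    rw [h, abs_zero] at hdt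
    omega
  obtain ⟨k, m, u', v', hL, hq, hqp, hp, hdt', hmin', x0, hx0, hx00, hx0n⟩ := normal_form u v hd0
  have hRL' : R (Lt u' v') := by
    rw [← hL]
    exact hR.sy k m u v hRL
  rw [hdt] at hdt'
  have hnu : nrm u' = u'.1 + u'.2 := nrm_pos_coord u' (by omega) hq
  have hN4 : 4 ≤ u'.1 + u'.2 := by
    rw [← hnu, ← hx0n]
    exact hmin x0 hx0 hx00
  rw [hnu] at hmin'
  have hpos : 0 < dt u' v' := by omega
  have hbound := index_bound u' v' hq hqp hp hpos (by rw [hnu]; exact hmin')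
  rw [hdt'] at hbound
  clear hL hx0n hx0 hx00 x0 hRL hmin hd0 hdt u v
  obtain ⟨p, q⟩ := u'
  simp only at hq hqp hp hN4 hbound hmin' hnu
  by_cases h4 : p + q = 4
  · have hcases : (p = 4 ∧ q = 0) ∨ (p = 3 ∧ q = 1) ∨ (p = 2 ∧ q = 2) := by omega
    rcases hcases with ⟨rfl, rfl⟩ | ⟨rfl, rfl⟩ | ⟨rfl, rfl⟩
    · have e : dt (4, 0) v' = 4 * v'.2 := by unfold dt; simp only; ring
      exact good40 hR v'.1 v'.2 (Or.inl (by omega)) hRL'
    · rw [basis31] at hRL'
      exact good31 hR _ (Or.inl (by omega)) hRL'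
    · have e : dt (2, 2) v' = 2 * (v'.2 - v'.1) := by unfold dt; simp only; ring
      rw [basis22] at hRL'
      exact good22 hR _ _ (Or.inl (by omega)) hRL'
  have h5 : 5 ≤ p + q := by omega
  -- the special indices
  by_cases h19 : N = 19
  · subst h19
    have h6 : p + q = 5 := by
      by_contra h
      have : 6 ≤ p + q := by omega
      push_cast at hbound
      nlinarith
    have hcases : (p = 5 ∧ q = 0) ∨ (p = 4 ∧ q = 1) ∨ (p = 3 ∧ q = 2) := by omega
    rcases hcases with ⟨rfl, rfl⟩ | ⟨rfl, rfl⟩ | ⟨rfl, rfl⟩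
    · exfalso
      have e : dt (5, 0) v' = 5 * v'.2 := by unfold dt; simp only; ring
      omega
    · rw [basis41, hdt'] at hRL'
      exact chk_sound hR _ _ c41_19 hRL'
    · rw [basis32 v' (-8, 1) (by rw [hdt']; rfl)] at hRL'
      exact chk_sound hR _ _ c32_19 hRL'
  by_cases h20 : N = 20
  · subst h20
    have h6 : p + q = 5 := by
      by_contra h
      have : 6 ≤ p + q := by omega
      push_cast at hbound
      nlinarith
    have hcases : (p = 5 ∧ q = 0) ∨ (p = 4 ∧ q = 1) ∨ (p = 3 ∧ q = 2) := by omega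
    rcases hcases with ⟨rfl, rfl⟩ | ⟨rfl, rfl⟩ | ⟨rfl, rfl⟩
    · exfalso
      have e : dt (5, 0) v' = 5 * v'.2 := by unfold dt; simp only; ring
      have e2 : v'.2 = 4 := by omega
      rw [basis50, e2] at hmin'
      have hr : v'.1 % 5 = 0 ∨ v'.1 % 5 = 1 ∨ v'.1 % 5 = 2 ∨ v'.1 % 5 = 3 ∨ v'.1 % 5 = 4 := by omega
      rcases hr with hr | hr | hr | hr | hr
      · rw [hr] at hmin'
        exact absurd (hmin' (0, 4) (mem_of _ _ 0 1 _ _ (by norm_num) (by norm_num)) (by decide)) (by decide)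
      · rw [hr] at hmin'
        exact absurd (hmin' (-4, 4) (mem_of _ _ (-1) 1 _ _ (by norm_num) (by norm_num)) (by decide)) (by decide)
      · rw [hr] at hmin'
        exact absurd (hmin' (-3, 4) (mem_of _ _ (-1) 1 _ _ (by norm_num) (by norm_num)) (by decide)) (by decide)
      · rw [hr] at hmin'
        exact absurd (hmin' (-2, 4) (mem_of _ _ (-1) 1 _ _ (by norm_num) (by norm_num)) (by decide)) (by decide)
      · rw [hr] at hmin'
        exact absurd (hmin' (-1, 4) (mem_of _ _ (-1) 1 _ _ (by norm_num) (by norm_num)) (by decide)) (by decide)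
    · rw [basis41, hdt'] at hRL'
      exact chk_sound hR _ _ c41_20 hRL'
    · rw [basis32 v' (-10, 0) (by rw [hdt']; rfl)] at hRL'
      exact chk_sound hR _ _ c32_20 hRL'
  by_cases h26 : N = 26 ∧ p + q = 5
  · obtain ⟨rfl, h6⟩ := h26
    have hcases : (p = 5 ∧ q = 0) ∨ (p = 4 ∧ q = 1) ∨ (p = 3 ∧ q = 2) := by omega
    rcases hcases with ⟨rfl, rfl⟩ | ⟨rfl, rfl⟩ | ⟨rfl, rfl⟩
    · exfalso
      have e : dt (5, 0) v' = 5 * v'.2 := by unfold dt; simp only; ring
      omega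
    · rw [basis41, hdt'] at hRL'
      exact chk_sound hR _ _ c41_26 hRL'
    · have h7 := hR.shr (3, 2) v' (by norm_num) (by norm_num) (by rw [hdt']; norm_num) (by rw [hdt']; norm_num)
        (by rw [hdt']; norm_num) hRL'
      rw [basis32 (v' + (1, -1)) (-9, 1) (by
        have e : dt (3, 2) (v' + (1, -1)) = dt (3, 2) v' - 5 := by
          unfold dt
          simp only [Prod.fst_add, Prod.snd_add]
          ring
        rw [e, hdt']
        rfl)] at h7
      exact chk_sound hR _ _ c32_21 h7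
  by_cases h27 : N = 27 ∧ p + q = 6
  · obtain ⟨rfl, h6⟩ := h27
    have hcases : (p = 6 ∧ q = 0) ∨ (p = 5 ∧ q = 1) ∨ (p = 4 ∧ q = 2) ∨ (p = 3 ∧ q = 3) := by omega
    rcases hcases with ⟨rfl, rfl⟩ | ⟨rfl, rfl⟩ | ⟨rfl, rfl⟩ | ⟨rfl, rfl⟩
    · exfalso
      have e : dt (6, 0) v' = 6 * v'.2 := by unfold dt; simp only; ring
      omega
    · rw [basis51, hdt'] at hRL'
      exact chk_sound hR _ _ c51_27 hRL'
    · exfalso
      have e : dt (4, 2) v' = 2 * (2 * v'.2 - v'.1) := by unfold dt; simp only; ring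
      omega
    · have e : dt (3, 3) v' = 3 * (v'.2 - v'.1) := by unfold dt; simp only; ring
      have e2 : v'.2 - v'.1 = 9 := by omega
      rw [basis33, e2] at hRL'
      have hr : v'.2 % 3 = 0 ∨ v'.2 % 3 = 1 ∨ v'.2 % 3 = 2 := by omega
      rcases hr with hr | hr | hr
      · rw [hr] at hRL'
        exact chk_sound hR _ _ c33_27_0 hRL'
      · rw [hr] at hRL'
        exact chk_sound hR _ _ c33_27_1 hRL'
      · rw [hr] at hRL'
        exact chk_sound hR _ _ c33_27_2 hRL'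
  -- the general step
  have hn' : 17 ≤ (N : ℤ) - (p + q) ∧ (N : ℤ) - (p + q) ≠ 21 ∧ 3 * (p + q) < 2 * ((N : ℤ) - (p + q)) := by
    by_cases h5' : p + q = 5
    · rw [h5'] at hbound ⊢
      omega
    · by_cases h6' : p + q = 6
      · rw [h6'] at hbound ⊢
        omega
      · have h7 : 7 ≤ p + q := by omega
        have h8 : 7 * (3 * 7 - 4) ≤ (p + q) * (3 * (p + q) - 4) := by nlinarith
        have h9 : (p + q) * (3 * (p + q) - 4) ≤ 4 * ((N : ℤ) - (p + q)) := by nlinarith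
        have h10 : 17 * (p + q) ≤ 4 * ((N : ℤ) - (p + q)) := by nlinarith
        refine ⟨by omega, by omega, by omega⟩
  obtain ⟨h7, h8, h9⟩ := hn'
  have hsm := shrink_min (p, q) v' hq (by simp only; omega) h5 hmin' hpos (by rw [hdt']; exact h9)
  have hR' := hR.shr (p, q) v' (by simp only; omega) hq (by rw [hdt']; simp only; omega)
    (by rw [hdt']; simp only; omega) (by rw [hdt']; simp only; omega) hRL'
  have e : dt (p, q) (v' + (1, -1)) = (N : ℤ) - (p + q) := by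
    have e1 : dt (p, q) (v' + (1, -1)) = dt (p, q) v' - (p + q) := by
      unfold dt
      simp only [Prod.fst_add, Prod.snd_add]
      ring
    rw [e1, hdt']
  refine ih ((N : ℤ) - (p + q)).toNat (by omega) (p, q) (v' + (1, -1)) ?_ (by omega) (by omega) hsm hR'
  rw [e, Int.toNat_of_nonneg (by omega), abs_of_nonneg (by omega)]

/-- the image of a lattice under `sy k m` -/
def mpsy (k : ℕ) (m : Bool) (L : AddSubgroup (ℤ × ℤ)) : AddSubgroup (ℤ × ℤ) :=
  let L1 := if m then mp tau L else L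
  if k = 0 then L1 else if k = 1 then mp rho L1 else mp rho (mp rho L1)

lemma mem_mpsy (k : ℕ) (m : Bool) (L : AddSubgroup (ℤ × ℤ)) (z : ℤ × ℤ) : z ∈ mpsy k m L ↔ ∃ y ∈ L, sy k m y = z := by
  have hm : ∀ (e : ℤ × ℤ ≃+ ℤ × ℤ) (M : AddSubgroup (ℤ × ℤ)) (z : ℤ × ℤ), z ∈ mp e M ↔ ∃ y ∈ M, e y = z :=
    fun _ _ _ => Iff.rfl
  have h1 : ∀ z, z ∈ (if m then mp tau L else L) ↔ ∃ y ∈ L, (if m then (y.2, y.1) else y) = z := by
    intro z
    cases m
    · simp
    · simp only [if_true]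
      exact hm tau L z
  unfold mpsy sy
  simp only
  by_cases hk : k = 0
  · simp only [if_pos hk]
    exact h1 z
  · by_cases hk1 : k = 1
    · simp only [if_neg hk, if_pos hk1]
      rw [hm]
      constructor
      · rintro ⟨y, hy, rfl⟩
        obtain ⟨w, hw, rfl⟩ := (h1 y).1 hy
        exact ⟨w, hw, rfl⟩
      · rintro ⟨y, hy, rfl⟩
        exact ⟨_, (h1 _).2 ⟨y, hy, rfl⟩, rfl⟩
    · simp only [if_neg hk, if_neg hk1]
      have e : ∀ w : ℤ × ℤ, rho (rho w) = (w.2, -w.1 - w.2) := by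
        intro w
        refine Prod.ext ?_ rfl
        show -(-w.1 - w.2) - w.1 = w.2
        ring
      rw [hm]
      constructor
      · rintro ⟨y, hy, rfl⟩
        obtain ⟨y2, hy2, hy3⟩ := (hm _ _ _).1 hy
        obtain ⟨w, hw, hw2⟩ := (h1 y2).1 hy2
        exact ⟨w, hw, by rw [← hy3, ← hw2, e]⟩
      · rintro ⟨y, hy, rfl⟩
        exact ⟨_, (hm _ _ _).2 ⟨_, (h1 _).2 ⟨y, hy, rfl⟩, rfl⟩, e _⟩

lemma mpsy_closed (P : AddSubgroup (ℤ × ℤ) → Prop) (h1 : ∀ L, P L → P (mp rho L)) (h2 : ∀ L, P L → P (mp tau L))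
    (k : ℕ) (m : Bool) (L : AddSubgroup (ℤ × ℤ)) (h : P L) : P (mpsy k m L) := by
  have h3 : P (if m then mp tau L else L) := by
    cases m
    · exact h
    · exact h2 L h
  unfold mpsy
  simp only
  by_cases hk : k = 0
  · rw [if_pos hk]
    exact h3
  · by_cases hk1 : k = 1
    · rw [if_neg hk, if_pos hk1]
      exact h1 _ h3
    · rw [if_neg hk, if_neg hk1]
      exact h1 _ (h1 _ h3)

/-- membership of the axes is preserved -/
lemma axis_rho (n : ℤ) (L : AddSubgroup (ℤ × ℤ)) (h : (n, (0 : ℤ)) ∈ L ∧ ((0 : ℤ), n) ∈ L) :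
    (n, (0 : ℤ)) ∈ mp rho L ∧ ((0 : ℤ), n) ∈ mp rho L := by
  refine ⟨⟨(0, -n), ?_, ?_⟩, ⟨(n, -n), ?_, ?_⟩⟩
  · have := neg_mem h.2
    simpa using this
  · refine Prod.ext ?_ rfl
    show -(0 : ℤ) - -n = n
    ring
  · have := add_mem h.1 (neg_mem h.2)
    simpa using this
  · refine Prod.ext ?_ rfl
    show -n - -n = 0
    ring

lemma axis_tau (n : ℤ) (L : AddSubgroup (ℤ × ℤ)) (h : (n, (0 : ℤ)) ∈ L ∧ ((0 : ℤ), n) ∈ L) :
    (n, (0 : ℤ)) ∈ mp tau L ∧ ((0 : ℤ), n) ∈ mp tau L :=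
  ⟨⟨(0, n), h.2, rfl⟩, ⟨(n, 0), h.1, rfl⟩⟩

theorem normal_form0 (L : AddSubgroup (ℤ × ℤ)) (n : ℤ) (hn : 0 < n) (h1 : (n, (0 : ℤ)) ∈ L) (h2 : ((0 : ℤ), n) ∈ L) :
    ∃ u' v' : ℤ × ℤ, (∀ P : AddSubgroup (ℤ × ℤ) → Prop, (∀ L, P L → P (mp rho L)) → (∀ L, P L → P (mp tau L)) → P L →
      P (Lt u' v')) ∧ 0 ≤ u'.2 ∧ u'.2 ≤ u'.1 ∧ 0 < u'.1 ∧ 0 < dt u' v' ∧
      (∀ x ∈ Lt u' v', x ≠ 0 → nrm u' ≤ nrm x) ∧ ∃ x ∈ L, x ≠ 0 ∧ nrm x = nrm u' := by
  obtain ⟨x, hx, h0, hmin⟩ := exists_min L ⟨_, h1, fun h => by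
    have := congrArg Prod.fst h
    simp only [Prod.fst_zero] at this
    omega⟩
  obtain ⟨k, m, e, hk, he, hs1, hs2, hs3⟩ := exists_sector x h0
  let u' : ℤ × ℤ := (e * (sy k m x).1, e * (sy k m x).2)
  have hu' : u' = sy k m x ∨ u' = -sy k m x := by
    rcases he with he | he
    · left
      exact Prod.ext (by show e * _ = _; rw [he, one_mul]) (by show e * _ = _; rw [he, one_mul])
    · right
      exact Prod.ext (by show e * _ = _; rw [he, neg_one_mul]; rfl) (by show e * _ = _; rw [he, neg_one_mul]; rfl)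
  have hu'm : u' ∈ mpsy k m L := by
    rcases hu' with h | h
    · rw [h]
      exact (mem_mpsy k m L _).2 ⟨x, hx, rfl⟩
    · rw [h]
      exact neg_mem ((mem_mpsy k m L _).2 ⟨x, hx, rfl⟩)
  have hun : nrm u' = nrm x := by
    rcases hu' with h | h
    · rw [h, nrm_sy]
    · rw [h, nrm_neg, nrm_sy]
  have hzero : sy k m 0 = 0 := by
    unfold sy
    cases m
    · simp only [Bool.false_eq_true, if_false]
      split_ifs <;> rfl
    · simp only [if_true]
      split_ifs <;> rfl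
  have hmin' : ∀ z ∈ mpsy k m L, z ≠ 0 → nrm u' ≤ nrm z := by
    intro z hz hz0
    obtain ⟨y, hy, rfl⟩ := (mem_mpsy k m L _).1 hz
    rw [hun, nrm_sy]
    refine hmin y hy fun h => hz0 ?_
    rw [h, hzero]
  have hax := mpsy_closed (fun L => (n, (0 : ℤ)) ∈ L ∧ ((0 : ℤ), n) ∈ L) (axis_rho n) (axis_tau n) k m L ⟨h1, h2⟩
  obtain ⟨v', hdv, hL⟩ := exists_basis (mpsy k m L) n hn hax.1 hax.2 u' hu'm hs1 hs2 hs3 hmin'
  refine ⟨u', v', ?_, hs1, hs2, hs3, hdv, ?_, ⟨x, hx, h0, hun.symm⟩⟩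
  · intro P hP1 hP2 hPL
    rw [← hL]
    exact mpsy_closed P hP1 hP2 k m L hPL
  · rw [← hL]
    exact hmin'

/-- `(x, y) ↦ (-x - y, y)` on bad lattices -/
lemma Bad.refl' {u v : ℤ × ℤ} (h : Bad.{u} (Lt u v)) : Bad.{u} (Lt (-u.1 - u.2, u.2) (-v.1 - v.2, v.2)) := by
  have h1 := h.tau
  rw [mp_Lt] at h1
  have h2 := h1.rho
  rw [mp_Lt] at h2
  have e : ∀ w : ℤ × ℤ, PP.rho (PP.tau w) = (-w.1 - w.2, w.2) := by
    intro w
    refine Prod.ext ?_ rfl
    show -w.2 - w.1 = -w.1 - w.2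
    ring
  rw [e, e] at h2
  exact h2

/-- **The lattice theorem.** -/
theorem main_torus (hR : Cl R) (L : AddSubgroup (ℤ × ℤ)) (n : ℤ) (hn : 0 < n) (h1 : (n, (0 : ℤ)) ∈ L)
    (h2 : ((0 : ℤ), n) ∈ L) (h3 : ∀ x ∈ L, x ≠ 0 → 3 ≤ nrm x) (hRL : R L) (hB : Bad.{u} L) :
    R (Lt (2, 1) (-7, 0)) := by
  obtain ⟨u', v', hP, hq, hqp, hp, hpos, hmin', x0, hx0, hx00, hx0n⟩ := normal_form0 L n hn h1 h2
  have hRL' : R (Lt u' v') := hP R hR.rho hR.tau hRL
  have hB' : Bad.{u} (Lt u' v') := hP Bad.{u} (fun _ h => h.rho) (fun _ h => h.tau) hB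
  have hnu : nrm u' = u'.1 + u'.2 := nrm_pos_coord u' (by omega) hq
  have hN3 : 3 ≤ u'.1 + u'.2 := by
    rw [← hnu, ← hx0n]
    exact h3 x0 hx0 hx00
  rw [hnu] at hmin'
  have hbound := index_bound u' v' hq hqp hp hpos (by rw [hnu]; exact hmin')
  clear hx0n hx0 hx00 x0 hRL hB hP h3 h1 h2
  obtain ⟨p, q⟩ := u'
  simp only at hq hqp hp hN3 hbound hmin' hnu
  by_cases hN : p + q = 3
  · have hcases : (p = 3 ∧ q = 0) ∨ (p = 2 ∧ q = 1) := by omega
    rcases hcases with ⟨rfl, rfl⟩ | ⟨rfl, rfl⟩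
    · have e : dt (3, 0) v' = 3 * v'.2 := by unfold dt; simp only; ring
      have hm : 3 ≤ v'.2 := by omega
      rw [basis30] at hRL' hB'
      have hr : v'.1 % 3 = 0 ∨ v'.1 % 3 = 1 ∨ v'.1 % 3 = 2 := by omega
      by_cases hm3 : v'.2 = 3
      · exfalso
        rw [hm3] at hB'
        rcases hr with hr | hr | hr
        · rw [hr] at hB'
          exact nb_9p hB'
        · rw [hr] at hB'
          exact nb_9 hB'
        · rw [hr] at hB'
          have h4 := hB'.refl'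
          rw [← Lt_eq _ _ (-1) 0 (-2) 1 (by norm_num)] at h4
          exact nb_9 h4
      by_cases hm4 : v'.2 = 4
      · rcases hr with hr | hr | hr
        · rw [hr, hm4] at hB'
          exact absurd hB' nb_12
        · exact good30 hR _ _ (Or.inr (Or.inr ⟨hm4, by omega⟩)) hRL'
        · rw [hr, hm4] at hB'
          have h4 := hB'.refl'
          rw [← Lt_eq _ _ (-1) 0 (-2) 1 (by norm_num)] at h4
          exact absurd h4 nb_12
      by_cases hm5 : v'.2 = 5
      · by_cases hr2 : v'.1 % 3 = 2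
        · rw [hr2, hm5] at hB'
          exact absurd hB' nb_15
        · exact good30 hR _ _ (Or.inr (Or.inl ⟨hm5, by omega⟩)) hRL'
      · exact good30 hR _ _ (Or.inl (by omega)) hRL'
    · rw [basis21] at hRL' hB'
      by_cases hd3 : (3 : ℤ) ∣ dt (2, 1) v'
      · exact absurd hB' (nb_F _ hd3 (by omega))
      by_cases h8 : dt (2, 1) v' = 8
      · rw [h8] at hB'
        exact absurd hB' nb_8
      by_cases h11 : dt (2, 1) v' = 11
      · rw [h11] at hB'
        exact absurd hB' nb_11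
      exact good21 hR _ (by omega) hd3 h8 h11 hRL'
  by_cases hN4 : p + q = 4
  · have hcases : (p = 4 ∧ q = 0) ∨ (p = 3 ∧ q = 1) ∨ (p = 2 ∧ q = 2) := by omega
    rcases hcases with ⟨rfl, rfl⟩ | ⟨rfl, rfl⟩ | ⟨rfl, rfl⟩
    · have e : dt (4, 0) v' = 4 * v'.2 := by unfold dt; simp only; ring
      have hm : 3 ≤ v'.2 := by omega
      rw [basis40] at hRL' hB' hmin'
      have hr : v'.1 % 4 = 0 ∨ v'.1 % 4 = 1 ∨ v'.1 % 4 = 2 ∨ v'.1 % 4 = 3 := by omega
      by_cases hm3 : v'.2 = 3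
      · exfalso
        rw [hm3] at hmin'
        rcases hr with hr | hr | hr | hr
        · rw [hr] at hmin'
          exact absurd (hmin' (0, 3) (mem_of _ _ 0 1 _ _ (by norm_num) (by norm_num)) (by decide)) (by decide)
        · rw [hr] at hmin'
          exact absurd (hmin' (-3, 3) (mem_of _ _ (-1) 1 _ _ (by norm_num) (by norm_num)) (by decide)) (by decide)
        · rw [hr] at hmin'
          exact absurd (hmin' (-2, 3) (mem_of _ _ (-1) 1 _ _ (by norm_num) (by norm_num)) (by decide)) (by decide)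
        · rw [hr] at hmin'
          exact absurd (hmin' (-1, 3) (mem_of _ _ (-1) 1 _ _ (by norm_num) (by norm_num)) (by decide)) (by decide)
      by_cases hm4 : v'.2 = 4
      · rcases hr with hr | hr | hr | hr
        · rw [hr, hm4] at hB'
          exact absurd hB' nb_16p
        · rw [hr, hm4] at hB'
          exact absurd hB' nb_16c
        · exact good40 hR _ _ (Or.inr ⟨hm4, by omega⟩) hRL'
        · rw [hr, hm4] at hB'
          have h4 := hB'.refl'
          rw [← Lt_eq _ _ (-1) 0 (-2) 1 (by norm_num)] at h4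
          exact absurd h4 nb_16c
      · exact good40 hR _ _ (Or.inl (by omega)) hRL'
    · rw [basis31] at hRL' hB' hmin'
      have h12 : 12 ≤ dt (3, 1) v' := by omega
      by_cases h13 : dt (3, 1) v' = 12
      · exfalso
        rw [h13] at hmin'
        exact absurd (hmin' (3, -3) (mem_of _ _ (-3) (-1) _ _ (by norm_num) (by norm_num)) (by decide)) (by decide)
      by_cases h13 : dt (3, 1) v' = 13
      · rw [h13] at hB'
        exact absurd hB' nb_13
      by_cases h16 : dt (3, 1) v' = 16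
      · rw [h16] at hB'
        exact absurd hB' nb_16a
      exact good31 hR _ (by omega) hRL'
    · have e : dt (2, 2) v' = 2 * (v'.2 - v'.1) := by unfold dt; simp only; ring
      rw [basis22] at hRL' hB' hmin'
      have hk : 6 ≤ v'.2 - v'.1 := by omega
      have hr : v'.2 % 2 = 0 ∨ v'.2 % 2 = 1 := by omega
      by_cases hk6 : v'.2 - v'.1 = 6
      · rw [hk6] at hB' hmin'
        rcases hr with hr | hr
        · rw [hr] at hB'
          exact absurd hB' nb_12p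
        · exfalso
          rw [hr] at hmin'
          exact absurd (hmin' (-3, 3) (mem_of _ _ 1 1 _ _ (by norm_num) (by norm_num)) (by decide)) (by decide)
      by_cases hk8 : v'.2 - v'.1 = 8
      · rcases hr with hr | hr
        · exact good22 hR _ _ (Or.inr (Or.inr ⟨hk8, by omega⟩)) hRL'
        · rw [hk8, hr] at hB'
          exact absurd hB' nb_16b
      exact good22 hR _ _ (by omega) hRL'
  have hN5 : 5 ≤ p + q := by omega
  have h19 : 19 ≤ dt (p, q) v' := by nlinarith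
  by_cases h21 : dt (p, q) v' = 21
  · have h6 : p + q = 5 := by
      by_contra h
      have : 6 ≤ p + q := by omega
      rw [h21] at hbound
      nlinarith
    have hcases : (p = 5 ∧ q = 0) ∨ (p = 4 ∧ q = 1) ∨ (p = 3 ∧ q = 2) := by omega
    rcases hcases with ⟨rfl, rfl⟩ | ⟨rfl, rfl⟩ | ⟨rfl, rfl⟩
    · exfalso
      have e : dt (5, 0) v' = 5 * v'.2 := by unfold dt; simp only; ring
      omega
    · rw [basis41, h21] at hB'
      exact absurd hB' nb_21
    · rw [basis32 v' (-9, 1) (by rw [h21]; rfl)] at hRL'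
      exact chk_sound hR _ _ c32_21 hRL'
  · refine good_large hR (dt (p, q) v').toNat (p, q) v' ?_ (by omega) (by omega) ?_ hRL'
    · rw [Int.toNat_of_nonneg (by omega), abs_of_nonneg (by omega)]
    · intro x hx hx0
      have := hmin' x hx hx0
      omega

end Pool.Agent.PP
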