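import Pool.Agent.Lib_MP_7c0803_tor.Iso

/-!
# Honeycomb tori in which the parity is not constant: finite cases
-/

set_option autoImplicit false
set_option maxRecDepth 100000

open Finset Function

namespace Pool.Agent.PP

universe u

/-- a colouring given by a list -/
def lc (l : List (Fin 3)) (n : ℕ) : Fin 3 := l.getD n 0

lemma not_PC_of {E : Type*} [Fintype E] {B : CB E} (c c' : E → Fin 3) (hc : B.P c) (hc' : B.P c')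
    (h : B.par c ≠ B.par c') : ¬ B.PC := fun hp => h (hp c c' hc hc')

private def Par_c8 (p : ZMod 8 × Fin 3) : Fin 3 :=
  lc [0, 1, 2, 0, 2, 1, 0, 1, 2, 0, 1, 2, 2, 0, 1, 1, 0, 2, 1, 2, 0, 0, 1, 2] (3 * (ZMod.val p.1) + p.2.val)

theorem notPC_8 : ¬ (HG (A := ZMod 8) 1 6).PC :=
  not_PC_of (fun p => p.2) Par_c8 (by unfold CB.P; decide) (by unfold CB.P; decide) (by decide)

private def Par_c11 (p : ZMod 11 × Fin 3) : Fin 3 :=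
  lc [0, 1, 2, 0, 2, 1, 0, 1, 2, 0, 1, 2, 2, 0, 1, 1, 0, 2, 1, 2, 0, 0, 1, 2, 0, 1, 2, 0, 2, 1, 0, 1, 2] (3 * (ZMod.val p.1) + p.2.val)

theorem notPC_11 : ¬ (HG (A := ZMod 11) 1 9).PC :=
  not_PC_of (fun p => p.2) Par_c11 (by unfold CB.P; decide) (by unfold CB.P; decide) (by decide)

private def Par_c9 (p : ZMod 9 × Fin 3) : Fin 3 :=
  lc [0, 1, 2, 0, 2, 1, 0, 1, 2, 0, 2, 1, 2, 1, 0, 1, 2, 0, 2, 1, 0, 1, 0, 2, 0, 2, 1] (3 * (ZMod.val p.1) + p.2.val)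

theorem notPC_9 : ¬ (HG (A := ZMod 9) 6 1).PC :=
  not_PC_of (fun p => p.2) Par_c9 (by unfold CB.P; decide) (by unfold CB.P; decide) (by decide)

private def Par_c15 (p : ZMod 15 × Fin 3) : Fin 3 :=
  lc [0, 1, 2, 0, 1, 2, 1, 2, 0, 2, 1, 0, 1, 2, 0, 2, 1, 0, 2, 0, 1, 0, 1, 2, 0, 2, 1, 0, 1, 2, 0, 2, 1, 2, 1, 0, 2, 0, 1, 0, 1, 2, 0, 2, 1] (3 * (ZMod.val p.1) + p.2.val)

theorem notPC_15 : ¬ (HG (A := ZMod 15) 5 1).PC :=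
  not_PC_of (fun p => p.2) Par_c15 (by unfold CB.P; decide) (by unfold CB.P; decide) (by decide)

private def Par_c13 (p : ZMod 13 × Fin 3) : Fin 3 :=
  lc [0, 1, 2, 0, 1, 2, 2, 0, 1, 1, 0, 2, 1, 0, 2, 2, 1, 0, 0, 1, 2, 0, 1, 2, 2, 0, 1, 1, 0, 2, 1, 0, 2, 1, 2, 0, 0, 1, 2] (3 * (ZMod.val p.1) + p.2.val)

theorem notPC_13 : ¬ (HG (A := ZMod 13) 1 10).PC :=
  not_PC_of (fun p => p.2) Par_c13 (by unfold CB.P; decide) (by unfold CB.P; decide) (by decide)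

private def Par_c16a (p : ZMod 16 × Fin 3) : Fin 3 :=
  lc [0, 1, 2, 2, 1, 0, 0, 2, 1, 0, 1, 2, 2, 1, 0, 0, 1, 2, 0, 2, 1, 1, 2, 0, 1, 0, 2, 1, 0, 2, 2, 1, 0, 2, 1, 0, 0, 1, 2, 0, 2, 1, 1, 2, 0, 0, 1, 2] (3 * (ZMod.val p.1) + p.2.val)

theorem notPC_16a : ¬ (HG (A := ZMod 16) 1 13).PC :=
  not_PC_of (fun p => p.2) Par_c16a (by unfold CB.P; decide) (by unfold CB.P; decide) (by decide)

private def Par_c16b (p : ZMod 16 × Fin 3) : Fin 3 :=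
  lc [0, 1, 2, 0, 1, 2, 2, 0, 1, 1, 0, 2, 1, 2, 0, 0, 1, 2, 0, 1, 2, 0, 1, 2, 0, 2, 1, 0, 1, 2, 0, 1, 2, 2, 1, 0, 0, 1, 2, 0, 1, 2, 0, 2, 1, 0, 1, 2] (3 * (ZMod.val p.1) + p.2.val)

theorem notPC_16b : ¬ (HG (A := ZMod 16) 1 7).PC :=
  not_PC_of (fun p => p.2) Par_c16b (by unfold CB.P; decide) (by unfold CB.P; decide) (by decide)

private def Par_c16c (p : ZMod 16 × Fin 3) : Fin 3 :=
  lc [0, 1, 2, 1, 0, 2, 0, 1, 2, 0, 2, 1, 0, 1, 2, 1, 0, 2, 0, 1, 2, 0, 1, 2, 1, 2, 0, 2, 0, 1, 2, 1, 0, 2, 1, 0, 2, 0, 1, 2, 1, 0, 2, 0, 1, 0, 1, 2] (3 * (ZMod.val p.1) + p.2.val)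

theorem notPC_16c : ¬ (HG (A := ZMod 16) 12 1).PC :=
  not_PC_of (fun p => p.2) Par_c16c (by unfold CB.P; decide) (by unfold CB.P; decide) (by decide)

private def Par_c21 (p : ZMod 21 × Fin 3) : Fin 3 :=
  lc [0, 1, 2, 0, 2, 1, 0, 1, 2, 0, 2, 1, 0, 1, 2, 0, 1, 2, 0, 2, 1, 0, 1, 2, 0, 2, 1, 1, 0, 2, 1, 0, 2, 2, 0, 1, 1, 0, 2, 1, 2, 0, 1, 0, 2, 2, 0, 1, 1, 0, 2, 1, 0, 2, 2, 1, 0, 0, 2, 1, 0, 1, 2] (3 * (ZMod.val p.1) + p.2.val)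

theorem notPC_21 : ¬ (HG (A := ZMod 21) 1 17).PC :=
  not_PC_of (fun p => p.2) Par_c21 (by unfold CB.P; decide) (by unfold CB.P; decide) (by decide)

private def Par_c9p (p : (ZMod 3 × ZMod 3) × Fin 3) : Fin 3 :=
  lc [0, 1, 2, 0, 2, 1, 2, 0, 1, 2, 1, 0, 1, 0, 2, 1, 2, 0, 0, 2, 1, 2, 1, 0, 1, 0, 2] (3 * (3 * ZMod.val p.1.1 + ZMod.val p.1.2) + p.2.val)

theorem notPC_9p : ¬ (HG (A := ZMod 3 × ZMod 3) (1, 0) (0, 1)).PC :=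
  not_PC_of (fun p => p.2) Par_c9p (by unfold CB.P; decide) (by unfold CB.P; decide) (by decide)

private def Par_c16p (p : (ZMod 4 × ZMod 4) × Fin 3) : Fin 3 :=
  lc [0, 1, 2, 1, 0, 2, 0, 2, 1, 0, 1, 2, 0, 2, 1, 2, 1, 0, 1, 0, 2, 0, 1, 2, 1, 2, 0, 2, 0, 1, 2, 1, 0, 2, 1, 0, 0, 1, 2, 1, 0, 2, 0, 1, 2, 0, 2, 1] (3 * (4 * ZMod.val p.1.1 + ZMod.val p.1.2) + p.2.val)

theorem notPC_16p : ¬ (HG (A := ZMod 4 × ZMod 4) (1, 0) (0, 1)).PC :=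
  not_PC_of (fun p => p.2) Par_c16p (by unfold CB.P; decide) (by unfold CB.P; decide) (by decide)

private def Par_c12p (p : (ZMod 6 × ZMod 2) × Fin 3) : Fin 3 :=
  lc [0, 1, 2, 0, 2, 1, 0, 1, 2, 0, 1, 2, 2, 0, 1, 0, 1, 2, 1, 0, 2, 2, 1, 0, 1, 2, 0, 0, 1, 2, 0, 1, 2, 0, 1, 2] (3 * (2 * ZMod.val p.1.1 + ZMod.val p.1.2) + p.2.val)

theorem notPC_12p : ¬ (HG (A := ZMod 6 × ZMod 2) (1, 0) (5, 1)).PC :=
  not_PC_of (fun p => p.2) Par_c12p (by unfold CB.P; decide) (by unfold CB.P; decide) (by decide)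

end Pool.Agent.PP
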