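import Pool.Agent.Lib_MP_7c0803_tor.Par

/-!
# The exceptional lattices are not bad
-/

set_option autoImplicit false

open Finset Function

namespace Pool.Agent.PP

universe u

/-- cyclic quotients -/
lemma uiso_cyc (n : ℕ) [NeZero n] (al be : ℤ) (a b : ZMod n) (ha : (al : ZMod n) = a) (hb : (be : ZMod n) = b)
    (hs : ∃ i j k : ℤ, al * i + be * j + n * k = 1) (L : AddSubgroup (ℤ × ℤ))
    (hk : ∀ x : ℤ × ℤ, x ∈ L ↔ (n : ℤ) ∣ al * x.1 + be * x.2) :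
    Nonempty (UIso (HT L) (HG (A := ZMod n) a b)) := by
  subst ha hb
  let φ : ℤ × ℤ →+ ZMod n := AddMonoidHom.mk' (fun x => ((al * x.1 + be * x.2 : ℤ) : ZMod n)) (by
    intro x y
    push_cast [Prod.fst_add, Prod.snd_add]
    ring)
  have hφ : ∀ x : ℤ × ℤ, φ x = ((al * x.1 + be * x.2 : ℤ) : ZMod n) := fun _ => rfl
  obtain ⟨i⟩ := uiso_hom φ (by
    obtain ⟨i, j, k, h⟩ := hs
    intro z
    refine ⟨((z.val : ℤ) * i, (z.val : ℤ) * j), ?_⟩
    rw [hφ]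
    have e : (al * ((z.val : ℤ) * i) + be * ((z.val : ℤ) * j) : ℤ) = (z.val : ℤ) * (1 - n * k) := by
      rw [← h]
      ring
    simp only
    rw [e]
    push_cast
    simp) L (by
    intro x
    rw [hφ, ZMod.intCast_zmod_eq_zero_iff_dvd, hk])
  have e1 : φ (1, 0) = (al : ZMod n) := by
    rw [hφ]
    push_cast
    ring
  have e2 : φ (0, 1) = (be : ZMod n) := by
    rw [hφ]
    push_cast
    ring
  rw [e1, e2] at i
  exact ⟨i⟩

/-- quotients with two factors -/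
lemma uiso_two (m n : ℕ) [NeZero m] [NeZero n] (ga : ℤ) (g : ZMod m) (hg : (ga : ZMod m) = g)
    (L : AddSubgroup (ℤ × ℤ)) (hk : ∀ x : ℤ × ℤ, x ∈ L ↔ ((m : ℤ) ∣ x.1 + ga * x.2 ∧ (n : ℤ) ∣ x.2)) :
    Nonempty (UIso (HT L) (HG (A := ZMod m × ZMod n) (1, 0) (g, 1))) := by
  subst hg
  let φ : ℤ × ℤ →+ ZMod m × ZMod n := AddMonoidHom.mk' (fun x => (((x.1 + ga * x.2 : ℤ) : ZMod m), ((x.2 : ℤ) : ZMod n))) (by
    intro x y
    refine Prod.ext ?_ ?_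
    · push_cast [Prod.fst_add, Prod.snd_add]
      ring
    · push_cast [Prod.fst_add, Prod.snd_add]
      ring)
  have hφ : ∀ x : ℤ × ℤ, φ x = (((x.1 + ga * x.2 : ℤ) : ZMod m), ((x.2 : ℤ) : ZMod n)) := fun _ => rfl
  obtain ⟨i⟩ := uiso_hom φ (by
    rintro ⟨z, w⟩
    refine ⟨((z.val : ℤ) - ga * (w.val : ℤ), (w.val : ℤ)), ?_⟩
    rw [hφ]
    refine Prod.ext ?_ ?_
    · push_cast
      simp
    · push_cast
      simp) L (by
    intro x
    rw [hφ, Prod.mk_eq_zero, ZMod.intCast_zmod_eq_zero_iff_dvd, ZMod.intCast_zmod_eq_zero_iff_dvd, hk])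
  have e1 : φ (1, 0) = (1, 0) := by
    rw [hφ]
    push_cast
    simp
  have e2 : φ (0, 1) = ((ga : ZMod m), 1) := by
    rw [hφ]
    push_cast
    simp
  rw [e1, e2] at i
  exact ⟨i⟩

lemma mem_21 (n : ℤ) (x : ℤ × ℤ) : x ∈ Lt (2, 1) (-n, 0) ↔ n ∣ 1 * x.1 + (-2) * x.2 := by
  rw [mem_Lt']
  constructor
  · rintro ⟨i, j, h1, h2⟩
    exact ⟨-j, by simp only at h1 h2; linarith⟩
  · rintro ⟨k, hk⟩
    exact ⟨x.2, -k, by simp only; linarith, by simp only; linarith⟩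

lemma mem_31 (n : ℤ) (x : ℤ × ℤ) : x ∈ Lt (3, 1) (-n, 0) ↔ n ∣ 1 * x.1 + (-3) * x.2 := by
  rw [mem_Lt']
  constructor
  · rintro ⟨i, j, h1, h2⟩
    exact ⟨-j, by simp only at h1 h2; linarith⟩
  · rintro ⟨k, hk⟩
    exact ⟨x.2, -k, by simp only; linarith, by simp only; linarith⟩

lemma mem_41 (n : ℤ) (x : ℤ × ℤ) : x ∈ Lt (4, 1) (-n, 0) ↔ n ∣ 1 * x.1 + (-4) * x.2 := by
  rw [mem_Lt']
  constructor
  · rintro ⟨i, j, h1, h2⟩
    exact ⟨-j, by simp only at h1 h2; linarith⟩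
  · rintro ⟨k, hk⟩
    exact ⟨x.2, -k, by simp only; linarith, by simp only; linarith⟩

theorem nb_8 : ¬ Bad.{u} (Lt (2, 1) (-8, 0)) :=
  not_bad_of_PC (uiso_cyc 8 1 (-2) 1 6 (by decide) (by decide) ⟨1, 0, 0, by norm_num⟩ _ (mem_21 8)) notPC_8

theorem nb_11 : ¬ Bad.{u} (Lt (2, 1) (-11, 0)) :=
  not_bad_of_PC (uiso_cyc 11 1 (-2) 1 9 (by decide) (by decide) ⟨1, 0, 0, by norm_num⟩ _ (mem_21 11)) notPC_11

theorem nb_13 : ¬ Bad.{u} (Lt (3, 1) (-13, 0)) :=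
  not_bad_of_PC (uiso_cyc 13 1 (-3) 1 10 (by decide) (by decide) ⟨1, 0, 0, by norm_num⟩ _ (mem_31 13)) notPC_13

theorem nb_16a : ¬ Bad.{u} (Lt (3, 1) (-16, 0)) :=
  not_bad_of_PC (uiso_cyc 16 1 (-3) 1 13 (by decide) (by decide) ⟨1, 0, 0, by norm_num⟩ _ (mem_31 16)) notPC_16a

theorem nb_21 : ¬ Bad.{u} (Lt (4, 1) (-21, 0)) :=
  not_bad_of_PC (uiso_cyc 21 1 (-4) 1 17 (by decide) (by decide) ⟨1, 0, 0, by norm_num⟩ _ (mem_41 21)) notPC_21

theorem nb_9 : ¬ Bad.{u} (Lt (3, 0) (1, 3)) :=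
  not_bad_of_PC (uiso_cyc 9 (-3) 1 6 1 (by decide) (by decide) ⟨0, 1, 0, by norm_num⟩ _ (by
    intro x
    rw [mem_Lt']
    constructor
    · rintro ⟨i, j, h1, h2⟩
      exact ⟨-i, by simp only at h1 h2; push_cast; linarith⟩
    · rintro ⟨k, hk⟩
      push_cast at hk
      exact ⟨-k, 3 * k + x.1, by simp only; linarith, by simp only; linarith⟩)) notPC_9

theorem nb_15 : ¬ Bad.{u} (Lt (3, 0) (2, 5)) :=
  not_bad_of_PC (uiso_cyc 15 5 1 5 1 (by decide) (by decide) ⟨0, 1, 0, by norm_num⟩ _ (by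
    intro x
    rw [mem_Lt']
    constructor
    · rintro ⟨i, j, h1, h2⟩
      exact ⟨i + j, by simp only at h1 h2; push_cast; linarith⟩
    · rintro ⟨k, hk⟩
      push_cast at hk
      exact ⟨x.1 - 2 * k, 3 * k - x.1, by simp only; linarith, by simp only; linarith⟩)) notPC_15

theorem nb_16b : ¬ Bad.{u} (Lt (2, 2) (-7, 1)) :=
  not_bad_of_PC (uiso_cyc 16 1 7 1 7 (by decide) (by decide) ⟨1, 0, 0, by norm_num⟩ _ (by
    intro x
    rw [mem_Lt']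
    constructor
    · rintro ⟨i, j, h1, h2⟩
      exact ⟨i, by simp only at h1 h2; push_cast; linarith⟩
    · rintro ⟨k, hk⟩
      push_cast at hk
      exact ⟨k, x.2 - 2 * k, by simp only; linarith, by simp only; linarith⟩)) notPC_16b

theorem nb_16c : ¬ Bad.{u} (Lt (4, 0) (1, 4)) :=
  not_bad_of_PC (uiso_cyc 16 (-4) 1 12 1 (by decide) (by decide) ⟨0, 1, 0, by norm_num⟩ _ (by
    intro x
    rw [mem_Lt']
    constructor
    · rintro ⟨i, j, h1, h2⟩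
      exact ⟨-i, by simp only at h1 h2; push_cast; linarith⟩
    · rintro ⟨k, hk⟩
      push_cast at hk
      exact ⟨-k, 4 * k + x.1, by simp only; linarith, by simp only; linarith⟩)) notPC_16c

theorem nb_9p : ¬ Bad.{u} (Lt (3, 0) (0, 3)) :=
  not_bad_of_PC (uiso_two 3 3 0 0 (by decide) _ (by
    intro x
    rw [mem_Lt']
    constructor
    · rintro ⟨i, j, h1, h2⟩
      exact ⟨⟨i, by simp only at h1 h2; push_cast; linarith⟩, ⟨j, by simp only at h1 h2; push_cast; linarith⟩⟩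
    · rintro ⟨⟨i, hi⟩, ⟨j, hj⟩⟩
      push_cast at hi hj
      exact ⟨i, j, by simp only; linarith, by simp only; linarith⟩)) notPC_9p

theorem nb_16p : ¬ Bad.{u} (Lt (4, 0) (0, 4)) :=
  not_bad_of_PC (uiso_two 4 4 0 0 (by decide) _ (by
    intro x
    rw [mem_Lt']
    constructor
    · rintro ⟨i, j, h1, h2⟩
      exact ⟨⟨i, by simp only at h1 h2; push_cast; linarith⟩, ⟨j, by simp only at h1 h2; push_cast; linarith⟩⟩
    · rintro ⟨⟨i, hi⟩, ⟨j, hj⟩⟩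
      push_cast at hi hj
      exact ⟨i, j, by simp only; linarith, by simp only; linarith⟩)) notPC_16p

theorem nb_12p : ¬ Bad.{u} (Lt (2, 2) (-6, 0)) :=
  not_bad_of_PC (uiso_two 6 2 (-1) 5 (by decide) _ (by
    intro x
    rw [mem_Lt']
    constructor
    · rintro ⟨i, j, h1, h2⟩
      exact ⟨⟨-j, by simp only at h1 h2; push_cast; linarith⟩, ⟨i, by simp only at h1 h2; push_cast; linarith⟩⟩
    · rintro ⟨⟨i, hi⟩, ⟨j, hj⟩⟩
      push_cast at hi hj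
      exact ⟨j, -i, by simp only; linarith, by simp only; linarith⟩)) notPC_12p

end Pool.Agent.PP
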