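import Pool.Agent.Lib_MP_7c0803_tor.KDefs

/-!
# Klein bottle: change of the reflection constant

Proof plan.  Rotate the levels: the edge `((l, i), j)` of `KB m k (r - 1)` corresponds to the edge `((l + 1, i), j)` of `KB m k r` if
`l` is not the last level, and to `((0, r - i), j')` if it is (`j' = 0, 2, 1` for `j = 0, 1, 2`).  (Both ends correspond: checked by a
program.)  The map is injective, so bijective (`Finite.injective_iff_bijective`).  Use `SO_BG_s`, `SO_BG_t`, `kf_zero`, `kf_one`, `kf_two`.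
-/

set_option autoImplicit false

open Finset Function

namespace Pool.Agent.PP

private lemma KRot_iso {A A' : Type} (f : Fin 3 → Equiv.Perm A) (f' : Fin 3 → Equiv.Perm A')
    (α β : A ≃ A') (σ : A → Equiv.Perm (Fin 3)) (h : ∀ x j, f' (σ x j) (α x) = β (f j x)) :
    Nonempty (UIso (BG f) (BG f')) := by
  refine ⟨⟨⟨fun p => (α p.1, σ p.1 p.2), fun q => (α.symm q.1, (σ (α.symm q.1)).symm q.2), ?_, ?_⟩, ?_, ?_⟩⟩
  · rintro ⟨x, i⟩
    simp only [Equiv.symm_apply_apply]
  · rintro ⟨x, i⟩
    simp only [Equiv.apply_symm_apply]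
  · rintro ⟨x, i⟩ ⟨y, j⟩
    show _ ↔ SO (BG f').s (α x, σ x i) (α y, σ y j)
    rw [SO_BG_s, SO_BG_s, α.injective.eq_iff]
    constructor
    · rintro ⟨h1, h2⟩
      subst h1
      exact ⟨rfl, fun h3 => h2 ((σ y).injective h3)⟩
    · rintro ⟨h1, h2⟩
      subst h1
      exact ⟨rfl, fun h3 => h2 (by rw [h3])⟩
  · rintro ⟨x, i⟩ ⟨y, j⟩
    show _ ↔ SO (BG f').t (α x, σ x i) (α y, σ y j)
    rw [SO_BG_t, SO_BG_t, h, h, β.injective.eq_iff]
    refine and_congr_right fun h1 => not_congr ?_
    constructor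
    · intro h2
      subst h2
      have h3 : y = x := (f j).injective h1
      rw [h3]
    · intro h2
      have h3 : f' (σ y j) (α y) = f' (σ x i) (α x) := by rw [h, h, h1]
      rw [h2] at h3
      have h4 : y = x := α.injective ((f' (σ x i)).injective h3)
      subst h4
      exact (σ y).injective h2

/-- change of the two non-horizontal edges on the last level -/
private def KRot_sig (m k : ℕ) (p : Fin (m + 1) × Fin (k + 1)) : Equiv.Perm (Fin 3) :=
  if p.1 = Fin.last m then Equiv.swap 1 2 else 1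

theorem kb_rot (m k : ℕ) (r : Fin (k + 1)) : Nonempty (UIso (KB m k (r - 1)) (KB m k r)) := by
  refine KRot_iso (kf m k (r - 1)) (kf m k r) (kf m k r 1) (kf m k r 1) (KRot_sig m k) ?_
  rintro ⟨l, i⟩ j
  by_cases hl : l = Fin.last m
  · have hs : KRot_sig m k (l, i) = Equiv.swap 1 2 := if_pos hl
    have ha : kf m k r 1 (l, i) = (0, r - i) := by
      rw [kf_one]
      exact if_pos hl
    rw [hs, ha]
    fin_cases j
    · show kf m k r (Equiv.swap (1 : Fin 3) 2 0) (0, r - i) = kf m k r 1 (kf m k (r - 1) 0 (l, i))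
      have e : (Equiv.swap (1 : Fin 3) 2 0) = 0 := by decide
      rw [e, kf_zero, kf_zero, ha]
    · show kf m k r (Equiv.swap (1 : Fin 3) 2 1) (0, r - i) = kf m k r 1 (kf m k (r - 1) 1 (l, i))
      have e : (Equiv.swap (1 : Fin 3) 2 1) = 2 := by decide
      rw [e, kf_one m k (r - 1), if_pos hl, kf_two, kf_one]
      split_ifs with h0
      · refine Prod.ext rfl ?_
        show r + 1 - (r - i) = r - (r - 1 - i)
        abel
      · refine Prod.ext rfl ?_
        show r - i - 1 = r - 1 - i
        abel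
    · show kf m k r (Equiv.swap (1 : Fin 3) 2 2) (0, r - i) = kf m k r 1 (kf m k (r - 1) 2 (l, i))
      have e : (Equiv.swap (1 : Fin 3) 2 2) = 1 := by decide
      rw [e, kf_two m k (r - 1), if_pos hl]
      have h1 : r - 1 + 1 - i = r - i := by abel
      show kf m k r 1 (0, r - i) = kf m k r 1 (0, r - 1 + 1 - i)
      rw [h1]
  · have hs : KRot_sig m k (l, i) = 1 := if_neg hl
    have ha : kf m k r 1 (l, i) = (l + 1, i) := by
      rw [kf_one]
      exact if_neg hl
    rw [hs, ha]
    fin_cases j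
    · show kf m k r 0 (l + 1, i) = kf m k r 1 (kf m k (r - 1) 0 (l, i))
      rw [kf_zero, kf_zero, ha]
    · show kf m k r 1 (l + 1, i) = kf m k r 1 (kf m k (r - 1) 1 (l, i))
      rw [kf_one m k (r - 1), if_neg hl]
    · show kf m k r 2 (l + 1, i) = kf m k r 1 (kf m k (r - 1) 2 (l, i))
      rw [kf_two m k (r - 1), if_neg hl, kf_two, kf_one]
      split_ifs with h0
      · refine Prod.ext rfl ?_
        show r + 1 - i = r - (i - 1)
        abel
      · rfl

private lemma KRot_iter (m k : ℕ) (r : Fin (k + 1)) (n : Fin (k + 1)) :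
    Nonempty (UIso (KB m k (r - n)) (KB m k r)) := by
  induction n using Fin.induction with
  | zero =>
    rw [sub_zero]
    exact ⟨UIso.refl _⟩
  | succ n ih =>
    obtain ⟨i⟩ := ih
    obtain ⟨i2⟩ := kb_rot m k (r - n.castSucc)
    have e : r - n.succ = r - n.castSucc - 1 := by
      rw [← Fin.coeSucc_eq_succ]
      abel
    rw [e]
    exact ⟨i2.trans i⟩

/-- all reflection constants give the same graph.  (Iterate `kb_rot`: induction on `(r - r').val`, or on `n` in `r' + n`.) -/
theorem kb_all (m k : ℕ) (r r' : Fin (k + 1)) : Nonempty (UIso (KB m k r) (KB m k r')) := by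
  have h := KRot_iter m k r' (r' - r)
  rw [sub_sub_cancel] at h
  exact h

end Pool.Agent.PP
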