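import Pool.Agent.Lib_MP_7c0803_tor.Iso

/-!
# Klein bottle: definitions

`BG f`: the cubic bipartite multigraph with the `X`-vertices `a : A`, the `Y`-vertices `b : A` and the edges `(a, j)` from the
`X`-vertex `a` to the `Y`-vertex `f j a`, `j = 0, 1, 2`.

`KB m k r`: the hexagonal graph of the Klein bottle with `m + 1` levels and `k + 1` positions; `A = Fin (m + 1) × Fin (k + 1)`;
the edge `0` of `(l, i)` goes to `(l, i)`, the edges `1`, `2` to `(l + 1, i)`, `(l + 1, i - 1)`, on the last level
to `(0, r - i)`, `(0, r + 1 - i)`.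

`dc B tw`: the orientation double cover of a twisted multigraph.
-/

set_option autoImplicit false

open Finset Function

namespace Pool.Agent.PP

universe u v w

/-! ### graphs given by three bijections -/

section bg
variable {A : Type u} (f : Fin 3 → Equiv.Perm A)

/-- the edge `(a, j)` joins the `X`-vertex `a` and the `Y`-vertex `f j a` -/
def BG : CB (A × Fin 3) where
  s :=
    { toFun := fun p => (p.1, p.2 + 1)
      invFun := fun p => (p.1, p.2 - 1)
      left_inv := fun p => Prod.ext rfl (fin3_add_sub p.2)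
      right_inv := fun p => Prod.ext rfl (fin3_sub_add p.2) }
  t :=
    { toFun := fun p => ((f (p.2 + 1)).symm (f p.2 p.1), p.2 + 1)
      invFun := fun p => ((f (p.2 - 1)).symm (f p.2 p.1), p.2 - 1)
      left_inv := fun p => by
        refine Prod.ext ?_ (fin3_add_sub p.2)
        simp only [fin3_add_sub, Equiv.apply_symm_apply, Equiv.symm_apply_apply]
      right_inv := fun p => by
        refine Prod.ext ?_ (fin3_sub_add p.2)
        simp only [fin3_sub_add, Equiv.apply_symm_apply, Equiv.symm_apply_apply] }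
  s3 := fun p => Prod.ext rfl (fin3_add3 p.2)
  t3 := fun p => by
    refine Prod.ext ?_ (fin3_add3 p.2)
    simp only [Equiv.coe_fn_mk, fin3_add3, Equiv.apply_symm_apply, Equiv.symm_apply_apply]
  s1 := fun p h => fin3_add_ne p.2 (congrArg Prod.snd h)
  t1 := fun p h => fin3_add_ne p.2 (congrArg Prod.snd h)

lemma BG_s (x : A) (i : Fin 3) : (BG f).s (x, i) = (x, i + 1) := rfl

lemma BG_t (x : A) (i : Fin 3) : (BG f).t (x, i) = ((f (i + 1)).symm (f i x), i + 1) := rfl

/-- two edges have the same `X`-end -/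
lemma SO_BG_s (x y : A) (i j : Fin 3) : SO (BG f).s (x, i) (y, j) ↔ (y = x ∧ j ≠ i) := by
  rw [← fin3_ne_iff]
  unfold SO
  simp only [BG_s, Prod.mk.injEq]
  tauto

/-- two edges have the same `Y`-end -/
lemma SO_BG_t (x y : A) (i j : Fin 3) : SO (BG f).t (x, i) (y, j) ↔ (f j y = f i x ∧ j ≠ i) := by
  rw [← fin3_ne_iff]
  unfold SO
  simp only [BG_t, Prod.mk.injEq, Equiv.apply_symm_apply]
  constructor
  · rintro (⟨h1, h2⟩ | ⟨h1, h2⟩)
    · subst h2
      exact ⟨by rw [h1, Equiv.apply_symm_apply], Or.inl rfl⟩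
    · subst h2
      exact ⟨by rw [h1, Equiv.apply_symm_apply], Or.inr rfl⟩
  · rintro ⟨h1, h2 | h2⟩
    · subst h2
      exact Or.inl ⟨by rw [← h1, Equiv.symm_apply_apply], rfl⟩
    · subst h2
      exact Or.inr ⟨by rw [← h1, Equiv.symm_apply_apply], rfl⟩

end bg

/-! ### the graphs of the Klein bottle -/

private lemma KDefs_last (m : ℕ) : Fin.last m = (-1 : Fin (m + 1)) :=
  eq_neg_of_add_eq_zero_left (Fin.last_add_one m)

/-- the second bijection: one level up, with a reflection of the positions after the last level -/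
def kf1 (m k : ℕ) (r : Fin (k + 1)) : Equiv.Perm (Fin (m + 1) × Fin (k + 1)) where
  toFun p := if p.1 = Fin.last m then (0, r - p.2) else (p.1 + 1, p.2)
  invFun p := if p.1 = 0 then (Fin.last m, r - p.2) else (p.1 - 1, p.2)
  left_inv p := by
    show (if (if p.1 = Fin.last m then ((0 : Fin (m + 1)), r - p.2) else (p.1 + 1, p.2)).1 = 0 then
      (Fin.last m, r - (if p.1 = Fin.last m then ((0 : Fin (m + 1)), r - p.2) else (p.1 + 1, p.2)).2) else
      ((if p.1 = Fin.last m then ((0 : Fin (m + 1)), r - p.2) else (p.1 + 1, p.2)).1 - 1,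
        (if p.1 = Fin.last m then ((0 : Fin (m + 1)), r - p.2) else (p.1 + 1, p.2)).2)) = p
    by_cases h : p.1 = Fin.last m
    · rw [if_pos h, if_pos rfl, ← h]
      exact Prod.ext rfl (sub_sub_cancel _ _)
    · have h2 : p.1 + 1 ≠ 0 := by
        intro h3
        apply h
        rw [eq_neg_of_add_eq_zero_left h3, KDefs_last]
      rw [if_neg h, if_neg h2]
      exact Prod.ext (add_sub_cancel_right _ _) rfl
  right_inv p := by
    show (if (if p.1 = 0 then (Fin.last m, r - p.2) else (p.1 - 1, p.2)).1 = Fin.last m then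
      ((0 : Fin (m + 1)), r - (if p.1 = 0 then (Fin.last m, r - p.2) else (p.1 - 1, p.2)).2) else
      ((if p.1 = 0 then (Fin.last m, r - p.2) else (p.1 - 1, p.2)).1 + 1,
        (if p.1 = 0 then (Fin.last m, r - p.2) else (p.1 - 1, p.2)).2)) = p
    by_cases h : p.1 = 0
    · rw [if_pos h, if_pos rfl, ← h]
      exact Prod.ext rfl (sub_sub_cancel _ _)
    · have h2 : p.1 - 1 ≠ Fin.last m := by
        intro h3
        apply h
        rw [KDefs_last, sub_eq_iff_eq_add, neg_add_cancel] at h3
        exact h3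
      rw [if_neg h, if_neg h2]
      exact Prod.ext (sub_add_cancel _ _) rfl

/-- the three bijections -/
def kf (m k : ℕ) (r : Fin (k + 1)) (j : Fin 3) : Equiv.Perm (Fin (m + 1) × Fin (k + 1)) :=
  if j = 0 then 1 else if j = 1 then kf1 m k r else ((Equiv.refl _).prodCongr (Equiv.subRight 1)).trans (kf1 m k r)

/-- the hexagonal graph of the Klein bottle with `m + 1` levels and `k + 1` positions -/
def KB (m k : ℕ) (r : Fin (k + 1)) : CB ((Fin (m + 1) × Fin (k + 1)) × Fin 3) := BG (kf m k r)

lemma kf_zero (m k : ℕ) (r : Fin (k + 1)) (p : Fin (m + 1) × Fin (k + 1)) : kf m k r 0 p = p := rfl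

lemma kf_one (m k : ℕ) (r : Fin (k + 1)) (p : Fin (m + 1) × Fin (k + 1)) :
    kf m k r 1 p = if p.1 = Fin.last m then (0, r - p.2) else (p.1 + 1, p.2) := rfl

lemma kf_two (m k : ℕ) (r : Fin (k + 1)) (p : Fin (m + 1) × Fin (k + 1)) :
    kf m k r 2 p = if p.1 = Fin.last m then (0, r + 1 - p.2) else (p.1 + 1, p.2 - 1) := by
  show (if p.1 = Fin.last m then ((0 : Fin (m + 1)), r - (p.2 - 1)) else (p.1 + 1, p.2 - 1)) = _
  have h : r - (p.2 - 1) = r + 1 - p.2 := by abel
  rw [h]

/-! ### the double cover -/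

section dc
variable {E : Type u}

/-- a permutation on the two sheets, the inverse on the second one -/
def pm (s : Equiv.Perm E) : Equiv.Perm (E × Bool) where
  toFun a := (if a.2 then s a.1 else s.symm a.1, a.2)
  invFun a := (if a.2 then s.symm a.1 else s a.1, a.2)
  left_inv a := by
    obtain ⟨e, o⟩ := a
    cases o <;> simp
  right_inv a := by
    obtain ⟨e, o⟩ := a
    cases o <;> simp

/-- change the sheet at the twisted edges -/
def ch (tw : E → Bool) : Equiv.Perm (E × Bool) where
  toFun a := (a.1, xor a.2 (tw a.1))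
  invFun a := (a.1, xor a.2 (tw a.1))
  left_inv a := by simp
  right_inv a := by simp

/-- the orientation double cover -/
def dc (B : CB E) (tw : E → Bool) : CB (E × Bool) where
  s := pm B.s
  t := (ch tw).trans ((pm B.t).trans (ch tw))
  s3 := by
    have h : ∀ e, B.s.symm (B.s.symm (B.s.symm e)) = e := by
      intro e
      rw [Equiv.symm_apply_eq, Equiv.symm_apply_eq, Equiv.symm_apply_eq, B.s3]
    rintro ⟨e, o⟩
    cases o
    · show (B.s.symm (B.s.symm (B.s.symm e)), false) = _
      rw [h]
    · show (B.s (B.s (B.s e)), true) = _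
      rw [B.s3]
  t3 := by
    have h : ∀ e, B.t.symm (B.t.symm (B.t.symm e)) = e := by
      intro e
      rw [Equiv.symm_apply_eq, Equiv.symm_apply_eq, Equiv.symm_apply_eq, B.t3]
    have h2 : ∀ a, ch tw (ch tw a) = a := fun a => (ch tw).left_inv a
    have h3 : ∀ a, pm B.t (pm B.t (pm B.t a)) = a := by
      rintro ⟨e, o⟩
      cases o
      · show (B.t.symm (B.t.symm (B.t.symm e)), false) = _
        rw [h]
      · show (B.t (B.t (B.t e)), true) = _
        rw [B.t3]
    intro a
    show ch tw (pm B.t (ch tw (ch tw (pm B.t (ch tw (ch tw (pm B.t (ch tw a)))))))) = a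
    rw [h2, h2, h3, h2]
  s1 := by
    rintro ⟨e, o⟩ h
    cases o
    · have h1 : B.s.symm e = e := congrArg Prod.fst h
      rw [Equiv.symm_apply_eq] at h1
      exact B.s1 e h1.symm
    · have h1 : B.s e = e := congrArg Prod.fst h
      exact B.s1 e h1
  t1 := by
    intro a h
    have h2 : pm B.t (ch tw a) = ch tw a := by
      have h3 := congrArg (ch tw) h
      have h4 : ∀ a, ch tw (ch tw a) = a := fun a => (ch tw).left_inv a
      have h5 : ch tw (ch tw (pm B.t (ch tw a))) = ch tw a := h3
      rwa [h4] at h5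
    revert h2
    generalize ch tw a = b
    obtain ⟨e, o⟩ := b
    intro h
    cases o
    · have h1 : B.t.symm e = e := congrArg Prod.fst h
      rw [Equiv.symm_apply_eq] at h1
      exact B.t1 e h1.symm
    · have h1 : B.t e = e := congrArg Prod.fst h
      exact B.t1 e h1

lemma dc_s (B : CB E) (tw : E → Bool) (e : E) (o : Bool) :
    (dc B tw).s (e, o) = (if o then B.s e else B.s.symm e, o) := rfl

lemma dc_t (B : CB E) (tw : E → Bool) (e : E) (o : Bool) :
    (dc B tw).t (e, o) = (if xor o (tw e) then B.t e else B.t.symm e,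
      xor (xor o (tw e)) (tw (if xor o (tw e) then B.t e else B.t.symm e))) := rfl

end dc

/-! ### the second obstruction -/

/-- `18` vertices `(l, i, b)`, `l, i ∈ Fin 3`; `(l, i, false)` is adjacent to `(l, i, true)` and, for `l < 2`, to `(l + 1, i, true)` and
`(l + 1, i - 1, true)`, for `l = 2` to `(0, - i, true)` and `(0, 1 - i, true)` -/
def kleinGraph : SimpleGraph ((Fin 3 × Fin 3) × Bool) where
  Adj x y := (x.2 = false ∧ y.2 = true ∧ ∃ j, kf 2 2 0 j x.1 = y.1) ∨ (y.2 = false ∧ x.2 = true ∧ ∃ j, kf 2 2 0 j y.1 = x.1)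
  symm := ⟨fun _ _ h => h.symm⟩
  loopless := ⟨by
    rintro ⟨i, b⟩ h
    rcases h with ⟨h1, h2, _⟩ | ⟨h1, h2, _⟩
    · rw [h1] at h2
      exact Bool.noConfusion h2
    · rw [h1] at h2
      exact Bool.noConfusion h2⟩

end Pool.Agent.PP
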