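import Pool.Agent.Lib_MP_7c0803_tor.Defs

/-!
# Certificates: chains of shrinking steps which end at the Heawood lattice
-/

set_option autoImplicit false

namespace Pool.Agent.PP

/-- change of basis -/
lemma Lt_eq (u v : ℤ × ℤ) (a b c d : ℤ) (h : a * d - b * c = 1 ∨ a * d - b * c = -1) :
    Lt (a * u.1 + b * v.1, a * u.2 + b * v.2) (c * u.1 + d * v.1, c * u.2 + d * v.2) = Lt u v := by
  ext x
  rw [mem_Lt', mem_Lt']
  constructor
  · rintro ⟨i, j, h1, h2⟩
    exact ⟨i * a + j * c, i * b + j * d, by rw [← h1]; ring, by rw [← h2]; ring⟩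
  · rintro ⟨i, j, h1, h2⟩
    rcases h with h | h
    · refine ⟨i * d - j * c, j * a - i * b, ?_, ?_⟩
      · rw [← h1]
        linear_combination (i * u.1 + j * v.1) * h
      · rw [← h2]
        linear_combination (i * u.2 + j * v.2) * h
    · refine ⟨j * c - i * d, i * b - j * a, ?_, ?_⟩
      · rw [← h1]
        linear_combination -(i * u.1 + j * v.1) * h
      · rw [← h2]
        linear_combination -(i * u.2 + j * v.2) * h

/-- a step: reflect if `m`, rotate `k` times, change the basis by the matrix `(a, b; c, d)`, shrink if `f` -/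
structure Stp where
  k : ℕ
  m : Bool
  a : ℤ
  b : ℤ
  c : ℤ
  d : ℤ
  f : Bool

/-- the symmetry of a step -/
def sy (k : ℕ) (m : Bool) (x : ℤ × ℤ) : ℤ × ℤ :=
  let y := if m then (x.2, x.1) else x
  if k = 0 then y else if k = 1 then (-y.1 - y.2, y.1) else (y.2, -y.1 - y.2)

/-- the new basis -/
def Stp.st (S : Stp) (p : (ℤ × ℤ) × (ℤ × ℤ)) : (ℤ × ℤ) × (ℤ × ℤ) :=
  ((S.a * (sy S.k S.m p.1).1 + S.b * (sy S.k S.m p.2).1, S.a * (sy S.k S.m p.1).2 + S.b * (sy S.k S.m p.2).2),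
    (S.c * (sy S.k S.m p.1).1 + S.d * (sy S.k S.m p.2).1, S.c * (sy S.k S.m p.1).2 + S.d * (sy S.k S.m p.2).2))

/-- the conditions of a step -/
def Stp.ok (S : Stp) (q : (ℤ × ℤ) × (ℤ × ℤ)) : Bool :=
  (decide (S.a * S.d - S.b * S.c = 1) || decide (S.a * S.d - S.b * S.c = -1)) &&
    (!S.f || (decide (0 ≤ q.1.1) && decide (0 ≤ q.1.2) &&
      decide (1 ≤ dt q.1 q.2 - (q.1.1 + q.1.2)) && decide (q.1.1 ≤ dt q.1 q.2 - (q.1.1 + q.1.2)) &&
      decide (q.1.2 ≤ dt q.1 q.2 - (q.1.1 + q.1.2))))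

/-- the result of a step -/
def Stp.fin (S : Stp) (q : (ℤ × ℤ) × (ℤ × ℤ)) : (ℤ × ℤ) × (ℤ × ℤ) :=
  if S.f then (q.1, (q.2.1 + 1, q.2.2 - 1)) else q

/-- the chain leads to the Heawood lattice -/
def chk : List Stp → (ℤ × ℤ) × (ℤ × ℤ) → Bool
  | [], p => decide (p = ((2, 1), (-7, 0)))
  | S :: l, p => S.ok (S.st p) && chk l (S.fin (S.st p))

lemma Cl.sy {R : AddSubgroup (ℤ × ℤ) → Prop} (hR : Cl R) (k : ℕ) (m : Bool) (u v : ℤ × ℤ) (h : R (Lt u v)) :
    R (Lt (PP.sy k m u) (PP.sy k m v)) := by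
  have h1 : R (Lt (if m then (u.2, u.1) else u) (if m then (v.2, v.1) else v)) := by
    cases m
    · exact h
    · have := hR.tau _ h
      rw [mp_Lt] at this
      exact this
  unfold PP.sy
  simp only
  generalize (if m = true then (u.2, u.1) else u) = u' at h1 ⊢
  generalize (if m = true then (v.2, v.1) else v) = v' at h1 ⊢
  have h2 := hR.rho _ h1
  rw [mp_Lt] at h2
  have h3 := hR.rho _ h2
  rw [mp_Lt] at h3
  by_cases hk : k = 0
  · simp only [if_pos hk]
    exact h1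
  · by_cases hk1 : k = 1
    · simp only [if_neg hk, if_pos hk1]
      exact h2
    · simp only [if_neg hk, if_neg hk1]
      have e : ∀ w : ℤ × ℤ, PP.rho (PP.rho w) = (w.2, -w.1 - w.2) := by
        intro w
        refine Prod.ext ?_ rfl
        show -(-w.1 - w.2) - w.1 = w.2
        ring
      rw [e, e] at h3
      exact h3

theorem chk_sound {R : AddSubgroup (ℤ × ℤ) → Prop} (hR : Cl R) :
    ∀ (l : List Stp) (p : (ℤ × ℤ) × (ℤ × ℤ)), chk l p = true → R (Lt p.1 p.2) → R (Lt (2, 1) (-7, 0)) := by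
  intro l
  induction l with
  | nil =>
    intro p h h1
    have : p = ((2, 1), (-7, 0)) := by simpa [chk] using h
    rw [this] at h1
    exact h1
  | cons S l ih =>
    intro p h h1
    simp only [chk, Bool.and_eq_true] at h
    obtain ⟨h2, h3⟩ := h
    refine ih _ h3 ?_
    have h4 := hR.sy S.k S.m p.1 p.2 h1
    simp only [Stp.ok, Bool.and_eq_true, Bool.or_eq_true, decide_eq_true_eq, Bool.not_eq_true'] at h2
    obtain ⟨h5, h6⟩ := h2
    have h7 : R (Lt (S.st p).1 (S.st p).2) := by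
      unfold Stp.st
      rw [Lt_eq _ _ _ _ _ _ h5]
      exact h4
    unfold Stp.fin
    cases hf : S.f
    · simpa using h7
    · rw [hf] at h6
      rcases h6 with h6 | h6
      · exact absurd h6 (by simp)
      · obtain ⟨⟨⟨⟨a1, a2⟩, a3⟩, a4⟩, a5⟩ := h6
        have h8 := hR.shr _ _ a1 a2 a3 a4 a5 h7
        have e : (S.st p).2 + (1, -1) = ((S.st p).2.1 + 1, (S.st p).2.2 - 1) := by
          refine Prod.ext rfl ?_
          show (S.st p).2.2 + -1 = (S.st p).2.2 - 1
          ring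
        rw [e] at h8
        simpa using h8

end Pool.Agent.PP
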