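import Pool.Agent.Lib_MP_7c0803_tor.Cert

/-!
# The finite certificates
-/

set_option autoImplicit false

namespace Pool.Agent.PP

lemma c21_14 : chk [⟨0, false, 7, 1, (-1), 0, true⟩, ⟨0, true, 0, (-1), (-1), 0, false⟩] ((2, 1), (-14, 0)) = true := by decide
lemma c30_4_1 : chk [⟨0, false, 0, 1, (-1), 0, true⟩, ⟨0, false, 0, (-1), 1, 4, false⟩] ((3, 0), (1, 4)) = true := by decide
lemma c40_4_2 : chk [⟨0, false, 0, 1, (-1), 0, true⟩, ⟨1, false, (-1), (-1), 0, (-1), true⟩, ⟨0, false, 1, 0, (-2), 1, false⟩] ((4, 0), (2, 4)) = true := by decide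
lemma c40_5_0 : chk [⟨1, false, 0, (-1), 1, 0, true⟩, ⟨2, false, (-1), 1, 0, (-1), true⟩, ⟨0, false, 0, (-1), 1, 5, false⟩] ((4, 0), (0, 5)) = true := by decide
lemma c31_14 : chk [⟨2, false, 7, 2, (-4), (-1), true⟩, ⟨0, true, 1, 2, (-3), (-7), false⟩] ((3, 1), (-14, 0)) = true := by decide
lemma c31_15 : chk [⟨0, false, 5, 1, (-1), 0, true⟩, ⟨1, false, (-1), (-1), 0, (-1), true⟩, ⟨0, true, 1, 0, (-3), (-1), false⟩] ((3, 1), (-15, 0)) = true := by decide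
lemma c31_17 : chk [⟨0, false, 6, 1, (-1), 0, true⟩, ⟨2, false, 1, 2, (-1), (-1), true⟩, ⟨0, false, 1, 0, (-2), 1, false⟩] ((3, 1), (-17, 0)) = true := by decide
lemma c31_20 : chk [⟨0, false, 7, 1, (-1), 0, true⟩, ⟨1, false, (-1), (-1), (-1), (-2), true⟩, ⟨0, true, 0, 1, 1, (-4), false⟩] ((3, 1), (-20, 0)) = true := by decide
lemma c22_7_0 : chk [⟨2, false, 0, 1, (-1), 0, true⟩, ⟨0, false, 1, (-2), (-3), 7, false⟩] ((2, 2), (-7, 0)) = true := by decide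
lemma c22_7_1 : chk [⟨1, false, (-3), (-1), 1, 0, true⟩, ⟨0, true, 1, 2, (-3), (-7), false⟩] ((2, 2), (-6, 1)) = true := by decide
lemma c22_8_0 : chk [⟨0, false, 1, 0, 2, 1, true⟩, ⟨1, false, (-1), (-1), 0, (-1), true⟩, ⟨0, true, 0, 1, 1, (-4), false⟩] ((2, 2), (-8, 0)) = true := by decide
lemma c22_10_0 : chk [⟨1, false, (-3), (-1), 1, 0, true⟩, ⟨2, false, 1, 3, 0, 1, true⟩, ⟨0, false, 0, 1, (-1), 0, false⟩] ((2, 2), (-10, 0)) = true := by decide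
lemma c41_19 : chk [⟨0, false, 1, 0, 4, 1, true⟩, ⟨1, false, (-1), (-2), 0, (-1), true⟩, ⟨0, false, 0, 1, (-1), 0, false⟩] ((4, 1), (-19, 0)) = true := by decide
lemma c41_20 : chk [⟨0, false, 5, 1, 4, 1, true⟩, ⟨1, false, (-1), (-1), 0, (-1), true⟩, ⟨0, true, 0, 1, 1, (-5), false⟩] ((4, 1), (-20, 0)) = true := by decide
lemma c41_26 : chk [⟨1, false, (-6), (-1), 1, 0, true⟩, ⟨0, false, 1, 0, 0, 1, true⟩, ⟨2, false, (-1), 1, 0, (-1), true⟩, ⟨0, true, 0, (-1), (-1), 0, false⟩] ((4, 1), (-26, 0)) = true := by decide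
lemma c51_27 : chk [⟨0, false, 1, 0, 5, 1, true⟩, ⟨0, false, 1, 0, 0, 1, true⟩, ⟨1, false, 1, (-3), 0, 1, true⟩, ⟨0, false, 0, (-1), 1, 5, false⟩] ((5, 1), (-27, 0)) = true := by decide
lemma c32_19 : chk [⟨0, false, 1, 0, 1, 1, true⟩, ⟨0, false, 1, (-1), 0, 1, true⟩, ⟨0, true, 1, 2, (-3), (-7), false⟩] ((3, 2), (-8, 1)) = true := by decide
lemma c32_20 : chk [⟨0, false, 1, 0, 2, 1, true⟩, ⟨1, false, (-1), (-2), 0, (-1), true⟩, ⟨0, true, 0, 1, 1, (-5), false⟩] ((3, 2), (-10, 0)) = true := by decide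
lemma c32_21 : chk [⟨0, false, 3, 1, (-1), 0, true⟩, ⟨0, false, 1, 0, 1, 1, true⟩, ⟨0, false, 1, (-2), (-3), 7, false⟩] ((3, 2), (-9, 1)) = true := by decide
lemma c33_27_0 : chk [⟨0, false, 1, 0, 1, 1, true⟩, ⟨1, false, (-1), (-2), 1, 1, true⟩, ⟨0, false, 1, 0, 1, 1, true⟩, ⟨0, false, 1, (-2), (-3), 7, false⟩] ((3, 3), (-9, 0)) = true := by decide
lemma c33_27_1 : chk [⟨0, false, 1, 0, 1, 1, true⟩, ⟨0, false, 1, (-1), 0, 1, true⟩, ⟨2, false, (-1), 0, 0, (-1), true⟩, ⟨0, true, 0, (-1), (-1), 0, false⟩] ((3, 3), (-8, 1)) = true := by decide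
lemma c33_27_2 : chk [⟨0, false, 1, 0, 1, 1, true⟩, ⟨0, false, 1, 1, 0, 1, true⟩, ⟨1, false, (-1), 0, 0, (-1), true⟩, ⟨0, false, 0, 1, (-1), 0, false⟩] ((3, 3), (-7, 2)) = true := by decide

end Pool.Agent.PP
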