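import Pool.Agent.Lib_MP_7c0803_tor.Iso

/-!
# Coordinates on a cubic bipartite multigraph with `(s t)³ = 1`

Let `D : CB E` with `s (t (s (t (s (t e))))) = e` for all `e`.  In `Equiv.Perm E` put `X = s⁻¹ t`, `Y = s t⁻¹`.
(1) `X Y = Y X` (`s⁻¹ t s t⁻¹ = s⁻¹ (t s t) t = s⁻¹ s⁻¹ t⁻¹ s⁻¹ t = s t⁻¹ s⁻¹ t`, using `s³ = t³ = 1` and `t s t = s⁻¹ t⁻¹ s⁻¹`).
(2) `φ x i = s^i X^(-x.1) Y^(-x.2) e0` (`x : ℤ × ℤ`, `i = 0, 1, 2`).  Rules `s (φ x i) = φ x (i + 1)` and
    `t (φ x i) = φ (x + δ i - δ (i + 1)) (i + 1)`: for `i = 0`: `t = s X`; for `i = 1`: `t s = s² X⁻¹ Y`, because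
    `s t s = t⁻¹ s⁻¹ t⁻¹ = X⁻¹ Y`; for `i = 2`: `t s² = t s⁻¹ = Y⁻¹`.
(3) `L = {x | φ x 0 = e0}` is a subgroup, `φ x i = φ y i ↔ x - y ∈ L` (the powers of `X`, `Y` commute).
(4) `φ x 0 ≠ φ y 1` and `≠ φ y 2` if `s`, `t` and `s t` have no fixed points: a translation `W = X^a Y^b` never satisfies `W e = s e`:
    `R = W⁻¹ s = X^(-a) Y^(-b) s` is conjugate (by a translation) to `s`, to `t = s X = Y⁻¹ s` or to `(s t)⁻¹ = X⁻¹ s`, according to
    `a - b` mod 3: from `s X s⁻¹ = Y⁻¹`, `s Y s⁻¹ = X Y⁻¹`: for `Z = X^c Y^d`: `Z s Z⁻¹ = X^(c-d) Y^(c+2d) s`.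
(5) if `X^n = 1 = Y^n` (finite order) then `(n, 0), (0, n) ∈ L`.
-/

set_option autoImplicit false

open Finset Function

namespace Pool.Agent.PP

universe u

variable {E : Type u}

section group
variable {G : Type u} [Group G] {s t : G}

private lemma Coord_ss (hs : s * s * s = 1) : s * s = s⁻¹ := eq_inv_of_mul_eq_one_left hs

private lemma Coord_ii (hs : s * s * s = 1) : s⁻¹ * s⁻¹ = s := by
  rw [← mul_inv_rev, Coord_ss hs, inv_inv]

private lemma Coord_tst (hst : s * t * (s * t) * (s * t) = 1) : t * s * t = s⁻¹ * t⁻¹ * s⁻¹ := by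
  have h : s * (t * s * t) * (s * t) = 1 := by
    rw [← hst]
    group
  have h2 : s * (t * s * t) = (s * t)⁻¹ := eq_inv_of_mul_eq_one_left h
  have h3 : t * s * t = s⁻¹ * (s * (t * s * t)) := by group
  rw [h3, h2]
  group

private lemma Coord_sts (hst : s * t * (s * t) * (s * t) = 1) : s * t * s = t⁻¹ * s⁻¹ * t⁻¹ := by
  have h : (s * t * s) * (t * (s * t)) = 1 := by
    rw [← hst]
    group
  have h2 : s * t * s = (t * (s * t))⁻¹ := eq_inv_of_mul_eq_one_left h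
  rw [h2]
  group

private lemma Coord_comm (hs : s * s * s = 1) (ht : t * t * t = 1) (hst : s * t * (s * t) * (s * t) = 1) :
    Commute (s⁻¹ * t) (s * t⁻¹) := by
  change s⁻¹ * t * (s * t⁻¹) = s * t⁻¹ * (s⁻¹ * t)
  calc s⁻¹ * t * (s * t⁻¹) = s⁻¹ * (t * s * t) * t := by
        rw [← Coord_ss ht]
        group
    _ = s⁻¹ * (s⁻¹ * t⁻¹ * s⁻¹) * t := by rw [Coord_tst hst]
    _ = (s⁻¹ * s⁻¹) * t⁻¹ * (s⁻¹ * t) := by group
    _ = _ := by rw [Coord_ii hs]

private lemma Coord_r1 (hs : s * s * s = 1) (hst : s * t * (s * t) * (s * t) = 1) :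
    t * s = s * s * ((s⁻¹ * t)⁻¹ * (s * t⁻¹)) := by
  calc t * s = s⁻¹ * (s * t * s) := by group
    _ = s⁻¹ * (t⁻¹ * s⁻¹ * t⁻¹) := by rw [Coord_sts hst]
    _ = s * s * (t⁻¹ * s⁻¹ * t⁻¹) := by rw [Coord_ss hs]
    _ = s * s * (t⁻¹ * (s * s) * t⁻¹) := by rw [Coord_ss hs]
    _ = _ := by group

private lemma Coord_r2 (hs : s * s * s = 1) : t * (s * s) = (s * t⁻¹)⁻¹ := by
  rw [Coord_ss hs]
  group

private lemma Coord_c1 : s * (s⁻¹ * t) * s⁻¹ = (s * t⁻¹)⁻¹ := by group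

private lemma Coord_c2 (hs : s * s * s = 1) (ht : t * t * t = 1) :
    s * (s * t⁻¹) * s⁻¹ = (s⁻¹ * t) * (s * t⁻¹)⁻¹ := by
  calc s * (s * t⁻¹) * s⁻¹ = (s * s) * t⁻¹ * s⁻¹ := by group
    _ = s⁻¹ * (t * t) * s⁻¹ := by rw [Coord_ss hs, Coord_ss ht]
    _ = _ := by group

end group

private lemma Coord_conj {G : Type u} [Group G] {s X Y : G} (hc : Commute X Y) (h1 : s * X * s⁻¹ = Y⁻¹)
    (h2 : s * Y * s⁻¹ = X * Y⁻¹) (a b c d : ℤ) :
    (X ^ c * Y ^ d) * (X ^ a * Y ^ b * s) * (X ^ c * Y ^ d)⁻¹ =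
      X ^ (a + c - d) * Y ^ (b + c + 2 * d) * s := by
  have e1 : s * X ^ (-c) * s⁻¹ = Y ^ c := by
    rw [← conj_zpow, h1, inv_zpow, zpow_neg, inv_inv]
  have e2 : s * Y ^ (-d) * s⁻¹ = X ^ (-d) * Y ^ d := by
    have hc' : Commute X Y⁻¹ := hc.inv_right
    rw [← conj_zpow, h2, hc'.mul_zpow, inv_zpow, zpow_neg, zpow_neg, inv_inv]
  have e3 : s * (X ^ c * Y ^ d)⁻¹ = (X ^ (-d) * Y ^ d) * Y ^ c * s := by
    calc s * (X ^ c * Y ^ d)⁻¹ = (s * Y ^ (-d) * s⁻¹) * (s * X ^ (-c) * s⁻¹) * s := by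
          rw [mul_inv_rev, zpow_neg, zpow_neg]
          group
      _ = _ := by rw [e1, e2]
  have hYX : ∀ m n : ℤ, Y ^ m * X ^ n = X ^ n * Y ^ m := fun m n => (hc.zpow_zpow n m).eq.symm
  calc (X ^ c * Y ^ d) * (X ^ a * Y ^ b * s) * (X ^ c * Y ^ d)⁻¹
      = X ^ c * (Y ^ d * X ^ a) * Y ^ b * (s * (X ^ c * Y ^ d)⁻¹) := by group
    _ = X ^ c * (X ^ a * Y ^ d) * Y ^ b * ((X ^ (-d) * Y ^ d) * Y ^ c * s) := by rw [hYX, e3]
    _ = X ^ c * X ^ a * (Y ^ (d + b) * X ^ (-d)) * Y ^ d * Y ^ c * s := by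
        rw [zpow_add Y d b]
        simp only [mul_assoc]
    _ = X ^ c * X ^ a * (X ^ (-d) * Y ^ (d + b)) * Y ^ d * Y ^ c * s := by rw [hYX]
    _ = X ^ (c + a + -d) * Y ^ (d + b + d + c) * s := by
        rw [zpow_add X (c + a), zpow_add X c a, zpow_add Y (d + b + d) c, zpow_add Y (d + b) d]
        simp only [mul_assoc]
    _ = _ := by
        congr 2
        · congr 1
          ring
        · congr 1
          ring

/-- a translation never agrees with `s` -/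
private lemma Coord_nofix {s t : Equiv.Perm E} (hs : s * s * s = 1) (ht : t * t * t = 1)
    (hst : s * t * (s * t) * (s * t) = 1) (s1 : ∀ e, s e ≠ e) (t1 : ∀ e, t e ≠ e)
    (h1 : ∀ e, s (t e) ≠ e) (a b : ℤ) (e : E) :
    ((s⁻¹ * t) ^ a * (s * t⁻¹) ^ b * s) e ≠ e := by
  intro he
  have hc := Coord_comm hs ht hst
  have c1 := Coord_c1 (s := s) (t := t)
  have c2 := Coord_c2 hs ht
  set X := s⁻¹ * t with hX
  set Y := s * t⁻¹ with hY
  have key : ∀ c d : ℤ, (X ^ (a + c - d) * Y ^ (b + c + 2 * d) * s) ((X ^ c * Y ^ d) e) =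
      (X ^ c * Y ^ d) e := by
    intro c d
    rw [← Coord_conj hc c1 c2]
    have h2 : (X ^ c * Y ^ d)⁻¹ ((X ^ c * Y ^ d) e) = e := (X ^ c * Y ^ d).symm_apply_apply e
    change (X ^ c * Y ^ d) ((X ^ a * Y ^ b * s) ((X ^ c * Y ^ d)⁻¹ ((X ^ c * Y ^ d) e))) = _
    rw [h2, he]
  have hYs : Y⁻¹ * s = t := by
    rw [hY]
    group
  have hXs : X⁻¹ * s = (s * t)⁻¹ := by
    rw [hX, mul_inv_rev, inv_inv, mul_assoc, Coord_ss hs, mul_inv_rev]
  obtain ⟨d, r, hdr, hr⟩ : ∃ d r : ℤ, a - b = 3 * d + r ∧ (r = 0 ∨ r = 1 ∨ r = -1) := by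
    refine ⟨(a - b + 1) / 3, (a - b + 1) % 3 - 1, ?_, ?_⟩ <;> omega
  rcases hr with rfl | rfl | rfl
  · have := key (d - a) d
    rw [show a + (d - a) - d = 0 by ring, show b + (d - a) + 2 * d = 0 by linarith, zpow_zero,
      zpow_zero, one_mul, one_mul] at this
    exact s1 _ this
  · have := key (d - a) d
    rw [show a + (d - a) - d = 0 by ring, show b + (d - a) + 2 * d = -1 by linarith, zpow_zero,
      zpow_neg_one, one_mul, hYs] at this
    exact t1 _ this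
  · have := key (d - a - 1) d
    rw [show a + (d - a - 1) - d = -1 by ring, show b + (d - a - 1) + 2 * d = 0 by linarith, zpow_zero,
      zpow_neg_one, mul_one, hXs] at this
    apply h1 ((X ^ (d - a - 1) * Y ^ d) e)
    have h2 := congrArg (s * t) this
    have h3 : (s * t) ((s * t)⁻¹ ((X ^ (d - a - 1) * Y ^ d) e)) = (X ^ (d - a - 1) * Y ^ d) e :=
      (s * t).apply_symm_apply _
    rw [h3] at h2
    exact h2.symm

/-- the orbit map with its lattice -/
theorem exists_coord [Finite E] (D : CB E) (h3 : ∀ e, D.s (D.t (D.s (D.t (D.s (D.t e))))) = e) (h1 : ∀ e, D.s (D.t e) ≠ e)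
    (e0 : E) : ∃ (φ : ℤ × ℤ → Fin 3 → E) (L : AddSubgroup (ℤ × ℤ)) (n : ℤ), 0 < n ∧ (n, 0) ∈ L ∧ (0, n) ∈ L ∧
      φ 0 0 = e0 ∧ (∀ x i, D.s (φ x i) = φ x (i + 1)) ∧
      (∀ x i, D.t (φ x i) = φ (x + dl (1, 0) (0, 1) i - dl (1, 0) (0, 1) (i + 1)) (i + 1)) ∧
      (∀ x y i j, φ x i = φ y j ↔ (i = j ∧ x - y ∈ L)) := by
  have hs : D.s * D.s * D.s = 1 := Equiv.ext D.s3
  have ht : D.t * D.t * D.t = 1 := Equiv.ext D.t3
  have hst : D.s * D.t * (D.s * D.t) * (D.s * D.t) = 1 := Equiv.ext h3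
  have hc := Coord_comm hs ht hst
  have hnf := Coord_nofix hs ht hst D.s1 D.t1 h1
  have r1 := Coord_r1 hs hst
  have r2 := Coord_r2 (t := D.t) hs
  have r0 : D.t = D.s * (D.s⁻¹ * D.t) := by group
  set s := D.s with hsdef
  set t := D.t with htdef
  set X := s⁻¹ * t with hX
  set Y := s * t⁻¹ with hY
  -- translations
  let W : ℤ × ℤ → Equiv.Perm E := fun x => X ^ (-x.1) * Y ^ (-x.2)
  have hYX : ∀ m n : ℤ, Y ^ m * X ^ n = X ^ n * Y ^ m := fun m n => (hc.zpow_zpow n m).eq.symm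
  have hW0 : W 0 = 1 := by
    change X ^ (-(0 : ℤ)) * Y ^ (-(0 : ℤ)) = 1
    simp
  have hWadd : ∀ x y, W (x + y) = W x * W y := by
    intro x y
    change X ^ (-(x.1 + y.1)) * Y ^ (-(x.2 + y.2)) = X ^ (-x.1) * Y ^ (-x.2) * (X ^ (-y.1) * Y ^ (-y.2))
    calc X ^ (-(x.1 + y.1)) * Y ^ (-(x.2 + y.2))
        = X ^ (-x.1) * (X ^ (-y.1) * Y ^ (-x.2)) * Y ^ (-y.2) := by
          rw [neg_add, neg_add, zpow_add, zpow_add]
          simp only [mul_assoc]
      _ = X ^ (-x.1) * (Y ^ (-x.2) * X ^ (-y.1)) * Y ^ (-y.2) := by rw [hYX]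
      _ = _ := by simp only [mul_assoc]
  have hWneg : ∀ x, W (-x) = (W x)⁻¹ := by
    intro x
    refine eq_inv_of_mul_eq_one_left ?_
    rw [← hWadd, neg_add_cancel, hW0]
  have hWsub : ∀ x y, W (x - y) = W x * (W y)⁻¹ := by
    intro x y
    rw [sub_eq_add_neg, hWadd, hWneg]
  -- the lattice
  let L : AddSubgroup (ℤ × ℤ) :=
    { carrier := {x | W x e0 = e0}
      zero_mem' := by
        change W 0 e0 = e0
        rw [hW0]
        rfl
      add_mem' := by
        intro x y hx hy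
        change W (x + y) e0 = e0
        rw [hWadd]
        change W x (W y e0) = e0
        rw [show W y e0 = e0 from hy, show W x e0 = e0 from hx]
      neg_mem' := by
        intro x hx
        change W (-x) e0 = e0
        rw [hWneg]
        change (W x).symm e0 = e0
        rw [Equiv.symm_apply_eq]
        exact (show W x e0 = e0 from hx).symm }
  have hL : ∀ x, x ∈ L ↔ W x e0 = e0 := fun x => Iff.rfl
  have hW_iff : ∀ x y, W x e0 = W y e0 ↔ x - y ∈ L := by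
    intro x y
    have hcom : W x * (W y)⁻¹ = (W y)⁻¹ * W x := by
      rw [← hWneg, ← hWadd, ← hWadd, add_comm]
    rw [hL, hWsub, hcom]
    change _ ↔ (W y).symm (W x e0) = e0
    rw [Equiv.symm_apply_eq]
  -- no agreement of s with a translation
  have hne : ∀ x y, s (W x e0) ≠ W y e0 := by
    intro x y h
    have h2 : ((W (y - x))⁻¹ * s) (W x e0) = W x e0 := by
      change (W (y - x)).symm (s (W x e0)) = W x e0
      rw [Equiv.symm_apply_eq, h]
      change W y e0 = (W (y - x) * W x) e0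
      rw [← hWadd, sub_add_cancel]
    rw [← hWneg] at h2
    exact hnf _ _ _ h2
  have hinj : Function.Injective s := s.injective
  have hsss : ∀ e, s (s (s e)) = e := D.s3
  let φ : ℤ × ℤ → Fin 3 → E := fun x i => if i = 0 then W x e0 else if i = 1 then s (W x e0) else s (s (W x e0))
  have φ0 : ∀ x, φ x 0 = W x e0 := fun x => rfl
  have φ1 : ∀ x, φ x 1 = s (W x e0) := fun x => rfl
  have φ2 : ∀ x, φ x 2 = s (s (W x e0)) := fun x => rfl
  have a01 : (0 : Fin 3) + 1 = 1 := rfl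
  have a12 : (1 : Fin 3) + 1 = 2 := rfl
  have a20 : (2 : Fin 3) + 1 = 0 := rfl
  refine ⟨φ, L, (orderOf X : ℤ) * orderOf Y, ?_, ?_, ?_, ?_, ?_, ?_, ?_⟩
  · have hfin : Finite (Equiv.Perm E) := inferInstance
    have q1 : 0 < orderOf X := orderOf_pos X
    have q2 : 0 < orderOf Y := orderOf_pos Y
    positivity
  · rw [hL]
    change (X ^ (-((orderOf X : ℤ) * orderOf Y)) * Y ^ (-(0 : ℤ))) e0 = e0
    rw [zpow_neg, zpow_mul, zpow_natCast, zpow_natCast, pow_orderOf_eq_one, one_pow]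
    simp
  · rw [hL]
    change (X ^ (-(0 : ℤ)) * Y ^ (-((orderOf X : ℤ) * orderOf Y))) e0 = e0
    rw [mul_comm, zpow_neg Y, zpow_mul, zpow_natCast, zpow_natCast, pow_orderOf_eq_one, one_pow]
    simp
  · rw [φ0, hW0]
    rfl
  · intro x i
    fin_cases i
    · rfl
    · rfl
    · change s (φ x 2) = φ x 0
      rw [φ2, φ0, hsss]
  · intro x i
    fin_cases i
    · change t (φ x 0) = φ (x + 0 - (1, 0)) 1
      rw [φ0, φ1]
      have h : W (x + 0 - (1, 0)) = X * W x := by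
        change X ^ (-(x.1 + 0 - 1)) * Y ^ (-(x.2 + 0 - 0)) = X * (X ^ (-x.1) * Y ^ (-x.2))
        rw [← mul_assoc, ← zpow_one_add]
        congr 2 <;> ring
      rw [h]
      change t (W x e0) = (s * X) (W x e0)
      rw [← r0]
    · change t (φ x 1) = φ (x + (1, 0) - (0, 1)) 2
      rw [φ1, φ2]
      have h : W (x + (1, 0) - (0, 1)) = X⁻¹ * Y * W x := by
        change X ^ (-(x.1 + 1 - 0)) * Y ^ (-(x.2 + 0 - 1)) = X⁻¹ * Y * (X ^ (-x.1) * Y ^ (-x.2))
        calc X ^ (-(x.1 + 1 - 0)) * Y ^ (-(x.2 + 0 - 1))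
            = X ^ (-1 + -x.1) * Y ^ (1 + -x.2) := by
              congr 2 <;> ring
          _ = X ^ (-1 : ℤ) * (X ^ (-x.1) * Y ^ (1 : ℤ)) * Y ^ (-x.2) := by
              rw [zpow_add, zpow_add]
              simp only [mul_assoc]
          _ = X ^ (-1 : ℤ) * (Y ^ (1 : ℤ) * X ^ (-x.1)) * Y ^ (-x.2) := by rw [hYX]
          _ = _ := by
              rw [zpow_neg_one, zpow_one]
              simp only [mul_assoc]
      rw [h]
      change (t * s) (W x e0) = (s * s * (X⁻¹ * Y)) (W x e0)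
      rw [r1]
    · change t (φ x 2) = φ (x + (0, 1) - 0) 0
      rw [φ2, φ0]
      have h : W (x + (0, 1) - 0) = Y⁻¹ * W x := by
        change X ^ (-(x.1 + 0 - 0)) * Y ^ (-(x.2 + 1 - 0)) = Y⁻¹ * (X ^ (-x.1) * Y ^ (-x.2))
        calc X ^ (-(x.1 + 0 - 0)) * Y ^ (-(x.2 + 1 - 0))
            = X ^ (-x.1) * Y ^ (-1 + -x.2) := by
              congr 2 <;> ring
          _ = (X ^ (-x.1) * Y ^ (-1 : ℤ)) * Y ^ (-x.2) := by
              rw [zpow_add]
              simp only [mul_assoc]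
          _ = (Y ^ (-1 : ℤ) * X ^ (-x.1)) * Y ^ (-x.2) := by rw [hYX]
          _ = _ := by
              rw [zpow_neg_one]
              simp only [mul_assoc]
      rw [h]
      change (t * (s * s)) (W x e0) = Y⁻¹ (W x e0)
      rw [r2]
  · have hcases : ∀ x y (i j : Fin 3), i ≠ j → φ x i ≠ φ y j := by
      intro x y i j hij h
      fin_cases i <;> fin_cases j
      · exact hij rfl
      · exact hne y x h.symm
      · have h' : W x e0 = s (s (W y e0)) := h
        apply hne x y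
        rw [h', hsss]
      · exact hne x y h
      · exact hij rfl
      · exact hne y x (hinj h).symm
      · have h' : s (s (W x e0)) = W y e0 := h
        apply hne y x
        rw [← h', hsss]
      · exact hne x y (hinj h)
      · exact hij rfl
    intro x y i j
    constructor
    · intro h
      have hij : i = j := by
        by_contra hne2
        exact hcases x y i j hne2 h
      subst hij
      refine ⟨rfl, (hW_iff x y).1 ?_⟩
      fin_cases i
      · exact h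
      · exact hinj h
      · exact hinj (hinj h)
    · rintro ⟨rfl, h⟩
      have h2 := (hW_iff x y).2 h
      fin_cases i
      · exact h2
      · exact congrArg s h2
      · exact congrArg (fun e => s (s e)) h2

end Pool.Agent.PP
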