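import Pool.Agent.Lib_MP_7c0803_tor.KDefs

/-!
# The orientation double cover: basic facts

`fl (e, o) = (e, !o)` exchanges the sheets and inverts both rotations.  `nx (nx (e, true, o))` is the state `(e', true, o')` with
`(e', o') = s (t (e, o))` in the double cover; so `nx⁶ = 1` gives `(s t)³ = 1`.  `s (t a) = a` would give parallel edges: `t a = s⁻¹ a`, so the
first components share both ends (`CoordT_par'` in `CoordT.lean`, private, copy it).
-/

set_option autoImplicit false

open Finset Function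

namespace Pool.Agent.PP

universe u

variable {E : Type u}

/-- exchange the sheets -/
def fl (a : E × Bool) : E × Bool := (a.1, !a.2)

@[simp] lemma fl_fl (a : E × Bool) : fl (fl a) = a := by
  unfold fl
  simp

lemma fl_ne (a : E × Bool) : fl a ≠ a := by
  intro h
  have h2 := congrArg Prod.snd h
  unfold fl at h2
  revert h2
  cases a.2 <;> simp

private lemma DcB_par (G : CB E) {e f : E} (hg : SO G.s e f) (hh : SO G.t e f) :
    Nonempty (Th G) ∨ Nonempty (Dg G) := by
  have tri : ∀ {s : Equiv.Perm E}, (∀ e, s (s (s e)) = e) → SO s e f → ∃ g, Tri s g e f := by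
    intro s s3 h
    rcases h with h | h
    · subst h
      exact ⟨s (s e), Or.inl ⟨s3 e, rfl, rfl⟩⟩
    · subst h
      exact ⟨s e, Or.inr ⟨rfl, s3 e, rfl⟩⟩
  obtain ⟨g, hg⟩ := tri G.s3 hg
  obtain ⟨h, hh⟩ := tri G.t3 hh
  by_cases hgh : g = h
  · subst hgh
    exact Or.inl ⟨⟨e, f, g, hg, hh⟩⟩
  · exact Or.inr ⟨⟨e, f, g, h, hg, hh, hgh⟩⟩

private lemma DcB_symm {s : Equiv.Perm E} (s3 : ∀ e, s (s (s e)) = e) (e : E) : s.symm e = s (s e) := by
  rw [Equiv.symm_apply_eq, s3]

private lemma DcB_SO_symm {s : Equiv.Perm E} (s3 : ∀ e, s (s (s e)) = e) {e f : E} (h : SO s e f) : SO s f e := by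
  rcases h with h | h
  · subst h
    exact Or.inr (s3 e).symm
  · subst h
    exact Or.inl (s3 e).symm

lemma dc_fl_s (B : CB E) (tw : E → Bool) (a : E × Bool) : (dc B tw).s (fl ((dc B tw).s a)) = fl a := by
  obtain ⟨e, o⟩ := a
  cases o
  · show (B.s (B.s.symm e), !false) = (e, !false)
    rw [Equiv.apply_symm_apply]
  · show (B.s.symm (B.s e), !true) = (e, !true)
    rw [Equiv.symm_apply_apply]

lemma dc_fl_t (B : CB E) (tw : E → Bool) (a : E × Bool) : (dc B tw).t (fl ((dc B tw).t a)) = fl a := by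
  obtain ⟨e, o⟩ := a
  rw [dc_t]
  unfold fl
  rw [dc_t]
  cases hc : xor o (tw e)
  · have h1 : (xor (!(xor false (tw (if false = true then B.t e else B.t.symm e))))
        (tw (if false = true then B.t e else B.t.symm e))) = true := by
      generalize tw (if false = true then B.t e else B.t.symm e) = b
      cases b <;> rfl
    simp only [Bool.false_eq_true, if_false] at h1 ⊢
    rw [h1]
    simp only [if_true, Equiv.apply_symm_apply]
    refine Prod.ext rfl ?_
    show xor true (tw e) = !o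
    revert hc
    cases o <;> cases tw e <;> simp
  · have h1 : (xor (!(xor true (tw (B.t e)))) (tw (B.t e))) = false := by
      generalize tw (B.t e) = b
      cases b <;> rfl
    simp only [if_true] at h1 ⊢
    rw [h1]
    simp only [Bool.false_eq_true, if_false, Equiv.symm_apply_apply]
    refine Prod.ext rfl ?_
    show xor false (tw e) = !o
    revert hc
    cases o <;> cases tw e <;> simp

lemma SO_dc_s (B : CB E) (tw : E → Bool) (e f : E) (o o' : Bool) :
    SO (dc B tw).s (e, o) (f, o') ↔ (SO B.s e f ∧ o' = o) := by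
  unfold SO
  cases o
  · simp only [dc_s, Bool.false_eq_true, if_false, DcB_symm B.s3, Prod.mk.injEq, B.s3]
    tauto
  · simp only [dc_s, if_true, Prod.mk.injEq]
    tauto

lemma SO_dc_t (B : CB E) (tw : E → Bool) (e f : E) (o o' : Bool) :
    SO (dc B tw).t (e, o) (f, o') ↔ (SO B.t e f ∧ xor o' (tw f) = xor o (tw e)) := by
  have key : ∀ (x : E) (c : Bool), xor (xor c (tw x)) (tw x) = c := by
    intro x c
    cases c <;> cases tw x <;> rfl
  have key2 : ∀ (x : E) (c d : Bool), (d = xor c (tw x)) ↔ (xor d (tw x) = c) := by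
    intro x c d
    cases c <;> cases d <;> cases tw x <;> simp
  unfold SO
  rw [dc_t, dc_t]
  generalize hc : xor o (tw e) = c
  rw [key]
  cases c
  · simp only [Bool.false_eq_true, if_false, DcB_symm B.t3, Prod.mk.injEq, B.t3]
    constructor
    · rintro (⟨h1, h2⟩ | ⟨h1, h2⟩)
      · subst h1
        exact ⟨Or.inr rfl, (key2 _ _ _).1 h2⟩
      · subst h1
        exact ⟨Or.inl rfl, (key2 _ _ _).1 h2⟩
    · rintro ⟨h1 | h1, h2⟩
      · subst h1
        exact Or.inr ⟨rfl, (key2 _ _ _).2 h2⟩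
      · subst h1
        exact Or.inl ⟨rfl, (key2 _ _ _).2 h2⟩
  · simp only [if_true, Prod.mk.injEq]
    constructor
    · rintro (⟨h1, h2⟩ | ⟨h1, h2⟩)
      · subst h1
        exact ⟨Or.inl rfl, (key2 _ _ _).1 h2⟩
      · subst h1
        exact ⟨Or.inr rfl, (key2 _ _ _).1 h2⟩
    · rintro ⟨h1 | h1, h2⟩
      · subst h1
        exact Or.inl ⟨rfl, (key2 _ _ _).2 h2⟩
      · subst h1
        exact Or.inr ⟨rfl, (key2 _ _ _).2 h2⟩

private lemma DcB_nx2 (B : CB E) (tw : E → Bool) (a : E × Bool) :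
    B.nx tw (B.nx tw (a.1, true, a.2)) =
      (((dc B tw).s ((dc B tw).t a)).1, true, ((dc B tw).s ((dc B tw).t a)).2) := by
  obtain ⟨e, o⟩ := a
  rfl

lemma dc_h3 (B : CB E) (tw : E → Bool) (h6 : ∀ a, (B.nx tw)^[6] a = a) (a : E × Bool) :
    (dc B tw).s ((dc B tw).t ((dc B tw).s ((dc B tw).t ((dc B tw).s ((dc B tw).t a))))) = a := by
  have h := h6 (a.1, true, a.2)
  have h2 : B.nx tw (B.nx tw (B.nx tw (B.nx tw (B.nx tw (B.nx tw (a.1, true, a.2)))))) =
      (a.1, true, a.2) := h
  rw [DcB_nx2, DcB_nx2, DcB_nx2] at h2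
  simp only [Prod.mk.injEq, true_and] at h2
  exact Prod.ext h2.1 h2.2

lemma dc_h1 (B : CB E) (tw : E → Bool) (hT : IsEmpty (Th B)) (hD : IsEmpty (Dg B)) (a : E × Bool) :
    (dc B tw).s ((dc B tw).t a) ≠ a := by
  intro h
  have h1 : SO (dc B tw).s (((dc B tw).t a).1, ((dc B tw).t a).2) (a.1, a.2) := Or.inl h.symm
  have h2 : SO (dc B tw).t (a.1, a.2) (((dc B tw).t a).1, ((dc B tw).t a).2) := Or.inl rfl
  have h3 := ((SO_dc_s B tw _ _ _ _).1 h1).1
  have h4 := DcB_SO_symm B.t3 ((SO_dc_t B tw _ _ _ _).1 h2).1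
  rcases DcB_par B h3 h4 with h5 | h5
  · exact hT.elim h5.some
  · exact hD.elim h5.some

end Pool.Agent.PP
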