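import Pool.Agent.Lib_MP_7c0803_pp.TopD

/-!
# Toroidal cubic bipartite graphs: definitions

`HG a b`: the honeycomb graph of an abelian group `A` and two elements `a`, `b`: `X`-vertices `x : A`, `Y`-vertices `y : A`, the edge
`(x, i)` joins the `X`-vertex `x` and the `Y`-vertex `x + δ i`, `δ = (0, a, b)`.  `HT Λ`: the honeycomb torus of a sublattice `Λ` of
`ℤ × ℤ`.
-/

set_option autoImplicit false

open Finset Function

namespace Pool.Agent.PP

universe u v w

/-! ### honeycomb graphs of abelian groups -/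

section honey
variable {A : Type u} [AddCommGroup A]

/-- the three differences -/
def dl (a b : A) (i : Fin 3) : A := if i = 0 then 0 else if i = 1 then a else b

@[simp] lemma dl_zero (a b : A) : dl a b 0 = 0 := rfl
@[simp] lemma dl_one (a b : A) : dl a b 1 = a := rfl
@[simp] lemma dl_two (a b : A) : dl a b 2 = b := rfl

lemma fin3_add3 : ∀ i : Fin 3, i + 1 + 1 + 1 = i := by decide
lemma fin3_add_sub : ∀ i : Fin 3, i + 1 - 1 = i := by decide
lemma fin3_sub_add : ∀ i : Fin 3, i - 1 + 1 = i := by decide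
lemma fin3_add_ne : ∀ i : Fin 3, i + 1 ≠ i := by decide

/-- the honeycomb graph of `A`, `a`, `b` -/
def HG (a b : A) : CB (A × Fin 3) where
  s :=
    { toFun := fun p => (p.1, p.2 + 1)
      invFun := fun p => (p.1, p.2 - 1)
      left_inv := fun p => Prod.ext rfl (fin3_add_sub p.2)
      right_inv := fun p => Prod.ext rfl (fin3_sub_add p.2) }
  t :=
    { toFun := fun p => (p.1 + dl a b p.2 - dl a b (p.2 + 1), p.2 + 1)
      invFun := fun p => (p.1 + dl a b p.2 - dl a b (p.2 - 1), p.2 - 1)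
      left_inv := fun p => by
        refine Prod.ext ?_ (fin3_add_sub p.2)
        simp only [fin3_add_sub]
        abel
      right_inv := fun p => by
        refine Prod.ext ?_ (fin3_sub_add p.2)
        simp only [fin3_sub_add]
        abel }
  s3 := fun p => Prod.ext rfl (fin3_add3 p.2)
  t3 := fun p => by
    refine Prod.ext ?_ (fin3_add3 p.2)
    simp only [Equiv.coe_fn_mk, fin3_add3]
    abel
  s1 := fun p h => fin3_add_ne p.2 (congrArg Prod.snd h)
  t1 := fun p h => fin3_add_ne p.2 (congrArg Prod.snd h)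

lemma HG_s (a b : A) (x : A) (i : Fin 3) : (HG a b).s (x, i) = (x, i + 1) := rfl

lemma HG_t (a b : A) (x : A) (i : Fin 3) :
    (HG a b).t (x, i) = (x + dl a b i - dl a b (i + 1), i + 1) := rfl

lemma fin3_ne_iff : ∀ i j : Fin 3, (j = i + 1 ∨ j = i + 1 + 1) ↔ j ≠ i := by decide

/-- two edges have the same `X`-end -/
lemma SO_HG_s (a b : A) (x y : A) (i j : Fin 3) : SO (HG a b).s (x, i) (y, j) ↔ (y = x ∧ j ≠ i) := by
  rw [← fin3_ne_iff]
  unfold SO
  simp only [HG_s, Prod.mk.injEq]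
  tauto

/-- two edges have the same `Y`-end -/
lemma SO_HG_t (a b : A) (x y : A) (i j : Fin 3) :
    SO (HG a b).t (x, i) (y, j) ↔ (y + dl a b j = x + dl a b i ∧ j ≠ i) := by
  rw [← fin3_ne_iff]
  unfold SO
  simp only [HG_t, Prod.mk.injEq]
  constructor
  · rintro (⟨h1, h2⟩ | ⟨h1, h2⟩)
    · subst h2
      exact ⟨by rw [h1]; abel, Or.inl rfl⟩
    · subst h2
      exact ⟨by rw [h1]; abel, Or.inr rfl⟩
  · rintro ⟨h1, h2 | h2⟩
    · subst h2
      exact Or.inl ⟨by rw [← h1]; abel, rfl⟩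
    · subst h2
      exact Or.inr ⟨by rw [← h1]; abel, rfl⟩

end honey

/-! ### sublattices of `ℤ × ℤ` -/

/-- the sublattice generated by two vectors -/
def Lt (u v : ℤ × ℤ) : AddSubgroup (ℤ × ℤ) := AddSubgroup.closure {u, v}

lemma mem_Lt {u v x : ℤ × ℤ} : x ∈ Lt u v ↔ ∃ i j : ℤ, i • u + j • v = x := AddSubgroup.mem_closure_pair

/-- membership in coordinates -/
lemma mem_Lt' {u v x : ℤ × ℤ} : x ∈ Lt u v ↔ ∃ i j : ℤ, i * u.1 + j * v.1 = x.1 ∧ i * u.2 + j * v.2 = x.2 := by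
  rw [mem_Lt]
  constructor
  · rintro ⟨i, j, h⟩
    exact ⟨i, j, by simpa using congrArg Prod.fst h, by simpa using congrArg Prod.snd h⟩
  · rintro ⟨i, j, h1, h2⟩
    exact ⟨i, j, Prod.ext (by simpa using h1) (by simpa using h2)⟩

/-- the determinant of two vectors -/
def dt (u v : ℤ × ℤ) : ℤ := u.1 * v.2 - u.2 * v.1

/-- the hexagonal norm -/
def nrm (x : ℤ × ℤ) : ℤ := max (max |x.1| |x.2|) |x.1 + x.2|

/-- the rotation `(x, y) ↦ (-x - y, x)` -/
def rho : ℤ × ℤ ≃+ ℤ × ℤ where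
  toFun x := (-x.1 - x.2, x.1)
  invFun x := (x.2, -x.1 - x.2)
  left_inv x := by
    refine Prod.ext rfl ?_
    simp only
    ring
  right_inv x := by
    refine Prod.ext ?_ rfl
    simp only
    ring
  map_add' x y := by
    refine Prod.ext ?_ rfl
    simp only [Prod.fst_add, Prod.snd_add]
    ring

/-- the reflection `(x, y) ↦ (y, x)` -/
def tau : ℤ × ℤ ≃+ ℤ × ℤ where
  toFun x := (x.2, x.1)
  invFun x := (x.2, x.1)
  left_inv _ := rfl
  right_inv _ := rfl
  map_add' _ _ := rfl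

@[simp] lemma rho_apply (x : ℤ × ℤ) : rho x = (-x.1 - x.2, x.1) := rfl
@[simp] lemma tau_apply (x : ℤ × ℤ) : tau x = (x.2, x.1) := rfl

/-- the image of a lattice -/
def mp (e : ℤ × ℤ ≃+ ℤ × ℤ) (L : AddSubgroup (ℤ × ℤ)) : AddSubgroup (ℤ × ℤ) := L.map (e : ℤ × ℤ →+ ℤ × ℤ)

lemma mp_Lt (e : ℤ × ℤ ≃+ ℤ × ℤ) (u v : ℤ × ℤ) : mp e (Lt u v) = Lt (e u) (e v) := by
  unfold mp Lt
  rw [AddMonoidHom.map_closure, Set.image_pair]
  rfl

/-- the honeycomb torus of a lattice -/
def HT (L : AddSubgroup (ℤ × ℤ)) : CB (((ℤ × ℤ) ⧸ L) × Fin 3) :=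
  HG (((1, 0) : ℤ × ℤ) : (ℤ × ℤ) ⧸ L) (((0, 1) : ℤ × ℤ) : (ℤ × ℤ) ⧸ L)

/-! ### isomorphisms -/

/-- a bijection of the edges which respects both ends -/
structure UIso {E : Type u} {E' : Type v} (B : CB E) (B' : CB E') where
  j : E ≃ E'
  hs : ∀ e f, SO B.s e f ↔ SO B'.s (j e) (j f)
  ht : ∀ e f, SO B.t e f ↔ SO B'.t (j e) (j f)

/-- a cubic bipartite multigraph with constant parity but more than one Kempe class, isomorphic to the honeycomb torus of `L` -/
def Bad (L : AddSubgroup (ℤ × ℤ)) : Prop :=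
  ∃ (E : Type u) (_ : Fintype E) (B : CB E), B.PC ∧ ¬ B.Con ∧ Nonempty (UIso B (HT L))

/-- Euler characteristic at least zero -/
def CB.Chi0 {E : Type u} (G : CB E) (tw : E → Bool) : Prop := Nat.card E ≤ 3 * Nat.card (G.Fc tw)

/-- closure properties of `R L = (the graph contains a subdivision of the honeycomb torus of L)` -/
structure Cl (R : AddSubgroup (ℤ × ℤ) → Prop) : Prop where
  rho : ∀ L, R L → R (mp rho L)
  tau : ∀ L, R L → R (mp tau L)
  shr : ∀ u v : ℤ × ℤ, 0 ≤ u.1 → 0 ≤ u.2 → 1 ≤ dt u v - (u.1 + u.2) → u.1 ≤ dt u v - (u.1 + u.2) →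
    u.2 ≤ dt u v - (u.1 + u.2) → R (Lt u v) → R (Lt u (v + (1, -1)))

end Pool.Agent.PP
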