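import Pool.Agent.Lib_MP_7c0803_tor.HeaSharp
import Pool.Agent.Lib_MP_7c0803_tor.Final

/-!
# The Heawood graph in the torus

An embedding without twisted edges, with seven (hexagonal) faces.
-/

set_option autoImplicit false

open Finset Function

namespace Pool.Agent.PP

open SimpleGraph

private def HeaEmb_d : Fin 3 → Fin 7
  | 0 => 0
  | 1 => 1
  | 2 => 3

private def HeaEmb_g (i : Fin 7) : Fin 3 := if i = 1 then 1 else if i = 3 then 2 else 0

private def HeaEmb_nx (u : Fin 7 × Bool) (k : Fin 3) : Fin 7 × Bool :=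
  if u.2 = false then (u.1 + HeaEmb_d k, true) else (u.1 - HeaEmb_d k, false)

private def HeaEmb_sl (u v : Fin 7 × Bool) : Fin 3 :=
  if u.2 = false then HeaEmb_g (v.1 - u.1) else HeaEmb_g (u.1 - v.1)

private lemma HeaEmb_adj (u : Fin 7 × Bool) (k : Fin 3) : heawoodGraph.Adj u (HeaEmb_nx u k) := by
  have h : ∀ u : Fin 7 × Bool, ∀ k : Fin 3, ∀ v : Fin 7 × Bool, v = HeaEmb_nx u k →
      (u.2 = false ∧ v.2 = true ∧ (v.1 - u.1 = 0 ∨ v.1 - u.1 = 1 ∨ v.1 - u.1 = 3)) ∨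
        (v.2 = false ∧ u.2 = true ∧ (u.1 - v.1 = 0 ∨ u.1 - v.1 = 1 ∨ u.1 - v.1 = 3)) := by decide +kernel
  exact h u k _ rfl

private lemma HeaEmb_slnx : ∀ (u : Fin 7 × Bool) (k : Fin 3), HeaEmb_sl u (HeaEmb_nx u k) = k := by decide +kernel

private lemma HeaEmb_nxsl (u v : Fin 7 × Bool) (hA : heawoodGraph.Adj u v) : HeaEmb_nx u (HeaEmb_sl u v) = v := by
  have h : ∀ u v : Fin 7 × Bool, ((u.2 = false ∧ v.2 = true ∧ (v.1 - u.1 = 0 ∨ v.1 - u.1 = 1 ∨ v.1 - u.1 = 3)) ∨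
        (v.2 = false ∧ u.2 = true ∧ (u.1 - v.1 = 0 ∨ u.1 - v.1 = 1 ∨ u.1 - v.1 = 3))) →
        HeaEmb_nx u (HeaEmb_sl u v) = v := by decide +kernel
  exact h u v hA

private lemma HeaEmb_nx2 : ∀ (u : Fin 7 × Bool) (k : Fin 3), HeaEmb_nx (HeaEmb_nx u k) k = u := by decide +kernel

/-- the darts: a vertex and a slot -/
private def HeaEmb_ph : heawoodGraph.Dart ≃ (Fin 7 × Bool) × Fin 3 where
  toFun d := (d.fst, HeaEmb_sl d.fst d.snd)
  invFun p := ⟨(p.1, HeaEmb_nx p.1 p.2), HeaEmb_adj p.1 p.2⟩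
  left_inv d := by
    apply Dart.ext
    show (d.fst, HeaEmb_nx d.fst (HeaEmb_sl d.fst d.snd)) = d.toProd
    rw [HeaEmb_nxsl _ _ d.adj]
  right_inv p := by
    show (p.1, HeaEmb_sl p.1 (HeaEmb_nx p.1 p.2)) = p
    rw [HeaEmb_slnx]

private def HeaEmb_rot : Equiv.Perm heawoodGraph.Dart :=
  (HeaEmb_ph.trans (Equiv.prodCongr (Equiv.refl _) (Equiv.addRight 1))).trans HeaEmb_ph.symm

private lemma HeaEmb_rot_ph (d : heawoodGraph.Dart) :
    HeaEmb_ph (HeaEmb_rot d) = ((HeaEmb_ph d).1, (HeaEmb_ph d).2 + 1) := by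
  unfold HeaEmb_rot
  rw [Equiv.trans_apply, Equiv.apply_symm_apply, Equiv.trans_apply]
  rfl

private lemma HeaEmb_rotinv_ph (d : heawoodGraph.Dart) :
    HeaEmb_ph (HeaEmb_rot.symm d) = ((HeaEmb_ph d).1, (HeaEmb_ph d).2 + 2) := by
  obtain ⟨d', rfl⟩ := HeaEmb_rot.surjective d
  rw [Equiv.symm_apply_apply, HeaEmb_rot_ph]
  have h : ∀ k : Fin 3, k + 1 + 2 = k := by decide
  show _ = ((HeaEmb_ph d').1, (HeaEmb_ph d').2 + 1 + 2)
  rw [h]

private lemma HeaEmb_symm_ph (d : heawoodGraph.Dart) :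
    HeaEmb_ph d.symm = (HeaEmb_nx (HeaEmb_ph d).1 (HeaEmb_ph d).2, (HeaEmb_ph d).2) := by
  have h : ∀ u v : Fin 7 × Bool, ((u.2 = false ∧ v.2 = true ∧ (v.1 - u.1 = 0 ∨ v.1 - u.1 = 1 ∨ v.1 - u.1 = 3)) ∨
        (v.2 = false ∧ u.2 = true ∧ (u.1 - v.1 = 0 ∨ u.1 - v.1 = 1 ∨ u.1 - v.1 = 3))) →
        v = HeaEmb_nx u (HeaEmb_sl u v) ∧ HeaEmb_sl v u = HeaEmb_sl u v := by decide +kernel
  have h1 := h d.fst d.snd d.adj
  show (d.snd, HeaEmb_sl d.snd d.fst) = (HeaEmb_nx d.fst (HeaEmb_sl d.fst d.snd), HeaEmb_sl d.fst d.snd)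
  rw [← h1.1, h1.2]

/-- the embedding -/
private def HeaEmb_M : Emb heawoodGraph where
  rot := HeaEmb_rot
  rot_fst d := by
    have h := congrArg Prod.fst (HeaEmb_rot_ph d)
    exact h
  rot_trans d d' h := by
    have h3 : ∀ k k' : Fin 3, k' = k ∨ k' = k + 1 ∨ k' = k + 1 + 1 := by decide
    have e1 : (HeaEmb_ph d).1 = (HeaEmb_ph d').1 := h
    rcases h3 (HeaEmb_ph d).2 (HeaEmb_ph d').2 with h4 | h4 | h4
    · refine ⟨0, HeaEmb_ph.injective ?_⟩
      rw [pow_zero, Equiv.Perm.one_apply]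
      exact Prod.ext e1 h4.symm
    · refine ⟨1, HeaEmb_ph.injective ?_⟩
      rw [pow_one, HeaEmb_rot_ph]
      exact Prod.ext e1 h4.symm
    · refine ⟨2, HeaEmb_ph.injective ?_⟩
      rw [pow_two, Equiv.Perm.mul_apply, HeaEmb_rot_ph, HeaEmb_rot_ph]
      exact Prod.ext e1 h4.symm
  tw := fun _ => false
  tw_symm := fun _ => rfl

private def HeaEmb_T (u : Fin 7 × Bool) (k : Fin 3) : Fin 7 :=
  if u.2 = false then u.1 + (if k = 0 then 0 else if k = 1 then 5 else 1)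
  else u.1 + (if k = 0 then 5 else if k = 1 then 0 else 4)

private def HeaEmb_F (u : Fin 7 × Bool) (k : Fin 3) (o : Bool) : Fin 7 :=
  if o = true then HeaEmb_T u k else HeaEmb_T (HeaEmb_nx u k) k

private lemma HeaEmb_F1 : ∀ (u : Fin 7 × Bool) (k : Fin 3),
    HeaEmb_F (HeaEmb_nx u k) (k + 1) true = HeaEmb_F u k true := by decide +kernel

private lemma HeaEmb_F2 : ∀ (u : Fin 7 × Bool) (k : Fin 3),
    HeaEmb_F (HeaEmb_nx u k) (k + 2) false = HeaEmb_F u k false := by decide +kernel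

private lemma HeaEmb_F3 : ∀ (u : Fin 7 × Bool) (k : Fin 3) (o : Bool),
    HeaEmb_F (HeaEmb_nx u k) k (!o) = HeaEmb_F u k o := by decide +kernel

private def HeaEmb_f (a : heawoodGraph.Dart × Bool) : Fin 7 := HeaEmb_F (HeaEmb_ph a.1).1 (HeaEmb_ph a.1).2 a.2

private lemma HeaEmb_next (a : heawoodGraph.Dart × Bool) : HeaEmb_f (HeaEmb_M.next a) = HeaEmb_f a := by
  obtain ⟨d, o⟩ := a
  cases o with
  | true =>
    have e : HeaEmb_M.next (d, true) = (HeaEmb_rot d.symm, true) := rfl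
    rw [e]
    unfold HeaEmb_f
    show HeaEmb_F (HeaEmb_ph (HeaEmb_rot d.symm)).1 (HeaEmb_ph (HeaEmb_rot d.symm)).2 true = _
    rw [HeaEmb_rot_ph, HeaEmb_symm_ph]
    exact HeaEmb_F1 _ _
  | false =>
    have e : HeaEmb_M.next (d, false) = (HeaEmb_rot.symm d.symm, false) := rfl
    rw [e]
    unfold HeaEmb_f
    show HeaEmb_F (HeaEmb_ph (HeaEmb_rot.symm d.symm)).1 (HeaEmb_ph (HeaEmb_rot.symm d.symm)).2 false = _
    rw [HeaEmb_rotinv_ph, HeaEmb_symm_ph]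
    exact HeaEmb_F2 _ _

private lemma HeaEmb_back (a : heawoodGraph.Dart × Bool) : HeaEmb_f (HeaEmb_M.back a) = HeaEmb_f a := by
  obtain ⟨d, o⟩ := a
  have e : HeaEmb_M.back (d, o) = (d.symm, !o) := by
    show (d.symm, !(xor o false)) = _
    rw [Bool.xor_false]
  rw [e]
  unfold HeaEmb_f
  show HeaEmb_F (HeaEmb_ph d.symm).1 (HeaEmb_ph d.symm).2 (!o) = _
  rw [HeaEmb_symm_ph]
  exact HeaEmb_F3 _ _ _

private lemma HeaEmb_surj (i : Fin 7) : ∃ a, HeaEmb_f a = i := by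
  refine ⟨(HeaEmb_ph.symm ((i, false), 0), true), ?_⟩
  unfold HeaEmb_f
  rw [Equiv.apply_symm_apply]
  have h : ∀ i : Fin 7, HeaEmb_F (i, false) 0 true = i := by decide
  exact h i

private lemma HeaEmb_face : 7 ≤ Nat.card HeaEmb_M.Face := by
  classical
  have : Finite heawoodGraph.Dart := Finite.of_equiv _ HeaEmb_ph.symm
  have : Finite HeaEmb_M.Face := Quot.finite _
  let g : HeaEmb_M.Face → Fin 7 := Quot.lift HeaEmb_f (by
    rintro a b (h | h)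
    · rw [← h, HeaEmb_next]
    · rw [← h, HeaEmb_back])
  have hg : Function.Surjective g := by
    intro i
    obtain ⟨a, ha⟩ := HeaEmb_surj i
    exact ⟨Quot.mk _ a, ha⟩
  have h := Nat.card_le_card_of_surjective g hg
  rwa [Nat.card_eq_fintype_card, Fintype.card_fin] at h

/-- the Heawood graph has an embedding in the torus -/
theorem heawood_toroidal : ∃ M : Emb heawoodGraph, (∀ d, M.tw d = false) ∧
    Nat.card heawoodGraph.edgeSet ≤ Nat.card (Fin 7 × Bool) + Nat.card M.Face := by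
  obtain ⟨-, h1, h2, -, -⟩ := heawood_facts
  obtain ⟨κ⟩ := col_of_colorable h1
  have h3 := edge_count κ h2
  have h4 : Nat.card (Fin 7 × Bool) = 14 := by simp
  have h5 := HeaEmb_face
  exact ⟨HeaEmb_M, fun _ => rfl, by omega⟩

end Pool.Agent.PP
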