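import Pool.Agent.Lib_MP_7c0803_tor.Defs

/-!
# Isomorphisms of cubic bipartite multigraphs and of honeycomb tori
-/

set_option autoImplicit false

open Finset Function

namespace Pool.Agent.PP

universe u v w

section basic
variable {E : Type u} {E' : Type v} {E'' : Type w}

def UIso.refl (B : CB E) : UIso B B := ⟨Equiv.refl E, fun _ _ => Iff.rfl, fun _ _ => Iff.rfl⟩

def UIso.symm {B : CB E} {B' : CB E'} (i : UIso B B') : UIso B' B :=
  ⟨i.j.symm, fun e f => by rw [i.hs, i.j.apply_symm_apply, i.j.apply_symm_apply],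
    fun e f => by rw [i.ht, i.j.apply_symm_apply, i.j.apply_symm_apply]⟩

def UIso.trans {B : CB E} {B' : CB E'} {B'' : CB E''} (i : UIso B B') (k : UIso B' B'') : UIso B B'' :=
  ⟨i.j.trans k.j, fun e f => (i.hs e f).trans (k.hs _ _), fun e f => (i.ht e f).trans (k.ht _ _)⟩

private lemma Iso_prop {s : Equiv.Perm E} (s3 : ∀ e, s (s (s e)) = e) (c : E → Fin 3) :
    (∀ e, c (s e) ≠ c e) ↔ ∀ e f, SO s e f → c f ≠ c e := by
  constructor
  · rintro h e f (hf | hf)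
    · rw [hf]
      exact h e
    · rw [hf]
      have := h (s (s e))
      rw [s3] at this
      exact this.symm
  · intro h e
    exact h e _ (Or.inl rfl)

private lemma Iso_prop_iff {s : Equiv.Perm E} {s' : Equiv.Perm E'} (j : E ≃ E')
    (s3 : ∀ e, s (s (s e)) = e) (s3' : ∀ e, s' (s' (s' e)) = e)
    (h : ∀ e f, SO s e f ↔ SO s' (j e) (j f)) (c : E' → Fin 3) :
    (∀ e, c (s' e) ≠ c e) ↔ ∀ e, c (j (s e)) ≠ c (j e) := by
  rw [Iso_prop s3' c]
  have h1 := Iso_prop s3 (fun e => c (j e))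
  rw [h1]
  constructor
  · intro h2 e f hf
    exact h2 _ _ ((h e f).1 hf)
  · intro h2 e f hf
    have h3 := h2 (j.symm e) (j.symm f) ((h _ _).2 (by rwa [j.apply_symm_apply, j.apply_symm_apply]))
    rwa [j.apply_symm_apply, j.apply_symm_apply] at h3

private lemma Iso_sum [Fintype E] [Fintype E'] {s : Equiv.Perm E} {s' : Equiv.Perm E'} (j : E ≃ E')
    (s3' : ∀ e, s' (s' (s' e)) = e)
    (h : ∀ e f, SO s e f ↔ SO s' (j e) (j f)) (c c' : E' → Fin 3)
    (hc : ∀ e, c (s' e) ≠ c e) (hc' : ∀ e, c' (s' e) ≠ c' e) :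
    ∑ e, (sg (c (s' e) - c e) + sg (c' (s' e) - c' e)) =
      ∑ e, (sg (c (j (s e)) - c (j e)) + sg (c' (j (s e)) - c' (j e))) := by
  rw [← Equiv.sum_comp j (fun e => sg (c (s' e) - c e) + sg (c' (s' e) - c' e))]
  refine Finset.sum_congr rfl fun e _ => ?_
  have h2 : ∀ a b : ZMod 2, a + 1 + (b + 1) = a + b := by decide
  rcases (h e (s e)).1 (Or.inl rfl) with h1 | h1
  · rw [h1]
  · rw [h1]
    have q : ∀ c : E' → Fin 3, (∀ e, c (s' e) ≠ c e) →
        sg (c (s' (s' (j e))) - c (j e)) = sg (c (s' (j e)) - c (j e)) + 1 := by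
      intro c hc
      apply sg_third
      · exact (hc _).symm
      · exact (hc _).symm
      · have := hc (s' (s' (j e)))
        rw [s3'] at this
        exact this.symm
    rw [q c hc, q c' hc', h2]

lemma UIso.P {B : CB E} {B' : CB E'} (i : UIso B B') (c : E' → Fin 3) : B'.P c ↔ B.P (fun e => c (i.j e)) := by
  have h1 := Iso_prop_iff i.j B.s3 B'.s3 i.hs c
  have h2 := Iso_prop_iff i.j B.t3 B'.t3 i.ht c
  unfold CB.P
  rw [forall_and, forall_and, h1, h2]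

theorem UIso.Con_of {B : CB E} {B' : CB E'} (i : UIso B B') (hB : B.Con) : B'.Con := by
  intro c c' hc hc'
  have hP' : ∀ c : E → Fin 3, B.P c ↔ B'.P (fun e => c (i.j.symm e)) := by
    intro c
    rw [i.P]
    have : (fun e => c (i.j.symm (i.j e))) = c := by
      funext e
      rw [i.j.symm_apply_apply]
    rw [this]
  have h1 := hB _ _ ((i.P c).1 hc) ((i.P c').1 hc')
  have h2 := KE_map B' B (fun c e => c (i.j.symm e)) (fun a b ha hb hr =>
    KE_of_rel B' ((hP' a).1 ha) ((hP' b).1 hb) (by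
      obtain ⟨k, hk⟩ := hr
      exact ⟨k, fun e => hk (i.j.symm e)⟩)) _ _ h1
  have h3 : ∀ c : E' → Fin 3, (fun e => c (i.j (i.j.symm e))) = c := by
    intro c
    funext e
    rw [i.j.apply_symm_apply]
  have h4 : B'.KE (fun e => c (i.j (i.j.symm e))) (fun e => c' (i.j (i.j.symm e))) := h2
  rw [h3, h3] at h4
  exact h4

theorem UIso.PC_of [Fintype E] [Fintype E'] {B : CB E} {B' : CB E'} (i : UIso B B') (hB : B.PC) : B'.PC := by
  have hab : ∀ a b : ZMod 2, a = b ↔ a + b = 0 := by decide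
  intro c c' hc hc'
  have e1 := Iso_sum i.j B'.s3 i.hs c c' (fun e => (hc e).1) (fun e => (hc' e).1)
  have e2 := Iso_sum i.j B'.t3 i.ht c c' (fun e => (hc e).2) (fun e => (hc' e).2)
  rw [Finset.sum_add_distrib, Finset.sum_add_distrib] at e1 e2
  have e3 : B'.par c + B'.par c' = B.par (fun e => c (i.j e)) + B.par (fun e => c' (i.j e)) := by
    unfold CB.par
    linear_combination e1 + e2
  rw [hab, e3, ← hab]
  exact hB _ _ ((i.P c).1 hc) ((i.P c').1 hc')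

theorem UIso.Con {B : CB E} {B' : CB E'} (i : UIso B B') : B.Con ↔ B'.Con := ⟨i.Con_of, i.symm.Con_of⟩

theorem UIso.PC [Fintype E] [Fintype E'] {B : CB E} {B' : CB E'} (i : UIso B B') : B.PC ↔ B'.PC :=
  ⟨i.PC_of, i.symm.PC_of⟩

/-- transport of a model -/
theorem UIso.mdl {V : Type w} {X : SimpleGraph V} {B : CB E} {B' : CB E'} (i : UIso B B') (m : Mdl B X) :
    Nonempty (Mdl B' X) := by
  have inj : ∀ e f, f = e ↔ i.j.symm f = i.j.symm e := fun e f => i.j.symm.injective.eq_iff.symm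
  have hs : ∀ e f, SO B.s (i.j.symm e) (i.j.symm f) ↔ SO B'.s e f := fun e f => by
    rw [i.hs, i.j.apply_symm_apply, i.j.apply_symm_apply]
  have ht : ∀ e f, SO B.t (i.j.symm e) (i.j.symm f) ↔ SO B'.t e f := fun e f => by
    rw [i.ht, i.j.apply_symm_apply, i.j.apply_symm_apply]
  exact ⟨{
    vx := fun e => m.vx (i.j.symm e)
    vy := fun e => m.vy (i.j.symm e)
    hx := fun e f => by rw [m.hx, hs, ← inj]
    hy := fun e f => by rw [m.hy, ht, ← inj]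
    hxy := fun e f => m.hxy _ _
    P := fun e => m.P (i.j.symm e)
    path := fun e => m.path _
    ix := fun e f h => m.ix _ _ h
    iy := fun e f h => m.iy _ _ h
    disj := fun e f x hne h1 h2 => m.disj _ _ x (fun h => hne (i.j.symm.injective h)) h1 h2 }⟩

end basic

/-! ### isomorphisms of honeycomb graphs -/

section honey
variable {A : Type u} [AddCommGroup A] {A' : Type v} [AddCommGroup A']

private lemma Iso_sub : ∀ i j : Fin 3, j ≠ i ↔ j - 1 ≠ i - 1 := by decide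

private lemma Iso_neg : ∀ i j : Fin 3, j ≠ i ↔ -j ≠ -i := by decide

lemma dl_map (e : A →+ A') (a b : A) (i : Fin 3) : e (dl a b i) = dl (e a) (e b) i := by
  unfold dl
  split_ifs
  · exact map_zero e
  · rfl
  · rfl

theorem uiso_equiv (e : A ≃+ A') (a b : A) : Nonempty (UIso (HG a b) (HG (e a) (e b))) := by
  refine ⟨⟨e.toEquiv.prodCongr (Equiv.refl _), ?_, ?_⟩⟩
  · rintro ⟨x, i⟩ ⟨y, j⟩
    show _ ↔ SO (HG (e a) (e b)).s (e x, i) (e y, j)
    rw [SO_HG_s, SO_HG_s, e.injective.eq_iff]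
  · rintro ⟨x, i⟩ ⟨y, j⟩
    show _ ↔ SO (HG (e a) (e b)).t (e x, i) (e y, j)
    have h : ∀ i, dl (e a) (e b) i = e (dl a b i) := fun i => (dl_map (e : A →+ A') a b i).symm
    rw [SO_HG_t, SO_HG_t, h, h, ← map_add, ← map_add, e.injective.eq_iff]

theorem uiso_rot (a b : A) : Nonempty (UIso (HG a b) (HG (b - a) (-a))) := by
  refine ⟨⟨(Equiv.refl A).prodCongr (Equiv.subRight 1), ?_, ?_⟩⟩
  · rintro ⟨x, i⟩ ⟨y, j⟩
    show _ ↔ SO (HG (b - a) (-a)).s (x, i - 1) (y, j - 1)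
    rw [SO_HG_s, SO_HG_s]
    exact and_congr Iff.rfl (Iso_sub i j)
  · rintro ⟨x, i⟩ ⟨y, j⟩
    show _ ↔ SO (HG (b - a) (-a)).t (x, i - 1) (y, j - 1)
    have h : ∀ i : Fin 3, dl (b - a) (-a) (i - 1) = dl a b i - a := by
      intro i
      fin_cases i
      · show dl (b - a) (-a) 2 = 0 - a
        simp
      · show dl (b - a) (-a) 0 = a - a
        simp
      · show dl (b - a) (-a) 1 = b - a
        simp
    rw [SO_HG_t, SO_HG_t, h, h, ← add_sub_assoc, ← add_sub_assoc, sub_left_inj]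
    exact and_congr Iff.rfl (Iso_sub i j)

theorem uiso_mir (a b : A) : Nonempty (UIso (HG a b) (HG b a)) := by
  refine ⟨⟨(Equiv.refl A).prodCongr (Equiv.neg (Fin 3)), ?_, ?_⟩⟩
  · rintro ⟨x, i⟩ ⟨y, j⟩
    show _ ↔ SO (HG b a).s (x, -i) (y, -j)
    rw [SO_HG_s, SO_HG_s]
    exact and_congr Iff.rfl (Iso_neg i j)
  · rintro ⟨x, i⟩ ⟨y, j⟩
    show _ ↔ SO (HG b a).t (x, -i) (y, -j)
    have h : ∀ i : Fin 3, dl b a (-i) = dl a b i := by
      intro i
      fin_cases i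
      · rfl
      · show dl b a 2 = a
        simp
      · show dl b a 1 = b
        simp
    rw [SO_HG_t, SO_HG_t, h, h]
    exact and_congr Iff.rfl (Iso_neg i j)

/-- the honeycomb torus of the kernel of a surjective homomorphism -/
theorem uiso_hom (φ : ℤ × ℤ →+ A) (hsurj : Function.Surjective φ) (L : AddSubgroup (ℤ × ℤ))
    (hk : ∀ x, x ∈ L ↔ φ x = 0) : Nonempty (UIso (HT L) (HG (φ (1, 0)) (φ (0, 1)))) := by
  have hL : L = φ.ker := by
    ext x
    rw [hk, AddMonoidHom.mem_ker]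
  subst hL
  exact uiso_equiv (QuotientAddGroup.quotientKerEquivOfSurjective φ hsurj) _ _

theorem uiso_rho (L : AddSubgroup (ℤ × ℤ)) : Nonempty (UIso (HT L) (HT (mp rho L))) := by
  obtain ⟨i⟩ := uiso_hom ((QuotientAddGroup.mk' L).comp (rho.symm : ℤ × ℤ →+ ℤ × ℤ))
    ((QuotientAddGroup.mk'_surjective L).comp rho.symm.surjective) (mp rho L) (by
      intro x
      show x ∈ L.map (rho : ℤ × ℤ →+ ℤ × ℤ) ↔ ((rho.symm x : ℤ × ℤ) : (ℤ × ℤ) ⧸ L) = 0
      rw [QuotientAddGroup.eq_zero_iff, AddSubgroup.mem_map]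
      constructor
      · rintro ⟨y, hy, rfl⟩
        show rho.symm (rho y) ∈ L
        rwa [rho.symm_apply_apply]
      · intro h
        exact ⟨_, h, rho.apply_symm_apply x⟩)
  obtain ⟨i1⟩ := uiso_rot (((1, 0) : ℤ × ℤ) : (ℤ × ℤ) ⧸ L) (((0, 1) : ℤ × ℤ) : (ℤ × ℤ) ⧸ L)
  obtain ⟨i2⟩ := uiso_rot ((((0, 1) : ℤ × ℤ) : (ℤ × ℤ) ⧸ L) - (((1, 0) : ℤ × ℤ) : (ℤ × ℤ) ⧸ L))
    (-(((1, 0) : ℤ × ℤ) : (ℤ × ℤ) ⧸ L))
  exact ⟨(i1.trans i2).trans i.symm⟩

theorem uiso_tau (L : AddSubgroup (ℤ × ℤ)) : Nonempty (UIso (HT L) (HT (mp tau L))) := by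
  obtain ⟨i⟩ := uiso_hom ((QuotientAddGroup.mk' L).comp (tau.symm : ℤ × ℤ →+ ℤ × ℤ))
    ((QuotientAddGroup.mk'_surjective L).comp tau.symm.surjective) (mp tau L) (by
      intro x
      show x ∈ L.map (tau : ℤ × ℤ →+ ℤ × ℤ) ↔ ((tau.symm x : ℤ × ℤ) : (ℤ × ℤ) ⧸ L) = 0
      rw [QuotientAddGroup.eq_zero_iff, AddSubgroup.mem_map]
      constructor
      · rintro ⟨y, hy, rfl⟩
        show tau.symm (tau y) ∈ L
        rwa [tau.symm_apply_apply]
      · intro h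
        exact ⟨_, h, tau.apply_symm_apply x⟩)
  obtain ⟨i1⟩ := uiso_mir (((1, 0) : ℤ × ℤ) : (ℤ × ℤ) ⧸ L) (((0, 1) : ℤ × ℤ) : (ℤ × ℤ) ⧸ L)
  exact ⟨i1.trans i.symm⟩

end honey

lemma Bad.rho {L : AddSubgroup (ℤ × ℤ)} (h : Bad.{u} L) : Bad.{u} (mp rho L) := by
  obtain ⟨E, hF, B, h1, h2, ⟨i⟩⟩ := h
  obtain ⟨k⟩ := uiso_rho L
  exact ⟨E, hF, B, h1, h2, ⟨i.trans k⟩⟩

lemma Bad.tau {L : AddSubgroup (ℤ × ℤ)} (h : Bad.{u} L) : Bad.{u} (mp tau L) := by
  obtain ⟨E, hF, B, h1, h2, ⟨i⟩⟩ := h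
  obtain ⟨k⟩ := uiso_tau L
  exact ⟨E, hF, B, h1, h2, ⟨i.trans k⟩⟩

/-- an explicit graph in which the parity is not constant -/
lemma not_bad_of_PC {L : AddSubgroup (ℤ × ℤ)} {E : Type v} [Fintype E] {B : CB E}
    (i : Nonempty (UIso (HT L) B)) (h : ¬ B.PC) : ¬ Bad.{u} L := by
  rintro ⟨E', hF, B', h1, h2, ⟨k⟩⟩
  obtain ⟨i⟩ := i
  exact h ((k.trans i).PC_of h1)

lemma not_bad_of_Con {L : AddSubgroup (ℤ × ℤ)} {E : Type v} {B : CB E}
    (i : Nonempty (UIso (HT L) B)) (h : B.Con) : ¬ Bad.{u} L := by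
  rintro ⟨E', hF, B', h1, h2, ⟨k⟩⟩
  obtain ⟨i⟩ := i
  exact h2 ((k.trans i).symm.Con_of h)

end Pool.Agent.PP
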