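import Pool.Agent.Lib_MP_7c0803_tor.DcB
import Pool.Agent.Lib_MP_7c0803_tor.Coord

/-!
# Klein bottle: coordinates on the double cover

Proof plan.  `D = dc B tw` is connected, `exists_coord D h3 h1 a0` gives `φ`, `L`, `n` for every base point `a0`; the range of `φ` is
everything by `hC` (it is closed under `D.s`, `D.t`).  `fl (D.s a) = D.s⁻¹ (fl a)`, `fl (D.t a) = D.t⁻¹ (fl a)` (`dc_fl_s`, `dc_fl_t`).
(1) Slots.  For a base point `a0` let `sl : E × Bool → Fin 3` be the function with `sl (φ x i) = i`; `sl (D.s a) = sl a + 1 = sl (D.t a)`,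
`sl a0 = 0`.  So the functions `sl`, `sl'` of two base points differ by a constant (connectivity), and `sl a + sl (fl a)` is constant `= κ`
(it does not change under `D.s`, `D.t`).  For the base point `a1` with `sl a1 = -κ`: `sl' (fl a1) = sl (fl a1) - sl a1 = κ - 2 sl a1 =
3 κ = 0`.  So from now on (`φ`, `L` of the base point `a1`) `fl (φ 0 0) = φ c 0` for some `c`.
(2) `fl (φ x i) = φ (tau x + c) (-i)` for all `x`, `i`: true for `(0, 0)`; if true for `(x, i)` then for `(x, i + 1)` (`φ x (i + 1) =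
D.s (φ x i)`, `fl` of it is `D.s⁻¹ (φ (tau x + c) (-i)) = φ (tau x + c) (-i - 1)`) and for `(x + δ i - δ (i + 1), i + 1)` (`D.t`, with
`tau (δ i) = δ (-i)`); every `(x, i)` can be reached (`φ` itself is given by these rules; `ℤ × ℤ` is generated by `δ i - δ (i + 1)`; the
squares of the moves are their inverses).
(3) `L` is invariant under `tau`: `φ x 0 = φ 0 0` implies `fl (φ x 0) = fl (φ 0 0)`, so `tau x + c - c ∈ L`.  `c + tau c ∈ L`: `fl (fl (φ 0 0)) =
φ 0 0`.  `c + (j, -j) ∉ L`: otherwise choose `x` with `tau x - x = (j, -j)`: `fl (φ x 0) = φ (tau x + c) 0 = φ x 0`, but `fl` has no fixed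
point.
-/

set_option autoImplicit false

open Finset Function

namespace Pool.Agent.PP

universe u

variable {E : Type u}

private lemma KCo_surj {D : CB (E × Bool)} (hC : D.Cn) (φ : ℤ × ℤ → Fin 3 → E × Bool)
    (hs : ∀ x i, D.s (φ x i) = φ x (i + 1))
    (ht : ∀ x i, D.t (φ x i) = φ (x + dl (1, 0) (0, 1) i - dl (1, 0) (0, 1) (i + 1)) (i + 1)) :
    ∀ a, ∃ x i, φ x i = a := by
  have h := hC {a | ∃ x i, φ x i = a} ⟨φ 0 0, 0, 0, rfl⟩ (by
    rintro e ⟨x, i, rfl⟩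
    exact ⟨⟨x, i + 1, (hs x i).symm⟩, ⟨_, i + 1, (ht x i).symm⟩⟩)
  intro a
  have h2 : a ∈ (Set.univ : Set (E × Bool)) := Set.mem_univ a
  rw [← h] at h2
  exact h2

/-- the slot function of a coordinate map -/
private lemma KCo_slot {D : CB (E × Bool)} (hC : D.Cn) (φ : ℤ × ℤ → Fin 3 → E × Bool) (L : AddSubgroup (ℤ × ℤ))
    (hs : ∀ x i, D.s (φ x i) = φ x (i + 1))
    (ht : ∀ x i, D.t (φ x i) = φ (x + dl (1, 0) (0, 1) i - dl (1, 0) (0, 1) (i + 1)) (i + 1))
    (hφ : ∀ x y i j, φ x i = φ y j ↔ (i = j ∧ x - y ∈ L)) :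
    ∃ sl : E × Bool → Fin 3, (∀ x i, sl (φ x i) = i) ∧ (∀ a, sl (D.s a) = sl a + 1) ∧ (∀ a, sl (D.t a) = sl a + 1) := by
  have hsurj := KCo_surj hC φ hs ht
  choose px sl hsl using hsurj
  have h1 : ∀ x i, sl (φ x i) = i := fun x i => ((hφ _ _ _ _).1 (hsl (φ x i))).1
  refine ⟨sl, h1, ?_, ?_⟩
  · intro a
    have h2 : D.s a = φ (px a) (sl a + 1) := by
      rw [← hs, hsl]
    rw [h2, h1]
  · intro a
    have h2 : D.t a = φ (px a + dl (1, 0) (0, 1) (sl a) - dl (1, 0) (0, 1) (sl a + 1)) (sl a + 1) := by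
      rw [← ht, hsl]
    rw [h2, h1]

private lemma KCo_tau_dl : ∀ i : Fin 3, tau (dl ((1, 0) : ℤ × ℤ) (0, 1) i) = dl ((1, 0) : ℤ × ℤ) (0, 1) (-i) := by
  intro i
  fin_cases i <;> rfl

private lemma KCo_f1 : ∀ a b : Fin 3, a + 1 + b = a + (b + 1) := by decide
private lemma KCo_f2 : ∀ κ : Fin 3, κ + κ + κ = 0 := by decide
private lemma KCo_f3 : ∀ a κ : Fin 3, a + κ + 1 = a + 1 + κ := by decide
private lemma KCo_f4 : ∀ i : Fin 3, -(i + 1) + 1 = -i := by decide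
private lemma KCo_f5 : ∀ i j : Fin 3, j = i ∨ j = i + 1 ∨ j = i + 1 + 1 := by decide
private lemma KCo_f6 : ∀ κ b : Fin 3, -κ + b = κ → b = κ + κ := by decide

private lemma KCo_ind (P : ℤ × ℤ → Prop) (h0 : P 0) (h1 : ∀ x, P x → P (x + (1, 0))) (h2 : ∀ x, P x → P (x - (1, 0)))
    (h3 : ∀ x, P x → P (x + (0, 1))) (h4 : ∀ x, P x → P (x - (0, 1))) : ∀ x, P x := by
  have hx : ∀ n : ℤ, P (n, 0) := by
    intro n
    induction n using Int.induction_on with
    | zero => exact h0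
    | succ i ih =>
      have := h1 _ ih
      rwa [Prod.mk_add_mk, add_zero] at this
    | pred i ih =>
      have := h2 _ ih
      rwa [Prod.mk_sub_mk, sub_zero] at this
  rintro ⟨a, b⟩
  induction b using Int.induction_on with
  | zero => exact hx a
  | succ i ih =>
    have := h3 _ ih
    rwa [Prod.mk_add_mk, add_zero] at this
  | pred i ih =>
    have := h4 _ ih
    rwa [Prod.mk_sub_mk, sub_zero] at this

theorem klein_coord [Finite E] [Nonempty E] (B : CB E) (tw : E → Bool) (hC : (dc B tw).Cn)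
    (h3 : ∀ a, (dc B tw).s ((dc B tw).t ((dc B tw).s ((dc B tw).t ((dc B tw).s ((dc B tw).t a))))) = a)
    (h1 : ∀ a, (dc B tw).s ((dc B tw).t a) ≠ a) :
    ∃ (φ : ℤ × ℤ → Fin 3 → E × Bool) (L : AddSubgroup (ℤ × ℤ)) (n : ℤ) (c : ℤ × ℤ), 0 < n ∧ (n, 0) ∈ L ∧ (0, n) ∈ L ∧
      (∀ x i, (dc B tw).s (φ x i) = φ x (i + 1)) ∧
      (∀ x i, (dc B tw).t (φ x i) = φ (x + dl (1, 0) (0, 1) i - dl (1, 0) (0, 1) (i + 1)) (i + 1)) ∧
      (∀ x y i j, φ x i = φ y j ↔ (i = j ∧ x - y ∈ L)) ∧ (∀ a, ∃ x i, φ x i = a) ∧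
      (∀ x i, fl (φ x i) = φ (tau x + c) (-i)) := by
  classical
  have hfs := dc_fl_s B tw
  have hft := dc_fl_t B tw
  set D := dc B tw with hD
  obtain ⟨e0⟩ := (inferInstance : Nonempty E)
  -- first base point
  obtain ⟨φ0, L0, n0, -, -, -, -, hs0, ht0, hφ0⟩ := exists_coord D h3 h1 (e0, true)
  obtain ⟨sl, sl1, sls, slt⟩ := KCo_slot hC φ0 L0 hs0 ht0 hφ0
  -- the constant
  obtain ⟨κ, hκ⟩ : ∃ κ : Fin 3, ∀ a, sl a + sl (fl a) = κ := by
    refine ⟨sl (e0, true) + sl (fl (e0, true)), ?_⟩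
    have h := hC {a | sl a + sl (fl a) = sl (e0, true) + sl (fl (e0, true))} ⟨(e0, true), rfl⟩ (by
      intro a ha
      have ha' : sl a + sl (fl a) = sl (e0, true) + sl (fl (e0, true)) := ha
      constructor
      · change sl (D.s a) + sl (fl (D.s a)) = _
        have h2 : sl (fl a) = sl (fl (D.s a)) + 1 := by
          rw [← sls, hfs]
        rw [sls, ← ha', h2, KCo_f1]
      · change sl (D.t a) + sl (fl (D.t a)) = _
        have h2 : sl (fl a) = sl (fl (D.t a)) + 1 := by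
          rw [← slt, hft]
        rw [slt, ← ha', h2, KCo_f1])
    intro a
    have h2 : a ∈ (Set.univ : Set (E × Bool)) := Set.mem_univ a
    rw [← h] at h2
    exact h2
  -- second base point
  obtain ⟨φ, L, n, hn, hn1, hn2, hb, hs, ht, hφ⟩ := exists_coord D h3 h1 (φ0 0 (-κ))
  obtain ⟨sl', sl1', sls', slt'⟩ := KCo_slot hC φ L hs ht hφ
  have hsurj := KCo_surj hC φ hs ht
  have hdiff : ∀ a, sl' a = sl a + κ := by
    have h := hC {a | sl' a = sl a + κ} ⟨φ 0 0, by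
      change sl' (φ 0 0) = sl (φ 0 0) + κ
      rw [sl1', hb, sl1]
      exact (neg_add_cancel κ).symm⟩ (by
      intro a ha
      have ha' : sl' a = sl a + κ := ha
      constructor
      · change sl' (D.s a) = sl (D.s a) + κ
        rw [sls', sls, ha', KCo_f3]
      · change sl' (D.t a) = sl (D.t a) + κ
        rw [slt', slt, ha', KCo_f3])
    intro a
    have h2 : a ∈ (Set.univ : Set (E × Bool)) := Set.mem_univ a
    rw [← h] at h2
    exact h2
  obtain ⟨c, hc⟩ : ∃ c, fl (φ 0 0) = φ c 0 := by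
    obtain ⟨c, i, hci⟩ := hsurj (fl (φ 0 0))
    have h2 : sl' (fl (φ 0 0)) = 0 := by
      rw [hdiff]
      have h4 := hκ (φ 0 0)
      have h5 : sl (φ 0 0) = -κ := by rw [hb, sl1]
      rw [h5] at h4
      rw [KCo_f6 _ _ h4, KCo_f2]
    rw [← hci, sl1'] at h2
    subst h2
    exact ⟨c, hci.symm⟩
  have qs : ∀ x i, fl (φ x i) = φ (tau x + c) (-i) → fl (φ x (i + 1)) = φ (tau x + c) (-(i + 1)) := by
    intro x i h
    apply D.s.injective
    rw [← hs x i, hfs, h, hs, KCo_f4]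
  have qt : ∀ x i, fl (φ x i) = φ (tau x + c) (-i) →
      fl (φ (x + dl (1, 0) (0, 1) i - dl (1, 0) (0, 1) (i + 1)) (i + 1)) =
        φ (tau (x + dl (1, 0) (0, 1) i - dl (1, 0) (0, 1) (i + 1)) + c) (-(i + 1)) := by
    intro x i h
    apply D.t.injective
    rw [← ht x i, hft, h, ht]
    rw [map_sub, map_add, KCo_tau_dl, KCo_tau_dl, KCo_f4]
    congr 1
    abel
  have q3 : ∀ x i j, fl (φ x i) = φ (tau x + c) (-i) → fl (φ x j) = φ (tau x + c) (-j) := by
    intro x i j h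
    have h1 := qs x i h
    have h2 := qs x _ h1
    rcases KCo_f5 i j with rfl | rfl | rfl
    · exact h
    · exact h1
    · exact h2
  have qd : ∀ x i, fl (φ x 0) = φ (tau x + c) (-0) →
      fl (φ (x + dl (1, 0) (0, 1) i - dl (1, 0) (0, 1) (i + 1)) 0) =
        φ (tau (x + dl (1, 0) (0, 1) i - dl (1, 0) (0, 1) (i + 1)) + c) (-0) := by
    intro x i h
    exact q3 _ _ _ (qt x i (q3 _ _ _ h))
  have e0 : ∀ x : ℤ × ℤ, x + dl (1, 0) (0, 1) 0 - dl (1, 0) (0, 1) (0 + 1) = x - (1, 0) := by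
    intro x
    change x + 0 - (1, 0) = x - (1, 0)
    rw [add_zero]
  have e1 : ∀ x : ℤ × ℤ, x + dl (1, 0) (0, 1) 1 - dl (1, 0) (0, 1) (1 + 1) = x + (1, 0) - (0, 1) := fun x => rfl
  have e2 : ∀ x : ℤ × ℤ, x + dl (1, 0) (0, 1) 2 - dl (1, 0) (0, 1) (2 + 1) = x + (0, 1) := by
    intro x
    change x + (0, 1) - 0 = x + (0, 1)
    rw [sub_zero]
  have qall : ∀ x, fl (φ x 0) = φ (tau x + c) (-0) := by
    apply KCo_ind
    · rw [hc, map_zero, zero_add, neg_zero]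
    · intro x h
      have h1 := qd _ 1 h
      rw [e1] at h1
      have h2 := qd _ 2 h1
      rw [e2, sub_add_cancel] at h2
      exact h2
    · intro x h
      have h1 := qd _ 0 h
      rwa [e0] at h1
    · intro x h
      have h1 := qd _ 2 h
      rwa [e2] at h1
    · intro x h
      have h1 := qd _ 0 h
      rw [e0] at h1
      have h2 := qd _ 1 h1
      rw [e1, sub_add_cancel] at h2
      exact h2
  exact ⟨φ, L, n, c, hn, hn1, hn2, hs, ht, hφ, hsurj, fun x i => q3 x 0 i (qall x)⟩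

/-- the conditions on `L` and `c` -/
theorem klein_cond (φ : ℤ × ℤ → Fin 3 → E × Bool) (L : AddSubgroup (ℤ × ℤ)) (c : ℤ × ℤ)
    (hφ : ∀ x y i j, φ x i = φ y j ↔ (i = j ∧ x - y ∈ L)) (hf : ∀ x i, fl (φ x i) = φ (tau x + c) (-i)) :
    (∀ x ∈ L, tau x ∈ L) ∧ c + tau c ∈ L ∧ ∀ j : ℤ, c + (j, -j) ∉ L := by
  refine ⟨?_, ?_, ?_⟩
  · intro x hx
    have h1 : φ x 0 = φ 0 0 := (hφ x 0 0 0).2 ⟨rfl, by rwa [sub_zero]⟩
    have h2 : φ (tau x + c) (-0) = φ (tau 0 + c) (-0) := by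
      rw [← hf, ← hf, h1]
    have h3 := ((hφ _ _ _ _).1 h2).2
    rwa [map_zero, zero_add, add_sub_cancel_right] at h3
  · have h1 : fl (φ 0 0) = φ (tau 0 + c) (-0) := hf 0 0
    have h2 : fl (fl (φ 0 0)) = φ (tau (tau 0 + c) + c) (-(-0)) := by
      rw [h1, hf]
    rw [fl_fl] at h2
    have h3 := ((hφ _ _ _ _).1 h2.symm).2
    rwa [map_zero, zero_add, sub_zero, add_comm] at h3
  · intro j hj
    apply fl_ne (φ (0, j) 0)
    rw [hf, neg_zero]
    rw [hφ]
    refine ⟨rfl, ?_⟩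
    have h1 : tau (0, j) + c - (0, j) = c + (j, -j) := by
      refine Prod.ext ?_ ?_
      · change j + c.1 - 0 = c.1 + j
        ring
      · change 0 + c.2 - j = c.2 + -j
        ring
    rwa [h1]

end Pool.Agent.PP
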