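import Pool.Agent.Lib_MP_7c0803_tor.Defs

/-!
# Klein bottle: the lattice

Proof plan.  `x + tau x = (x.1 + x.2) • (1, 1)`.  Let `m > 0` be minimal with `(m, m) ∈ L`, `k > 0` minimal with `(k, -k) ∈ L` (both exist because
`(n, 0), (0, n) ∈ L`); then `(z, z) ∈ L ↔ m ∣ z`, `(z, -z) ∈ L ↔ k ∣ z`.
`m ∣ c.1 + c.2` (`c + tau c ∈ L`), `c.1 + c.2 = m r`.  `r` is odd: if `r = 2 q` then `c - q • (m, m)` has coordinate sum `0`, it is `(-j, j)`, and
`c + (j, -j) = q • (m, m) ∈ L`, a contradiction.  So `c ≡ (m - c', c')` mod `L` with `c' = c.2 - (r - 1) / 2 * m` (subtract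
`(r - 1) / 2 • (m, m)`).
`x ∈ L`: `x + tau x ∈ L`, so `x.1 + x.2 = m t`.  `t` is even: otherwise `c - r • x` has the coordinate sum `m r (1 - t)`, an even multiple of `m`, so
`c - r • x - q • (m, m)` is `(-j, j)` and `c + (j, -j) ∈ L`.  So `x - (t / 2) • (m, m)` has sum `0` and is in `L`: a multiple of `(k, -k)`.
-/

set_option autoImplicit false

open Finset Function

namespace Pool.Agent.PP

/-- A subgroup of `ℤ` with a positive element is the set of the multiples of a positive integer. -/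
lemma kl_cyc (H : AddSubgroup ℤ) (n : ℤ) (hn : 0 < n) (h : n ∈ H) : ∃ m : ℕ, ∀ z : ℤ, z ∈ H ↔ ((m : ℤ) + 1) ∣ z := by
  obtain ⟨a, ha⟩ := Int.subgroup_cyclic H
  have key : ∀ z : ℤ, z ∈ H ↔ a ∣ z := by
    intro z
    rw [ha, AddSubgroup.mem_closure_singleton]
    constructor
    · rintro ⟨t, rfl⟩
      exact ⟨t, by rw [smul_eq_mul, mul_comm]⟩
    · rintro ⟨t, rfl⟩
      exact ⟨t, by rw [smul_eq_mul, mul_comm]⟩
  have ha0 : a ≠ 0 := by
    rintro rfl
    have := (key n).1 h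
    rw [zero_dvd_iff] at this
    omega
  refine ⟨a.natAbs - 1, fun z => ?_⟩
  have h1 : ((a.natAbs - 1 : ℕ) : ℤ) + 1 = (a.natAbs : ℤ) := by
    have : 0 < a.natAbs := Int.natAbs_pos.2 ha0
    omega
  rw [h1, key z, Int.natAbs_dvd]

theorem klein_lattice (L : AddSubgroup (ℤ × ℤ)) (n : ℤ) (hn : 0 < n) (h1 : (n, (0 : ℤ)) ∈ L) (h2 : ((0 : ℤ), n) ∈ L) (c : ℤ × ℤ)
    (ht : ∀ x ∈ L, tau x ∈ L) (hc : c + tau c ∈ L) (hf : ∀ j : ℤ, c + (j, -j) ∉ L) :
    ∃ (m k : ℕ) (c' : ℤ), c - ((m : ℤ) + 1 - c', c') ∈ L ∧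
      ∀ x : ℤ × ℤ, x ∈ L ↔ ∃ p q : ℤ, x = (p * (m + 1) + q * (k + 1), p * (m + 1) - q * (k + 1)) := by
  have htau : ∀ x : ℤ × ℤ, x ∈ L → x + tau x ∈ L := fun x hx => L.add_mem hx (ht x hx)
  obtain ⟨m, hm⟩ := kl_cyc (L.comap ((AddMonoidHom.id ℤ).prod (AddMonoidHom.id ℤ))) n hn (by
    rw [AddSubgroup.mem_comap]
    have := L.add_mem h1 h2
    simpa using this)
  obtain ⟨k, hk⟩ := kl_cyc (L.comap ((AddMonoidHom.id ℤ).prod (-(AddMonoidHom.id ℤ)))) n hn (by
    rw [AddSubgroup.mem_comap]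
    have := L.sub_mem h1 h2
    simpa using this)
  have hm' : ∀ z : ℤ, (z, z) ∈ L ↔ ((m : ℤ) + 1) ∣ z := by
    intro z
    rw [← hm z, AddSubgroup.mem_comap]
    simp
  have hk' : ∀ z : ℤ, (z, -z) ∈ L ↔ ((k : ℤ) + 1) ∣ z := by
    intro z
    rw [← hk z, AddSubgroup.mem_comap]
    simp
  clear hm hk
  obtain ⟨c1, c2⟩ := c
  have hc1 : (c1 + c2, c1 + c2) ∈ L := by
    have : ((c1, c2) : ℤ × ℤ) + tau (c1, c2) = (c1 + c2, c1 + c2) := by
      rw [tau_apply]; ext <;> simp <;> ring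
    rwa [this] at hc
  obtain ⟨r, hr⟩ := (hm' _).1 hc1
  -- `r` is odd
  have hodd : ∃ s : ℤ, r = 2 * s + 1 := by
    rcases Int.even_or_odd' r with ⟨s, hs | hs⟩
    · exfalso
      refine hf (s * ((m : ℤ) + 1) - c1) ?_
      have : ((c1, c2) : ℤ × ℤ) + (s * ((m : ℤ) + 1) - c1, -(s * ((m : ℤ) + 1) - c1)) =
          (s * ((m : ℤ) + 1), s * ((m : ℤ) + 1)) := by
        rw [hs] at hr
        ext
        · simp
        · simp only [Prod.mk_add_mk]
          linarith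
      rw [this]
      exact (hm' _).2 (Dvd.intro_left s rfl)
    · exact ⟨s, hs⟩
  obtain ⟨s, rfl⟩ := hodd
  refine ⟨m, k, c2 - s * ((m : ℤ) + 1), ?_, ?_⟩
  · have : ((c1, c2) : ℤ × ℤ) - ((m : ℤ) + 1 - (c2 - s * ((m : ℤ) + 1)), c2 - s * ((m : ℤ) + 1)) =
        (s * ((m : ℤ) + 1), s * ((m : ℤ) + 1)) := by
      ext
      · simp only [Prod.mk_sub_mk]
        linarith
      · simp
    rw [this]
    exact (hm' _).2 (Dvd.intro_left s rfl)
  · rintro ⟨x1, x2⟩
    constructor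
    · intro hx
      have hx1 : (x1 + x2, x1 + x2) ∈ L := by
        have h := htau _ hx
        have : ((x1, x2) : ℤ × ℤ) + tau (x1, x2) = (x1 + x2, x1 + x2) := by
          rw [tau_apply]; ext <;> simp <;> ring
        rwa [this] at h
      obtain ⟨t, htt⟩ := (hm' _).1 hx1
      rcases Int.even_or_odd' t with ⟨u, hu | hu⟩
      · subst hu
        have hz : (x1 - u * ((m : ℤ) + 1), -(x1 - u * ((m : ℤ) + 1))) ∈ L := by
          have h := L.sub_mem hx ((hm' (u * ((m : ℤ) + 1))).2 (Dvd.intro_left u rfl))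
          have : ((x1, x2) : ℤ × ℤ) - (u * ((m : ℤ) + 1), u * ((m : ℤ) + 1)) =
              (x1 - u * ((m : ℤ) + 1), -(x1 - u * ((m : ℤ) + 1))) := by
            ext
            · simp
            · simp only [Prod.mk_sub_mk]
              linarith
          rwa [this] at h
        obtain ⟨q, hq⟩ := (hk' _).1 hz
        refine ⟨u, q, ?_⟩
        ext
        · simp only
          linarith
        · simp only
          linarith
      · exfalso
        subst hu
        refine hf ((s - u) * ((m : ℤ) + 1) - (c1 - x1)) ?_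
        have : ((c1, c2) : ℤ × ℤ) + ((s - u) * ((m : ℤ) + 1) - (c1 - x1), -((s - u) * ((m : ℤ) + 1) - (c1 - x1))) =
            (x1, x2) + ((s - u) * ((m : ℤ) + 1), (s - u) * ((m : ℤ) + 1)) := by
          ext
          · simp only [Prod.mk_add_mk]
            ring
          · simp only [Prod.mk_add_mk]
            linarith
        rw [this]
        exact L.add_mem hx ((hm' _).2 (Dvd.intro_left _ rfl))
    · rintro ⟨p, q, hx⟩
      have : ((x1, x2) : ℤ × ℤ) = (p * ((m : ℤ) + 1), p * ((m : ℤ) + 1)) + (q * ((k : ℤ) + 1), -(q * ((k : ℤ) + 1))) := by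
        rw [hx]
        ext
        · simp
        · simp only [Prod.mk_add_mk]
          ring
      rw [this]
      exact L.add_mem ((hm' _).2 (Dvd.intro_left _ rfl)) ((hk' _).2 (Dvd.intro_left _ rfl))

end Pool.Agent.PP
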