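import Pool.Agent.Lib_MP_7c0803_tor.KCo
import Pool.Agent.Lib_MP_7c0803_tor.KLat

/-!
# Klein bottle: the graph is a `KB`

`KCo B tw m k c`: coordinates on the double cover with the lattice generated by `(m + 1, m + 1)` and `(k + 1, - k - 1)`, and the exchange
of the sheets `x ↦ tau x + (m + 1 - c, c)`.
-/

set_option autoImplicit false

open Finset Function

namespace Pool.Agent.PP

universe u

variable {E : Type u}

structure KCo (B : CB E) (tw : E → Bool) (m k : ℕ) (c : ℤ) where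
  φ : ℤ × ℤ → Fin 3 → E × Bool
  hs : ∀ x i, (dc B tw).s (φ x i) = φ x (i + 1)
  ht : ∀ x i, (dc B tw).t (φ x i) = φ (x + dl (1, 0) (0, 1) i - dl (1, 0) (0, 1) (i + 1)) (i + 1)
  inj : ∀ x y i j, φ x i = φ y j ↔
    (i = j ∧ ∃ p q : ℤ, x - y = (p * (m + 1) + q * (k + 1), p * (m + 1) - q * (k + 1)))
  surj : ∀ a, ∃ x i, φ x i = a
  hf : ∀ x i, fl (φ x i) = φ (tau x + ((m : ℤ) + 1 - c, c)) (-i)

/-- from `klein_coord`, `klein_cond`, `klein_lattice` -/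
theorem exists_KCo [Finite E] [Nonempty E] (B : CB E) (tw : E → Bool) (hC : (dc B tw).Cn)
    (h3 : ∀ a, (dc B tw).s ((dc B tw).t ((dc B tw).s ((dc B tw).t ((dc B tw).s ((dc B tw).t a))))) = a)
    (h1 : ∀ a, (dc B tw).s ((dc B tw).t a) ≠ a) : ∃ (m k : ℕ) (c : ℤ), Nonempty (KCo B tw m k c) := by
  obtain ⟨φ, L, n, c, hn, a1, a2, a3, a4, a5, a6, a7⟩ := klein_coord B tw hC h3 h1
  obtain ⟨b1, b2, b3⟩ := klein_cond φ L c a5 a7
  obtain ⟨m, k, c', d1, d2⟩ := klein_lattice L n hn a1 a2 c b1 b2 b3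
  refine ⟨m, k, c', ⟨⟨φ, a3, a4, fun x y i j => ?_, a6, fun x i => ?_⟩⟩⟩
  · rw [a5, d2]
  · rw [a7, a5]
    refine ⟨rfl, ?_⟩
    have h : tau x + c - (tau x + ((m : ℤ) + 1 - c', c')) = c - ((m : ℤ) + 1 - c', c') := by abel
    rw [h]
    exact d1

end Pool.Agent.PP
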