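import Pool.Agent.Lib_MP_7c0803_tor.KDefs
import Pool.Agent.Lib_MP_7c0803_pp.Kempe
import Pool.Agent.Lib_MP_7c0803_pp.EmbB
import Pool.Agent.Lib_MP_7c0803_pp.Final3

/-!
# The second obstruction: constant parity, but more than one Kempe class

Adapt `HeaSharp.lean` (the same for the Heawood graph).  `kleinGraph`: the `X`-vertices `(a, false)`, `a : Fin 3 × Fin 3`, the `Y`-vertices
`(b, true)`, 27 edges `(a, j)` from `(a, false)` to `(kf 2 2 0 j a, true)`.  With `a = (l, i)` numbered `3 l + i` the `Y`-ends of the edges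
`(a, 0), (a, 1), (a, 2)` are
`0: 0 3 5, 1: 1 4 3, 2: 2 5 4, 3: 3 6 8, 4: 4 7 6, 5: 5 8 7, 6: 6 0 1, 7: 7 2 0, 8: 8 1 2`
(`kf 2 2 0` should be unfolded by `kf_zero`, `kf_one`, `kf_two`; it may be best to define this table and to show by `decide` that it agrees).
There are 144 proper 3-edge-colourings (24 with the colours `0, 1, 2` at the edges `(0, 0), (0, 1), (0, 2)`), all of the same parity; one Kempe
class consists of the 6 colour permutations of the colouring `m` with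
`m (0, ·) = 1 2 0, m (1, ·) = 2 1 0, m (2, ·) = 0 1 2, m (3, ·) = 1 2 0, m (4, ·) = 0 2 1, m (5, ·) = 2 1 0, m (6, ·) = 0 2 1, m (7, ·) = 1 2 0,
m (8, ·) = 2 0 1` (in each of its three colour pairs a Hamiltonian cycle; no other colouring has one of its three colour classes).
So: the property `to have the same classes as m` is invariant under `Rel`, and some colouring does not have it.
Search: nine `X`-vertices, each a permutation of the colours, in the order 0, …, 8 with the tests at the `Y`-vertices as early as possible.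
-/

set_option autoImplicit false

open Finset Function

namespace Pool.Agent.PP

open SimpleGraph

private def KS_T : Fin 6 → Fin 3 → Fin 3
  | 0, 0 => 0 | 0, 1 => 1 | 0, 2 => 2
  | 1, 0 => 0 | 1, 1 => 2 | 1, 2 => 1
  | 2, 0 => 1 | 2, 1 => 0 | 2, 2 => 2
  | 3, 0 => 1 | 3, 1 => 2 | 3, 2 => 0
  | 4, 0 => 2 | 4, 1 => 0 | 4, 2 => 1
  | 5, 0 => 2 | 5, 1 => 1 | 5, 2 => 0

private lemma KS_T_surj : ∀ a b c : Fin 3, a ≠ b → a ≠ c → b ≠ c →
    ∃ r, KS_T r 0 = a ∧ KS_T r 1 = b ∧ KS_T r 2 = c := by decide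

/-- the `Y`-end of an edge -/
private def KS_F (a : Fin 3 × Fin 3) (d : Fin 3) : Fin 3 × Fin 3 := kf 2 2 0 d a

/-- the `X`-end of an edge -/
private def KS_Q (b : Fin 3 × Fin 3) (d : Fin 3) : Fin 3 × Fin 3 :=
  if d = 0 then b else if d = 1 then (if b.1 = 0 then (2, -b.2) else (b.1 - 1, b.2)) else
    (if b.1 = 0 then (2, 1 - b.2) else (b.1 - 1, b.2 + 1))

private lemma KS_FQ : ∀ (b : Fin 3 × Fin 3) (d : Fin 3), KS_F (KS_Q b d) d = b := by
  decide +kernel

private lemma KS_QF : ∀ (a : Fin 3 × Fin 3) (d : Fin 3), KS_Q (KS_F a d) d = a := by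
  decide +kernel

private lemma KS_F_inj : ∀ (a : Fin 3 × Fin 3) (d d' : Fin 3), KS_F a d = KS_F a d' → d = d' := by
  decide +kernel

private instance KS_dec : DecidableRel kleinGraph.Adj := fun x y =>
  inferInstanceAs (Decidable ((x.2 = false ∧ y.2 = true ∧ ∃ j, kf 2 2 0 j x.1 = y.1) ∨
    (y.2 = false ∧ x.2 = true ∧ ∃ j, kf 2 2 0 j y.1 = x.1)))

private lemma KS_adj (a : Fin 3 × Fin 3) (d : Fin 3) :
    kleinGraph.Adj (a, false) (KS_F a d, true) := Or.inl ⟨rfl, rfl, d, rfl⟩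

private def KS_e (p : (Fin 3 × Fin 3) × Fin 3) : kleinGraph.edgeSet :=
  ⟨s((p.1, false), (KS_F p.1 p.2, true)), KS_adj p.1 p.2⟩

private lemma KS_e_inj : Function.Injective KS_e := by
  rintro ⟨i, d⟩ ⟨j, d'⟩ h
  have h1 : (s((i, false), (KS_F i d, true)) : Sym2 ((Fin 3 × Fin 3) × Bool)) =
      s((j, false), (KS_F j d', true)) := congrArg Subtype.val h
  rcases Sym2.eq_iff.1 h1 with ⟨h2, h3⟩ | ⟨h2, -⟩
  · have h4 : i = j := congrArg Prod.fst h2
    subst h4
    have h5 : KS_F i d = KS_F i d' := congrArg Prod.fst h3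
    rw [KS_F_inj i d d' h5]
  · have h3 : false = true := congrArg Prod.snd h2
    exact absurd h3 (by decide)

private lemma KS_e_surj : Function.Surjective KS_e := by
  rintro ⟨e, he⟩
  induction e using Sym2.ind with
  | _ u v =>
    obtain ⟨i, b⟩ := u
    obtain ⟨j, b'⟩ := v
    rcases he with ⟨h1, h2, d, h3⟩ | ⟨h1, h2, d, h3⟩
    · have h1' : b = false := h1
      have h2' : b' = true := h2
      have h3' : KS_F i d = j := h3
      subst h1' h2' h3'
      exact ⟨(i, d), rfl⟩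
    · have h1' : b' = false := h1
      have h2' : b = true := h2
      have h3' : KS_F j d = i := h3
      subst h1' h2' h3'
      exact ⟨(j, d), Subtype.ext Sym2.eq_swap⟩

private noncomputable def KS_E : (Fin 3 × Fin 3) × Fin 3 ≃ kleinGraph.edgeSet :=
  Equiv.ofBijective KS_e ⟨KS_e_inj, KS_e_surj⟩

/-- the edges at a vertex -/
private def KS_P (v : (Fin 3 × Fin 3) × Bool) (d : Fin 3) : (Fin 3 × Fin 3) × Fin 3 :=
  if v.2 = false then (v.1, d) else (KS_Q v.1 d, d)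

private lemma KS_P_inj (v : (Fin 3 × Fin 3) × Bool) : Function.Injective (KS_P v) := by
  intro d d' h
  have h1 := congrArg Prod.snd h
  unfold KS_P at h1
  split_ifs at h1
  · exact h1
  · exact h1

private lemma KS_mem (v : (Fin 3 × Fin 3) × Bool) (p : (Fin 3 × Fin 3) × Fin 3) :
    v ∈ (KS_e p : Sym2 ((Fin 3 × Fin 3) × Bool)) ↔ ∃ d, p = KS_P v d := by
  obtain ⟨i, b⟩ := v
  obtain ⟨j, d⟩ := p
  have h0 : (i, b) ∈ (KS_e (j, d) : Sym2 ((Fin 3 × Fin 3) × Bool)) ↔
      (i, b) = (j, false) ∨ (i, b) = (KS_F j d, true) := Sym2.mem_iff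
  rw [h0]
  cases b with
  | false =>
    constructor
    · rintro (h | h)
      · have h1 : i = j := congrArg Prod.fst h
        exact ⟨d, by rw [h1]; rfl⟩
      · have h1 : false = true := congrArg Prod.snd h
        exact absurd h1 (by decide)
    · rintro ⟨d', h⟩
      have h1 : j = i := congrArg Prod.fst h
      left
      rw [h1]
  | true =>
    constructor
    · rintro (h | h)
      · have h1 : true = false := congrArg Prod.snd h
        exact absurd h1 (by decide)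
      · have h1 : i = KS_F j d := congrArg Prod.fst h
        refine ⟨d, ?_⟩
        show (j, d) = (KS_Q i d, d)
        rw [h1, KS_QF]
    · rintro ⟨d', h⟩
      have h1 : j = KS_Q i d' := congrArg Prod.fst h
      have h2 : d = d' := congrArg Prod.snd h
      right
      rw [h1, h2, KS_FQ]

/-- proper colourings as functions on the index set -/
private def KS_Pr (m : (Fin 3 × Fin 3) × Fin 3 → Fin 3) : Prop :=
  ∀ (v : (Fin 3 × Fin 3) × Bool) (d d' : Fin 3), d ≠ d' → m (KS_P v d) ≠ m (KS_P v d')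

private lemma KS_Pr_col (c : kleinGraph.lineGraph.Coloring (Fin 3)) :
    KS_Pr (fun p => c (KS_e p)) := by
  intro v d d' hd
  apply c.valid
  rw [SimpleGraph.lineGraph_adj_iff_exists]
  exact ⟨fun h => hd (KS_P_inj v (KS_e_inj h)), v, (KS_mem v _).2 ⟨d, rfl⟩,
    (KS_mem v _).2 ⟨d', rfl⟩⟩

private lemma KS_exists_col (m : (Fin 3 × Fin 3) × Fin 3 → Fin 3) (hm : KS_Pr m) :
    ∃ c : kleinGraph.lineGraph.Coloring (Fin 3), ∀ p, c (KS_e p) = m p := by
  refine ⟨SimpleGraph.Coloring.mk (fun e => m (KS_E.symm e)) ?_, ?_⟩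
  · intro e e' h
    rw [SimpleGraph.lineGraph_adj_iff_exists] at h
    obtain ⟨hne, v, hv, hv'⟩ := h
    obtain ⟨p, rfl⟩ := KS_E.surjective e
    obtain ⟨p', rfl⟩ := KS_E.surjective e'
    obtain ⟨d, rfl⟩ := (KS_mem v p).1 hv
    obtain ⟨d', rfl⟩ := (KS_mem v p').1 hv'
    rw [Equiv.symm_apply_apply, Equiv.symm_apply_apply]
    apply hm
    rintro rfl
    exact hne rfl
  · intro p
    exact congrArg m (KS_E.symm_apply_apply p)

/-! ### The search -/

private def KS_R (d d' : Fin 3) (a b : Fin 6) : Bool := decide (KS_T a d ≠ KS_T b d')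

private def KS_sg (a b : Fin 3) : ZMod 2 := if b = a + 1 then 0 else 1

private def KS_S (m : (Fin 3 × Fin 3) × Fin 3 → Fin 3) : ZMod 2 :=
  ∑ i : Fin 3 × Fin 3, (KS_sg (m (i, 0)) (m (i, 1)) + KS_sg (m (KS_Q i 0, 0)) (m (KS_Q i 1, 1)))

private def KS_mm (r : Fin 3 × Fin 3 → Fin 6) : (Fin 3 × Fin 3) × Fin 3 → Fin 3 :=
  fun p => KS_T (r p.1) p.2

/-- the special colouring -/
private def KS_m1 (p : (Fin 3 × Fin 3) × Fin 3) : Fin 3 :=
  KS_T ((![![0, 2, 4], ![0, 5, 2], ![5, 0, 3]] : Fin 3 → Fin 3 → Fin 6) p.1.1 p.1.2) p.2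

private def KS_leaf (r : Fin 3 × Fin 3 → Fin 6) : Bool :=
  decide (KS_S (KS_mm r) = 0 ∧
    ((∃ k k0 : Fin 3, ∀ p : (Fin 3 × Fin 3) × Fin 3, KS_mm r p = k ↔ KS_m1 p = k0) →
      ∀ p : (Fin 3 × Fin 3) × Fin 3, KS_mm r p = KS_mm r ((0, 0), KS_m1 p)))

private def KS_r (r0 r1 r2 r3 r4 r5 r6 r7 r8 : Fin 6) (p : Fin 3 × Fin 3) : Fin 6 :=
  (![![r0, r1, r2], ![r3, r4, r5], ![r6, r7, r8]] : Fin 3 → Fin 3 → Fin 6) p.1 p.2

set_option synthInstance.maxSize 5000 in
set_option maxRecDepth 10000 in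
private lemma KS_search : ∀ r0 r1 : Fin 6, KS_R 1 2 r0 r1 = true →
    ∀ r2 : Fin 6, KS_R 2 1 r0 r2 = true → KS_R 1 2 r1 r2 = true →
    ∀ r3 : Fin 6, KS_R 1 0 r0 r3 = true → KS_R 2 0 r1 r3 = true →
    ∀ r4 : Fin 6, KS_R 1 0 r1 r4 = true → KS_R 2 0 r2 r4 = true → KS_R 1 2 r3 r4 = true →
    ∀ r5 : Fin 6, KS_R 2 0 r0 r5 = true → KS_R 1 0 r2 r5 = true → KS_R 1 2 r4 r5 = true →
      KS_R 2 1 r3 r5 = true →
    ∀ r6 : Fin 6, KS_R 0 1 r0 r6 = true → KS_R 0 2 r1 r6 = true → KS_R 1 0 r3 r6 = true →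
      KS_R 2 0 r4 r6 = true →
    ∀ r7 : Fin 6, KS_R 0 2 r0 r7 = true → KS_R 1 2 r6 r7 = true → KS_R 0 1 r2 r7 = true →
      KS_R 1 0 r4 r7 = true → KS_R 2 0 r5 r7 = true →
    ∀ r8 : Fin 6, KS_R 0 1 r1 r8 = true → KS_R 2 1 r6 r8 = true → KS_R 0 2 r2 r8 = true →
      KS_R 1 2 r7 r8 = true → KS_R 1 0 r5 r8 = true → KS_R 2 0 r3 r8 = true →
      KS_leaf (KS_r r0 r1 r2 r3 r4 r5 r6 r7 r8) = true := by
  decide +kernel

private lemma KS_key (m : (Fin 3 × Fin 3) × Fin 3 → Fin 3) (hm : KS_Pr m) :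
    KS_S m = 0 ∧ ((∃ k k0 : Fin 3, ∀ p, m p = k ↔ KS_m1 p = k0) →
      ∀ p, m p = m ((0, 0), KS_m1 p)) := by
  have h0 : ∀ i : Fin 3 × Fin 3, ∃ r, KS_T r 0 = m (i, 0) ∧ KS_T r 1 = m (i, 1) ∧
      KS_T r 2 = m (i, 2) := by
    intro i
    exact KS_T_surj _ _ _ (hm (i, false) 0 1 (by decide)) (hm (i, false) 0 2 (by decide))
      (hm (i, false) 1 2 (by decide))
  choose r hr using h0
  have hmr : KS_mm r = m := by
    funext p
    obtain ⟨i, d⟩ := p
    obtain ⟨h1, h2, h3⟩ := hr i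
    show KS_T (r i) d = m (i, d)
    revert d
    rw [Fin.forall_fin_succ, Fin.forall_fin_succ, Fin.forall_fin_succ]
    exact ⟨h1, h2, h3, fun d => d.elim0⟩
  have g : ∀ (y : Fin 3 × Fin 3) (d d' : Fin 3), d ≠ d' →
      KS_R d d' (r (KS_Q y d)) (r (KS_Q y d')) = true := by
    intro y d d' hd
    have h1 := hm (y, true) d d' hd
    have h2 : KS_P (y, true) d = (KS_Q y d, d) := rfl
    have h3 : KS_P (y, true) d' = (KS_Q y d', d') := rfl
    rw [h2, h3, ← hmr] at h1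
    exact decide_eq_true h1
  have g' : ∀ (y a b : Fin 3 × Fin 3) (d d' : Fin 3), d ≠ d' → KS_Q y d = a → KS_Q y d' = b →
      KS_R d d' (r a) (r b) = true := by
    rintro y a b d d' hd rfl rfl
    exact g y d d' hd
  have h5 := KS_search (r (0, 0)) (r (0, 1)) (g' (1, 0) _ _ 1 2 (by decide) (by decide) (by decide))
    (r (0, 2)) (g' (1, 2) _ _ 2 1 (by decide) (by decide) (by decide))
    (g' (1, 1) _ _ 1 2 (by decide) (by decide) (by decide))
    (r (1, 0)) (g' (1, 0) _ _ 1 0 (by decide) (by decide) (by decide))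
    (g' (1, 0) _ _ 2 0 (by decide) (by decide) (by decide))
    (r (1, 1)) (g' (1, 1) _ _ 1 0 (by decide) (by decide) (by decide))
    (g' (1, 1) _ _ 2 0 (by decide) (by decide) (by decide))
    (g' (2, 0) _ _ 1 2 (by decide) (by decide) (by decide))
    (r (1, 2)) (g' (1, 2) _ _ 2 0 (by decide) (by decide) (by decide))
    (g' (1, 2) _ _ 1 0 (by decide) (by decide) (by decide))
    (g' (2, 1) _ _ 1 2 (by decide) (by decide) (by decide))
    (g' (2, 2) _ _ 2 1 (by decide) (by decide) (by decide))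
    (r (2, 0)) (g' (0, 0) _ _ 0 1 (by decide) (by decide) (by decide))
    (g' (0, 1) _ _ 0 2 (by decide) (by decide) (by decide))
    (g' (2, 0) _ _ 1 0 (by decide) (by decide) (by decide))
    (g' (2, 0) _ _ 2 0 (by decide) (by decide) (by decide))
    (r (2, 1)) (g' (0, 0) _ _ 0 2 (by decide) (by decide) (by decide))
    (g' (0, 0) _ _ 1 2 (by decide) (by decide) (by decide))
    (g' (0, 2) _ _ 0 1 (by decide) (by decide) (by decide))
    (g' (2, 1) _ _ 1 0 (by decide) (by decide) (by decide))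
    (g' (2, 1) _ _ 2 0 (by decide) (by decide) (by decide))
    (r (2, 2)) (g' (0, 1) _ _ 0 1 (by decide) (by decide) (by decide))
    (g' (0, 1) _ _ 2 1 (by decide) (by decide) (by decide))
    (g' (0, 2) _ _ 0 2 (by decide) (by decide) (by decide))
    (g' (0, 2) _ _ 1 2 (by decide) (by decide) (by decide))
    (g' (2, 2) _ _ 1 0 (by decide) (by decide) (by decide))
    (g' (2, 2) _ _ 2 0 (by decide) (by decide) (by decide))
  have h6 : KS_r (r (0, 0)) (r (0, 1)) (r (0, 2)) (r (1, 0)) (r (1, 1)) (r (1, 2)) (r (2, 0))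
      (r (2, 1)) (r (2, 2)) = r := by
    funext p
    obtain ⟨i, j⟩ := p
    fin_cases i <;> fin_cases j <;> rfl
  rw [h6] at h5
  have h7 := of_decide_eq_true h5
  rw [hmr] at h7
  exact h7

/-! ### Parity -/

set_option synthInstance.maxSize 1000 in
private lemma KS_fin : ∀ a b x a' b' x' : Fin 3, a ≠ b → a ≠ x → b ≠ x → a' ≠ b' → a' ≠ x' →
    b' ≠ x' → (if (a = a' ∧ b ≠ b' ∧ x ≠ x') ∨ (a ≠ a' ∧ b = b' ∧ x ≠ x') ∨ (a ≠ a' ∧ b ≠ b' ∧ x = x')
      then (1 : ZMod 2) else 0) = KS_sg a b + KS_sg a' b' := by decide +kernel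

private lemma KS_three (p : Fin 3 → Prop) : (∃! d, p d) ↔
    (p 0 ∧ ¬ p 1 ∧ ¬ p 2) ∨ (¬ p 0 ∧ p 1 ∧ ¬ p 2) ∨ (¬ p 0 ∧ ¬ p 1 ∧ p 2) := by
  have h01 : (0 : Fin 3) ≠ 1 := by decide
  have h02 : (0 : Fin 3) ≠ 2 := by decide
  have h12 : (1 : Fin 3) ≠ 2 := by decide
  have hall : ∀ d : Fin 3, d = 0 ∨ d = 1 ∨ d = 2 := by decide
  constructor
  · rintro ⟨d, hd, hu⟩
    rcases hall d with rfl | rfl | rfl
    · exact Or.inl ⟨hd, fun h => h01 (hu 1 h).symm, fun h => h02 (hu 2 h).symm⟩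
    · exact Or.inr (Or.inl ⟨fun h => h01 (hu 0 h), hd, fun h => h12 (hu 2 h).symm⟩)
    · exact Or.inr (Or.inr ⟨fun h => h02 (hu 0 h), fun h => h12 (hu 1 h), hd⟩)
  · rintro (⟨h0, h1, h2⟩ | ⟨h0, h1, h2⟩ | ⟨h0, h1, h2⟩)
    · refine ⟨0, h0, fun d hd => ?_⟩
      rcases hall d with rfl | rfl | rfl
      · rfl
      · exact absurd hd h1
      · exact absurd hd h2
    · refine ⟨1, h1, fun d hd => ?_⟩
      rcases hall d with rfl | rfl | rfl
      · exact absurd hd h0
      · rfl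
      · exact absurd hd h2
    · refine ⟨2, h2, fun d hd => ?_⟩
      rcases hall d with rfl | rfl | rfl
      · exact absurd hd h0
      · exact absurd hd h1
      · rfl

private lemma KS_flips (c c' : kleinGraph.lineGraph.Coloring (Fin 3)) (v : (Fin 3 × Fin 3) × Bool) :
    v ∈ flips c c' ↔ ∃! d, c (KS_e (KS_P v d)) = c' (KS_e (KS_P v d)) := by
  unfold flips
  rw [Set.mem_ofPred_eq]
  constructor
  · rintro ⟨e, ⟨he1, he2⟩, he3⟩
    obtain ⟨p, rfl⟩ := KS_e_surj e
    obtain ⟨d, rfl⟩ := (KS_mem v p).1 he1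
    refine ⟨d, he2, fun d' hd' => ?_⟩
    exact KS_P_inj v (KS_e_inj (he3 _ ⟨(KS_mem v _).2 ⟨d', rfl⟩, hd'⟩))
  · rintro ⟨d, hd1, hd2⟩
    refine ⟨KS_e (KS_P v d), ⟨(KS_mem v _).2 ⟨d, rfl⟩, hd1⟩, ?_⟩
    rintro e ⟨he1, he2⟩
    obtain ⟨p, rfl⟩ := KS_e_surj e
    obtain ⟨d', rfl⟩ := (KS_mem v p).1 he1
    rw [hd2 d' he2]

private lemma KS_parity (c c' : kleinGraph.lineGraph.Coloring (Fin 3)) :
    Even (flips c c').ncard := by
  classical
  have hm := KS_Pr_col c
  have hm' := KS_Pr_col c'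
  have h1 : ∀ v : (Fin 3 × Fin 3) × Bool, (if v ∈ flips c c' then (1 : ZMod 2) else 0) =
      KS_sg (c (KS_e (KS_P v 0))) (c (KS_e (KS_P v 1))) +
      KS_sg (c' (KS_e (KS_P v 0))) (c' (KS_e (KS_P v 1))) := by
    intro v
    rw [← KS_fin _ _ _ _ _ _ (hm v 0 1 (by decide)) (hm v 0 2 (by decide))
      (hm v 1 2 (by decide)) (hm' v 0 1 (by decide)) (hm' v 0 2 (by decide))
      (hm' v 1 2 (by decide))]
    have h2 := (KS_flips c c' v).trans (KS_three _)
    by_cases hf : v ∈ flips c c'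
    · rw [if_pos hf, if_pos (h2.1 hf)]
    · rw [if_neg hf, if_neg (fun h => hf (h2.2 h))]
  have h2 : ((flips c c').ncard : ZMod 2) =
      ∑ v : (Fin 3 × Fin 3) × Bool, if v ∈ flips c c' then (1 : ZMod 2) else 0 := by
    rw [Finset.sum_boole]
    congr 1
    rw [← Set.ncard_coe_finset]
    congr 1
    ext v
    simp
  have h3 : ∀ c : kleinGraph.lineGraph.Coloring (Fin 3), ∑ v : (Fin 3 × Fin 3) × Bool,
      KS_sg (c (KS_e (KS_P v 0))) (c (KS_e (KS_P v 1))) = 0 := by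
    intro c
    have h4 := (KS_key _ (KS_Pr_col c)).1
    rw [Fintype.sum_prod_type]
    simp only [Fintype.sum_bool]
    exact (Finset.sum_congr rfl fun i _ => add_comm _ _).trans h4
  have h4 : ((flips c c').ncard : ZMod 2) = 0 := by
    rw [h2]
    simp_rw [h1]
    rw [Finset.sum_add_distrib, h3, h3, add_zero]
  rw [ZMod.natCast_eq_zero_iff] at h4
  exact even_iff_two_dvd.2 h4

/-! ### Kempe classes -/

private def KS_Phi (c : kleinGraph.lineGraph.Coloring (Fin 3)) : Prop :=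
  ∀ p, c (KS_e p) = c (KS_e ((0, 0), KS_m1 p))

private lemma KS_inj3 : ∀ f : Fin 3 → Fin 3, f 0 ≠ f 1 → f 0 ≠ f 2 → f 1 ≠ f 2 →
    ∀ k, ∃ d0, ∀ d, f d = k ↔ d = d0 := by decide +kernel

private lemma KS_rel (c c' : kleinGraph.lineGraph.Coloring (Fin 3))
    (h : Rel (fun e => c e) (fun e => c' e)) (hc : KS_Phi c) : KS_Phi c' := by
  obtain ⟨k, hk⟩ := h
  have hm := KS_Pr_col c ((0, 0), false)
  obtain ⟨d0, hd0⟩ := KS_inj3 (fun d => c (KS_e ((0, 0), d))) (hm 0 1 (by decide))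
    (hm 0 2 (by decide)) (hm 1 2 (by decide)) k
  refine (KS_key _ (KS_Pr_col c')).2 ⟨k, d0, fun p => ?_⟩
  have h1 : c (KS_e p) = k ↔ c' (KS_e p) = k := hk _
  show c' (KS_e p) = k ↔ KS_m1 p = d0
  rw [← h1, hc p]
  exact hd0 (KS_m1 p)

private lemma KS_eqv {c c' : kleinGraph.lineGraph.Coloring (Fin 3)}
    (h : Relation.EqvGen (KempeStep kleinGraph.lineGraph 3) c c') :
    KS_Phi c ↔ KS_Phi c' := by
  induction h with
  | rel x y h =>
    obtain ⟨k, hk⟩ := rel_of_step x y h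
    exact ⟨KS_rel x y ⟨k, hk⟩, KS_rel y x ⟨k, fun e => (hk e).symm⟩⟩
  | refl x => exact Iff.rfl
  | symm x y _ ih => exact ih.symm
  | trans x y z _ _ ih1 ih2 => exact ih1.trans ih2

private lemma KS_two : Kc kleinGraph.lineGraph 3 ≠ 1 := by
  intro h
  unfold Kc at h
  rw [Nat.card_eq_one_iff_unique] at h
  obtain ⟨hs, -⟩ := h
  obtain ⟨c0, hc0⟩ := KS_exists_col KS_m1 (by unfold KS_Pr; decide +kernel)
  obtain ⟨c1, hc1⟩ := KS_exists_col (fun p => p.2) (by unfold KS_Pr; decide +kernel)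
  have h1 : Quot.mk (KempeStep kleinGraph.lineGraph 3) c0 =
      Quot.mk (KempeStep kleinGraph.lineGraph 3) c1 := Subsingleton.elim _ _
  have h2 := KS_eqv (Quot.eqvGen_exact h1)
  have h3 : KS_Phi c0 := by
    intro p
    rw [hc0, hc0]
    revert p
    decide +kernel
  have h4 := h2.1 h3 ((0, 1), 0)
  rw [hc1, hc1] at h4
  exact absurd h4 (by decide +kernel)

/-! ### The graph -/

private lemma KS_conn : kleinGraph.Connected := by
  have h1 : ∀ a : Fin 3 × Fin 3, kleinGraph.Reachable (a, false) (a, true) := by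
    intro a
    have h2 := KS_adj a 0
    have h3 : KS_F a 0 = a := rfl
    rw [h3] at h2
    exact h2.reachable
  have h2 : ∀ (a : Fin 3 × Fin 3) (d : Fin 3),
      kleinGraph.Reachable (a, false) (KS_F a d, false) := by
    intro a d
    exact (KS_adj a d).reachable.trans (h1 (KS_F a d)).symm
  have h3 : ∀ (w : List (Fin 3)) (a : Fin 3 × Fin 3),
      kleinGraph.Reachable (a, false) (w.foldl KS_F a, false) := by
    intro w
    induction w with
    | nil => exact fun a => SimpleGraph.Reachable.refl _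
    | cons d w ih => exact fun a => (h2 a d).trans (ih (KS_F a d))
  have h4 : ∀ b : Fin 3 × Fin 3, ∃ w ∈ ([[], [1], [1, 1], [2], [2, 1], [2, 2], [1, 1, 2],
      [2, 1, 2], [1, 1, 2, 1]] : List (List (Fin 3))), w.foldl KS_F (0, 0) = b := by
    decide +kernel
  have h5 : ∀ a : Fin 3 × Fin 3, kleinGraph.Reachable ((0, 0), false) (a, false) := by
    intro a
    obtain ⟨w, -, rfl⟩ := h4 a
    exact h3 w (0, 0)
  have h6 : ∀ v : (Fin 3 × Fin 3) × Bool, kleinGraph.Reachable ((0, 0), false) v := by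
    rintro ⟨a, b⟩
    cases b with
    | false => exact h5 a
    | true => exact (h5 a).trans (h1 a)
  exact (SimpleGraph.connected_iff_exists_forall_reachable _).2 ⟨((0, 0), false), h6⟩

private lemma KS_col2 : kleinGraph.Colorable 2 := by
  have h1 : kleinGraph.Coloring Bool := SimpleGraph.Coloring.mk (fun v => v.2) (by
    rintro u v (⟨h1, h2, -⟩ | ⟨h1, h2, -⟩)
    · rw [h1, h2]
      decide
    · rw [h1, h2]
      decide)
  have h2 := h1.colorable
  rw [Fintype.card_bool] at h2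
  exact h2

private lemma KS_cub (v : (Fin 3 × Fin 3) × Bool) : (kleinGraph.neighborSet v).ncard = 3 := by
  rw [Set.ncard_eq_toFinset_card']
  revert v
  decide +kernel

/-- `kleinGraph` is connected, cubic, bipartite, all its 3-edge-colourings have the same parity, but there is more than one Kempe
class -/
theorem klein_facts : kleinGraph.Connected ∧ kleinGraph.Colorable 2 ∧
    (∀ v, (kleinGraph.neighborSet v).ncard = 3) ∧
    (∀ c c' : kleinGraph.lineGraph.Coloring (Fin 3), Even (flips c c').ncard) ∧ Kc kleinGraph.lineGraph 3 ≠ 1 := by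
  exact ⟨KS_conn, KS_col2, KS_cub, KS_parity, KS_two⟩

end Pool.Agent.PP
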